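import Mathlib

/-!
WP1: Steinberg calculus on three cyclic levels with four copies of each vertex.
-/

set_option autoImplicit false

namespace Pool.Agent.SolIndex

open scoped commutatorElement

variable {G A : Type*} [Group G]

/-- Steinberg axioms: `x i α β a` is the element attached to the arrow `a` from vertex `(i, α)`
to vertex `(i+1, β)`. (Arrows of a wrong type are sent to `1`, so no typing of `a`.) -/
structure Stein (x : ZMod 3 → Fin 4 → Fin 4 → A → G) : Prop where
  same : ∀ i α β α' β' a b, Commute (x i α β a) (x i α' β' b)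
  adj : ∀ i α β β' γ a b, β ≠ β' → Commute (x i α β a) (x (i + 1) β' γ b)
  indep : ∀ i α β β' γ a b,
    ⁅x i α β a, x (i + 1) β γ b⁆ = ⁅x i α β' a, x (i + 1) β' γ b⁆

/-- Path elements, from vertex `(i, α)` to vertex `(i + L.length, β)`. -/
def XX (x : ZMod 3 → Fin 4 → Fin 4 → A → G) : ZMod 3 → Fin 4 → Fin 4 → List A → G
  | _, _, _, [] => 1
  | i, α, β, [a] => x i α β a
  | i, α, β, (a :: b :: L) => ⁅x i α (β + 1) a, XX x (i + 1) (β + 1) β (b :: L)⁆

/-- The path of length `l` from copy `α` to copy `β` is not closed. -/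
def Off (l : ℕ) (α β : Fin 4) : Prop := ¬ ((l : ZMod 3) = 0 ∧ α = β)

variable {x : ZMod 3 → Fin 4 → Fin 4 → A → G}

/-! ### auxiliary facts -/

theorem exists_fresh (a b c : Fin 4) : ∃ k : Fin 4, k ≠ a ∧ k ≠ b ∧ k ≠ c := by
  revert a b c; decide

theorem comm_comm {g a b : G} (ha : Commute a g) (hb : Commute b g) : Commute ⁅a, b⁆ g := by
  rw [commutatorElement_def]
  exact ((ha.mul_left hb).mul_left ha.inv_left).mul_left hb.inv_left

theorem comm_triple {x y z : G} (hxz : Commute x z)
    (h1 : Commute ⁅x, y⁆ ⁅y, z⁆) (h2 : Commute z ⁅y, z⁆) : ⁅x, ⁅y, z⁆⁆ = ⁅⁅x, y⁆, z⁆ := by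
  have h3 : Commute ⁅⁅x, y⁆, z⁆ ⁅y, z⁆ := comm_comm h1 h2
  have e0 : x * z = z * x := hxz.eq
  have e1 : x * ⁅y, z⁆ * x⁻¹ = ⁅⁅x, y⁆ * y, z⁆ := by
    rw [commutatorElement_def, commutatorElement_def, commutatorElement_def]
    have e2 : x⁻¹ * z⁻¹ = z⁻¹ * x⁻¹ := hxz.inv_inv.eq
    calc x * (y * z * y⁻¹ * z⁻¹) * x⁻¹ = x * y * (x⁻¹ * (x * z)) * y⁻¹ * (z⁻¹ * x⁻¹) := by group
      _ = x * y * (x⁻¹ * (z * x)) * y⁻¹ * (x⁻¹ * z⁻¹) := by rw [e0, e2]
      _ = _ := by group
  have e3 : ⁅⁅x, y⁆ * y, z⁆ = ⁅x, y⁆ * ⁅y, z⁆ * ⁅x, y⁆⁻¹ * ⁅⁅x, y⁆, z⁆ := by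
    generalize ⁅x, y⁆ = u
    simp only [commutatorElement_def]
    group
  have e4 : ⁅x, ⁅y, z⁆⁆ = x * ⁅y, z⁆ * x⁻¹ * ⁅y, z⁆⁻¹ := commutatorElement_def _ _
  rw [e4, e1, e3, h1.eq, mul_inv_cancel_right, ← h3.eq, mul_inv_cancel_right]

theorem Stein.comm (h : Stein x) {i j : ZMod 3} {α β γ δ : Fin 4} {a b : A}
    (h1 : ((i + 1, β) : ZMod 3 × Fin 4) ≠ (j, γ)) (h2 : ((i, α) : ZMod 3 × Fin 4) ≠ (j + 1, δ)) :
    Commute (x i α β a) (x j γ δ b) := by
  have hc : ∀ i j : ZMod 3, j = i ∨ j = i + 1 ∨ i = j + 1 := by decide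
  rcases hc i j with rfl | rfl | rfl
  · exact h.same _ _ _ _ _ _ _
  · exact h.adj _ _ _ _ _ _ _ fun hh => h1 (by rw [hh])
  · exact (h.adj _ _ _ _ _ _ _ fun hh => h2 (by rw [hh])).symm

theorem off_of_ne {l : ℕ} {α β : Fin 4} (h : α ≠ β) : Off l α β := fun hh => h hh.2

theorem off_vertex {l : ℕ} {α β : Fin 4} (h : Off l α β) (i : ZMod 3) :
    ((i, α) : ZMod 3 × Fin 4) ≠ (i + l, β) := by
  intro hh
  rw [Prod.mk.injEq] at hh
  exact h ⟨by have := hh.1; rwa [left_eq_add] at this, hh.2⟩

theorem ne_off {l : ℕ} {α β : Fin 4} {i : ZMod 3} (h : ((i, α) : ZMod 3 × Fin 4) ≠ (i + l, β)) :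
    Off l α β := by
  rintro ⟨h1, h2⟩
  exact h (by rw [h1, h2, add_zero])

/-- expansion of a path at an arbitrary middle copy, for paths of bounded length -/
def PP (x : ZMod 3 → Fin 4 → Fin 4 → A → G) (n : ℕ) : Prop :=
  ∀ L : List A, L ≠ [] → L.length ≤ n → ∀ (i : ZMod 3) (α β m : Fin 4) (a : A),
    Off L.length m β → Off (L.length + 1) α β →
      XX x i α β (a :: L) = ⁅x i α m a, XX x (i + 1) m β L⁆

theorem comm_of_PP (h : Stein x) {n : ℕ} (hP : PP x n) :
    ∀ L : List A, L.length ≤ n + 1 → ∀ (i j : ZMod 3) (α β γ δ : Fin 4) (c : A),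
      Off L.length α β → ((i + L.length, β) : ZMod 3 × Fin 4) ≠ (j, γ) →
      ((i, α) : ZMod 3 × Fin 4) ≠ (j + 1, δ) → Commute (XX x i α β L) (x j γ δ c) := by
  intro L
  induction L with
  | nil => intro _ i j α β γ δ c _ _ _; exact Commute.one_left _
  | cons a L ih =>
    intro hL i j α β γ δ c h0 h1 h2
    cases L with
    | nil => exact h.comm (by simpa using h1) h2
    | cons b L =>
      obtain ⟨m, hm1, hm2, hm3⟩ := exists_fresh β γ δ
      rw [hP (b :: L) (by simp) (by simpa using hL) i α β m a (off_of_ne hm1) h0]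
      refine comm_comm (h.comm (fun hh => hm2 (congrArg Prod.snd hh)) h2) ?_
      refine ih (by simp only [List.length_cons] at hL ⊢; omega) _ _ _ _ _ _ _ (off_of_ne hm1) ?_
        (fun hh => hm3 (congrArg Prod.snd hh))
      intro hh
      apply h1
      rw [← hh]
      simp only [List.length_cons, Prod.mk.injEq, and_true]
      push_cast; ring

theorem commute_of_PP (h : Stein x) {n : ℕ} (hP : PP x n) :
    ∀ L' : List A, L'.length ≤ n + 1 → ∀ L : List A, L.length ≤ n + 1 →
      ∀ (i j : ZMod 3) (α β γ δ : Fin 4),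
      Off L.length α β → Off L'.length γ δ → ((i + L.length, β) : ZMod 3 × Fin 4) ≠ (j, γ) →
      ((i, α) : ZMod 3 × Fin 4) ≠ (j + L'.length, δ) →
      Commute (XX x i α β L) (XX x j γ δ L') := by
  intro L'
  induction L' with
  | nil => intro _ L _ i j α β γ δ _ _ _ _; exact Commute.one_right _
  | cons a L' ih =>
    intro hL' L hL i j α β γ δ h0 h0' h1 h2
    cases L' with
    | nil => exact comm_of_PP h hP L hL _ _ _ _ _ _ _ h0 h1 (by simpa using h2)
    | cons b L' =>
      obtain ⟨m, hm1, hm2, hm3⟩ := exists_fresh δ α β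
      rw [hP (b :: L') (by simp) (by simpa using hL') j γ δ m a (off_of_ne hm1) h0']
      refine (comm_comm (Commute.symm ?_) (Commute.symm ?_)).symm
      · exact comm_of_PP h hP L hL _ _ _ _ _ _ _ h0 h1 (fun hh => hm2 (congrArg Prod.snd hh).symm)
      · refine ih (by simp only [List.length_cons] at hL' ⊢; omega) L hL _ _ _ _ _ _ h0
          (off_of_ne hm1) (fun hh => hm3 (congrArg Prod.snd hh).symm) ?_
        intro hh
        apply h2
        rw [hh]
        simp only [List.length_cons, Prod.mk.injEq, and_true]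
        push_cast; ring

theorem PP_succ (h : Stein x) {n : ℕ} (hP : PP x n) : PP x (n + 1) := by
  intro L hL0 hL i α β m a hm h0
  cases L with
  | nil => exact absurd rfl hL0
  | cons b L =>
    cases L with
    | nil => exact h.indep _ _ _ _ _ _ _
    | cons c L =>
      have hLc : (c :: L).length ≤ n := by simp only [List.length_cons] at hL ⊢; omega
      obtain ⟨k, hk1, hk2, -⟩ := exists_fresh β α α
      have key : ∀ m : Fin 4, Off (b :: c :: L).length m β →
          ⁅x i α m a, XX x (i + 1) m β (b :: c :: L)⁆ =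
            ⁅XX x i α k [a, b], XX x (i + 1 + 1) k β (c :: L)⁆ := by
        intro m hm
        have e1 : XX x i α k [a, b] = ⁅x i α m a, x (i + 1) m k b⁆ := h.indep _ _ _ _ _ _ _
        have e2 : XX x (i + 1) m β (b :: c :: L) =
            ⁅x (i + 1) m k b, XX x (i + 1 + 1) k β (c :: L)⁆ :=
          hP (c :: L) (by simp) hLc _ _ _ _ _ (off_of_ne hk1) hm
        have hlev : ∀ i : ZMod 3, i + 1 + 1 ≠ i + 1 := by decide
        rw [e1, e2]
        refine comm_triple ?_ ?_ ?_
        · refine (comm_of_PP h hP (c :: L) (by omega) _ _ _ _ _ _ _ (off_of_ne hk1) ?_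
            (fun hh => hlev i (congrArg Prod.fst hh))).symm
          intro hh
          apply off_vertex h0 i
          rw [← hh]
          simp only [List.length_cons, Prod.mk.injEq, and_true]
          push_cast; ring
        · rw [← e1, ← e2]
          refine commute_of_PP h hP _ hL _ (by
              simp only [List.length_cons, List.length_nil] at hL ⊢; omega) _ _ _ _ _ _
            (off_of_ne hk2.symm) hm ?_ ?_
          · intro hh
            apply hlev i
            have h5 := congrArg Prod.fst hh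
            simp only [List.length_cons, List.length_nil] at h5
            refine Eq.trans ?_ h5
            push_cast; ring
          · intro hh
            apply off_vertex h0 i
            rw [hh]
            simp only [List.length_cons, Prod.mk.injEq, and_true]
            push_cast; ring
        · rw [← e2]
          refine commute_of_PP h hP _ hL _ (by omega) _ _ _ _ _ _ (off_of_ne hk1) hm ?_
            (fun hh => hk1 (congrArg Prod.snd hh))
          intro hh
          apply off_vertex hm (i + 1)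
          rw [← hh]
          simp only [List.length_cons, Prod.mk.injEq, and_true]
          push_cast; ring
      rw [key m hm]
      have hb : ∀ β : Fin 4, β + 1 ≠ β := by decide
      exact key (β + 1) (off_of_ne (hb β))

theorem PP_all (h : Stein x) : ∀ n : ℕ, PP x n := by
  intro n
  induction n with
  | zero =>
    intro L h0 hL
    exact absurd (List.length_eq_zero_iff.1 (Nat.le_zero.1 hL)) h0
  | succ n ih => exact PP_succ h ih

theorem XX_cons (h : Stein x) {i : ZMod 3} {α β : Fin 4} (m : Fin 4) (a : A) {L : List A}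
    (hL : L ≠ []) (h1 : Off L.length m β) (h2 : Off (L.length + 1) α β) :
    XX x i α β (a :: L) = ⁅x i α m a, XX x (i + 1) m β L⁆ :=
  PP_all h L.length L hL le_rfl _ _ _ _ _ h1 h2

theorem XX_commute (h : Stein x) (i j : ZMod 3) (α β γ δ : Fin 4) (L L' : List A)
    (h1 : Off L.length α β) (h2 : Off L'.length γ δ)
    (h3 : ((i + L.length, β) : ZMod 3 × Fin 4) ≠ (j, γ))
    (h4 : ((i, α) : ZMod 3 × Fin 4) ≠ (j + L'.length, δ)) :
    Commute (XX x i α β L) (XX x j γ δ L') :=
  commute_of_PP h (PP_all h (max L.length L'.length)) L' (by omega) L (by omega)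
    _ _ _ _ _ _ h1 h2 h3 h4

theorem XX_append (h : Stein x) (i : ZMod 3) (α β γ : Fin 4) (L L' : List A)
    (hL : L ≠ []) (hL' : L' ≠ [])
    (h1 : Off L.length α γ) (h2 : Off L'.length γ β) (h3 : Off (L ++ L').length α β) :
    XX x i α β (L ++ L') = ⁅XX x i α γ L, XX x (i + L.length) γ β L'⁆ := by
  induction L generalizing i α with
  | nil => exact absurd rfl hL
  | cons a L ih =>
    cases L with
    | nil =>
      rw [List.singleton_append, XX_cons h γ a hL' h2 (by simpa [add_comm] using h3)]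
      simp [XX]
    | cons b L =>
      obtain ⟨m, hm1, hm2, hm3⟩ := exists_fresh β γ α
      have h3' : Off ((b :: L ++ L').length + 1) α β := by
        simpa using h3
      have e1 : XX x i α β (a :: b :: L ++ L') = ⁅x i α m a, XX x (i + 1) m β (b :: L ++ L')⁆ :=
        XX_cons h m a (by simp) (off_of_ne hm1) h3'
      have e2 := ih (i + 1) m (by simp) (off_of_ne hm2) (off_of_ne hm1)
      have e3 : XX x i α γ (a :: b :: L) = ⁅x i α m a, XX x (i + 1) m γ (b :: L)⁆ :=
        XX_cons h m a (by simp) (off_of_ne hm2) (by simpa using h1)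
      have e4 : (i + 1 + ((b :: L).length : ℕ) : ZMod 3) = i + ((a :: b :: L).length : ℕ) := by
        simp only [List.length_cons]; push_cast; ring
      rw [e4] at e2
      have e5 : (i + ((a :: b :: L).length : ℕ) + (L'.length : ℕ) : ZMod 3) =
          i + ((a :: b :: L ++ L').length : ℕ) := by
        simp only [List.length_append]; push_cast; ring
      have e6 : (i + 1 + ((b :: L ++ L').length : ℕ) : ZMod 3) =
          i + ((a :: b :: L ++ L').length : ℕ) := by
        simp only [List.length_append, List.length_cons]; push_cast; ring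
      rw [e1, e2, e3]
      refine comm_triple ?_ ?_ ?_
      · refine XX_commute h i _ α m γ β [a] L' (off_of_ne hm3.symm) h2
          (fun hh => hm2 (congrArg Prod.snd hh)) ?_
        rw [e5]; exact off_vertex h3 i
      · rw [← e2, ← e3]
        refine XX_commute h _ _ _ _ _ _ _ _ h1 (off_of_ne hm1)
          (fun hh => hm2 (congrArg Prod.snd hh).symm) ?_
        rw [e6]; exact off_vertex h3 i
      · rw [← e2]
        refine XX_commute h _ _ _ _ _ _ _ _ h2 (off_of_ne hm1)
          (fun hh => hm1 (congrArg Prod.snd hh).symm) ?_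
        rw [e6, ← e5]; exact off_vertex h2 _

theorem XX_replace (i : ZMod 3) (α β : Fin 4) (L₁ L₂ : List A) (a a' : A)
    (hrep : ∀ j γ δ, x j γ δ a = x j γ δ a') :
    XX x i α β (L₁ ++ a :: L₂) = XX x i α β (L₁ ++ a' :: L₂) := by
  induction L₁ generalizing i α with
  | nil =>
    cases L₂ with
    | nil => simp [XX, hrep]
    | cons b L₂ => simp [XX, hrep]
  | cons c L₁ ih =>
    cases L₁ with
    | nil => simpa [XX] using congrArg _ (ih (i + 1) (β + 1))
    | cons d L₁ => simpa [XX] using congrArg _ (ih (i + 1) (β + 1))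

/-- an arrow whose elements are trivial kills the path -/
theorem XX_trivial (i : ZMod 3) (α β : Fin 4) (L₁ L₂ : List A) (a : A)
    (htriv : ∀ γ δ, x (i + L₁.length) γ δ a = 1) :
    XX x i α β (L₁ ++ a :: L₂) = 1 := by
  induction L₁ generalizing i α with
  | nil =>
    cases L₂ with
    | nil => simpa [XX] using htriv α β
    | cons b L₂ =>
      have := htriv α (β + 1)
      simp only [List.length_nil, Nat.cast_zero, add_zero] at this
      simp [XX, this]
  | cons c L₁ ih =>
    have e := ih (i + 1) (β + 1) (by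
      intro γ δ
      have := htriv γ δ
      rw [← this]
      congr 1
      simp only [List.length_cons]; push_cast; ring)
    cases L₁ with
    | nil => simpa [XX] using by simp [show XX x (i + 1) (β + 1) β (a :: L₂) = 1 by simpa using e]
    | cons d L₁ =>
      simpa [XX] using by simp [show XX x (i + 1) (β + 1) β (d :: (L₁ ++ a :: L₂)) = 1 by simpa using e]

theorem map_XX {H : Type*} [Group H] (f : G →* H) (i : ZMod 3) (α β : Fin 4) (L : List A) :
    f (XX x i α β L) = XX (fun i α β a => f (x i α β a)) i α β L := by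
  induction L generalizing i α with
  | nil => simp [XX]
  | cons a L ih =>
    cases L with
    | nil => simp [XX]
    | cons b L => rw [XX, XX, map_commutatorElement, ih]

theorem XX_map {A' : Type*} (f : A → A') (y : ZMod 3 → Fin 4 → Fin 4 → A' → G)
    (hf : ∀ i α β a, y i α β (f a) = x i α β a) (i : ZMod 3) (α β : Fin 4) (L : List A) :
    XX y i α β (L.map f) = XX x i α β L := by
  induction L generalizing i α with
  | nil => simp [XX]
  | cons a L ih =>
    cases L with
    | nil => simp [XX, hf]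
    | cons b L =>
      rw [List.map_cons, List.map_cons, XX, XX, hf, ← List.map_cons, ih]

/-- if an inner segment vanishes for all (admissible) copies then the whole path vanishes -/
theorem XX_infix_eq_one (h : Stein x) (i : ZMod 3) (α β : Fin 4) (L₁ B L₂ : List A)
    (hB : B ≠ [])
    (hB1 : ∀ γ δ, Off B.length γ δ → XX x (i + L₁.length) γ δ B = 1)
    (h3 : Off (L₁ ++ B ++ L₂).length α β) :
    XX x i α β (L₁ ++ B ++ L₂) = 1 := by
  have key : ∀ β, Off (L₁ ++ B).length α β → XX x i α β (L₁ ++ B) = 1 := by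
    intro β h3
    by_cases hL₁ : L₁ = []
    · subst hL₁
      have := hB1 α β h3
      simpa using this
    · obtain ⟨γ, hγ1, hγ2, -⟩ := exists_fresh α β β
      rw [XX_append h i α β γ L₁ B hL₁ hB (off_of_ne hγ1.symm) (off_of_ne hγ2) h3,
        hB1 γ β (off_of_ne hγ2), commutatorElement_one_right]
  by_cases hL₂ : L₂ = []
  · subst hL₂
    rw [List.append_nil] at h3 ⊢
    exact key β h3
  · obtain ⟨γ, hγ1, hγ2, -⟩ := exists_fresh α β β
    rw [XX_append h i α β γ (L₁ ++ B) L₂ (by simp [hB]) hL₂ (off_of_ne hγ1.symm) (off_of_ne hγ2) h3,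
      key γ (off_of_ne hγ1.symm), commutatorElement_one_left]

theorem comm_mul_left_aux {u v z : G} (h : Commute u ⁅v, z⁆) : ⁅u * v, z⁆ = ⁅v, z⁆ * ⁅u, z⁆ := by
  have e : ⁅u * v, z⁆ = u * ⁅v, z⁆ * u⁻¹ * ⁅u, z⁆ := by
    simp only [commutatorElement_def]; group
  rw [e, h.eq, mul_inv_cancel_right]

theorem comm_mul_right_aux {u v z : G} (h : Commute u ⁅z, v⁆) : ⁅z, u * v⁆ = ⁅z, u⁆ * ⁅z, v⁆ := by
  have e : ⁅z, u * v⁆ = ⁅z, u⁆ * (u * ⁅z, v⁆ * u⁻¹) := by
    simp only [commutatorElement_def]; group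
  rw [e, h.eq, mul_inv_cancel_right]

/-- additivity in one slot -/
theorem XX_add (h : Stein x) (i : ZMod 3) (α β : Fin 4) (L₁ L₂ : List A) (a b c : A)
    (hadd : ∀ j γ δ, x j γ δ c = x j γ δ a * x j γ δ b)
    (h3 : Off (L₁ ++ c :: L₂).length α β) :
    XX x i α β (L₁ ++ c :: L₂) = XX x i α β (L₁ ++ a :: L₂) * XX x i α β (L₁ ++ b :: L₂) := by
  induction L₁ generalizing i α with
  | nil =>
    rw [List.nil_append, List.nil_append, List.nil_append] at *
    by_cases hL₂ : L₂ = []
    · subst hL₂; exact hadd _ _ _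
    · obtain ⟨m, hm1, hm2, -⟩ := exists_fresh α β β
      have h3' : Off (L₂.length + 1) α β := by simpa using h3
      rw [XX_cons h m c hL₂ (off_of_ne hm2) h3', hadd, comm_mul_left_aux,
        ← XX_cons h m a hL₂ (off_of_ne hm2) h3', ← XX_cons h m b hL₂ (off_of_ne hm2) h3']
      · refine (XX_commute h i i α β α β (b :: L₂) (a :: L₂) h3 h3 ?_ ?_).eq
        · exact (off_vertex h3 i).symm
        · exact off_vertex h3 i
      · rw [← XX_cons h m b hL₂ (off_of_ne hm2) h3']
        refine XX_commute h i i α m α β [a] (b :: L₂) (off_of_ne hm1.symm) h3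
          (fun hh => hm1 (congrArg Prod.snd hh)) ?_
        exact off_vertex h3 i
  | cons d L₁ ih =>
    obtain ⟨m, hm1, hm2, -⟩ := exists_fresh α β β
    have h3' : ∀ c : A, Off ((L₁ ++ c :: L₂).length + 1) α β := by intro c; simpa using h3
    have e : ∀ c : A, XX x i α β (d :: L₁ ++ c :: L₂) = ⁅x i α m d, XX x (i + 1) m β (L₁ ++ c :: L₂)⁆ :=
      fun c => XX_cons h m d (by simp) (off_of_ne hm2) (h3' c)
    rw [e c, ih (i + 1) m (off_of_ne hm2), comm_mul_right_aux, ← e a, ← e b]
    rw [← e b]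
    refine XX_commute h (i + 1) i m β α β _ _ (off_of_ne hm2) (by simpa using h3) ?_
      (fun hh => hm2 (congrArg Prod.snd hh))
    intro hh
    apply off_vertex h3 i
    rw [← hh]
    simp only [List.length_append, List.length_cons, Prod.mk.injEq, and_true]
    push_cast; ring

/-- replacing two consecutive arrows -/
theorem XX_swap (h : Stein x) (i : ZMod 3) (α β : Fin 4) (L₁ L₂ : List A) (a b a' b' : A)
    (hsw : ∀ γ δ ε, ⁅x (i + L₁.length) γ δ a, x (i + L₁.length + 1) δ ε b⁆
      = ⁅x (i + L₁.length) γ δ a', x (i + L₁.length + 1) δ ε b'⁆)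
    (h3 : Off (L₁ ++ a :: b :: L₂).length α β) :
    XX x i α β (L₁ ++ a :: b :: L₂) = XX x i α β (L₁ ++ a' :: b' :: L₂) := by
  induction L₁ generalizing i α with
  | nil =>
    have hsw' : ∀ γ ε, XX x i γ ε [a, b] = XX x i γ ε [a', b'] := by
      intro γ ε
      have := hsw γ (ε + 1) ε
      simpa [XX] using this
    by_cases hL₂ : L₂ = []
    · subst hL₂; exact hsw' _ _
    · obtain ⟨k, hk1, hk2, -⟩ := exists_fresh α β β
      have e : ∀ a b : A, XX x i α β (a :: b :: L₂) =
          ⁅XX x i α k [a, b], XX x (i + ((2 : ℕ) : ZMod 3)) k β L₂⁆ := fun a b =>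
        XX_append h i α β k [a, b] L₂ (by simp) hL₂ (off_of_ne hk1.symm) (off_of_ne hk2)
          (by simpa using h3)
      rw [List.nil_append, List.nil_append, e a b, e a' b', hsw']
  | cons d L₁ ih =>
    have hb : ∀ β : Fin 4, β + 1 ≠ β := by decide
    have h3' : ∀ a b : A, Off ((L₁ ++ a :: b :: L₂).length + 1) α β := by intro a b; simpa using h3
    have e : ∀ a b : A, XX x i α β (d :: L₁ ++ a :: b :: L₂) =
        ⁅x i α (β + 1) d, XX x (i + 1) (β + 1) β (L₁ ++ a :: b :: L₂)⁆ :=
      fun a b => XX_cons h _ d (by simp) (off_of_ne (hb β)) (h3' a b)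
    rw [e a b, e a' b', ih (i + 1) (β + 1) _ (off_of_ne (hb β))]
    intro γ δ ε
    have e2 : (i + 1 + (L₁.length : ℕ) : ZMod 3) = i + ((d :: L₁).length : ℕ) := by
      simp only [List.length_cons]; push_cast; ring
    rw [e2]
    exact hsw γ δ ε

/-- long paths are deep in the derived series -/
theorem XX_mem_derivedSeries (h : Stein x) (d : ℕ) (i : ZMod 3) (α β : Fin 4) (L : List A)
    (hL : 2 ^ d ≤ L.length) (h3 : Off L.length α β) :
    XX x i α β L ∈ derivedSeries G d := by
  induction d generalizing i α β L with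
  | zero => simp
  | succ d ih =>
    have hp : 0 < 2 ^ d := by positivity
    have h2 : 2 ^ (d + 1) = 2 ^ d + 2 ^ d := by ring
    obtain ⟨k, hk1, hk2, -⟩ := exists_fresh α β β
    have e1 : (L.take (2 ^ d)).length = 2 ^ d := by rw [List.length_take]; omega
    have e2 : 2 ^ d ≤ (L.drop (2 ^ d)).length := by rw [List.length_drop]; omega
    have e3 := List.take_append_drop (2 ^ d) L
    rw [← e3] at h3 ⊢
    rw [XX_append h i α β k _ _ (by intro hh; rw [hh] at e1; simp at e1; omega)
      (by intro hh; rw [hh] at e2; simp at e2) (off_of_ne hk1.symm) (off_of_ne hk2) h3,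
      derivedSeries_succ]
    exact Subgroup.commutator_mem_commutator (ih _ _ _ _ e1.ge (off_of_ne hk1.symm))
      (ih _ _ _ _ e2 (off_of_ne hk2))

/-! ### nilpotency -/

/-- path elements between vertices -/
def EE (x : ZMod 3 → Fin 4 → Fin 4 → A → G) (p q : ZMod 3 × Fin 4) (L : List A) : G :=
  XX x p.1 p.2 q.2 L

/-- `L` is a list of the right length for a path from `p` to `q` -/
def Pth (p q : ZMod 3 × Fin 4) (L : List A) : Prop := q.1 = p.1 + L.length

theorem Pth.append {p q r : ZMod 3 × Fin 4} {L L' : List A} (h : Pth p q L) (h' : Pth q r L') :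
    Pth p r (L ++ L') := by
  unfold Pth at *
  rw [h', h, List.length_append]
  push_cast; ring

theorem Pth.off {p q : ZMod 3 × Fin 4} {L : List A} (h : Pth p q L) (hne : p ≠ q) :
    Off L.length p.2 q.2 := by
  apply ne_off (i := p.1)
  unfold Pth at h
  rw [← h]
  exact hne

theorem EE_commute (h : Stein x) {p q r s : ZMod 3 × Fin 4} {L L' : List A} (hp : Pth p q L)
    (hr : Pth r s L') (h1 : p ≠ q) (h2 : r ≠ s) (h3 : q ≠ r) (h4 : p ≠ s) :
    Commute (EE x p q L) (EE x r s L') := by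
  refine XX_commute h _ _ _ _ _ _ _ _ (hp.off h1) (hr.off h2) ?_ ?_
  · unfold Pth at hp; rw [← hp]; exact h3
  · unfold Pth at hr; rw [← hr]; exact h4

theorem EE_append (h : Stein x) {p r q : ZMod 3 × Fin 4} {L L' : List A} (hp : Pth p r L)
    (hq : Pth r q L') (hL : L ≠ []) (hL' : L' ≠ []) (h1 : p ≠ r) (h2 : r ≠ q) (h3 : p ≠ q) :
    ⁅EE x p r L, EE x r q L'⁆ = EE x p q (L ++ L') := by
  have e := XX_append h p.1 p.2 q.2 r.2 L L' hL hL' (hp.off h1) (hq.off h2)
    ((hp.append hq).off h3)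
  unfold Pth at hp
  rw [← hp] at e
  exact e.symm

theorem commute_of_comms {g y z : G} (h1 : Commute ⁅g, y⁆ y) (h2 : Commute ⁅g, y⁆ z)
    (h3 : Commute ⁅g, z⁆ y) (h4 : Commute ⁅g, z⁆ z) (h5 : Commute ⁅g, y⁆ ⁅g, z⁆) :
    Commute g ⁅y, z⁆ := by
  have e : g * ⁅y, z⁆ * g⁻¹ = ⁅⁅g, y⁆ * y, ⁅g, z⁆ * z⁆ := by
    simp only [commutatorElement_def]; group
  have e2 : ⁅⁅g, y⁆ * y, ⁅g, z⁆ * z⁆ = ⁅y, z⁆ := by
    have c1 : Commute (⁅g, y⁆ : G) (⁅g, z⁆ * z) := h5.mul_right h2
    have c2 : Commute (⁅g, z⁆ : G) y := h3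
    have : ⁅⁅g, y⁆ * y, ⁅g, z⁆ * z⁆ = ⁅g, y⁆ * ⁅y, ⁅g, z⁆ * z⁆ * ⁅g, y⁆⁻¹ * ⁅⁅g, y⁆, ⁅g, z⁆ * z⁆ := by
      generalize ⁅g, y⁆ = u; generalize ⁅g, z⁆ = v
      simp only [commutatorElement_def]; group
    rw [this, commutatorElement_eq_one_iff_commute.2 c1, mul_one]
    have h6 : ⁅y, ⁅g, z⁆ * z⁆ = ⁅y, ⁅g, z⁆⁆ * (⁅g, z⁆ * ⁅y, z⁆ * ⁅g, z⁆⁻¹) := by
      generalize ⁅g, z⁆ = v
      simp only [commutatorElement_def]; group
    rw [h6, commutatorElement_eq_one_iff_commute.2 c2.symm, one_mul,
      (comm_comm h3.symm h4.symm).eq.symm, mul_inv_cancel_right,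
      (comm_comm h1.symm h2.symm).eq.symm, mul_inv_cancel_right]
  have e3 : g * ⁅y, z⁆ * g⁻¹ = ⁅y, z⁆ := e.trans e2
  exact mul_inv_eq_iff_eq_mul.1 e3

/-- everything of length at least `l` vanishes -/
structure Van (x : ZMod 3 → Fin 4 → Fin 4 → A → G) (l : ℕ) : Prop where
  path : ∀ (p q : ZMod 3 × Fin 4) (L : List A), Pth p q L → p ≠ q → l ≤ L.length → EE x p q L = 1
  loop : ∀ (p q : ZMod 3 × Fin 4) (L L' : List A), Pth p q L → Pth q p L' → p ≠ q →
    l ≤ L.length + L'.length → ⁅EE x p q L, EE x q p L'⁆ = 1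

theorem step_ne {p q : ZMod 3 × Fin 4} {c : A} (h : Pth p q [c]) : p ≠ q := by
  have h1 : ∀ i : ZMod 3, i ≠ i + 1 := by decide
  intro hh
  subst hh
  exact h1 p.1 (by simp [Pth] at h)

theorem path_central (h : Stein x) {l : ℕ} (hv : Van x (l + 1)) {p q : ZMod 3 × Fin 4}
    {L : List A} (hp : Pth p q L) (hpq : p ≠ q) (hl : l ≤ L.length) {r s : ZMod 3 × Fin 4} {c : A}
    (hr : Pth r s [c]) : Commute (EE x r s [c]) (EE x p q L) := by
  have hrs := step_ne hr
  by_cases hL : L = []
  · subst hL; exact Commute.one_right _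
  by_cases h1 : q = r
  · subst h1
    by_cases h2 : p = s
    · subst h2
      exact (commutatorElement_eq_one_iff_commute.1 (hv.loop p q L [c] hp hr hpq
        (by simpa using hl))).symm
    · refine (commutatorElement_eq_one_iff_commute.1 ?_).symm
      rw [EE_append h hp hr hL (by simp) hpq hrs h2]
      exact hv.path _ _ _ (hp.append hr) h2 (by simpa using hl)
  · by_cases h2 : p = s
    · subst h2
      refine commutatorElement_eq_one_iff_commute.1 ?_
      rw [EE_append h hr hp (by simp) hL hrs hpq (Ne.symm h1)]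
      exact hv.path _ _ _ (hr.append hp) (Ne.symm h1) (by simp; omega)
    · exact (EE_commute h hp hr hpq hrs h1 h2).symm

theorem loop_central₁ (h : Stein x) {l : ℕ} (hv : Van x (l + 1)) {p q : ZMod 3 × Fin 4}
    {L L' : List A} (hp : Pth p q L) (hq : Pth q p L') (hpq : p ≠ q)
    (hl : l ≤ L.length + L'.length) (hL : L ≠ []) (hL' : L' ≠ [])
    {s : ZMod 3 × Fin 4} {c : A} (hr : Pth p s [c]) (hsq : s ≠ q) :
    Commute (EE x p s [c]) ⁅EE x p q L, EE x q p L'⁆ := by
  have hps := step_ne hr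
  have c1 : Commute (EE x p s [c]) (EE x p q L) :=
    EE_commute h hr hp hps hpq hps.symm hpq
  have e1 : ⁅EE x q p L', EE x p s [c]⁆ = EE x q s (L' ++ [c]) :=
    EE_append h hq hr hL' (by simp) hpq.symm hps hsq.symm
  have e2 : ⁅EE x p s [c], EE x q p L'⁆ = (EE x q s (L' ++ [c]))⁻¹ := by
    rw [← e1, commutatorElement_inv]
  have c2 : Commute (EE x q s (L' ++ [c])) (EE x p q L) := by
    refine (commutatorElement_eq_one_iff_commute.1 ?_).symm
    rw [EE_append h hp (hq.append hr) hL (by simp) hpq hsq.symm hps]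
    exact hv.path _ _ _ (hp.append (hq.append hr)) hps (by simp; omega)
  have c3 : Commute (EE x q s (L' ++ [c])) (EE x q p L') :=
    EE_commute h (hq.append hr) hq hsq.symm hpq.symm hsq hpq.symm
  refine commute_of_comms ?_ ?_ ?_ ?_ ?_
  · rw [commutatorElement_eq_one_iff_commute.2 c1]; exact Commute.one_left _
  · rw [commutatorElement_eq_one_iff_commute.2 c1]; exact Commute.one_left _
  · rw [e2]; exact c2.inv_left
  · rw [e2]; exact c3.inv_left
  · rw [commutatorElement_eq_one_iff_commute.2 c1]; exact Commute.one_left _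

theorem loop_central₂ (h : Stein x) {l : ℕ} (hv : Van x (l + 1)) {p q : ZMod 3 × Fin 4}
    {L L' : List A} (hp : Pth p q L) (hq : Pth q p L') (hpq : p ≠ q)
    (hl : l ≤ L.length + L'.length) (hL : L ≠ []) (hL' : L' ≠ [])
    {r : ZMod 3 × Fin 4} {c : A} (hr : Pth r p [c]) (hrq : r ≠ q) :
    Commute (EE x r p [c]) ⁅EE x p q L, EE x q p L'⁆ := by
  have hrp := step_ne hr
  have c1 : Commute (EE x r p [c]) (EE x q p L') :=
    EE_commute h hr hq hrp hpq.symm hpq hrp
  have e1 : ⁅EE x r p [c], EE x p q L⁆ = EE x r q ([c] ++ L) :=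
    EE_append h hr hp (by simp) hL hrp hpq hrq
  have c2 : Commute (EE x r q ([c] ++ L)) (EE x q p L') := by
    refine commutatorElement_eq_one_iff_commute.1 ?_
    rw [EE_append h (hr.append hp) hq (by simp) hL' hrq hpq.symm hrp]
    exact hv.path _ _ _ ((hr.append hp).append hq) hrp (by simp; omega)
  have c3 : Commute (EE x r q ([c] ++ L)) (EE x p q L) :=
    EE_commute h (hr.append hp) hp hrq hpq hpq.symm hrq
  refine commute_of_comms ?_ ?_ ?_ ?_ ?_
  · rw [e1]; exact c3
  · rw [e1]; exact c2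
  · rw [commutatorElement_eq_one_iff_commute.2 c1]; exact Commute.one_left _
  · rw [commutatorElement_eq_one_iff_commute.2 c1]; exact Commute.one_left _
  · rw [commutatorElement_eq_one_iff_commute.2 c1]; exact Commute.one_right _

theorem three_aux {X Y Z : G} (hAC : Commute ⁅X, Y⁆ ⁅X, Z⁆) (hAw : Commute ⁅X, Y⁆ ⁅Y, Z⁆)
    (hCw : Commute ⁅X, Z⁆ ⁅Y, Z⁆) (hAY : Commute ⁅X, Y⁆ Y) (hCZ : Commute ⁅X, Z⁆ Z)
    (hwZ : Commute ⁅Y, Z⁆ Z) : ⁅X, ⁅Y, Z⁆⁆ = ⁅Y, ⁅X, Z⁆⁆ * ⁅⁅X, Y⁆, Z⁆ := by
  have e : X * ⁅Y, Z⁆ * X⁻¹ = ⁅⁅X, Y⁆ * Y, ⁅X, Z⁆ * Z⁆ := by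
    simp only [commutatorElement_def]; group
  have e1 : ⁅⁅X, Y⁆ * Y, ⁅X, Z⁆ * Z⁆ =
      ⁅X, Y⁆ * ⁅Y, ⁅X, Z⁆ * Z⁆ * ⁅X, Y⁆⁻¹ * ⁅⁅X, Y⁆, ⁅X, Z⁆ * Z⁆ := by
    generalize ⁅X, Y⁆ = u; generalize ⁅X, Z⁆ = v
    simp only [commutatorElement_def]; group
  have e2 : ∀ u : G, ⁅u, ⁅X, Z⁆ * Z⁆ = ⁅u, ⁅X, Z⁆⁆ * (⁅X, Z⁆ * ⁅u, Z⁆ * ⁅X, Z⁆⁻¹) := by
    intro u
    generalize ⁅X, Z⁆ = v
    simp only [commutatorElement_def]; group
  have e3 : ⁅⁅X, Y⁆, ⁅X, Z⁆ * Z⁆ = ⁅⁅X, Y⁆, Z⁆ := by
    rw [e2, commutatorElement_eq_one_iff_commute.2 hAC, one_mul,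
      ← (comm_comm hAC hCZ.symm).eq, mul_inv_cancel_right]
  have e4 : ⁅Y, ⁅X, Z⁆ * Z⁆ = ⁅Y, ⁅X, Z⁆⁆ * ⁅Y, Z⁆ := by
    rw [e2, hCw.eq, mul_inv_cancel_right]
  have c5 : Commute ⁅X, Y⁆ (⁅Y, ⁅X, Z⁆⁆ * ⁅Y, Z⁆) :=
    (comm_comm hAY.symm hAC.symm).symm.mul_right hAw
  have c6 : Commute ⁅⁅X, Y⁆, Z⁆ ⁅Y, Z⁆ := comm_comm hAw hwZ.symm
  have e7 : ⁅X, ⁅Y, Z⁆⁆ = X * ⁅Y, Z⁆ * X⁻¹ * ⁅Y, Z⁆⁻¹ := commutatorElement_def _ _
  rw [e7, e, e1, e3, e4, c5.eq, mul_inv_cancel_right, mul_assoc _ ⁅Y, Z⁆, ← c6.eq, ← mul_assoc,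
    mul_inv_cancel_right]

theorem loop_central₃ (h : Stein x) {l : ℕ} (hv : Van x (l + 1)) {p q : ZMod 3 × Fin 4}
    {L L' : List A} (hp : Pth p q L) (hq : Pth q p L') (hpq : p ≠ q)
    (hl : l ≤ L.length + L'.length) (hL : L ≠ []) (hL' : L' ≠ [])
    {c : A} (hr : Pth p q [c]) :
    Commute (EE x p q [c]) ⁅EE x p q L, EE x q p L'⁆ := by
  cases L' with
  | nil => exact absurd rfl hL'
  | cons b L₂ =>
    have hpos : 0 < L.length := List.length_pos_iff.2 hL
    have hL₂ : L₂ ≠ [] := by
      rintro rfl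
      have hc : ∀ i : ZMod 3, i ≠ i + 1 + 1 := by decide
      unfold Pth at hr hq
      rw [hr] at hq
      exact hc p.1 (by simpa using hq)
    have hpos2 : 0 < L₂.length := List.length_pos_iff.2 hL₂
    obtain ⟨k, hk1, hk2, -⟩ := exists_fresh p.2 q.2 q.2
    set e : ZMod 3 × Fin 4 := (q.1 + 1, k) with he
    have hep : e ≠ p := fun hh => hk1 (congrArg Prod.snd hh)
    have heq : e ≠ q := fun hh => hk2 (congrArg Prod.snd hh)
    have h1 : Pth q e [b] := by simp [Pth, he]
    have h2 : Pth e p L₂ := by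
      unfold Pth at hq ⊢
      rw [hq, he]
      simp only [List.length_cons]; push_cast; ring
    have hlen : (b :: L₂).length = L₂.length + 1 := by simp
    -- the elements
    have ew : ⁅EE x q e [b], EE x e p L₂⁆ = EE x q p (b :: L₂) :=
      EE_append h h1 h2 (by simp) hL₂ heq.symm hep hpq.symm
    have eA : ⁅EE x p q L, EE x q e [b]⁆ = EE x p e (L ++ [b]) :=
      EE_append h hp h1 hL (by simp) hpq heq.symm hep.symm
    have eC0 : ⁅EE x e p L₂, EE x p q L⁆ = EE x e q (L₂ ++ L) :=
      EE_append h h2 hp hL₂ hL hep hpq heq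
    have eC : ⁅EE x p q L, EE x e p L₂⁆ = (EE x e q (L₂ ++ L))⁻¹ := by
      rw [← eC0, commutatorElement_inv]
    have pA : Pth p e (L ++ [b]) := hp.append h1
    have pC : Pth e q (L₂ ++ L) := h2.append hp
    have cAC : Commute (EE x p e (L ++ [b])) (EE x e q (L₂ ++ L)) := by
      refine commutatorElement_eq_one_iff_commute.1 ?_
      rw [EE_append h pA pC (by simp) (by simp [hL]) hep.symm heq hpq]
      exact hv.path _ _ _ (pA.append pC) hpq (by
        simp only [List.length_append, List.length_cons, List.length_nil, hlen] at hl ⊢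
        omega)
    have cAw : Commute (EE x p e (L ++ [b])) (EE x q p (b :: L₂)) := by
      refine (commutatorElement_eq_one_iff_commute.1 ?_).symm
      rw [EE_append h hq pA (by simp) (by simp) hpq.symm hep.symm heq.symm]
      exact hv.path _ _ _ (hq.append pA) heq.symm (by
        simp only [List.length_append, List.length_cons, List.length_nil, hlen] at hl ⊢
        omega)
    have cCw : Commute (EE x e q (L₂ ++ L)) (EE x q p (b :: L₂)) := by
      refine commutatorElement_eq_one_iff_commute.1 ?_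
      rw [EE_append h pC hq (by simp [hL]) (by simp) heq hpq.symm hep]
      exact hv.path _ _ _ (pC.append hq) hep (by
        simp only [List.length_append, List.length_cons, hlen] at hl ⊢
        omega)
    have cAY : Commute (EE x p e (L ++ [b])) (EE x q e [b]) :=
      EE_commute h pA h1 hep.symm heq.symm heq hep.symm
    have cCZ : Commute (EE x e q (L₂ ++ L)) (EE x e p L₂) :=
      EE_commute h pC h2 heq hep heq.symm hep
    have cwZ : Commute (EE x q p (b :: L₂)) (EE x e p L₂) :=
      EE_commute h hq h2 hpq.symm hep hep.symm hpq.symm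
    have key : ⁅EE x p q L, EE x q p (b :: L₂)⁆ =
        ⁅EE x q e [b], (EE x e q (L₂ ++ L))⁻¹⁆ * ⁅EE x p e (L ++ [b]), EE x e p L₂⁆ := by
      rw [← ew, three_aux (by rw [eA, eC]; exact cAC.inv_right) (by rw [eA, ew]; exact cAw)
        (by rw [eC, ew]; exact cCw.inv_left) (by rw [eA]; exact cAY) (by rw [eC]; exact cCZ.inv_left)
        (by rw [ew]; exact cwZ), eA, eC]
    rw [key]
    -- `g` commutes with both factors
    have gY : ⁅EE x p q [c], EE x q e [b]⁆ = EE x p e ([c] ++ [b]) :=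
      EE_append h hr h1 (by simp) (by simp) hpq heq.symm hep.symm
    have pgY : Pth p e ([c] ++ [b]) := hr.append h1
    have gC : Commute (EE x p q [c]) (EE x e q (L₂ ++ L)) :=
      EE_commute h hr pC hpq heq heq.symm hpq
    have cvY : Commute (EE x p e ([c] ++ [b])) (EE x q e [b]) :=
      EE_commute h pgY h1 hep.symm heq.symm heq hep.symm
    have cvC : Commute (EE x p e ([c] ++ [b])) (EE x e q (L₂ ++ L)) := by
      refine commutatorElement_eq_one_iff_commute.1 ?_
      rw [EE_append h pgY pC (by simp) (by simp [hL]) hep.symm heq hpq]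
      exact hv.path _ _ _ (pgY.append pC) hpq (by
        simp only [List.length_append, List.length_cons, List.length_nil, hlen] at hl ⊢
        omega)
    have gA : Commute (EE x p q [c]) (EE x p e (L ++ [b])) :=
      EE_commute h hr pA hpq hep.symm hpq.symm hep.symm
    have gZ0 : ⁅EE x e p L₂, EE x p q [c]⁆ = EE x e q (L₂ ++ [c]) :=
      EE_append h h2 hr hL₂ (by simp) hep hpq heq
    have gZ : ⁅EE x p q [c], EE x e p L₂⁆ = (EE x e q (L₂ ++ [c]))⁻¹ := by
      rw [← gZ0, commutatorElement_inv]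
    have pgZ : Pth e q (L₂ ++ [c]) := h2.append hr
    have cwZ' : Commute (EE x e q (L₂ ++ [c])) (EE x e p L₂) :=
      EE_commute h pgZ h2 heq hep heq.symm hep
    have cwA : Commute (EE x e q (L₂ ++ [c])) (EE x p e (L ++ [b])) := by
      refine (commutatorElement_eq_one_iff_commute.1 ?_).symm
      rw [EE_append h pA pgZ (by simp) (by simp) hep.symm heq hpq]
      exact hv.path _ _ _ (pA.append pgZ) hpq (by
        simp only [List.length_append, List.length_cons, List.length_nil, hlen] at hl ⊢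
        omega)
    refine Commute.mul_right ?_ ?_
    · have o : ⁅EE x p q [c], (EE x e q (L₂ ++ L))⁻¹⁆ = 1 :=
        commutatorElement_eq_one_iff_commute.2 gC.inv_right
      refine commute_of_comms ?_ ?_ ?_ ?_ ?_
      · rw [gY]; exact cvY
      · rw [gY]; exact cvC.inv_right
      · rw [o]; exact Commute.one_left _
      · rw [o]; exact Commute.one_left _
      · rw [o]; exact Commute.one_right _
    · have o : ⁅EE x p q [c], EE x p e (L ++ [b])⁆ = 1 :=
        commutatorElement_eq_one_iff_commute.2 gA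
      refine commute_of_comms ?_ ?_ ?_ ?_ ?_
      · rw [o]; exact Commute.one_left _
      · rw [o]; exact Commute.one_left _
      · rw [gZ]; exact cwA.inv_left
      · rw [gZ]; exact cwZ'.inv_left
      · rw [o]; exact Commute.one_left _

theorem loop_central (h : Stein x) {l : ℕ} (hv : Van x (l + 1)) {p q : ZMod 3 × Fin 4}
    {L L' : List A} (hp : Pth p q L) (hq : Pth q p L') (hpq : p ≠ q)
    (hl : l ≤ L.length + L'.length)
    {r s : ZMod 3 × Fin 4} {c : A} (hr : Pth r s [c]) :
    Commute (EE x r s [c]) ⁅EE x p q L, EE x q p L'⁆ := by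
  have hrs := step_ne hr
  by_cases hL : L = []
  · subst hL
    have : EE x p q ([] : List A) = 1 := rfl
    rw [this, commutatorElement_one_left]; exact Commute.one_right _
  by_cases hL' : L' = []
  · subst hL'
    have : EE x q p ([] : List A) = 1 := rfl
    rw [this, commutatorElement_one_right]; exact Commute.one_right _
  have hl' : l ≤ L'.length + L.length := by omega
  have sym : ⁅EE x p q L, EE x q p L'⁆ = ⁅EE x q p L', EE x p q L⁆⁻¹ :=
    (commutatorElement_inv _ _).symm
  by_cases h1 : r = p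
  · subst h1
    by_cases h2 : s = q
    · subst h2; exact loop_central₃ h hv hp hq hpq hl hL hL' hr
    · exact loop_central₁ h hv hp hq hpq hl hL hL' hr h2
  by_cases h1' : r = q
  · subst h1'
    rw [sym]
    by_cases h2 : s = p
    · subst h2; exact (loop_central₃ h hv hq hp hpq.symm hl' hL' hL hr).inv_right
    · exact (loop_central₁ h hv hq hp hpq.symm hl' hL' hL hr h2).inv_right
  by_cases h2 : s = p
  · subst h2; exact loop_central₂ h hv hp hq hpq hl hL hL' hr h1'
  by_cases h2' : s = q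
  · subst h2'
    rw [sym]
    exact (loop_central₂ h hv hq hp hpq.symm hl' hL' hL hr h1).inv_right
  exact (comm_comm (EE_commute h hp hr hpq hrs (Ne.symm h1') (Ne.symm h2))
    (EE_commute h hq hr hpq.symm hrs (Ne.symm h1) (Ne.symm h2'))).symm

theorem Stein.map {H : Type*} [Group H] (f : G →* H) (h : Stein x) :
    Stein (fun i α β a => f (x i α β a)) where
  same i α β γ δ a b := (h.same i α β γ δ a b).map f
  adj i α β β' γ a b hne := (h.adj i α β β' γ a b hne).map f
  indep i α β β' γ a b := by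
    rw [← map_commutatorElement, ← map_commutatorElement, h.indep i α β β' γ a b]

theorem nilpotent_aux (l : ℕ) : ∀ {G : Type _} [Group G] (x : ZMod 3 → Fin 4 → Fin 4 → A → G),
    Stein x → Subgroup.closure {g : G | ∃ i α β a, g = x i α β a} = ⊤ → Van x l →
    Group.IsNilpotent G := by
  induction l with
  | zero =>
    intro G _ x h hgen hv
    have : Subsingleton G := by
      rw [← Subgroup.subsingleton_iff, ← subsingleton_iff_bot_eq_top, ← hgen, eq_comm,
        Subgroup.closure_eq_bot_iff]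
      rintro g ⟨i, α, β, a, rfl⟩
      have hP : Pth (i, α) (i + 1, β) [a] := by simp [Pth]
      exact hv.path (i, α) (i + 1, β) [a] hP (step_ne hP) (Nat.zero_le _)
    infer_instance
  | succ l ih =>
    intro G _ x h hgen hv
    apply Group.of_quotient_center_nilpotent
    have hcen : ∀ z : G, (∀ (r s : ZMod 3 × Fin 4) (c : A), Pth r s [c] →
        Commute (EE x r s [c]) z) → z ∈ Subgroup.center G := by
      intro z hz
      rw [← Subgroup.centralizer_univ, ← Subgroup.coe_top, ← hgen, Subgroup.centralizer_closure,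
        Subgroup.mem_centralizer_iff]
      rintro g ⟨i, α, β, a, rfl⟩
      exact hz (i, α) (i + 1, β) a (by simp [Pth])
    have hmap : ∀ (p q : ZMod 3 × Fin 4) (L : List A),
        EE (fun i α β a => QuotientGroup.mk' (Subgroup.center G) (x i α β a)) p q L =
          QuotientGroup.mk' (Subgroup.center G) (EE x p q L) := fun p q L =>
      (map_XX (QuotientGroup.mk' (Subgroup.center G)) _ _ _ _).symm
    refine ih (fun i α β a => QuotientGroup.mk' (Subgroup.center G) (x i α β a))
      (h.map (QuotientGroup.mk' (Subgroup.center G))) ?_ ⟨?_, ?_⟩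
    · have : {g : G ⧸ Subgroup.center G | ∃ i α β a,
          g = QuotientGroup.mk' (Subgroup.center G) (x i α β a)} =
          QuotientGroup.mk' (Subgroup.center G) '' {g : G | ∃ i α β a, g = x i α β a} := by
        ext g
        constructor
        · rintro ⟨i, α, β, a, rfl⟩; exact ⟨_, ⟨i, α, β, a, rfl⟩, rfl⟩
        · rintro ⟨_, ⟨i, α, β, a, rfl⟩, rfl⟩; exact ⟨i, α, β, a, rfl⟩
      rw [this, ← MonoidHom.map_closure, hgen, ← MonoidHom.range_eq_map,
        MonoidHom.range_eq_top]
      exact QuotientGroup.mk'_surjective _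
    · intro p q L hp hpq hl
      rw [hmap, QuotientGroup.mk'_apply, QuotientGroup.eq_one_iff]
      exact hcen _ fun r s c hr => path_central h hv hp hpq hl hr
    · intro p q L L' hp hq hpq hl
      rw [hmap, hmap, ← map_commutatorElement, QuotientGroup.mk'_apply, QuotientGroup.eq_one_iff]
      exact hcen _ fun r s c hr => loop_central h hv hp hq hpq hl hr

/-- if all long paths vanish, the group is nilpotent -/
theorem Stein.isNilpotent (h : Stein x)
    (hgen : Subgroup.closure {g : G | ∃ i α β a, g = x i α β a} = ⊤) (l : ℕ)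
    (hlong : ∀ (i : ZMod 3) (α β : Fin 4) (L : List A), l ≤ L.length → Off L.length α β →
      XX x i α β L = 1) : Group.IsNilpotent G := by
  refine nilpotent_aux (2 * l) x h hgen ⟨?_, ?_⟩
  · intro p q L hp hpq hl
    exact hlong _ _ _ _ (by omega) (hp.off hpq)
  · intro p q L L' hp hq hpq hl
    rcases le_or_gt l L.length with h1 | h1
    · have : EE x p q L = 1 := hlong _ _ _ _ h1 (hp.off hpq)
      rw [this, commutatorElement_one_left]
    · have : EE x q p L' = 1 := hlong _ _ _ _ (by omega) (hq.off hpq.symm)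
      rw [this, commutatorElement_one_right]

/-- if all long paths vanish, the group is solvable (in fact nilpotent) -/
theorem Stein.isSolvable (h : Stein x)
    (hgen : Subgroup.closure {g : G | ∃ i α β a, g = x i α β a} = ⊤) (l : ℕ)
    (hlong : ∀ (i : ZMod 3) (α β : Fin 4) (L : List A), l ≤ L.length → Off L.length α β →
      XX x i α β L = 1) : IsSolvable G := by
  have := h.isNilpotent hgen l hlong
  exact (inferInstance : Group.IsSolvable G)

end Pool.Agent.SolIndex
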