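import Mathlib

/-!
WP3: the ring `RR V = F₂[x_j, x_j⁻¹, (1+x_j)⁻¹ : j ∈ V]`, Frobenius-type endomorphisms, digits, contents.
-/

set_option autoImplicit false

namespace Pool.Agent.SolIndex

open Turing.PartrecToTM2 (Γ')

/-- exponent vectors: `(m j).1` is the exponent of `x_j`, `(m j).2` the exponent of `1 + x_j`. -/
abbrev Mon (V : Type) := V → ℤ × ℤ

section defs
variable {V : Type} [DecidableEq V]

/-- `x_j` -/
def xm (j : V) : Mon V := Pi.single j (1, 0)
/-- `1 + x_j` -/
def xm' (j : V) : Mon V := Pi.single j (0, 1)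

/-- exponent pair of the digit `g_d`: `x^d`, except `g_8 = (1+x)^15 = ∑_{i<16} x^i`. -/
def dexp (d : Fin 16) : ℤ × ℤ := if d = 8 then (0, 15) else ((d : ℕ), 0)

/-- the digit monomial at the variable `j` -/
def dm (j : V) (d : Fin 16) : Mon V := Pi.single j (dexp d)

/-- digits of the symbols -/
def dg : Γ' → Fin 16
  | .consₗ => 1
  | .cons => 2
  | .bit0 => 3
  | .bit1 => 4

/-- symbol of a digit (`none` for the bottom digits) -/
def symb (d : Fin 16) : Option Γ' :=
  if d = 1 then some .consₗ else if d = 2 then some .cons else if d = 3 then some .bit0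
  else if d = 4 then some .bit1 else none

@[simp] theorem symb_dg (γ : Γ') : symb (dg γ) = some γ := by cases γ <;> rfl

theorem symb_eq_some {d : Fin 16} {γ : Γ'} (h : symb d = some γ) : d = dg γ := by
  revert h; revert d; cases γ <;> decide

end defs

/-- the relations `(1 + x_j) = 1 + x_j` -/
noncomputable def rrIdeal (V : Type) [DecidableEq V] : Ideal (AddMonoidAlgebra (ZMod 2) (Mon V)) :=
  Ideal.span (Set.range fun j : V =>
    (AddMonoidAlgebra.single (xm' j) 1 - 1 - AddMonoidAlgebra.single (xm j) 1 :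
      AddMonoidAlgebra (ZMod 2) (Mon V)))

/-- the ring `F₂[x_j, x_j⁻¹, (1+x_j)⁻¹ : j ∈ V]` -/
abbrev RR (V : Type) [DecidableEq V] : Type :=
  AddMonoidAlgebra (ZMod 2) (Mon V) ⧸ rrIdeal V

section ring
variable {V : Type} [DecidableEq V]

/-- monomials in the ring -/
noncomputable def mon (m : Mon V) : RR V := Ideal.Quotient.mk (rrIdeal V) (AddMonoidAlgebra.single m 1)

theorem mon_zero : mon (0 : Mon V) = 1 := by
  unfold mon
  rw [← AddMonoidAlgebra.one_def, map_one]

theorem mon_add (m n : Mon V) : mon (m + n) = mon m * mon n := by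
  unfold mon
  rw [← map_mul, AddMonoidAlgebra.single_mul_single, mul_one]

theorem mon_xm' (j : V) : mon (xm' j) = 1 + mon (xm j) := by
  unfold mon
  rw [← map_one (Ideal.Quotient.mk (rrIdeal V)), ← map_add, Ideal.Quotient.eq, ← sub_sub]
  exact Ideal.subset_span ⟨j, rfl⟩

theorem RR_two (r : RR V) : r + r = 0 := by
  obtain ⟨x, rfl⟩ := Ideal.Quotient.mk_surjective r
  rw [← map_add]
  have : x + x = 0 := by
    ext m
    simp [CharTwo.add_self_eq_zero]
  rw [this, map_zero]

theorem RR_neg (r : RR V) : -r = r := neg_eq_of_add_eq_zero_left (RR_two r)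

theorem mon_span (r : RR V) : r ∈ AddSubgroup.closure (Set.range (mon : Mon V → RR V)) := by
  obtain ⟨x, rfl⟩ := Ideal.Quotient.mk_surjective r
  induction x using AddMonoidAlgebra.induction_linear with
  | zero => rw [map_zero]; exact zero_mem _
  | add f g hf hg => rw [map_add]; exact add_mem hf hg
  | single m a =>
    have : a = 0 ∨ a = 1 := by revert a; decide
    rcases this with rfl | rfl
    · rw [AddMonoidAlgebra.single_zero, map_zero]; exact zero_mem _
    · exact AddSubgroup.subset_closure ⟨m, rfl⟩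

/-- additive induction on monomials -/
theorem mon_induction {p : RR V → Prop} (h0 : p 0) (hadd : ∀ r r', p r → p r' → p (r + r'))
    (hmon : ∀ m, p (mon m)) (r : RR V) : p r := by
  have h := mon_span r
  induction h using AddSubgroup.closure_induction with
  | mem x hx => obtain ⟨m, rfl⟩ := hx; exact hmon m
  | zero => exact h0
  | add x y _ _ hx hy => exact hadd x y hx hy
  | neg x _ hx =>
    have : -x = x := by
      have := RR_two x
      exact neg_eq_of_add_eq_zero_left this
    rwa [this]


open scoped IsMulCommutative in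
/-- WP2 uses this: a family of commuting involutions `f m` with `f (x'_j m) = f m * f (x_j m)`
extends to an additive map on the ring. -/
theorem exists_lift {G : Type*} [Group G] (f : Mon V → G)
    (hinv : ∀ m, f m * f m = 1) (hcomm : ∀ m n, Commute (f m) (f n))
    (hrel : ∀ j m, f (xm' j + m) = f m * f (xm j + m)) :
    ∃ F : RR V → G, (∀ r r', F (r + r') = F r * F r') ∧ (∀ m, F (mon m) = f m) ∧
      ∀ r, F r ∈ Subgroup.closure (Set.range f) := by
  have inst : IsMulCommutative (Subgroup.closure (Set.range f)) :=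
    Subgroup.isMulCommutative_closure (by
      rintro _ ⟨m, rfl⟩ _ ⟨n, rfl⟩
      exact hcomm m n)
  let A := Additive (Subgroup.closure (Set.range f))
  let f' : Mon V → A := fun m => Additive.ofMul ⟨f m, Subgroup.subset_closure ⟨m, rfl⟩⟩
  have hf' : ∀ m, f' m + f' m = 0 := fun m => by
    apply Additive.toMul.injective
    exact Subtype.ext (hinv m)
  let e : Mon V → (ZMod 2 →+ A) := fun m => ZMod.lift 2 ⟨zmultiplesHom A (f' m), by
    have := hf' m
    rw [← two_zsmul] at this
    exact this⟩
  have he1 : ∀ m, e m 1 = f' m := fun m => by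
    have h1 : ((1 : ℤ) : ZMod 2) = 1 := Int.cast_one
    simp only [e]
    rw [← h1, ZMod.lift_coe]
    simp
  let E₀ : (Mon V →₀ ZMod 2) →+ A := Finsupp.liftAddHom e
  let E : AddMonoidAlgebra (ZMod 2) (Mon V) →+ A :=
    E₀.comp (AddMonoidAlgebra.coeffAddEquiv : _ ≃+ (Mon V →₀ ZMod 2)).toAddMonoidHom
  have hE : ∀ m, E (AddMonoidAlgebra.single m 1) = f' m := fun m => by
    simp only [E, E₀, AddMonoidHom.comp_apply]
    rw [← he1 m]
    exact Finsupp.liftAddHom_apply_single _ _ _
  have hker : ∀ r ∈ rrIdeal V, ∀ t, E (t * r) = 0 := by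
    intro r hr
    refine Submodule.span_induction (p := fun r _ => ∀ t, E (t * r) = 0) ?_ ?_ ?_ ?_ hr
    · rintro _ ⟨j, rfl⟩ t
      induction t using AddMonoidAlgebra.induction_linear with
      | zero => rw [zero_mul, map_zero]
      | add f g hf hg => rw [add_mul, map_add, hf, hg, add_zero]
      | single m a =>
        have : a = 0 ∨ a = 1 := by revert a; decide
        rcases this with rfl | rfl
        · rw [AddMonoidAlgebra.single_zero, zero_mul, map_zero]
        · rw [mul_sub, mul_sub, mul_one, AddMonoidAlgebra.single_mul_single,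
            AddMonoidAlgebra.single_mul_single, mul_one, map_sub, map_sub, hE, hE, hE]
          have h1 : f' (m + xm' j) = f' m + f' (m + xm j) := by
            apply Additive.toMul.injective
            refine Subtype.ext ?_
            have := hrel j m
            rw [add_comm (xm' j) m, add_comm (xm j) m] at this
            exact this
          rw [h1]
          abel
    · intro t; rw [mul_zero, map_zero]
    · intro x y _ _ hx hy t; rw [mul_add, map_add, hx, hy, add_zero]
    · intro a x _ hx t; rw [smul_eq_mul, ← mul_assoc]; exact hx _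
  let Q : RR V →+ A := QuotientAddGroup.lift (Submodule.toAddSubgroup (rrIdeal V)) E (by
    intro r hr
    have := hker r hr 1
    rwa [one_mul] at this)
  refine ⟨fun r => ((Additive.toMul (Q r) : Subgroup.closure (Set.range f)) : G), fun r r' => ?_,
    fun m => ?_, fun r => Subtype.coe_prop _⟩
  · have : Q (r + r') = Q r + Q r' := map_add Q r r'
    simp only [this]
    rfl
  · have : Q (mon m) = f' m := hE m
    simp only [this]
    rfl

/-- scaling of the exponents -/
def scal (n : V → ℕ) : Mon V →+ Mon V where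
  toFun m := fun j => (16 ^ n j : ℤ) • m j
  map_zero' := by ext j <;> simp
  map_add' m m' := by ext j <;> simp

theorem RR_one_add_pow (r : RR V) (k : ℕ) : (1 + r) ^ (2 ^ k) = 1 + r ^ (2 ^ k) := by
  induction k with
  | zero => simp
  | succ k ih =>
    have h : ∀ y : RR V, (1 + y) ^ 2 = 1 + y ^ 2 := fun y => by
      have := RR_two y
      calc (1 + y) ^ 2 = 1 + (y + y) + y ^ 2 := by ring
        _ = 1 + y ^ 2 := by rw [this, add_zero]
    rw [pow_succ, pow_mul, ih, h, ← pow_mul]

theorem mon_nsmul (n : ℕ) (m : Mon V) : mon (n • m) = mon m ^ n := by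
  induction n with
  | zero => rw [zero_smul, pow_zero, mon_zero]
  | succ n ih => rw [add_smul, one_smul, mon_add, ih, pow_succ]

theorem sixteen_pow (n : ℕ) : (16 : ℕ) ^ n = 2 ^ (4 * n) := by
  rw [pow_mul]; norm_num

theorem scal_single (n : V → ℕ) (j : V) (e : ℤ × ℤ) :
    scal n (Pi.single j e) = (16 ^ n j : ℕ) • (Pi.single j e : Mon V) := by
  funext i
  by_cases h : i = j
  · subst h
    simp [scal]
  · simp [scal, h]

/-- `Frob n` : `x_j ↦ x_j ^ (16 ^ n j)` -/
theorem exists_frob (n : V → ℕ) : ∃ F : RR V →+* RR V,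
    ∀ m : Mon V, F (mon m) = mon (fun j => (16 ^ n j : ℤ) • m j) := by
  let F₀ : AddMonoidAlgebra (ZMod 2) (Mon V) →+* RR V :=
    (Ideal.Quotient.mk (rrIdeal V)).comp (AddMonoidAlgebra.mapDomainRingHom (ZMod 2) (scal n))
  have hF₀ : ∀ m, F₀ (AddMonoidAlgebra.single m 1) = mon (scal n m) := fun m => by
    simp only [F₀, RingHom.comp_apply]
    unfold mon
    congr 1
    simp
  have hker : ∀ r ∈ rrIdeal V, F₀ r = 0 := by
    intro r hr
    refine Submodule.span_induction (p := fun r _ => F₀ r = 0) ?_ ?_ ?_ ?_ hr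
    · rintro _ ⟨j, rfl⟩
      rw [map_sub, map_sub, map_one, hF₀, hF₀]
      unfold xm xm'
      rw [scal_single, scal_single, mon_nsmul, mon_nsmul]
      have h := mon_xm' j
      unfold xm xm' at h
      rw [h, sixteen_pow, RR_one_add_pow]
      ring
    · exact map_zero _
    · intro x y _ _ hx hy; rw [map_add, hx, hy, add_zero]
    · intro a x _ hx; rw [smul_eq_mul, map_mul, hx, mul_zero]
  refine ⟨Ideal.Quotient.lift (rrIdeal V) F₀ hker, fun m => ?_⟩
  exact hF₀ m

noncomputable def Frob (n : V → ℕ) : RR V →+* RR V := Classical.choose (exists_frob n)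

theorem Frob_mon (n : V → ℕ) (m : Mon V) :
    Frob n (mon m) = mon (fun j => (16 ^ n j : ℤ) • m j) := Classical.choose_spec (exists_frob n) m

theorem Frob_Frob (n n' : V → ℕ) (r : RR V) : Frob n (Frob n' r) = Frob (n + n') r := by
  induction r using mon_induction with
  | h0 => simp
  | hadd r r' h h' => simp only [map_add, h, h']
  | hmon m =>
    rw [Frob_mon, Frob_mon, Frob_mon]
    congr 1
    funext j
    rw [smul_smul, Pi.add_apply, pow_add]

theorem Frob_zero (r : RR V) : Frob 0 r = r := by
  induction r using mon_induction with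
  | h0 => simp
  | hadd r r' h h' => rw [map_add, h, h']
  | hmon m =>
    rw [Frob_mon]
    congr 1
    funext j
    simp

/-- pushing the digit `d` on the stack variable `s` -/
noncomputable def pushR (s : V) (d : Fin 16) (r : RR V) : RR V :=
  mon (dm s d) * Frob (Pi.single s 1) r

theorem pushR_add (s : V) (d : Fin 16) (r r' : RR V) :
    pushR s d (r + r') = pushR s d r + pushR s d r' := by
  unfold pushR
  rw [map_add, mul_add]

/-- value of a word of symbols -/
def wval : List Γ' → ℤ × ℤ
  | [] => 0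
  | γ :: l => dexp (dg γ) + (16 : ℤ) • wval l

/-- content with words `w` over the core `c` -/
noncomputable def cont (w : V → List Γ') (c : RR V) : RR V :=
  mon (fun j => wval (w j)) * Frob (fun j => (w j).length) c

theorem cont_add (w : V → List Γ') (c c' : RR V) : cont w (c + c') = cont w c + cont w c' := by
  unfold cont
  rw [map_add, mul_add]

theorem pushR_cont (s : V) (γ : Γ') (w : V → List Γ') (c : RR V) :
    pushR s (dg γ) (cont w c) = cont (Function.update w s (γ :: w s)) c := by
  unfold pushR cont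
  rw [map_mul, Frob_mon, Frob_Frob, ← mul_assoc, ← mon_add]
  congr 2
  · funext j
    by_cases h : j = s
    · subst h
      simp [dm, wval]
    · simp [dm, h]
  · congr 1
    funext j
    by_cases h : j = s
    · subst h
      simp [add_comm]
    · simp [h]

/-- multiplication by a monomial in a variable with empty word commutes with `cont w` -/
theorem cont_mul (w : V → List Γ') (m : Mon V) (hm : ∀ j, w j = [] ∨ m j = 0) (c : RR V) :
    cont w (mon m * c) = mon m * cont w c := by
  unfold cont
  rw [map_mul, Frob_mon]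
  have : (fun j => (16 ^ (w j).length : ℤ) • m j) = m := by
    funext j
    rcases hm j with h | h
    · simp [h]
    · simp [h]
  rw [this]
  ring

/-- cores relative to the set `J` of stack variables: `∏_{s∈J} g_{d_s}(x_s) · Frob 1_J h`, all `d_s` bottoms -/
def Core (J : Finset V) (c : RR V) : Prop :=
  ∃ (d : V → Fin 16) (h : RR V), (∀ s, symb (d s) = none) ∧
    c = mon (fun j => if j ∈ J then dexp (d j) else 0) * Frob (fun j => if j ∈ J then 1 else 0) h

theorem Core.mul {J : Finset V} {c : RR V} (hc : Core J c) (m : Mon V) (hm : ∀ j ∈ J, m j = 0) :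
    Core J (mon m * c) := by
  obtain ⟨d, h, hd, rfl⟩ := hc
  refine ⟨d, mon m * h, hd, ?_⟩
  rw [map_mul, Frob_mon]
  have : (fun j => (16 ^ (if j ∈ J then 1 else 0) : ℤ) • m j) = m := by
    funext j
    by_cases hj : j ∈ J
    · simp [hm j hj]
    · simp [hj]
  rw [this]
  ring

theorem cont_bottom {J : Finset V} {c : RR V} (hc : Core J c) (w : V → List Γ') (s : V)
    (hs : s ∈ J) (hw : w s = []) : ∃ (d : Fin 16) (r : RR V), symb d = none ∧ cont w c = pushR s d r := by
  obtain ⟨d, h, hd, rfl⟩ := hc
  let n : V → ℕ := fun j => (w j).length + (if j ∈ J then 1 else 0)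
  let m : Mon V := fun j => wval (w j) +
    (16 ^ (w j).length : ℤ) • (if j ∈ J then dexp (d j) else 0)
  refine ⟨d s, mon (Function.update m s 0) * Frob (Function.update n s 0) h, hd s, ?_⟩
  unfold pushR cont
  rw [map_mul, map_mul, Frob_mon, Frob_mon, Frob_Frob, Frob_Frob, ← mul_assoc, ← mul_assoc,
    ← mon_add, ← mon_add]
  congr 2
  · funext j
    by_cases h : j = s
    · subst h
      simp [dm, hs, hw, wval]
    · simp [dm, h, m]
  · congr 1
    funext j
    by_cases h : j = s
    · subst h
      simp [hs, hw]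
    · simp [h, n]

/-! ### spanning by pure contents -/

/-- exponent pairs of one-variable contents: a word of symbols on top of a bottom digit -/
def EER : Set (ℤ × ℤ) :=
  {e | ∃ (w : List Γ') (d : Fin 16) (h : ℤ × ℤ), symb d = none ∧
    e = wval w + (16 ^ w.length : ℤ) • (dexp d + (16 : ℤ) • h)}

theorem EE_bot {d : Fin 16} (hd : symb d = none) (h : ℤ × ℤ) : dexp d + (16 : ℤ) • h ∈ EER :=
  ⟨[], d, h, hd, by simp [wval]⟩

theorem EE_push (γ : Γ') {e : ℤ × ℤ} (he : e ∈ EER) : dexp (dg γ) + (16 : ℤ) • e ∈ EER := by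
  obtain ⟨w, d, h, hd, rfl⟩ := he
  refine ⟨γ :: w, d, h, hd, ?_⟩
  rw [wval, List.length_cons, pow_succ, mul_comm, mul_smul, smul_add (16 : ℤ) (wval w), add_assoc]

/-- the span of the one-variable contents -/
noncomputable def PPR (s : V) : AddSubgroup (RR V) :=
  AddSubgroup.closure {r : RR V | ∃ e ∈ EER, r = mon (Pi.single s e)}

theorem mon_mem_PP (s : V) {e : ℤ × ℤ} (he : e ∈ EER) : mon (Pi.single s e) ∈ PPR s :=
  AddSubgroup.subset_closure ⟨e, he, rfl⟩

theorem pushR_mon_single (s : V) (d : Fin 16) (e : ℤ × ℤ) :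
    pushR s d (mon (Pi.single s e)) = mon (Pi.single s (dexp d + (16 : ℤ) • e)) := by
  unfold pushR
  rw [Frob_mon, ← mon_add]
  congr 1
  funext j
  by_cases h : j = s
  · subst h; simp [dm]
  · simp [dm, h]

theorem pushR_zero (s : V) (d : Fin 16) : pushR s d (0 : RR V) = 0 := by
  unfold pushR; rw [map_zero, mul_zero]

theorem pushR_neg (s : V) (d : Fin 16) (r : RR V) : pushR s d (-r) = - pushR s d r := by
  rw [RR_neg, RR_neg]

theorem pushR_mem_PP (s : V) (d : Fin 16) {r : RR V} (hr : r ∈ PPR s) : pushR s d r ∈ PPR s := by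
  induction hr using AddSubgroup.closure_induction with
  | mem x hx =>
    obtain ⟨e, he, rfl⟩ := hx
    rw [pushR_mon_single]
    apply mon_mem_PP
    rcases hd : symb d with - | γ
    · exact EE_bot hd e
    · rw [symb_eq_some hd]
      exact EE_push γ he
  | zero => rw [pushR_zero]; exact zero_mem _
  | add x y _ _ hx hy => rw [pushR_add]; exact add_mem hx hy
  | neg x _ hx => rw [pushR_neg]; exact neg_mem hx

theorem mon_mul_neg (m : Mon V) : mon m * mon (-m) = 1 := by
  rw [← mon_add, add_neg_cancel, mon_zero]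

theorem geom15 (s : V) : mon (xm' s) ^ 15 = ∑ i ∈ Finset.range 16, mon (xm s) ^ i := by
  have h1 : mon (xm' s) * mon (xm' s) ^ 15 = 1 + mon (xm s) ^ 16 := by
    rw [← pow_succ', mon_xm']
    exact RR_one_add_pow _ 4
  have h2 : mon (xm' s) * ∑ i ∈ Finset.range 16, mon (xm s) ^ i = 1 + mon (xm s) ^ 16 := by
    have := mul_geom_sum (mon (xm s)) 16
    rw [sub_eq_add_neg, sub_eq_add_neg, RR_neg, add_comm (mon (xm s)) 1,
      add_comm (mon (xm s) ^ 16) 1, ← mon_xm'] at this
    exact this
  calc mon (xm' s) ^ 15 = (mon (xm' s) * mon (-xm' s)) * mon (xm' s) ^ 15 := by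
        rw [mon_mul_neg, one_mul]
    _ = mon (-xm' s) * (mon (xm' s) * mon (xm' s) ^ 15) := by ring
    _ = mon (-xm' s) * (mon (xm' s) * ∑ i ∈ Finset.range 16, mon (xm s) ^ i) := by rw [h1, h2]
    _ = (mon (xm' s) * mon (-xm' s)) * ∑ i ∈ Finset.range 16, mon (xm s) ^ i := by ring
    _ = _ := by rw [mon_mul_neg, one_mul]

theorem pow_mem_PP (s : V) {h : RR V} (hh : h ∈ PPR s) (i : ℕ) (hi : i < 16) :
    mon (xm s) ^ i * Frob (Pi.single s 1) h ∈ PPR s := by
  have key : ∀ i < 16, i ≠ 8 → mon (xm s) ^ i * Frob (Pi.single s 1) h ∈ PPR s := by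
    intro i hi h8
    have := pushR_mem_PP s ⟨i, hi⟩ hh
    unfold pushR at this
    have h1 : mon (dm s (⟨i, hi⟩ : Fin 16)) = mon (xm s) ^ i := by
      rw [← mon_nsmul]
      congr 1
      funext j
      by_cases hj : j = s
      · subst hj
        have : (⟨i, hi⟩ : Fin 16) ≠ 8 := fun h => h8 (by simpa using congrArg Fin.val h)
        simp [dm, dexp, xm, this]
      · simp [dm, xm, hj]
    rwa [h1] at this
  by_cases h8 : i = 8
  · subst h8
    have h1 := pushR_mem_PP s 8 hh
    unfold pushR at h1
    have h2 : mon (dm s (8 : Fin 16)) = mon (xm' s) ^ 15 := by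
      rw [← mon_nsmul]
      congr 1
      funext j
      by_cases hj : j = s
      · subst hj
        simp [dm, dexp, xm']
      · simp [dm, xm', hj]
    rw [h2, geom15, ← Finset.add_sum_erase _ _ (show 8 ∈ Finset.range 16 by simp), add_mul,
      Finset.sum_mul] at h1
    have h3 : ∑ i ∈ (Finset.range 16).erase 8, mon (xm s) ^ i * Frob (Pi.single s 1) h ∈ PPR s := by
      refine sum_mem fun i hi => ?_
      rw [Finset.mem_erase, Finset.mem_range] at hi
      exact key i hi.2 hi.1
    have := sub_mem h1 h3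
    rwa [add_sub_cancel_right] at this
  · exact key i hi h8

theorem step_mem_PP (s : V) {h : RR V} (hh : h ∈ PPR s) (hh' : mon (xm s) * h ∈ PPR s) (b : ℕ) :
    ∀ c : ℕ, c + b < 32 →
      mon (xm s) ^ c * mon (xm' s) ^ b * Frob (Pi.single s 1) h ∈ PPR s := by
  have hF : Frob (Pi.single s 1) (mon (xm s) * h) = mon (xm s) ^ 16 * Frob (Pi.single s 1) h := by
    rw [map_mul, Frob_mon]
    congr 1
    rw [← mon_nsmul]
    congr 1
    funext j
    by_cases hj : j = s
    · subst hj; simp [xm]
    · simp [xm, hj]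
  induction b with
  | zero =>
    intro c hc
    rw [pow_zero, mul_one]
    by_cases h16 : c < 16
    · exact pow_mem_PP s hh c h16
    · obtain ⟨i, rfl⟩ : ∃ i, c = i + 16 := ⟨c - 16, by omega⟩
      have := pow_mem_PP s hh' i (by omega)
      rw [hF] at this
      rwa [pow_add, mul_assoc]
  | succ b ih =>
    intro c hc
    have h1 := ih c (by omega)
    have h2 := ih (c + 1) (by omega)
    have h3 : mon (xm s) ^ c * mon (xm' s) ^ (b + 1) * Frob (Pi.single s 1) h
        = mon (xm s) ^ c * mon (xm' s) ^ b * Frob (Pi.single s 1) h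
          + mon (xm s) ^ (c + 1) * mon (xm' s) ^ b * Frob (Pi.single s 1) h := by
      rw [pow_succ (mon (xm' s))]
      nth_rewrite 2 [mon_xm']
      ring
    rw [h3]
    exact add_mem h1 h2

theorem single_mem_PP_aux (s : V) (N : ℕ) : ∀ a b : ℤ, -(N + 1) ≤ a → a ≤ N + 1 →
    -(N + 1) ≤ b → b ≤ N → mon (Pi.single s (a, b)) ∈ PPR s := by
  induction N with
  | zero =>
    intro a b h1 h2 h3 h4
    have m00 : mon (Pi.single s ((0 : ℤ), (0 : ℤ))) ∈ PPR s := by
      have := mon_mem_PP s (EE_bot (d := 0) (by decide) 0)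
      simpa [dexp] using this
    have m10 : mon (Pi.single s ((1 : ℤ), (0 : ℤ))) ∈ PPR s := by
      have := pushR_mem_PP s 1 m00
      rw [pushR_mon_single] at this
      simpa [dexp] using this
    have mm0 : mon (Pi.single s ((-1 : ℤ), (0 : ℤ))) ∈ PPR s := by
      have := mon_mem_PP s (EE_bot (d := 15) (by decide) (-1, 0))
      have h : dexp 15 + (16 : ℤ) • ((-1 : ℤ), (0 : ℤ)) = (-1, 0) := by decide
      rwa [h] at this
    have m0m : mon (Pi.single s ((0 : ℤ), (-1 : ℤ))) ∈ PPR s := by
      have := mon_mem_PP s (EE_bot (d := 8) (by decide) (0, -1))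
      have h : dexp 8 + (16 : ℤ) • ((0 : ℤ), (-1 : ℤ)) = (0, -1) := by decide
      rwa [h] at this
    have hx' := mon_xm' s
    have hs : ∀ a b a' b' : ℤ, mon (Pi.single s (a, b)) * mon (Pi.single s (a', b'))
        = mon (Pi.single s (a + a', b + b')) := fun a b a' b' => by
      rw [← mon_add, ← Pi.single_add]; rfl
    -- x/(1+x) = 1 + 1/(1+x)
    have hone : mon (Pi.single s ((0 : ℤ), (0 : ℤ))) = (1 : RR V) := by
      rw [show (((0 : ℤ), (0 : ℤ)) : ℤ × ℤ) = 0 from rfl, Pi.single_zero, mon_zero]
    have hrel : mon (Pi.single s ((0 : ℤ), (1 : ℤ)))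
        = mon (Pi.single s ((0 : ℤ), (0 : ℤ))) + mon (Pi.single s ((1 : ℤ), (0 : ℤ))) := by
      rw [hone]; exact hx'
    have m1m : mon (Pi.single s ((1 : ℤ), (-1 : ℤ))) ∈ PPR s := by
      have h := congrArg (fun r => r * mon (Pi.single s ((0 : ℤ), (-1 : ℤ)))) hrel
      simp only [add_mul, hs] at h
      norm_num at h
      -- h : M 0 0 = M 0 (-1) + M 1 (-1)
      have h2 : mon (Pi.single s ((1 : ℤ), (-1 : ℤ)))
          = mon (Pi.single s ((0 : ℤ), (0 : ℤ))) - mon (Pi.single s ((0 : ℤ), (-1 : ℤ))) := by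
        rw [show (((0 : ℤ), (0 : ℤ)) : ℤ × ℤ) = 0 from rfl] at h ⊢
        rw [Pi.single_zero] at h ⊢
        rw [h]; ring
      rw [h2]
      exact sub_mem m00 m0m
    have mmm : mon (Pi.single s ((-1 : ℤ), (-1 : ℤ))) ∈ PPR s := by
      have h := congrArg (fun r => r * mon (Pi.single s ((-1 : ℤ), (-1 : ℤ)))) hrel
      simp only [add_mul, hs] at h
      norm_num at h
      -- h : M (-1) 0 = M (-1) (-1) + M 0 (-1)
      have h2 : mon (Pi.single s ((-1 : ℤ), (-1 : ℤ)))
          = mon (Pi.single s ((-1 : ℤ), (0 : ℤ))) - mon (Pi.single s ((0 : ℤ), (-1 : ℤ))) := by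
        rw [h]; ring
      rw [h2]
      exact sub_mem mm0 m0m
    have ha : a = -1 ∨ a = 0 ∨ a = 1 := by push_cast at h1 h2; omega
    have hb : b = -1 ∨ b = 0 := by push_cast at h3 h4; omega
    rcases ha with rfl | rfl | rfl <;> rcases hb with rfl | rfl <;> assumption
  | succ N ih =>
    intro a b h1 h2 h3 h4
    push_cast at h1 h2 h3 h4
    have e1 := ih (a / 16) (b / 16) (by omega) (by omega) (by omega) (by omega)
    have e2 := ih (a / 16 + 1) (b / 16) (by omega) (by omega) (by omega) (by omega)
    have e3 : mon (xm s) * mon (Pi.single s (a / 16, b / 16)) ∈ PPR s := by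
      have : mon (xm s) * mon (Pi.single s (a / 16, b / 16))
          = mon (Pi.single s (a / 16 + 1, b / 16)) := by
        rw [← mon_add, xm, ← Pi.single_add]
        congr 2
        ext
        · simp [add_comm]
        · simp
      rwa [this]
    have h := step_mem_PP s e1 e3 (b % 16).toNat (a % 16).toNat (by omega)
    have : mon (xm s) ^ (a % 16).toNat * mon (xm' s) ^ (b % 16).toNat *
        Frob (Pi.single s 1) (mon (Pi.single s (a / 16, b / 16))) = mon (Pi.single s (a, b)) := by
      rw [← mon_nsmul, ← mon_nsmul, Frob_mon, ← mon_add, ← mon_add]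
      congr 1
      funext j
      by_cases hj : j = s
      · subst hj
        ext
        · simp [xm, xm']
          rw [max_eq_left (by omega)]
          omega
        · simp [xm, xm']
          rw [max_eq_left (by omega)]
          omega
      · simp [xm, xm', hj]
    rwa [this] at h

theorem single_mem_PPR (s : V) (e : ℤ × ℤ) : mon (Pi.single s e) ∈ PPR s := by
  obtain ⟨a, b⟩ := e
  refine single_mem_PP_aux s (a.natAbs + b.natAbs) a b ?_ ?_ ?_ ?_ <;> omega

theorem mon_mem_span (J : Finset V) : ∀ m : Mon V,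
    mon m ∈ AddSubgroup.closure {r : RR V | ∃ m' : Mon V, (∀ j ∈ J, m' j ∈ EER) ∧ r = mon m'} := by
  induction J using Finset.induction_on with
  | empty => intro m; exact AddSubgroup.subset_closure ⟨m, by simp, rfl⟩
  | insert s J hs ih =>
    intro m
    refine (AddSubgroup.closure_le _).2 ?_ (ih m)
    rintro _ ⟨m', hm', rfl⟩
    have h1 : mon m' = mon (Function.update m' s 0) * mon (Pi.single s (m' s)) := by
      rw [← mon_add]
      congr 1
      funext j
      by_cases hj : j = s
      · subst hj; simp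
      · simp [hj]
    rw [SetLike.mem_coe, h1]
    have h2 := single_mem_PPR s (m' s)
    unfold PPR at h2
    generalize mon (Pi.single s (m' s)) = r at h2
    induction h2 using AddSubgroup.closure_induction with
    | mem x hx =>
      obtain ⟨e, he, rfl⟩ := hx
      apply AddSubgroup.subset_closure
      refine ⟨Function.update m' s e, ?_, ?_⟩
      · intro j hj
        by_cases hjs : j = s
        · subst hjs; simpa using he
        · rw [Function.update_of_ne hjs]
          exact hm' j ((Finset.mem_insert.1 hj).resolve_left hjs)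
      · rw [← mon_add]
        congr 1
        funext j
        by_cases hj : j = s
        · subst hj; simp
        · simp [hj]
    | zero => rw [mul_zero]; exact zero_mem _
    | add x y _ _ hx hy => rw [mul_add]; exact add_mem hx hy
    | neg x _ hx => rw [RR_neg]; exact hx

theorem mon_eq_cont (J : Finset V) (m : Mon V) (hm : ∀ j ∈ J, m j ∈ EER) :
    ∃ (w : V → List Γ') (c : RR V), (∀ j, j ∉ J → w j = []) ∧ Core J c ∧ mon m = cont w c := by
  classical
  have : ∀ j, ∃ (w : List Γ') (d : Fin 16) (h : ℤ × ℤ), symb d = none ∧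
      (j ∈ J → m j = wval w + (16 ^ w.length : ℤ) • (dexp d + (16 : ℤ) • h)) ∧
      (j ∉ J → w = [] ∧ h = m j) := by
    intro j
    by_cases hj : j ∈ J
    · obtain ⟨w, d, h, hd, he⟩ := hm j hj
      exact ⟨w, d, h, hd, fun _ => he, fun h => absurd hj h⟩
    · exact ⟨[], 0, m j, by decide, fun h => absurd h hj, fun _ => ⟨rfl, rfl⟩⟩
  choose w d h hd h1 h2 using this
  refine ⟨w, mon (fun j => if j ∈ J then dexp (d j) else 0) *
    Frob (fun j => if j ∈ J then 1 else 0) (mon h), fun j hj => (h2 j hj).1,
    ⟨d, mon h, hd, rfl⟩, ?_⟩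
  unfold cont
  rw [map_mul, Frob_mon, Frob_mon, Frob_mon, ← mon_add, ← mon_add]
  congr 1
  funext j
  by_cases hj : j ∈ J
  · rw [h1 j hj]
    simp [hj]
  · obtain ⟨hw, hh⟩ := h2 j hj
    simp [hj, hw, hh, wval]

/-- every element is a sum of pure contents -/
theorem cont_span [Fintype V] (J : Finset V) (r : RR V) :
    r ∈ AddSubgroup.closure {f : RR V | ∃ (w : V → List Γ') (c : RR V),
      (∀ j, j ∉ J → w j = []) ∧ Core J c ∧ f = cont w c} := by
  induction r using mon_induction with
  | h0 => exact zero_mem _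
  | hadd r r' h h' => exact add_mem h h'
  | hmon m =>
    refine (AddSubgroup.closure_le _).2 ?_ (mon_mem_span J m)
    rintro _ ⟨m', hm', rfl⟩
    obtain ⟨w, c, hw, hc, he⟩ := mon_eq_cont J m' hm'
    exact AddSubgroup.subset_closure ⟨w, c, hw, hc, he⟩

end ring

end Pool.Agent.SolIndex
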