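import Mathlib
import Pool.Agent.SolIndex.Ring

/-!
Generators, relators, machine rules, `Sat`, `Grp`.
`ι` = stacks, `S` = machine states, `ρ` = indices of the machine rules (all finite).
-/

set_option autoImplicit false

namespace Pool.Agent.SolIndex

open Turing.PartrecToTM2 (Γ')
open scoped commutatorElement

/-! ### machine rules -/

/-- machine rules -/
inductive Rule (S ι : Type)
  | jump (a b : S) (k n : ℕ)
  | kill (a : S)
  | push (a : S) (s : ι) (γ : Γ') (b : S)
  | pop (a : S) (s : ι) (f : Option Γ' → S)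

variable {ι S ρ : Type} [DecidableEq ι]

/-- `Reach rule a w k n b w'`: the rules lead from `(a, w)` to `(b, w')` with weight `κ^k ν^n`. -/
inductive Reach (rule : ρ → Rule S ι) :
    S → (ι → List Γ') → ℕ → ℕ → S → (ι → List Γ') → Prop
  | refl (a : S) (w : ι → List Γ') : Reach rule a w 0 0 a w
  | jump {i a b k n k' n' c w w'} : rule i = .jump a b k n → Reach rule b w k' n' c w' →
      Reach rule a w (k + k') (n + n') c w'
  | push {i a s γ b k n c w w'} : rule i = .push a s γ b →
      Reach rule b (Function.update w s (γ :: w s)) k n c w' → Reach rule a w k n c w'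
  | popc {i a s f γ l k n c w w'} : rule i = .pop a s f → w s = γ :: l →
      Reach rule (f (some γ)) (Function.update w s l) k n c w' → Reach rule a w k n c w'
  | popn {i a s f k n c w w'} : rule i = .pop a s f → w s = [] →
      Reach rule (f none) w k n c w' → Reach rule a w k n c w'

/-- the configuration runs to a kill -/
def Killed (rule : ρ → Rule S ι) (a : S) (w : ι → List Γ') : Prop :=
  ∃ k n c w' i, Reach rule a w k n c w' ∧ rule i = .kill c

/-- potentials on configurations -/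
structure Pot {K : Type} [Field K] (rule : ρ → Rule S ι) (κ ν : K)
    (Λ : S → (ι → List Γ') → K) : Prop where
  jump : ∀ i a b k n, rule i = .jump a b k n → ∀ w, Λ a w = κ ^ k * ν ^ n * Λ b w
  kill : ∀ i a, rule i = .kill a → ∀ w, Λ a w = 0
  push : ∀ i a s γ b, rule i = .push a s γ b → ∀ w, Λ a w = Λ b (Function.update w s (γ :: w s))
  popc : ∀ i a s f, rule i = .pop a s f → ∀ w γ l, w s = γ :: l →
    Λ a w = Λ (f (some γ)) (Function.update w s l)
  popn : ∀ i a s f, rule i = .pop a s f → ∀ w, w s = [] → Λ a w = Λ (f none) w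

/-- what the machine does. `gtot`, `ytot` = number of tokens on the `G`, resp. `Y` stacks. -/
structure Mach (rule : ρ → Rule S ι) (H : S) (gtot ytot : (ι → List Γ') → ℕ)
    (Dead : ℕ → ℕ → Prop) : Prop where
  term : ∀ a w, Killed rule a w ∨ ∃ k n w', Reach rule a w k n H w'
  dead : ∀ w, Dead (gtot w) (ytot w) → Killed rule H w
  yrun : ∀ w, ∃ w', Reach rule H w (ytot w) 0 H w' ∧ Reach rule H w' (ytot w) 0 H w'
  grun : ∀ w, ∃ w', Reach rule H w 0 (gtot w) H w' ∧ Reach rule H w' 0 (gtot w) H w'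
  pot : ∀ (K : Type) [Field K] (κ ν : K) (g y : ℕ), ¬ Dead g y → κ ^ y = 1 → ν ^ g = 1 →
    ∃ Λ : S → (ι → List Γ') → K, Pot rule κ ν Λ ∧ ∀ w, ytot w = y → gtot w = g → Λ H w = 1
  surj : ∀ g y, ∃ w, gtot w = g ∧ ytot w = y

/-! ### generators -/

/-- variables of the ring: one per stack, and `κ`, `κ₃`, `ν` -/
inductive Vr (ι : Type)
  | st (s : ι)
  | kap
  | kap3
  | nu
  deriving DecidableEq, Fintype

/-- letters (torus generators) -/
inductive Lt (ι : Type)
  | x0
  | x0'
  | x1 (j : Vr ι)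
  | x1' (j : Vr ι)
  | x2 (j : Vr ι)
  | x2' (j : Vr ι)
  deriving DecidableEq, Fintype

/-- symbols -/
inductive Sy (S ι : Type)
  | v
  | u (a : S) (o : Option ι)
  | w
  deriving DecidableEq

/-- generators of the group: letters, and four by four copies of the symbols -/
inductive Gn (S ι : Type)
  | lt (l : Lt ι)
  | sy (g : Sy S ι) (α β : Fin 4)
  deriving DecidableEq

/-- level of the source of a symbol -/
def Sy.lev : Sy S ι → ZMod 3
  | .v => 0
  | .u _ _ => 1
  | .w => 2

/-- the exponent: 16 for the twisted variable -/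
def tw (o : Option ι) (j : Vr ι) : ℤ :=
  match o, j with
  | some s, .st t => if s = t then 16 else 1
  | _, _ => 1

/-- action of a letter on a symbol, as multiplication by a monomial -/
def act : Sy S ι → Lt ι → Mon (Vr ι)
  | .v, .x0 => - xm .kap
  | .v, .x0' => - xm' .kap
  | .v, .x1 j => xm j
  | .v, .x1' j => xm' j
  | .v, .x2 _ => 0
  | .v, .x2' _ => 0
  | .u _ _, .x0 => 0
  | .u _ _, .x0' => 0
  | .u _ o, .x1 j => - (tw o j) • xm j
  | .u _ o, .x1' j => - (tw o j) • xm' j
  | .u _ _, .x2 j => xm j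
  | .u _ _, .x2' j => xm' j
  | .w, .x0 => xm .kap3
  | .w, .x0' => xm' .kap3
  | .w, .x1 _ => 0
  | .w, .x1' _ => 0
  | .w, .x2 j => - xm j
  | .w, .x2' j => - xm' j

/-- primary letters of a symbol: exponent vector of letters acting as the monomial `m` -/
def sec : Sy S ι → Mon (Vr ι) → Lt ι → ℤ
  | .v, m, .x1 j => (m j).1
  | .v, m, .x1' j => (m j).2
  | .u _ _, m, .x2 j => (m j).1
  | .u _ _, m, .x2' j => (m j).2
  | .w, m, .x2 j => - (m j).1
  | .w, m, .x2' j => - (m j).2
  | _, _, _ => 0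

variable {G : Type*} [Group G]

/-- evaluate an exponent vector of letters -/
noncomputable def ev [Fintype ι] (φ : Gn S ι → G) (d : Lt ι → ℤ) : G :=
  ((Finset.univ : Finset (Lt ι)).toList.map fun l => φ (.lt l) ^ d l).prod

/-- the symbol `g_{αβ}` acted on by the monomial `m` -/
noncomputable def sg [Fintype ι] (φ : Gn S ι → G) (g : Sy S ι) (m : Mon (Vr ι)) (α β : Fin 4) : G :=
  ev φ (sec g m) * φ (.sy g α β) * (ev φ (sec g m))⁻¹

/-- the basic adjacent pairs `(m·g, g')` -/
inductive Junc (S ι : Type)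
  | vu (a : S) (o : Option ι)
  | uw (a : S) (o : Option ι) (i : Fin 16)
  | wv

def Junc.fst : Junc S ι → Sy S ι
  | .vu _ _ => .v
  | .uw a o _ => .u a o
  | .wv => .w

def Junc.snd : Junc S ι → Sy S ι
  | .vu a o => .u a o
  | .uw _ _ _ => .w
  | .wv => .v

def Junc.mn : Junc S ι → Mon (Vr ι)
  | .uw _ (some s) i => ((i : ℕ) : ℤ) • xm (.st s)
  | _ => 0

/-- letter centralising the bottom commutators of a junction -/
def Junc.bal : Junc S ι → Lt ι
  | .vu _ _ => .x1 .kap
  | .uw _ _ _ => .x2 .kap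
  | .wv => .x0

/-- indices of the relators (except the one depending on `k`) -/
inductive RelIx (S ι ρ : Type)
  | comm (l l' : Lt ι)
  | inv (g : Sy S ι) (α β : Fin 4)
  | act (g : Sy S ι) (α β : Fin 4) (l : Lt ι)
  | bs (g : Sy S ι) (α β : Fin 4) (j : Vr ι)
  | k3 (α β : Fin 4)
  | same (g g' : Sy S ι) (α β α' β' : Fin 4) (n : Vr ι → Fin 3)
  | adj (J : Junc S ι) (α β β' γ : Fin 4)
  | indep (J : Junc S ι) (α β β' γ : Fin 4)
  | bal (J : Junc S ι) (α β γ : Fin 4)
  | ptype (a : S) (s : ι) (α β γ : Fin 4)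
  | rule (i : ρ) (d : Fin 16) (α β γ : Fin 4)

open Classical in
/-- left and right hand sides of the relations, evaluated in a group -/
noncomputable def sides [Fintype ι] (rule : ρ → Rule S ι) (φ : Gn S ι → G) : RelIx S ι ρ → G × G
  | .comm l l' => (φ (.lt l) * φ (.lt l'), φ (.lt l') * φ (.lt l))
  | .inv g α β => (φ (.sy g α β) * φ (.sy g α β), 1)
  | .act g α β l => (φ (.lt l) * φ (.sy g α β) * (φ (.lt l))⁻¹, sg φ g (act g l) α β)
  | .bs g α β j => (sg φ g (xm' j) α β, φ (.sy g α β) * sg φ g (xm j) α β)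
  | .k3 α β => (sg φ .w (xm .kap3) α β, sg φ .w ((3 : ℤ) • xm .kap) α β)
  | .same g g' α β α' β' n =>
      if g.lev = g'.lev then
        (φ (.sy g α β) * sg φ g' (fun j => (((n j : ℕ) : ℤ) - 1, 0)) α' β',
          sg φ g' (fun j => (((n j : ℕ) : ℤ) - 1, 0)) α' β' * φ (.sy g α β))
      else (1, 1)
  | .adj J α β β' γ =>
      if β = β' then (1, 1) else
        (sg φ J.fst J.mn α β * φ (.sy J.snd β' γ), φ (.sy J.snd β' γ) * sg φ J.fst J.mn α β)
  | .indep J α β β' γ =>
      (⁅sg φ J.fst J.mn α β, φ (.sy J.snd β γ)⁆, ⁅sg φ J.fst J.mn α β', φ (.sy J.snd β' γ)⁆)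
  | .bal J α β γ =>
      (φ (.lt J.bal) * ⁅sg φ J.fst J.mn α β, φ (.sy J.snd β γ)⁆,
        ⁅sg φ J.fst J.mn α β, φ (.sy J.snd β γ)⁆ * φ (.lt J.bal))
  | .ptype a s α β γ =>
      (⁅φ (.sy .v α β), φ (.sy (.u a none) β γ)⁆, ⁅φ (.sy .v α β), φ (.sy (.u a (some s)) β γ)⁆)
  | .rule i d α β γ =>
      match rule i with
      | .jump a b k n =>
          (⁅φ (.sy .v α β), φ (.sy (.u a none) β γ)⁆,
            ⁅φ (.sy .v α β), sg φ (.u b none) ((k : ℤ) • xm .kap + (n : ℤ) • xm .nu) β γ⁆)
      | .kill a => (⁅φ (.sy .v α β), φ (.sy (.u a none) β γ)⁆, 1)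
      | .push a s g b =>
          (⁅φ (.sy (.u a none) α β), φ (.sy .w β γ)⁆,
            ⁅sg φ (.u b (some s)) (dm (.st s) (dg g)) α β, φ (.sy .w β γ)⁆)
      | .pop a s f =>
          (⁅sg φ (.u a (some s)) (dm (.st s) d) α β, φ (.sy .w β γ)⁆,
            match symb d with
            | some g => ⁅φ (.sy (.u (f (some g)) none) α β), φ (.sy .w β γ)⁆
            | none => ⁅sg φ (.u (f none) (some s)) (dm (.st s) d) α β, φ (.sy .w β γ)⁆)

/-- all relations (except the one depending on `k`) hold -/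
def Sat [Fintype ι] (rule : ρ → Rule S ι) (φ : Gn S ι → G) : Prop :=
  ∀ r : RelIx S ι ρ, (sides rule φ r).1 = (sides rule φ r).2

/-- the relators -/
noncomputable def relators [Fintype ι] (rule : ρ → Rule S ι) : Set (FreeGroup (Gn S ι)) :=
  Set.range fun r : RelIx S ι ρ =>
    (sides rule FreeGroup.of r).1 * ((sides rule FreeGroup.of r).2)⁻¹

/-- the relator depending on `k`: `x2_ν ^ F = 1` -/
def nuRel (S ι : Type) (F : ℕ) : FreeGroup (Gn S ι) := FreeGroup.of (.lt (.x2 .nu)) ^ F

/-- the group -/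
abbrev Grp [Fintype ι] (rule : ρ → Rule S ι) (F : ℕ) : Type :=
  PresentedGroup (insert (nuRel S ι F) (relators rule))

/-- the canonical generators in `Grp` -/
noncomputable def gen [Fintype ι] (rule : ρ → Rule S ι) (F : ℕ) (g : Gn S ι) : Grp rule F :=
  PresentedGroup.of g

end Pool.Agent.SolIndex
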