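import Mathlib
import Pool.Agent.SolIndex.Defs

/-!
Definitions: systems `τ` and the data `UpData`.
-/

set_option autoImplicit false

namespace Pool.Agent.SolIndex

open Turing.PartrecToTM2 (Γ')
open scoped commutatorElement

variable {ι S ρ : Type} [DecidableEq ι]

/-- `x_κ`, `x_{κ₃}`, `x_ν`, in the ring -/
noncomputable def Xk : RR (Vr ι) := mon (xm .kap)
noncomputable def Xk3 : RR (Vr ι) := mon (xm .kap3)
noncomputable def Xn : RR (Vr ι) := mon (xm .nu)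

/-- additive systems satisfying the machine relations -/
structure TauSys {G : Type*} [Group G] (rule : ρ → Rule S ι) (F : ℕ)
    (τ : S → RR (Vr ι) → G) : Prop where
  add : ∀ a r r', τ a (r + r') = τ a r * τ a r'
  jump : ∀ i a b k n, rule i = .jump a b k n → ∀ r, τ a r = τ b (Xk ^ k * Xn ^ n * r)
  kill : ∀ i a, rule i = .kill a → ∀ r, τ a r = 1
  push : ∀ i a s γ b, rule i = .push a s γ b → ∀ r, τ a r = τ b (pushR (.st s) (dg γ) r)
  popc : ∀ i a s f, rule i = .pop a s f → ∀ γ r, τ a (pushR (.st s) (dg γ) r) = τ (f (some γ)) r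
  popn : ∀ i a s f, rule i = .pop a s f → ∀ d r, symb d = none →
    τ a (pushR (.st s) d r) = τ (f none) (pushR (.st s) d r)
  nu : ∀ a r, τ a (Xn ^ F * r) = τ a r

/-- everything the upper part needs about a group satisfying the relations -/
structure UpData {G : Type*} [Group G] (rule : ρ → Rule S ι) (F : ℕ)
    (lt : Lt ι → G) (xx : Sy S ι → Fin 4 → Fin 4 → RR (Vr ι) → G) : Prop where
  lt_comm : ∀ l l', Commute (lt l) (lt l')
  add : ∀ g α β r r', xx g α β (r + r') = xx g α β r * xx g α β r'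
  conj : ∀ g α β l r, lt l * xx g α β r * (lt l)⁻¹ = xx g α β (mon (act g l) * r)
  same : ∀ (g g' : Sy S ι) α β α' β' r r', g.lev = g'.lev →
    Commute (xx g α β r) (xx g' α' β' r')
  adj : ∀ (g g' : Sy S ι) α β β' γ r r', g'.lev = g.lev + 1 → β ≠ β' →
    Commute (xx g α β r) (xx g' β' γ r')
  indep : ∀ (g g' : Sy S ι) α β β' γ r r', g'.lev = g.lev + 1 →
    ⁅xx g α β r, xx g' β γ r'⁆ = ⁅xx g α β' r, xx g' β' γ r'⁆
  bal_vu : ∀ a o α β γ r r', ⁅xx .v α β (Xk * r), xx (.u a o) β γ r'⁆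
    = ⁅xx .v α β r, xx (.u a o) β γ (Xk * r')⁆
  bal_uw : ∀ a o α β γ r r', ⁅xx (.u a o) α β (Xk * r), xx .w β γ r'⁆
    = ⁅xx (.u a o) α β r, xx .w β γ (Xk * r')⁆
  bal_wv : ∀ α β γ r r', ⁅xx .w α β (Xk3 * r), xx .v β γ r'⁆
    = ⁅xx .w α β r, xx .v β γ (Xk * r')⁆
  k3 : ∀ α β r, xx .w α β (Xk3 * r) = xx .w α β (Xk ^ 3 * r)
  ptype : ∀ a s α β γ r, ⁅xx .v α β 1, xx (.u a none) β γ r⁆
    = ⁅xx .v α β 1, xx (.u a (some s)) β γ r⁆
  jump : ∀ i a b k n, rule i = .jump a b k n → ∀ α β γ r,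
    ⁅xx .v α β 1, xx (.u a none) β γ r⁆ = ⁅xx .v α β 1, xx (.u b none) β γ (Xk ^ k * Xn ^ n * r)⁆
  kill : ∀ i a, rule i = .kill a → ∀ α β γ r, ⁅xx .v α β 1, xx (.u a none) β γ r⁆ = 1
  push : ∀ i a s g b, rule i = .push a s g b → ∀ α β γ r,
    ⁅xx (.u a none) α β r, xx .w β γ 1⁆ = ⁅xx (.u b (some s)) α β (pushR (.st s) (dg g) r), xx .w β γ 1⁆
  popc : ∀ i a s f, rule i = .pop a s f → ∀ g α β γ r,
    ⁅xx (.u a (some s)) α β (pushR (.st s) (dg g) r), xx .w β γ 1⁆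
      = ⁅xx (.u (f (some g)) none) α β r, xx .w β γ 1⁆
  popn : ∀ i a s f, rule i = .pop a s f → ∀ d, symb d = none → ∀ α β γ r,
    ⁅xx (.u a (some s)) α β (pushR (.st s) d r), xx .w β γ 1⁆
      = ⁅xx (.u (f none) (some s)) α β (pushR (.st s) d r), xx .w β γ 1⁆
  nu : ∀ a o α β r, xx (.u a o) α β (Xn ^ F * r) = xx (.u a o) α β r

end Pool.Agent.SolIndex
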