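import Mathlib
import Pool.Agent.SolIndex.TauDefs
import Pool.Agent.SolIndex.Steinberg

/-!
WP5: the chain argument and solvability.
-/

set_option autoImplicit false

namespace Pool.Agent.SolIndex

open Turing.PartrecToTM2 (Γ')
open scoped commutatorElement

variable {ι S ρ : Type} [DecidableEq ι]

namespace Chain

variable {G : Type*} [Group G]

/-- arrow labels -/
abbrev Lab (S ι : Type) [DecidableEq ι] := Sy S ι × RR (Vr ι)

/-- the arrows: wrong types are sent to `1` -/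
noncomputable def arr (xx : Sy S ι → Fin 4 → Fin 4 → RR (Vr ι) → G) :
    ZMod 3 → Fin 4 → Fin 4 → Lab S ι → G :=
  fun i α β a => if a.1.lev = i then xx a.1 α β a.2 else 1

variable {rule : ρ → Rule S ι} {F : ℕ} {lt : Lt ι → G}
  {xx : Sy S ι → Fin 4 → Fin 4 → RR (Vr ι) → G}

theorem stein (hU : UpData rule F lt xx) : Stein (arr xx) where
  same i α β α' β' a b := by
    unfold arr
    split_ifs with h1 h2
    · exact hU.same _ _ _ _ _ _ _ _ (h1.trans h2.symm)
    · exact Commute.one_right _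
    · exact Commute.one_left _
    · exact Commute.one_left _
  adj i α β β' γ a b hne := by
    unfold arr
    split_ifs with h1 h2
    · exact hU.adj _ _ _ _ _ _ _ _ (by rw [h1, h2]) hne
    · exact Commute.one_right _
    · exact Commute.one_left _
    · exact Commute.one_left _
  indep i α β β' γ a b := by
    unfold arr
    split_ifs with h1 h2
    · exact hU.indep _ _ _ _ _ _ _ _ (by rw [h1, h2])
    · simp
    · simp
    · simp

theorem arr_add (hU : UpData rule F lt xx) (g : Sy S ι) (r r' : RR (Vr ι)) (i : ZMod 3)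
    (α β : Fin 4) : arr xx i α β (g, r + r') = arr xx i α β (g, r) * arr xx i α β (g, r') := by
  unfold arr
  dsimp only
  split_ifs with h
  · exact hU.add _ _ _ _ _
  · simp

/-- transporting an identity of junctions to `arr` -/
theorem junc {g g' h h' : Sy S ι} {r r' s s' : RR (Vr ι)} (hg : g.lev = h.lev)
    (hg' : g'.lev = h'.lev)
    (e : ∀ α β γ, ⁅xx g α β r, xx g' β γ r'⁆ = ⁅xx h α β s, xx h' β γ s'⁆)
    (i : ZMod 3) (α β γ : Fin 4) :
    ⁅arr xx i α β (g, r), arr xx (i + 1) β γ (g', r')⁆ =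
      ⁅arr xx i α β (h, s), arr xx (i + 1) β γ (h', s')⁆ := by
  unfold arr
  dsimp only
  rw [hg, hg']
  split_ifs with h1 h2
  · exact e _ _ _
  · simp
  · simp
  · simp

section moves

variable (hU : UpData rule F lt xx)
include hU

/-- moving a factor to the left across a junction -/
theorem move {g g' : Sy S ι} {X Y : RR (Vr ι)}
    (e : ∀ α β γ r r', ⁅xx g α β (Y * r), xx g' β γ r'⁆ = ⁅xx g α β r, xx g' β γ (X * r')⁆)
    (N : ℕ) (i : ZMod 3) (α β : Fin 4) (P M : List (Lab S ι)) (b c : RR (Vr ι))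
    (hoff : Off (P.length + (M.length + 2)) α β) :
    XX (arr xx) i α β (P ++ (g, b) :: (g', (1 + X ^ N) * c) :: M) =
      XX (arr xx) i α β (P ++ (g, (1 + Y ^ N) * b) :: (g', c) :: M) := by
  have hs := stein hU
  have eN : ∀ N : ℕ, ∀ α β γ r r',
      ⁅xx g α β (Y ^ N * r), xx g' β γ r'⁆ = ⁅xx g α β r, xx g' β γ (X ^ N * r')⁆ := by
    intro N
    induction N with
    | zero => intro α β γ r r'; simp
    | succ N ih =>
      intro α β γ r r'
      rw [pow_succ, mul_assoc, ih, e, ← mul_assoc, ← pow_succ']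
  have hl : ∀ u v : Lab S ι, Off (P ++ u :: v :: M).length α β := by
    intro u v
    simpa [add_assoc] using hoff
  have hl2 : ∀ u v : Lab S ι, Off ((P ++ [u]) ++ v :: M).length α β := by
    intro u v
    simpa [add_assoc, add_comm, add_left_comm] using hl u v
  have e1 : XX (arr xx) i α β (P ++ (g, b) :: (g', (1 + X ^ N) * c) :: M) =
      XX (arr xx) i α β (P ++ (g, b) :: (g', c) :: M) *
        XX (arr xx) i α β (P ++ (g, b) :: (g', X ^ N * c) :: M) := by
    have := XX_add hs i α β (P ++ [(g, b)]) M (g', c) (g', X ^ N * c) (g', (1 + X ^ N) * c)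
      (fun j γ δ => by rw [← arr_add hU]; congr 2; ring) (hl2 _ _)
    simpa using this
  have e2 : XX (arr xx) i α β (P ++ (g, (1 + Y ^ N) * b) :: (g', c) :: M) =
      XX (arr xx) i α β (P ++ (g, b) :: (g', c) :: M) *
        XX (arr xx) i α β (P ++ (g, Y ^ N * b) :: (g', c) :: M) :=
    XX_add hs i α β P ((g', c) :: M) (g, b) (g, Y ^ N * b) (g, (1 + Y ^ N) * b)
      (fun j γ δ => by rw [← arr_add hU]; congr 2; ring) (hl _ _)
  have e3 : XX (arr xx) i α β (P ++ (g, b) :: (g', X ^ N * c) :: M) =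
      XX (arr xx) i α β (P ++ (g, Y ^ N * b) :: (g', c) :: M) :=
    XX_swap hs i α β P M _ _ _ _ (fun γ δ ε =>
      junc rfl rfl (fun α β γ => (eN N α β γ b c).symm) _ _ _ _) (hl _ _)
  rw [e1, e2, e3]

theorem k3_pow (N : ℕ) (α β : Fin 4) (r : RR (Vr ι)) :
    xx .w α β (Xk3 ^ N * r) = xx .w α β (Xk ^ (3 * N) * r) := by
  induction N generalizing r with
  | zero => simp
  | succ N ih =>
    rw [pow_succ, mul_assoc, ih, ← mul_assoc, mul_comm _ (Xk3 : RR (Vr ι)), mul_assoc, hU.k3,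
      ← mul_assoc, ← pow_add]
    congr 2
    ring

theorem k3_path (N : ℕ) (i : ZMod 3) (α β : Fin 4) (P M : List (Lab S ι)) (c : RR (Vr ι)) :
    XX (arr xx) i α β (P ++ (.w, (1 + Xk3 ^ N) * c) :: M) =
      XX (arr xx) i α β (P ++ (.w, (1 + Xk ^ (3 * N)) * c) :: M) := by
  refine XX_replace i α β P M _ _ fun j γ δ => ?_
  have e1 : ((.w, (1 + Xk3 ^ N) * c) : Lab S ι) = (.w, c + Xk3 ^ N * c) := by congr 1; ring
  have e2 : ((.w, (1 + Xk ^ (3 * N)) * c) : Lab S ι) = (.w, c + Xk ^ (3 * N) * c) := by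
    congr 1; ring
  rw [e1, e2, arr_add hU, arr_add hU]
  congr 1
  unfold arr
  dsimp only
  split_ifs
  · exact k3_pow hU N γ δ c
  · rfl

end moves

section torsion

variable (hU : UpData rule F lt xx)

/-- a block -/
noncomputable def blk (xx : Sy S ι → Fin 4 → Fin 4 → RR (Vr ι) → G) (α β : Fin 4) (a : S)
    (o : Option ι) (r₁ r₂ r₃ : RR (Vr ι)) : G :=
  XX (arr xx) 0 α β [(.v, r₁), (.u a o, r₂), (.w, r₃)]

include hU

theorem xx_zero (g : Sy S ι) (α β : Fin 4) : xx g α β 0 = 1 := by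
  have := hU.add g α β 0 0
  rw [add_zero] at this
  exact left_eq_mul.1 this

theorem blk_vu {α β : Fin 4} (hαβ : α ≠ β) {a a' : S} {o o' : Option ι}
    {r₁ r₁' r₂ r₂' : RR (Vr ι)} (r₃ : RR (Vr ι))
    (e : ∀ α β γ, ⁅xx .v α β r₁, xx (.u a o) β γ r₂⁆ = ⁅xx .v α β r₁', xx (.u a' o') β γ r₂'⁆) :
    blk xx α β a o r₁ r₂ r₃ = blk xx α β a' o' r₁' r₂' r₃ :=
  XX_swap (stein hU) 0 α β [] [(.w, r₃)] _ _ _ _ (fun _ _ _ =>
    junc (g := .v) (h := .v) (g' := .u a o) (h' := .u a' o') rfl rfl e _ _ _ _)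
    (off_of_ne hαβ)

theorem blk_uw {α β : Fin 4} (hαβ : α ≠ β) {a a' : S} {o o' : Option ι} (r₁ : RR (Vr ι))
    {r₂ r₂' r₃ r₃' : RR (Vr ι)}
    (e : ∀ α β γ, ⁅xx (.u a o) α β r₂, xx .w β γ r₃⁆ = ⁅xx (.u a' o') α β r₂', xx .w β γ r₃'⁆) :
    blk xx α β a o r₁ r₂ r₃ = blk xx α β a' o' r₁ r₂' r₃' :=
  XX_swap (stein hU) 0 α β [(.v, r₁)] [] _ _ _ _ (fun _ _ _ =>
    junc (g := .u a o) (h := .u a' o') (g' := .w) (h' := .w) rfl rfl e _ _ _ _)
    (off_of_ne hαβ)

theorem blk_add₁ {α β : Fin 4} (hαβ : α ≠ β) (a : S) (o : Option ι) (r r' r₂ r₃ : RR (Vr ι)) :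
    blk xx α β a o (r + r') r₂ r₃ = blk xx α β a o r r₂ r₃ * blk xx α β a o r' r₂ r₃ :=
  XX_add (stein hU) 0 α β [] _ _ _ _ (fun _ _ _ => arr_add hU _ _ _ _ _ _) (off_of_ne hαβ)

theorem blk_add₂ {α β : Fin 4} (hαβ : α ≠ β) (a : S) (o : Option ι) (r₁ r r' r₃ : RR (Vr ι)) :
    blk xx α β a o r₁ (r + r') r₃ = blk xx α β a o r₁ r r₃ * blk xx α β a o r₁ r' r₃ :=
  XX_add (stein hU) 0 α β [(.v, r₁)] _ _ _ _ (fun _ _ _ => arr_add hU _ _ _ _ _ _) (off_of_ne hαβ)

theorem blk_add₃ {α β : Fin 4} (hαβ : α ≠ β) (a : S) (o : Option ι) (r₁ r₂ r r' : RR (Vr ι)) :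
    blk xx α β a o r₁ r₂ (r + r') = blk xx α β a o r₁ r₂ r * blk xx α β a o r₁ r₂ r' :=
  XX_add (stein hU) 0 α β [(.v, r₁), (.u a o, r₂)] _ _ _ _ (fun _ _ _ => arr_add hU _ _ _ _ _ _)
    (off_of_ne hαβ)

theorem blk_zero₂ {α β : Fin 4} (hαβ : α ≠ β) (a : S) (o : Option ι) (r₁ r₃ : RR (Vr ι)) :
    blk xx α β a o r₁ 0 r₃ = 1 := by
  have := blk_add₂ hU hαβ a o r₁ 0 0 r₃
  rw [add_zero] at this
  exact left_eq_mul.1 this

/-- the basic additive system -/
theorem tau {α β : Fin 4} (hαβ : α ≠ β) :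
    TauSys rule F (fun a r => blk xx α β a none 1 r 1) where
  add a r r' := blk_add₂ hU hαβ a none 1 r r' 1
  jump i a b k n hr r := blk_vu hU hαβ 1 fun α β γ => hU.jump i a b k n hr α β γ r
  kill i a hr r := by
    show blk xx α β a none 1 r 1 = 1
    rw [← blk_zero₂ hU hαβ a none 1 1]
    exact blk_vu hU hαβ 1 fun α β γ => by
      rw [hU.kill i a hr α β γ r, hU.kill i a hr α β γ 0]
  push i a s γ b hr r := by
    show blk xx α β a none 1 r 1 = blk xx α β b none 1 (pushR (.st s) (dg γ) r) 1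
    rw [blk_uw hU hαβ 1 fun α β γ' => hU.push i a s γ b hr α β γ' r]
    exact blk_vu hU hαβ 1 fun α β γ' => (hU.ptype b s α β γ' _).symm
  popc i a s f hr γ r := by
    show blk xx α β a none 1 (pushR (.st s) (dg γ) r) 1 = blk xx α β (f (some γ)) none 1 r 1
    rw [blk_vu hU hαβ 1 fun α β γ' => hU.ptype a s α β γ' _]
    exact blk_uw hU hαβ 1 fun α β γ' => hU.popc i a s f hr γ α β γ' r
  popn i a s f hr d r hd := by
    show blk xx α β a none 1 (pushR (.st s) d r) 1 = blk xx α β (f none) none 1 (pushR (.st s) d r) 1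
    rw [blk_vu hU hαβ 1 fun α β γ' => hU.ptype a s α β γ' _,
      blk_uw hU hαβ 1 fun α β γ' => hU.popn i a s f hr d hd α β γ' r]
    exact blk_vu hU hαβ 1 fun α β γ' => (hU.ptype (f none) s α β γ' _).symm
  nu a r := by
    refine XX_replace 0 α β [((.v, 1) : Lab S ι)] _ _ _ fun j γ δ => ?_
    unfold arr
    dsimp only
    split_ifs
    · exact hU.nu a none γ δ r
    · rfl

/-- conjugation by a product of letters acts on symbols by monomials -/
def Acts (xx : Sy S ι → Fin 4 → Fin 4 → RR (Vr ι) → G) (d : G) (μ : Sy S ι → Mon (Vr ι)) : Prop :=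
  ∀ g α β r, d * xx g α β r * d⁻¹ = xx g α β (mon (μ g) * r)

omit hU in
theorem Acts.mul {d d' : G} {μ μ' : Sy S ι → Mon (Vr ι)} (h : Acts xx d μ) (h' : Acts xx d' μ') :
    Acts xx (d * d') (μ + μ') := by
  intro g α β r
  have : d * d' * xx g α β r * (d * d')⁻¹ = d * (d' * xx g α β r * d'⁻¹) * d⁻¹ := by group
  rw [this, h', h, ← mul_assoc, ← mon_add]
  rfl

omit hU in
theorem Acts.one : Acts xx (1 : G) 0 := by
  intro g α β r
  simp [mon_zero]

omit hU in
theorem Acts.inv {d : G} {μ : Sy S ι → Mon (Vr ι)} (h : Acts xx d μ) : Acts xx d⁻¹ (-μ) := by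
  intro g α β r
  have := h g α β (mon (-(μ g)) * r)
  rw [← mul_assoc, ← mon_add, add_neg_cancel, mon_zero, one_mul] at this
  rw [← this, inv_inv]
  simp only [Pi.neg_apply]
  group

/-- the pairs of monomials realised on `v` and `w` -/
def realised (xx : Sy S ι → Fin 4 → Fin 4 → RR (Vr ι) → G) :
    AddSubgroup (Mon (Vr ι) × Mon (Vr ι)) where
  carrier := {m | ∃ (d : G) (μ : Sy S ι → Mon (Vr ι)), Acts xx d μ ∧ μ .v = m.1 ∧ μ .w = m.2}
  add_mem' := by
    rintro a b ⟨d, μ, h, h1, h2⟩ ⟨d', μ', h', h1', h2'⟩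
    exact ⟨d * d', μ + μ', h.mul h', by simp [h1, h1'], by simp [h2, h2']⟩
  zero_mem' := ⟨1, 0, Acts.one, rfl, rfl⟩
  neg_mem' := by
    rintro a ⟨d, μ, h, h1, h2⟩
    exact ⟨d⁻¹, -μ, h.inv, by simp [h1], by simp [h2]⟩

theorem realised_eq [Fintype ι] : realised xx = ⊤ := by
  have hact : ∀ l : Lt ι, Acts xx (lt l) (fun g => act g l) := fun l g α β r => hU.conj g α β l r
  have h1 : ∀ j, ((xm j, 0) : Mon (Vr ι) × Mon (Vr ι)) ∈ realised xx := fun j =>
    ⟨_, _, hact (.x1 j), rfl, rfl⟩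
  have h1' : ∀ j, ((xm' j, 0) : Mon (Vr ι) × Mon (Vr ι)) ∈ realised xx := fun j =>
    ⟨_, _, hact (.x1' j), rfl, rfl⟩
  have h2 : ∀ j, ((0, xm j) : Mon (Vr ι) × Mon (Vr ι)) ∈ realised xx := fun j => by
    have : ((0, -xm j) : Mon (Vr ι) × Mon (Vr ι)) ∈ realised xx := ⟨_, _, hact (.x2 j), rfl, rfl⟩
    simpa using (realised xx).neg_mem this
  have h2' : ∀ j, ((0, xm' j) : Mon (Vr ι) × Mon (Vr ι)) ∈ realised xx := fun j => by
    have : ((0, -xm' j) : Mon (Vr ι) × Mon (Vr ι)) ∈ realised xx := ⟨_, _, hact (.x2' j), rfl, rfl⟩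
    simpa using (realised xx).neg_mem this
  have hm : ∀ m : Mon (Vr ι), m = ∑ j, ((m j).1 • xm j + (m j).2 • xm' j) := by
    intro m
    ext k <;> simp [xm, xm', Finset.sum_apply, Pi.single_apply, Prod.fst_sum, Prod.snd_sum,
      apply_ite Prod.fst, apply_ite Prod.snd]
  have key1 : ∀ m : Mon (Vr ι), ((m, 0) : Mon (Vr ι) × Mon (Vr ι)) ∈ realised xx := by
    intro m
    have e : ((m, 0) : Mon (Vr ι) × Mon (Vr ι)) =
        ∑ j, ((m j).1 • ((xm j, 0) : Mon (Vr ι) × Mon (Vr ι)) + (m j).2 • (xm' j, 0)) := by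
      refine Prod.ext ?_ ?_
      · rw [Prod.fst_sum]; exact (hm m).trans (Finset.sum_congr rfl fun j _ => by simp)
      · rw [Prod.snd_sum]; simp
    rw [e]
    exact AddSubgroup.sum_mem _ fun j _ => AddSubgroup.add_mem _
      (AddSubgroup.zsmul_mem _ (h1 j) _) (AddSubgroup.zsmul_mem _ (h1' j) _)
  have key2 : ∀ m : Mon (Vr ι), ((0, m) : Mon (Vr ι) × Mon (Vr ι)) ∈ realised xx := by
    intro m
    have e : ((0, m) : Mon (Vr ι) × Mon (Vr ι)) =
        ∑ j, ((m j).1 • ((0, xm j) : Mon (Vr ι) × Mon (Vr ι)) + (m j).2 • (0, xm' j)) := by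
      refine Prod.ext ?_ ?_
      · rw [Prod.fst_sum]; simp
      · rw [Prod.snd_sum]; exact (hm m).trans (Finset.sum_congr rfl fun j _ => by simp)
    rw [e]
    exact AddSubgroup.sum_mem _ fun j _ => AddSubgroup.add_mem _
      (AddSubgroup.zsmul_mem _ (h2 j) _) (AddSubgroup.zsmul_mem _ (h2' j) _)
  rw [eq_top_iff]
  rintro ⟨a, b⟩ -
  have := AddSubgroup.add_mem _ (key1 a) (key2 b)
  simpa using this

omit hU in
theorem blk_conj {α β : Fin 4} {d : G} {μ : Sy S ι → Mon (Vr ι)} (h : Acts xx d μ) (a : S)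
    (o : Option ι) (r₁ r₂ r₃ : RR (Vr ι)) :
    d * blk xx α β a o r₁ r₂ r₃ * d⁻¹ =
      blk xx α β a o (mon (μ .v) * r₁) (mon (μ (.u a o)) * r₂) (mon (μ .w) * r₃) := by
  have e := map_XX (x := arr xx) (MulAut.conj d).toMonoidHom 0 α β
    [(.v, r₁), (.u a o, r₂), (.w, r₃)]
  have e2 := XX_map (x := fun i α β b => (MulAut.conj d).toMonoidHom (arr xx i α β b))
    (fun b : Lab S ι => ((b.1, mon (μ b.1) * b.2) : Lab S ι)) (arr xx) (by
      intro i α β b
      unfold arr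
      dsimp only
      split_ifs
      · simp [h b.1 α β b.2]
      · simp) 0 α β [(.v, r₁), (.u a o, r₂), (.w, r₃)]
  rw [← e] at e2
  simpa [blk] using e2.symm

variable [Fintype ι]

/-- torsion for all blocks -/
theorem blk_torsion {n₀ : ℕ}
    (htors : ∀ τ : S → RR (Vr ι) → G, TauSys rule F τ →
      ∀ a r, ∃ z₀, ∀ z, z₀ ≤ z → ∀ m, n₀ ≤ m → τ a ((1 + Xk ^ (2 ^ z * 3 ^ m)) * r) = 1)
    {α β : Fin 4} (hαβ : α ≠ β) (a : S) (o : Option ι) (r₁ r₂ r₃ : RR (Vr ι)) :
    ∃ z₀, ∀ z, z₀ ≤ z → ∀ m, n₀ ≤ m →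
      blk xx α β a o r₁ ((1 + Xk ^ (2 ^ z * 3 ^ m)) * r₂) r₃ = 1 := by
  have h11 : ∀ r₂, ∃ z₀, ∀ z, z₀ ≤ z → ∀ m, n₀ ≤ m →
      blk xx α β a o 1 ((1 + Xk ^ (2 ^ z * 3 ^ m)) * r₂) 1 = 1 := by
    intro r₂
    cases o with
    | none => exact htors _ (tau hU hαβ) a r₂
    | some s =>
      obtain ⟨z₀, hz⟩ := htors _ (tau hU hαβ) a r₂
      refine ⟨z₀, fun z hz' m hm => ?_⟩
      rw [← hz z hz' m hm]
      exact blk_vu hU hαβ 1 fun α β γ' => (hU.ptype a s α β γ' _).symm
  have hmm : ∀ m₁ m₃ : Mon (Vr ι), ∃ z₀, ∀ z, z₀ ≤ z → ∀ m, n₀ ≤ m →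
      blk xx α β a o (mon m₁) ((1 + Xk ^ (2 ^ z * 3 ^ m)) * r₂) (mon m₃) = 1 := by
    intro m₁ m₃
    have hmem : ((m₁, m₃) : Mon (Vr ι) × Mon (Vr ι)) ∈ realised xx := by
      rw [realised_eq hU]; trivial
    obtain ⟨d, μ, hd, h1, h3⟩ := hmem
    obtain ⟨z₀, hz⟩ := h11 (mon (-(μ (.u a o))) * r₂)
    refine ⟨z₀, fun z hz' m hm => ?_⟩
    have e := blk_conj (α := α) (β := β) hd a o 1
      ((1 + Xk ^ (2 ^ z * 3 ^ m)) * (mon (-(μ (.u a o))) * r₂)) 1
    rw [hz z hz' m hm, mul_one, mul_inv_cancel] at e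
    rw [e, h1, h3, mul_one, mul_one]
    congr 1
    rw [mul_left_comm, ← mul_assoc (mon (μ (.u a o))), ← mon_add, add_neg_cancel, mon_zero, one_mul]
  have h1m : ∀ m₃ : Mon (Vr ι), ∃ z₀, ∀ z, z₀ ≤ z → ∀ m, n₀ ≤ m →
      blk xx α β a o r₁ ((1 + Xk ^ (2 ^ z * 3 ^ m)) * r₂) (mon m₃) = 1 := by
    intro m₃
    induction mon_span r₁ using AddSubgroup.closure_induction with
    | mem x hx => obtain ⟨m₁, rfl⟩ := hx; exact hmm m₁ m₃
    | zero =>
      refine ⟨0, fun z _ m _ => ?_⟩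
      have := blk_add₁ hU hαβ a o 0 0 ((1 + Xk ^ (2 ^ z * 3 ^ m)) * r₂) (mon m₃)
      rw [add_zero] at this
      exact left_eq_mul.1 this
    | add x y _ _ hx hy =>
      obtain ⟨z₁, h₁⟩ := hx
      obtain ⟨z₂, h₂⟩ := hy
      refine ⟨max z₁ z₂, fun z hz m hm => ?_⟩
      rw [blk_add₁ hU hαβ, h₁ z (le_trans (le_max_left _ _) hz) m hm,
        h₂ z (le_trans (le_max_right _ _) hz) m hm, mul_one]
    | neg x _ hx =>
      have : -x = x := by rw [neg_eq_iff_add_eq_zero]; exact RR_two x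
      rw [this]; exact hx
  induction mon_span r₃ using AddSubgroup.closure_induction with
  | mem x hx => obtain ⟨m₃, rfl⟩ := hx; exact h1m m₃
  | zero =>
    refine ⟨0, fun z _ m _ => ?_⟩
    have := blk_add₃ hU hαβ a o r₁ ((1 + Xk ^ (2 ^ z * 3 ^ m)) * r₂) 0 0
    rw [add_zero] at this
    exact left_eq_mul.1 this
  | add x y _ _ hx hy =>
    obtain ⟨z₁, h₁⟩ := hx
    obtain ⟨z₂, h₂⟩ := hy
    refine ⟨max z₁ z₂, fun z hz m hm => ?_⟩
    rw [blk_add₃ hU hαβ, h₁ z (le_trans (le_max_left _ _) hz) m hm,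
      h₂ z (le_trans (le_max_right _ _) hz) m hm, mul_one]
  | neg x _ hx =>
    have : -x = x := by rw [neg_eq_iff_add_eq_zero]; exact RR_two x
    rw [this]; exact hx

end torsion

/-! ### blocks -/

/-- a well-typed sequence of `k` blocks starting at level `0` -/
inductive Blk : ℕ → List (Lab S ι) → Prop
  | nil : Blk 0 []
  | cons {k : ℕ} {B : List (Lab S ι)} (a : S) (o : Option ι) (r₁ r₂ r₃ : RR (Vr ι)) :
      Blk k B → Blk (k + 1) ((.v, r₁) :: (.u a o, r₂) :: (.w, r₃) :: B)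

theorem arr_of_lev {g : Sy S ι} {i : ZMod 3} (h : g.lev ≠ i) (α β : Fin 4) (r : RR (Vr ι)) :
    arr xx i α β (g, r) = 1 := by
  unfold arr
  rw [if_neg h]

theorem typed_or (hU : UpData rule F lt xx) : ∀ (k : ℕ) (B : List (Lab S ι)),
    B.length = 3 * k → Blk k B ∨ ∀ γ δ, Off B.length γ δ → XX (arr xx) 0 γ δ B = 1 := by
  intro k
  induction k with
  | zero =>
    intro B hB
    rw [mul_zero, List.length_eq_zero_iff] at hB
    subst hB
    exact Or.inl Blk.nil
  | succ k ih =>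
    intro B hB
    match B, hB with
    | (g₁, r₁) :: (g₂, r₂) :: (g₃, r₃) :: B', hB =>
      have hB' : B'.length = 3 * k := by simp only [List.length_cons] at hB; omega
      by_cases h1 : g₁.lev = 0
      swap
      · right; intro γ δ _
        exact XX_trivial (x := arr xx) 0 γ δ [] _ _ fun γ δ => arr_of_lev (by simpa using h1) _ _ _
      by_cases h2 : g₂.lev = 1
      swap
      · right; intro γ δ _
        exact XX_trivial (x := arr xx) 0 γ δ [(g₁, r₁)] _ _ fun γ δ =>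
          arr_of_lev (by simpa using h2) _ _ _
      by_cases h3 : g₃.lev = 2
      swap
      · right; intro γ δ _
        refine XX_trivial (x := arr xx) 0 γ δ [(g₁, r₁), (g₂, r₂)] _ _ fun γ δ =>
          arr_of_lev ?_ _ _ _
        simpa using h3
      have e01 : (0 : ZMod 3) ≠ 1 := by decide
      have e02 : (0 : ZMod 3) ≠ 2 := by decide
      have e12 : (1 : ZMod 3) ≠ 2 := by decide
      obtain rfl : g₁ = .v := by
        cases g₁ with
        | v => rfl
        | u a o => exact absurd h1.symm e01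
        | w => exact absurd h1.symm e02
      obtain ⟨a, o, rfl⟩ : ∃ a o, g₂ = .u a o := by
        cases g₂ with
        | v => exact absurd h2 e01
        | u a o => exact ⟨a, o, rfl⟩
        | w => exact absurd h2.symm e12
      obtain rfl : g₃ = .w := by
        cases g₃ with
        | v => exact absurd h3 e02
        | u a o => exact absurd h3 e12
        | w => rfl
      rcases ih B' hB' with h | h
      · exact Or.inl (Blk.cons a o r₁ r₂ r₃ h)
      · by_cases hne : B' = []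
        · subst hne
          have : k = 0 := by simp only [List.length_nil] at hB'; omega
          subst this
          exact Or.inl (Blk.cons a o r₁ r₂ r₃ Blk.nil)
        · right
          intro γ δ hoff
          have := XX_infix_eq_one (stein hU) 0 γ δ
            [((.v, r₁) : Lab S ι), (.u a o, r₂), (.w, r₃)] B' [] hne
            (fun γ δ ho => by
              have e3 : (0 + (([((.v, r₁) : Lab S ι), (.u a o, r₂), (.w, r₃)].length : ℕ) : ZMod 3)) =
                0 := by simp only [List.length_cons, List.length_nil]; decide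
              rw [e3]; exact h γ δ ho) (by simpa using hoff)
          simpa using this
    | [], hB => exact absurd hB (by simp)
    | [_], hB => exact absurd hB (by simp only [List.length_cons, List.length_nil]; omega)
    | [_, _], hB => exact absurd hB (by simp only [List.length_cons, List.length_nil]; omega)

theorem one_add_pow (x : RR (Vr ι)) (z : ℕ) : (1 + x) ^ 2 ^ z = 1 + x ^ 2 ^ z := by
  induction z with
  | zero => simp
  | succ z ih =>
    have h2 : x ^ 2 ^ z + x ^ 2 ^ z = 0 := RR_two _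
    rw [pow_succ 2 z, pow_mul, ih, pow_mul]
    linear_combination h2

theorem exists_div (z : ℕ) (c : RR (Vr ι)) : ∃ c', c = (1 + Xk3 ^ 2 ^ z) * c' := by
  have h1 : mon (xm' (.kap3 : Vr ι)) * mon (-xm' .kap3) = 1 := by
    rw [← mon_add, add_neg_cancel, mon_zero]
  refine ⟨mon (-xm' (.kap3 : Vr ι)) ^ 2 ^ z * c, ?_⟩
  rw [← one_add_pow, Xk3, ← mon_xm', ← mul_assoc, ← mul_pow, h1, one_pow, one_mul]

theorem chainR (hU : UpData rule F lt xx) (z : ℕ) : ∀ (k : ℕ) (M : List (Lab S ι)), Blk k M →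
    ∀ (P : List (Lab S ι)) (a : S) (o : Option ι) (b c : RR (Vr ι)) (i : ZMod 3) (α β : Fin 4),
      Off (P.length + (M.length + 2)) α β →
      ∃ c' M', M'.length = M.length ∧ (0 < k → c' = c) ∧
        XX (arr xx) i α β (P ++ (.u a o, b) :: (.w, c) :: M) =
          XX (arr xx) i α β
            (P ++ (.u a o, (1 + Xk ^ (2 ^ z * 3 ^ (k + 1))) * b) :: (.w, c') :: M') := by
  intro k
  induction k with
  | zero =>
    intro M hM P a o b c i α β hoff
    cases hM
    obtain ⟨c', hc'⟩ := exists_div z c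
    refine ⟨c', [], rfl, fun h => absurd h (lt_irrefl _), ?_⟩
    have e1 := k3_path hU (2 ^ z) i α β (P ++ [(.u a o, b)]) [] c'
    rw [← hc'] at e1
    have e2 := move hU (fun α β γ r r' => hU.bal_uw a o α β γ r r') (3 * 2 ^ z) i α β P [] b c' hoff
    have e3 : 2 ^ z * 3 ^ (0 + 1) = 3 * 2 ^ z := by ring
    rw [e3, ← e2]
    simpa using e1
  | succ k ih =>
    intro M hM P a o b c i α β hoff
    cases hM with
    | @cons _ M₂ a₂ o₂ r₁ r₂ r₃ hM₂ =>
      have hlen : ∀ n : ℕ, P.length + 3 + (n + 2) = P.length + (n + 3 + 2) := by intro n; omega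
      have hoff0 : Off (P.length + (M₂.length + 3 + 2)) α β := by
        simpa [add_assoc] using hoff
      obtain ⟨c₂, M₂', hl, -, e⟩ := ih M₂ hM₂
        (P ++ [(.u a o, b), (.w, c), (.v, r₁)]) a₂ o₂ r₂ r₃ i α β (by
          rw [List.length_append]
          show Off (P.length + 3 + (M₂.length + 2)) α β
          rw [hlen]; exact hoff0)
      refine ⟨c, (.v, r₁) :: (.u a₂ o₂, r₂) :: (.w, c₂) :: M₂', by simp [hl], fun _ => rfl, ?_⟩
      set N := 2 ^ z * 3 ^ (k + 1) with hN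
      have e0 : 2 ^ z * 3 ^ (k + 1 + 1) = 3 * N := by rw [hN]; ring
      rw [e0]
      have m1 := move hU (fun α β γ r r' => hU.bal_vu a₂ o₂ α β γ r r') N i α β
        (P ++ [(.u a o, b), (.w, c)]) ((.w, c₂) :: M₂') r₁ r₂ (by
          rw [List.length_append]
          show Off (P.length + 2 + (M₂'.length + 1 + 2)) α β
          rw [hl, show P.length + 2 + (M₂.length + 1 + 2) = P.length + (M₂.length + 3 + 2) by omega]
          exact hoff0)
      have m2 := move hU (fun α β γ r r' => hU.bal_wv α β γ r r') N i α β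
        (P ++ [(.u a o, b)]) ((.u a₂ o₂, r₂) :: (.w, c₂) :: M₂') c r₁ (by
          rw [List.length_append]
          show Off (P.length + 1 + (M₂'.length + 2 + 2)) α β
          rw [hl, show P.length + 1 + (M₂.length + 2 + 2) = P.length + (M₂.length + 3 + 2) by omega]
          exact hoff0)
      have m3 := k3_path hU N i α β (P ++ [(.u a o, b)])
        ((.v, r₁) :: (.u a₂ o₂, r₂) :: (.w, c₂) :: M₂') c
      have m4 := move hU (fun α β γ r r' => hU.bal_uw a o α β γ r r') (3 * N) i α β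
        P ((.v, r₁) :: (.u a₂ o₂, r₂) :: (.w, c₂) :: M₂') b c (by
          show Off (P.length + (M₂'.length + 3 + 2)) α β
          rw [hl]; exact hoff0)
      simp only [List.append_assoc, List.cons_append, List.nil_append] at e m1 m2 m3
      rw [e, m1, m2, m3, m4]

theorem blk_path [Fintype ι] (hU : UpData rule F lt xx) {n₀ : ℕ}
    (htors : ∀ τ : S → RR (Vr ι) → G, TauSys rule F τ →
      ∀ a r, ∃ z₀, ∀ z, z₀ ≤ z → ∀ m, n₀ ≤ m → τ a ((1 + Xk ^ (2 ^ z * 3 ^ m)) * r) = 1)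
    {k : ℕ} (hk : n₀ + 2 ≤ k) {B : List (Lab S ι)} (hB : Blk k B) {α β : Fin 4} (hαβ : α ≠ β) :
    XX (arr xx) 0 α β B = 1 := by
  cases hB with
  | nil => rfl
  | @cons k M a o r₁ r₂ r₃ hM =>
    have hz : ∀ p : Fin 4 × Fin 4, ∃ z₀, p.1 ≠ p.2 → ∀ z, z₀ ≤ z → ∀ m, n₀ ≤ m →
        blk xx p.1 p.2 a o r₁ ((1 + Xk ^ (2 ^ z * 3 ^ m)) * r₂) r₃ = 1 := by
      intro p
      by_cases hp : p.1 = p.2
      · exact ⟨0, fun h => absurd hp h⟩
      · obtain ⟨z₀, h⟩ := blk_torsion hU htors hp a o r₁ r₂ r₃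
        exact ⟨z₀, fun _ => h⟩
    choose z₀ hz₀ using hz
    obtain ⟨c', M', hl, hc, e⟩ := chainR hU (Finset.univ.sup z₀) k M hM [(.v, r₁)] a o r₂ r₃ 0 α β
      (off_of_ne hαβ)
    have hc' := hc (by omega)
    subst hc'
    have e2 := XX_infix_eq_one (stein hU) 0 α β [] [((.v, r₁) : Lab S ι),
      (.u a o, (1 + Xk ^ (2 ^ (Finset.univ.sup z₀) * 3 ^ (k + 1))) * r₂), (.w, c')] M' (by simp)
      (fun γ δ ho => by
        have hne : γ ≠ δ := fun hh => ho ⟨by
          simp only [List.length_cons, List.length_nil]; decide, hh⟩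
        have := hz₀ (γ, δ) hne (Finset.univ.sup z₀) (Finset.le_sup (f := z₀) (Finset.mem_univ _))
          (k + 1) (by omega)
        simpa [blk] using this) (off_of_ne hαβ)
    rw [List.nil_append, List.cons_append, List.cons_append, List.cons_append,
      List.nil_append] at e2
    rw [← e2]
    exact e

theorem long_path [Fintype ι] (hU : UpData rule F lt xx) {n₀ : ℕ}
    (htors : ∀ τ : S → RR (Vr ι) → G, TauSys rule F τ →
      ∀ a r, ∃ z₀, ∀ z, z₀ ≤ z → ∀ m, n₀ ≤ m → τ a ((1 + Xk ^ (2 ^ z * 3 ^ m)) * r) = 1)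
    (i : ZMod 3) (α β : Fin 4) (L : List (Lab S ι)) (hL : 3 * (n₀ + 2) + 2 ≤ L.length)
    (hoff : Off L.length α β) : XX (arr xx) i α β L = 1 := by
  obtain ⟨t, ht, hit⟩ : ∃ t : ℕ, t < 3 ∧ i + (t : ZMod 3) = 0 := by
    revert i; intro i; revert i; decide
  have e1 : (L.take t).length = t := by rw [List.length_take]; omega
  have e2 : ((L.drop t).take (3 * (n₀ + 2))).length = 3 * (n₀ + 2) := by
    rw [List.length_take, List.length_drop]; omega
  have e3 : L.take t ++ (L.drop t).take (3 * (n₀ + 2)) ++ (L.drop t).drop (3 * (n₀ + 2)) = L := by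
    rw [List.append_assoc, List.take_append_drop, List.take_append_drop]
  have key : ∀ γ δ, Off ((L.drop t).take (3 * (n₀ + 2))).length γ δ →
      XX (arr xx) (i + (L.take t).length) γ δ ((L.drop t).take (3 * (n₀ + 2))) = 1 := by
    intro γ δ ho
    rw [e1, hit]
    rcases typed_or hU (n₀ + 2) _ e2 with h | h
    · refine blk_path hU htors le_rfl h fun hh => ho ⟨?_, hh⟩
      rw [e2]
      push_cast
      have : (3 : ZMod 3) = 0 := by decide
      rw [this, zero_mul]
    · exact h γ δ ho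
  have := XX_infix_eq_one (stein hU) i α β (L.take t) ((L.drop t).take (3 * (n₀ + 2)))
    ((L.drop t).drop (3 * (n₀ + 2))) (by
      intro hh; rw [hh] at e2; simp at e2) key (by rw [e3]; exact hoff)
  rwa [e3] at this

/-! ### solvability -/

/-- the subgroup generated by the arrows -/
def NN (xx : Sy S ι → Fin 4 → Fin 4 → RR (Vr ι) → G) : Subgroup G :=
  Subgroup.closure {g : G | ∃ i α β a, g = arr xx i α β a}

theorem mem_NN (g : Sy S ι) (α β : Fin 4) (r : RR (Vr ι)) : xx g α β r ∈ NN xx :=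
  Subgroup.subset_closure ⟨g.lev, α, β, (g, r), by simp [arr]⟩

theorem Acts.conj_mem {d : G} {μ : Sy S ι → Mon (Vr ι)} (h : Acts xx d μ) {n : G}
    (hn : n ∈ NN xx) : d * n * d⁻¹ ∈ NN xx := by
  induction hn using Subgroup.closure_induction with
  | mem x hx =>
    obtain ⟨i, α, β, ⟨g, r⟩, rfl⟩ := hx
    unfold arr
    dsimp only
    split_ifs
    · rw [h]; exact mem_NN _ _ _ _
    · rw [mul_one, mul_inv_cancel]; exact one_mem _
  | one => rw [mul_one, mul_inv_cancel]; exact one_mem _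
  | mul x y _ _ hx hy =>
    have : d * (x * y) * d⁻¹ = (d * x * d⁻¹) * (d * y * d⁻¹) := by group
    rw [this]; exact mul_mem hx hy
  | inv x _ hx =>
    have : d * x⁻¹ * d⁻¹ = (d * x * d⁻¹)⁻¹ := by group
    rw [this]; exact inv_mem hx

theorem NN_normal (hU : UpData rule F lt xx)
    (hgen : Subgroup.closure (Set.range lt ∪ {h | ∃ g α β, h = xx g α β 1}) = ⊤) :
    (NN xx).Normal := by
  rw [← Subgroup.normalizer_eq_top_iff, eq_top_iff, ← hgen, Subgroup.closure_le]
  rintro g (⟨l, rfl⟩ | ⟨g, α, β, rfl⟩)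
  · have hact : Acts xx (lt l) (fun g => act g l) := fun g α β r => hU.conj g α β l r
    rw [SetLike.mem_coe, Subgroup.mem_normalizer_iff]
    intro n
    refine ⟨fun hn => hact.conj_mem hn, fun hn => ?_⟩
    have := hact.inv.conj_mem hn
    simpa [mul_assoc] using this
  · exact Subgroup.le_normalizer (mem_NN _ _ _ _)

theorem nilpotent_NN [Fintype ι] (hU : UpData rule F lt xx) (n₀ : ℕ)
    (htors : ∀ τ : S → RR (Vr ι) → G, TauSys rule F τ →
      ∀ a r, ∃ z₀, ∀ z, z₀ ≤ z → ∀ m, n₀ ≤ m → τ a ((1 + Xk ^ (2 ^ z * 3 ^ m)) * r) = 1) :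
    Group.IsNilpotent (NN xx) := by
  have hs := stein hU
  set x' : ZMod 3 → Fin 4 → Fin 4 → Lab S ι → NN xx := fun i α β a =>
    ⟨arr xx i α β a, Subgroup.subset_closure ⟨i, α, β, a, rfl⟩⟩ with hx'
  have hst : Stein x' :=
    { same := fun i α β α' β' a b => Subtype.ext (hs.same i α β α' β' a b)
      adj := fun i α β β' γ a b h => Subtype.ext (hs.adj i α β β' γ a b h)
      indep := fun i α β β' γ a b => Subtype.ext (hs.indep i α β β' γ a b) }
  refine hst.isNilpotent ?_ (3 * (n₀ + 2) + 2) ?_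
  · have : {g : NN xx | ∃ i α β a, g = x' i α β a} =
        ((↑) : NN xx → G) ⁻¹' {g : G | ∃ i α β a, g = arr xx i α β a} := by
      ext g
      constructor
      · rintro ⟨i, α, β, a, rfl⟩; exact ⟨i, α, β, a, rfl⟩
      · rintro ⟨i, α, β, a, h⟩; exact ⟨i, α, β, a, Subtype.ext h⟩
    rw [this]
    exact Subgroup.closure_closure_coe_preimage
  · intro i α β L hL hoff
    apply Subtype.ext
    have e := map_XX (x := x') (NN xx).subtype i α β L
    have e2 : (fun i α β a => (NN xx).subtype (x' i α β a)) = arr xx := rfl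
    rw [e2] at e
    exact e.trans (long_path hU htors i α β L hL hoff)

theorem solvable [Fintype ι] (hU : UpData rule F lt xx)
    (hgen : Subgroup.closure (Set.range lt ∪ {h | ∃ g α β, h = xx g α β 1}) = ⊤)
    (n₀ : ℕ)
    (htors : ∀ τ : S → RR (Vr ι) → G, TauSys rule F τ →
      ∀ a r, ∃ z₀, ∀ z, z₀ ≤ z → ∀ m, n₀ ≤ m → τ a ((1 + Xk ^ (2 ^ z * 3 ^ m)) * r) = 1) :
    Group.IsSolvable G := by
  have hn := nilpotent_NN hU n₀ htors
  have hnorm : (NN xx).Normal := NN_normal hU hgen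
  have h1 : Group.IsSolvable (NN xx) := inferInstance
  have h2 : Group.IsSolvable (G ⧸ NN xx) := by
    apply Group.isSolvable_of_comm
    set k : Set (G ⧸ NN xx) :=
      QuotientGroup.mk' (NN xx) '' (Set.range lt ∪ {h | ∃ g α β, h = xx g α β 1}) with hk
    have hktop : Subgroup.closure k = ⊤ := by
      rw [hk, ← MonoidHom.map_closure, hgen, ← MonoidHom.range_eq_map, MonoidHom.range_eq_top]
      exact QuotientGroup.mk'_surjective _
    have hcomm : ∀ x ∈ k, ∀ y ∈ k, x * y = y * x := by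
      have h1 : ∀ g α β, QuotientGroup.mk' (NN xx) (xx g α β 1) = 1 := fun g α β =>
        (QuotientGroup.eq_one_iff _).2 (mem_NN g α β 1)
      rintro _ ⟨x, hx, rfl⟩ _ ⟨y, hy, rfl⟩
      rcases hx with ⟨l, rfl⟩ | ⟨g, α, β, rfl⟩
      · rcases hy with ⟨l', rfl⟩ | ⟨g, α, β, rfl⟩
        · rw [← map_mul, (hU.lt_comm l l').eq, map_mul]
        · rw [h1, mul_one, one_mul]
      · rw [h1, mul_one, one_mul]
    have hcent : ∀ x ∈ k, x ∈ Subgroup.center (G ⧸ NN xx) := by
      intro x hx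
      have : (⊤ : Subgroup (G ⧸ NN xx)) ≤ Subgroup.centralizer {x} := by
        rw [← hktop, Subgroup.closure_le]
        intro y hy
        rw [SetLike.mem_coe, Subgroup.mem_centralizer_iff]
        intro z hz
        rw [Set.mem_singleton_iff.1 hz]
        exact hcomm x hx y hy
      rw [Subgroup.mem_center_iff]
      intro g
      have h3 := this (Subgroup.mem_top g)
      rw [Subgroup.mem_centralizer_iff] at h3
      exact (h3 x rfl).symm
    have htop : (⊤ : Subgroup (G ⧸ NN xx)) ≤ Subgroup.center (G ⧸ NN xx) := by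
      rw [← hktop, Subgroup.closure_le]
      exact hcent
    intro a b
    exact (Subgroup.mem_center_iff.1 (htop (Subgroup.mem_top b)) a)
  exact Group.isSolvable_of_ker_le_range (NN xx).subtype (QuotientGroup.mk' (NN xx))
    (by rw [QuotientGroup.ker_mk', Subgroup.range_subtype])

end Chain

/-- WP5 : chain argument and solvability -/
theorem isSolvable_of_upData [Fintype ι] {G : Type*} [Group G] (rule : ρ → Rule S ι) (F : ℕ)
    (lt : Lt ι → G) (xx : Sy S ι → Fin 4 → Fin 4 → RR (Vr ι) → G) (hU : UpData rule F lt xx)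
    (hgen : Subgroup.closure (Set.range lt ∪ {h | ∃ g α β, h = xx g α β 1}) = ⊤)
    (n₀ : ℕ)
    (htors : ∀ τ : S → RR (Vr ι) → G, TauSys rule F τ →
      ∀ a r, ∃ z₀, ∀ z, z₀ ≤ z → ∀ m, n₀ ≤ m → τ a ((1 + Xk ^ (2 ^ z * 3 ^ m)) * r) = 1) :
    IsSolvable G :=
  Chain.solvable hU hgen n₀ htors

end Pool.Agent.SolIndex
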