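import Mathlib
import Pool.Agent.SolIndex.TauDefs

set_option autoImplicit false

namespace Pool.Agent.SolIndex

open Turing.PartrecToTM2 (Γ')
open scoped commutatorElement

variable {ι S ρ : Type} [DecidableEq ι]

/-- extend words on stacks to all variables -/
def extW (w : ι → List Γ') : Vr ι → List Γ'
  | .st s => w s
  | _ => []

theorem extW_update (w : ι → List Γ') (s : ι) (l : List Γ') :
    extW (Function.update w s l) = Function.update (extW w) (.st s) l := by
  funext j
  cases j with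
  | st t =>
    by_cases h : t = s
    · subst h; simp [extW]
    · rw [Function.update_of_ne (by simpa using h)]
      simp [extW, Function.update_of_ne h]
  | kap => simp [extW, Function.update]
  | kap3 => simp [extW, Function.update]
  | nu => simp [extW, Function.update]

/-- the stack variables -/
def stJ (ι : Type) [DecidableEq ι] [Fintype ι] : Finset (Vr ι) :=
  Finset.univ.image Vr.st

theorem st_mem_stJ [Fintype ι] (s : ι) : Vr.st s ∈ stJ ι := by simp [stJ]

/-- monomial in `κ`, `ν` only -/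
def kn (ι : Type) [DecidableEq ι] (k n : ℕ) : Mon (Vr ι) := k • xm .kap + n • xm .nu

theorem mon_kn (k n : ℕ) : (mon (kn ι k n) : RR (Vr ι)) = Xk ^ k * Xn ^ n := by
  have hpow : ∀ (m : Mon (Vr ι)) (k : ℕ), (mon (k • m) : RR (Vr ι)) = mon m ^ k := by
    intro m k
    induction k with
    | zero => simp [mon_zero]
    | succ k ih => rw [succ_nsmul, mon_add, ih, pow_succ]
  rw [kn, mon_add, hpow, hpow]; rfl

theorem kn_st (k n : ℕ) (s : ι) : kn ι k n (.st s) = 0 := by
  simp [kn, xm, Pi.single_apply]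

theorem kn_stJ [Fintype ι] (k n : ℕ) : ∀ j ∈ stJ ι, kn ι k n j = 0 := by
  intro j hj
  simp only [stJ, Finset.mem_image, Finset.mem_univ, true_and] at hj
  obtain ⟨s, rfl⟩ := hj
  exact kn_st k n s

theorem cont_kn (w : ι → List Γ') (k n : ℕ) (c : RR (Vr ι)) :
    cont (extW w) (Xk ^ k * Xn ^ n * c) = Xk ^ k * Xn ^ n * cont (extW w) c := by
  rw [← mon_kn, cont_mul]
  intro j
  cases j with
  | st s => exact Or.inr (kn_st k n s)
  | kap => exact Or.inl rfl
  | kap3 => exact Or.inl rfl
  | nu => exact Or.inl rfl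

theorem core_kn [Fintype ι] {c : RR (Vr ι)} (hc : Core (stJ ι) c) (k n : ℕ) :
    Core (stJ ι) (Xk ^ k * Xn ^ n * c) := by
  rw [← mon_kn]
  exact hc.mul _ (kn_stJ k n)

section
variable [Fintype ι] {G : Type*} [Group G] {rule : ρ → Rule S ι} {F : ℕ}
  {τ : S → RR (Vr ι) → G}

theorem reach_tau (hτ : TauSys rule F τ) {a w k n b w'} (h : Reach rule a w k n b w') :
    ∀ c, Core (stJ ι) c → τ a (cont (extW w) c) = τ b (cont (extW w') (Xk ^ k * Xn ^ n * c)) := by
  induction h with
  | refl a w => intro c _; simp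
  | @jump i a b k n k' n' c w w' hi _ ih =>
    intro d hd
    rw [hτ.jump i a b k n hi, ← cont_kn, ih _ (core_kn hd k n)]
    congr 2; ring
  | @push i a s γ b k n c w w' hi _ ih =>
    intro d hd
    rw [hτ.push i a s γ b hi, pushR_cont, ← ih d hd, extW_update]; rfl
  | @popc i a s f γ l k n c w w' hi hw _ ih =>
    intro d hd
    rw [← ih d hd, ← hτ.popc i a s f hi, pushR_cont]
    congr 2
    rw [extW_update]
    funext j
    by_cases hj : j = .st s
    · subst hj; simp [extW, hw]
    · simp [Function.update_of_ne hj]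
  | @popn i a s f k n c w w' hi hw _ ih =>
    intro d hd
    obtain ⟨e, r, he, hr⟩ := cont_bottom hd (extW w) (.st s) (st_mem_stJ s) hw
    rw [hr, hτ.popn i a s f hi e r he, ← hr, ih d hd]

theorem killed_tau (hτ : TauSys rule F τ) {a w} (h : Killed rule a w) :
    ∀ c, Core (stJ ι) c → τ a (cont (extW w) c) = 1 := by
  obtain ⟨k, n, b, w', i, hr, hi⟩ := h
  intro c hc
  rw [reach_tau hτ hr c hc, hτ.kill i b hi]

theorem TauSys.zero (hτ : TauSys rule F τ) (a : S) : τ a 0 = 1 := by
  have := hτ.add a 0 0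
  rw [add_zero] at this
  exact left_eq_mul.mp this

theorem TauSys.sq (hτ : TauSys rule F τ) (a : S) (r : RR (Vr ι)) : τ a r * τ a r = 1 := by
  rw [← hτ.add, RR_two, hτ.zero]

/-- torsion for contents -/
def TorsC (n₀ : ℕ) (τ : S → RR (Vr ι) → G) (a : S) (w : ι → List Γ') : Prop :=
  ∃ z₀, ∀ z, z₀ ≤ z → ∀ m, n₀ ≤ m → ∀ c, Core (stJ ι) c →
    τ a (cont (extW w) c) = τ a (cont (extW w) (Xk ^ (2 ^ z * 3 ^ m) * c))

theorem torsC_hub (hτ : TauSys rule F τ) (H : S)
    (gtot ytot : (ι → List Γ') → ℕ) (Dead : ℕ → ℕ → Prop) (hM : Mach rule H gtot ytot Dead)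
    (n₀ : ℕ) (hA : ∀ y, ¬ Dead F y → ∃ z, y ∣ 2 ^ z * 3 ^ n₀)
    (hB : ∀ g y, ¬ Dead g y → g = F ∨ Nat.Coprime g F) (w : ι → List Γ') :
    TorsC n₀ τ H w := by
  have hkp : ∀ {c : RR (Vr ι)} (_ : Core (stJ ι) c) (k : ℕ), Core (stJ ι) (Xk ^ k * c) := by
    intro c hc k
    have := core_kn hc k 0
    simpa using this
  have hnp : ∀ {c : RR (Vr ι)} (_ : Core (stJ ι) c) (k : ℕ), Core (stJ ι) (Xn ^ k * c) := by
    intro c hc k
    have := core_kn hc 0 k
    simpa using this
  by_cases hd : Dead (gtot w) (ytot w)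
  · refine ⟨0, fun z _ m _ c hc => ?_⟩
    have hk := hM.dead w hd
    rw [killed_tau hτ hk c hc, killed_tau hτ hk _ (hkp hc _)]
  · rcases hB _ _ hd with hg | hg
    · -- `g = F`
      rw [hg] at hd
      obtain ⟨z₀, hz₀⟩ := hA _ hd
      obtain ⟨w', h1, h2⟩ := hM.yrun w
      have e1 := reach_tau hτ h1
      have e2 := reach_tau hτ h2
      simp only [pow_zero, mul_one] at e1 e2
      have e3 : ∀ (q : ℕ) (c : RR (Vr ι)), Core (stJ ι) c →
          τ H (cont (extW w') c) = τ H (cont (extW w') (Xk ^ (ytot w * q) * c)) := by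
        intro q
        induction q with
        | zero => intro c _; simp
        | succ q ih =>
          intro c hc
          rw [ih c hc, e2 _ (hkp hc _)]
          congr 2; ring
      refine ⟨z₀, fun z hz m hm c hc => ?_⟩
      obtain ⟨q, hq⟩ : ytot w ∣ 2 ^ z * 3 ^ m :=
        hz₀.trans (mul_dvd_mul (pow_dvd_pow 2 hz) (pow_dvd_pow 3 hm))
      rw [e1 c hc, e1 _ (hkp hc _), hq, e3 q _ (hkp hc (ytot w))]
      congr 2; ring
    · -- coprime
      obtain ⟨w', h1, h2⟩ := hM.grun w
      have e1 := reach_tau hτ h1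
      have e2 := reach_tau hτ h2
      simp only [pow_zero, one_mul] at e1 e2
      have e3 : ∀ (q : ℕ) (c : RR (Vr ι)), Core (stJ ι) c →
          τ H (cont (extW w') c) = τ H (cont (extW w') (Xn ^ (gtot w * q) * c)) := by
        intro q
        induction q with
        | zero => intro c _; simp
        | succ q ih =>
          intro c hc
          rw [ih c hc, e2 _ (hnp hc _)]
          congr 2; ring
      have hcn : ∀ (k : ℕ) (c : RR (Vr ι)), cont (extW w') (Xn ^ k * c) = Xn ^ k * cont (extW w') c := by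
        intro k c
        have := cont_kn w' 0 k c
        simpa using this
      have e4 : ∀ (q : ℕ) (c : RR (Vr ι)),
          τ H (cont (extW w') (Xn ^ (F * q) * c)) = τ H (cont (extW w') c) := by
        intro q
        induction q with
        | zero => intro c; simp
        | succ q ih =>
          intro c
          have : (Xn : RR (Vr ι)) ^ (F * (q + 1)) * c = Xn ^ F * (Xn ^ (F * q) * c) := by ring
          rw [this, hcn F, hτ.nu, ih c]
      -- `ν` acts trivially
      have e5 : ∀ c : RR (Vr ι), Core (stJ ι) c →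
          τ H (cont (extW w') (Xn * c)) = τ H (cont (extW w') c) := by
        intro c hc
        have hnc : Core (stJ ι) (Xn * c) := by simpa using hnp hc 1
        rcases Nat.lt_or_ge 1 F with hF | hF
        · obtain ⟨m, -, hm⟩ := Nat.exists_mul_mod_eq_one_of_coprime hg hF
          have hm' : gtot w * m = F * (gtot w * m / F) + 1 := by
            have := Nat.div_add_mod (gtot w * m) F
            omega
          have a1 := e3 m c hc
          rw [hm'] at a1
          have : (Xn : RR (Vr ι)) ^ (F * (gtot w * m / F) + 1) * c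
            = Xn ^ (F * (gtot w * m / F)) * (Xn * c) := by ring
          rw [this, e4] at a1
          exact a1.symm
        · interval_cases F
          · rw [Nat.coprime_zero_right] at hg
            have a1 := e3 1 c hc
            rw [hg] at a1
            simpa using a1.symm
          · have a1 := e4 1 c
            simpa using a1
      have e6 : ∀ c : RR (Vr ι), Core (stJ ι) c → τ H (cont (extW w') c) = 1 := by
        intro c hc
        have hc' : Core (stJ ι) (mon (-xm' (Vr.nu : Vr ι)) * c) := by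
          refine hc.mul _ ?_
          intro j hj
          simp only [stJ, Finset.mem_image, Finset.mem_univ, true_and] at hj
          obtain ⟨s, rfl⟩ := hj
          simp [xm', Pi.single_apply]
        have hc1 : c = mon (-xm' (Vr.nu : Vr ι)) * c + Xn * (mon (-xm' (Vr.nu : Vr ι)) * c) := by
          have : mon (xm' (Vr.nu : Vr ι)) * mon (-xm' (Vr.nu : Vr ι)) = 1 := by
            rw [← mon_add, add_neg_cancel, mon_zero]
          calc c = (mon (xm' (Vr.nu : Vr ι)) * mon (-xm' (Vr.nu : Vr ι))) * c := by rw [this, one_mul]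
            _ = _ := by rw [mon_xm']; simp only [Xn]; ring
        rw [hc1, cont_add, hτ.add, e5 _ hc', hτ.sq]
      refine ⟨0, fun z _ m _ c hc => ?_⟩
      rw [e1 c hc, e1 _ (hkp hc _), e6 _ (hnp hc _), e6 _ (hnp (hkp hc _) _)]

theorem torsC_all (hτ : TauSys rule F τ) (H : S)
    (gtot ytot : (ι → List Γ') → ℕ) (Dead : ℕ → ℕ → Prop) (hM : Mach rule H gtot ytot Dead)
    (n₀ : ℕ) (hA : ∀ y, ¬ Dead F y → ∃ z, y ∣ 2 ^ z * 3 ^ n₀)
    (hB : ∀ g y, ¬ Dead g y → g = F ∨ Nat.Coprime g F) (a : S) (w : ι → List Γ') :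
    TorsC n₀ τ a w := by
  rcases hM.term a w with hk | ⟨k, n, w', hr⟩
  · refine ⟨0, fun z _ m _ c hc => ?_⟩
    rw [killed_tau hτ hk c hc, killed_tau hτ hk _ (by simpa using core_kn hc (2 ^ z * 3 ^ m) 0)]
  · obtain ⟨z₀, hz₀⟩ := torsC_hub hτ H gtot ytot Dead hM n₀ hA hB w'
    refine ⟨z₀, fun z hz m hm c hc => ?_⟩
    have e := reach_tau hτ hr
    rw [e c hc, e _ (by simpa using core_kn hc (2 ^ z * 3 ^ m) 0), hz₀ z hz m hm _ (core_kn hc k n)]
    congr 2; ring

end

/-- WP10 : the torsion theorem -/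
theorem core_up [Fintype ι] {G : Type*} [Group G] (rule : ρ → Rule S ι) (F : ℕ)
    (τ : S → RR (Vr ι) → G) (hτ : TauSys rule F τ) (H : S)
    (gtot ytot : (ι → List Γ') → ℕ) (Dead : ℕ → ℕ → Prop) (hM : Mach rule H gtot ytot Dead)
    (n₀ : ℕ) (hA : ∀ y, ¬ Dead F y → ∃ z, y ∣ 2 ^ z * 3 ^ n₀)
    (hB : ∀ g y, ¬ Dead g y → g = F ∨ Nat.Coprime g F) :
    ∀ a r, ∃ z₀, ∀ z, z₀ ≤ z → ∀ m, n₀ ≤ m → τ a ((1 + Xk ^ (2 ^ z * 3 ^ m)) * r) = 1 := by
  intro a r
  refine AddSubgroup.closure_induction ?_ ?_ ?_ ?_ (cont_span (stJ ι) r)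
  · rintro f ⟨w, c, hw, hc, rfl⟩
    obtain ⟨z₀, hz₀⟩ := torsC_all hτ H gtot ytot Dead hM n₀ hA hB a (fun s => w (.st s))
    have hwe : extW (fun s => w (.st s)) = w := by
      funext j
      cases j with
      | st s => rfl
      | kap => exact (hw _ (by simp [stJ])).symm
      | kap3 => exact (hw _ (by simp [stJ])).symm
      | nu => exact (hw _ (by simp [stJ])).symm
    refine ⟨z₀, fun z hz m hm => ?_⟩
    have h1 := hz₀ z hz m hm c hc
    have h2 := cont_kn (fun s => w (.st s)) (2 ^ z * 3 ^ m) 0 c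
    simp only [pow_zero, mul_one] at h2
    rw [h2, hwe] at h1
    rw [add_mul, one_mul, hτ.add, ← h1, hτ.sq]
  · exact ⟨0, fun z _ m _ => by rw [mul_zero, hτ.zero]⟩
  · rintro x y _ _ ⟨z₁, h₁⟩ ⟨z₂, h₂⟩
    refine ⟨max z₁ z₂, fun z hz m hm => ?_⟩
    rw [mul_add, hτ.add, h₁ z (le_trans (le_max_left _ _) hz) m hm,
      h₂ z (le_trans (le_max_right _ _) hz) m hm, one_mul]
  · rintro x _ ⟨z₁, h₁⟩
    refine ⟨z₁, fun z hz m hm => ?_⟩
    have : -x = x := by
      rw [neg_eq_iff_add_eq_zero]; exact RR_two x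
    rw [this]; exact h₁ z hz m hm

end Pool.Agent.SolIndex
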