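import Mathlib

set_option autoImplicit false

/-!
WP9 of MP_6facb1_lc (helper79): the predicate `Alive`, its complement is r.e., and
`ToPartrec.Code`s halting on `[2^g, 2^y]` exactly when an r.e. predicate `Dead g y` holds.
-/

namespace Pool.Agent.SolIndex

open Turing

/-- `i`-th entry of the list of numbers coded by `e` (`0` if there is none). -/
def ent (e i : ℕ) : ℕ := ((Encodable.decode (α := List ℕ) e).getD []).getD i 0

/-- `Alive R g y`: `g` is a Fermat number `F_k`, `y = 2^e 3^l`, and for every `i < l` the number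
`ent e i` is a witness for `¬ ∃ c, R (k, i, ent e i, c)`. -/
def Alive (R : ℕ × ℕ × ℕ × ℕ → Prop) (g y : ℕ) : Prop :=
  ∃ k e l : ℕ, g = Nat.fermatNumber k ∧ y = 2 ^ e * 3 ^ l ∧ ∀ i < l, ∀ c, ¬ R (k, i, ent e i, c)

variable {R : ℕ × ℕ × ℕ × ℕ → Prop}

theorem Alive.fermat {g y : ℕ} (h : Alive R g y) : ∃ k, g = Nat.fermatNumber k := by
  obtain ⟨k, e, l, h1, -⟩ := h
  exact ⟨k, h1⟩

theorem Alive.pos {g y : ℕ} (h : Alive R g y) : 0 < y := by
  obtain ⟨k, e, l, -, rfl, -⟩ := h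
  positivity

/-- (A1) -/
theorem alive_dvd {k a : ℕ} (h : ∀ b, ∃ c, R (k, a, b, c)) {y : ℕ}
    (hy : Alive R (Nat.fermatNumber k) y) : ∃ z, y ∣ 2 ^ z * 3 ^ a := by
  obtain ⟨k', e, l, h1, rfl, h3⟩ := hy
  obtain rfl := Nat.fermatNumber_injective h1
  refine ⟨e, mul_dvd_mul_left _ (pow_dvd_pow _ ?_)⟩
  by_contra hl
  obtain ⟨c, hc⟩ := h (ent e a)
  exact h3 a (by omega) c hc

theorem ent_encode (L : List ℕ) (i : ℕ) : ent (Encodable.encode L) i = L.getD i 0 := by
  simp [ent]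

/-- (A2) -/
theorem exists_alive {k : ℕ} (h : ¬ ∃ a, ∀ b, ∃ c, R (k, a, b, c)) (n : ℕ) :
    ∃ y, Alive R (Nat.fermatNumber k) y ∧ 3 ^ n ∣ y := by
  push Not at h
  choose b hb using h
  refine ⟨2 ^ (Encodable.encode ((List.range n).map b)) * 3 ^ n,
    ⟨k, _, n, rfl, rfl, fun i hi c => ?_⟩, dvd_mul_left _ _⟩
  rw [ent_encode]
  have : ((List.range n).map b).getD i 0 = b i := by
    simp [List.getD_eq_getElem?_getD, hi]
  rw [this]
  exact hb i c

theorem primrec_ent : Primrec₂ ent := by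
  unfold ent
  have h1 : Primrec fun p : ℕ × ℕ => (Encodable.decode (α := List ℕ) p.1).getD [] :=
    Primrec.option_getD.comp (Primrec.decode.comp Primrec.fst) (Primrec.const [])
  exact (Primrec.list_getD 0).comp h1 Primrec.snd

/-- Being a power of two times a power of three, with a bounded search. -/
theorem pow_form_iff (y : ℕ) : (∃ e l, y = 2 ^ e * 3 ^ l) ↔
    ∃ x < (y + 1) * (y + 1), y = 2 ^ (x / (y + 1)) * 3 ^ (x % (y + 1)) := by
  constructor
  · rintro ⟨e, l, h⟩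
    have he : e < y + 1 := by
      have h1 : e < 2 ^ e := Nat.lt_two_pow_self
      have h2 : 2 ^ e ≤ y := by rw [h]; exact Nat.le_mul_of_pos_right _ (by positivity)
      omega
    have hl : l < y + 1 := by
      have h1 : l < 3 ^ l := Nat.lt_pow_self (by norm_num)
      have h2 : 3 ^ l ≤ y := by rw [h]; exact Nat.le_mul_of_pos_left _ (by positivity)
      omega
    refine ⟨e * (y + 1) + l, ?_, ?_⟩
    · nlinarith
    · have e1 : (e * (y + 1) + l) / (y + 1) = e := by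
        rw [mul_comm, Nat.mul_add_div (by omega), Nat.div_eq_of_lt hl, add_zero]
      have e2 : (e * (y + 1) + l) % (y + 1) = l := by
        rw [mul_comm, Nat.mul_add_mod, Nat.mod_eq_of_lt hl]
      rw [e1, e2]; exact h
  · rintro ⟨x, -, h⟩
    exact ⟨_, _, h⟩

theorem primrec_pow : Primrec₂ (fun a b : ℕ => a ^ b) := by
  have := Primrec.nat_rec (f := fun _ : ℕ => (1 : ℕ))
    (g := fun (a : ℕ) (p : ℕ × ℕ) => p.2 * a) (Primrec.const 1)
    (Primrec.nat_mul.comp (Primrec.snd.comp Primrec.snd) Primrec.fst).to₂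
  refine this.of_eq fun a b => ?_
  induction b with
  | zero => simp
  | succ n ih => simp only [pow_succ]; rw [← ih]

theorem primrec_fermat : Primrec Nat.fermatNumber := by
  unfold Nat.fermatNumber
  exact Primrec.succ.comp (primrec_pow.comp (Primrec.const 2)
    (primrec_pow.comp (Primrec.const 2) Primrec.id))

theorem fermat_form_iff (g : ℕ) : (∃ k, g = Nat.fermatNumber k) ↔
    ∃ k < g, g = Nat.fermatNumber k := by
  constructor
  · rintro ⟨k, h⟩
    refine ⟨k, ?_, h⟩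
    rw [h, Nat.fermatNumber]
    have h1 : k < 2 ^ k := Nat.lt_two_pow_self
    have h2 : 2 ^ k < 2 ^ (2 ^ k) := Nat.lt_two_pow_self
    omega
  · rintro ⟨k, -, h⟩
    exact ⟨k, h⟩

theorem primrecPred_fermat_form : PrimrecPred fun g : ℕ => ∃ k, g = Nat.fermatNumber k := by
  have h : PrimrecRel fun (k g : ℕ) => g = Nat.fermatNumber k :=
    Primrec.eq.comp Primrec.snd (primrec_fermat.comp Primrec.fst)
  exact ((PrimrecRel.exists_lt h).comp Primrec.id Primrec.id).of_eq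
    fun g => (fermat_form_iff g).symm

theorem primrecPred_pow_form : PrimrecPred fun y : ℕ => ∃ e l, y = 2 ^ e * 3 ^ l := by
  have h : PrimrecRel fun (x y : ℕ) => y = 2 ^ (x / (y + 1)) * 3 ^ (x % (y + 1)) := by
    have hd : Primrec fun p : ℕ × ℕ => p.1 / (p.2 + 1) :=
      Primrec.nat_div.comp Primrec.fst (Primrec.succ.comp Primrec.snd)
    have hm : Primrec fun p : ℕ × ℕ => p.1 % (p.2 + 1) :=
      Primrec.nat_mod.comp Primrec.fst (Primrec.succ.comp Primrec.snd)
    exact Primrec.eq.comp Primrec.snd (Primrec.nat_mul.comp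
      (primrec_pow.comp (Primrec.const 2) hd) (primrec_pow.comp (Primrec.const 3) hm))
  have hb : Primrec fun y : ℕ => (y + 1) * (y + 1) :=
    Primrec.nat_mul.comp Primrec.succ Primrec.succ
  exact ((PrimrecRel.exists_lt h).comp hb Primrec.id).of_eq fun y => (pow_form_iff y).symm

/-- the search predicate -/
def SearchP (R : ℕ × ℕ × ℕ × ℕ → Prop) (x : ℕ × ℕ) (t : ℕ × ℕ × ℕ × ℕ × ℕ) : Prop :=
  (¬ ∃ k, x.1 = Nat.fermatNumber k) ∨ (¬ ∃ e l, x.2 = 2 ^ e * 3 ^ l) ∨
    (x.1 = Nat.fermatNumber t.1 ∧ x.2 = 2 ^ t.2.1 * 3 ^ t.2.2.1 ∧ t.2.2.2.1 < t.2.2.1 ∧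
      R (t.1, t.2.2.2.1, ent t.2.1 t.2.2.2.1, t.2.2.2.2))

theorem not_alive_iff (g y : ℕ) : ¬ Alive R g y ↔ ∃ t, SearchP R (g, y) t := by
  constructor
  · intro h
    by_cases h1 : ∃ k, g = Nat.fermatNumber k
    · by_cases h2 : ∃ e l, y = 2 ^ e * 3 ^ l
      · obtain ⟨k, hk⟩ := h1
        obtain ⟨e, l, he⟩ := h2
        have : ∃ i < l, ∃ c, R (k, i, ent e i, c) := by
          by_contra hc
          push Not at hc
          exact h ⟨k, e, l, hk, he, hc⟩
        obtain ⟨i, hi, c, hc⟩ := this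
        exact ⟨(k, e, l, i, c), Or.inr (Or.inr ⟨hk, he, hi, hc⟩)⟩
      · exact ⟨(0, 0, 0, 0, 0), Or.inr (Or.inl h2)⟩
    · exact ⟨(0, 0, 0, 0, 0), Or.inl h1⟩
  · rintro ⟨⟨k, e, l, i, c⟩, h⟩ ⟨k', e', l', hk', he', hR⟩
    rcases h with h | h | ⟨h1, h2, h3, h4⟩
    · exact h ⟨k', hk'⟩
    · exact h ⟨e', l', he'⟩
    · simp only at h1 h2 h3 h4
      obtain rfl := Nat.fermatNumber_injective (h1.symm.trans hk')
      have hel : e = e' ∧ l = l' := by
        have hh : 2 ^ e * 3 ^ l = 2 ^ e' * 3 ^ l' := h2.symm.trans he'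
        have f2 := congrArg (padicValNat 2) hh
        have f3 := congrArg (padicValNat 3) hh
        have : Fact (Nat.Prime 3) := ⟨Nat.prime_three⟩
        have q1 : padicValNat 2 3 = 0 := by
          rw [padicValNat.eq_zero_iff]; right; right; norm_num
        have q2 : padicValNat 3 2 = 0 := by
          rw [padicValNat.eq_zero_iff]; right; right; norm_num
        rw [padicValNat.mul (by positivity) (by positivity),
          padicValNat.mul (by positivity) (by positivity), padicValNat.prime_pow,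
          padicValNat.prime_pow, padicValNat.pow, padicValNat.pow, q1] at f2
        rw [padicValNat.mul (by positivity) (by positivity),
          padicValNat.mul (by positivity) (by positivity), padicValNat.prime_pow,
          padicValNat.prime_pow, padicValNat.pow, padicValNat.pow, q2] at f3
        constructor
        · simpa using f2
        · simpa using f3
      obtain ⟨rfl, rfl⟩ := hel
      exact hR i h3 c h4

theorem ComputablePred.and' {α : Type*} [Primcodable α] {p q : α → Prop}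
    (hp : ComputablePred p) (hq : ComputablePred q) : ComputablePred fun a => p a ∧ q a := by
  classical
  refine Computable.computablePred ?_
  exact (Primrec.and.to_comp.comp hp.decide hq.decide).of_eq fun a => by simp

theorem ComputablePred.or' {α : Type*} [Primcodable α] {p q : α → Prop}
    (hp : ComputablePred p) (hq : ComputablePred q) : ComputablePred fun a => p a ∨ q a := by
  classical
  refine Computable.computablePred ?_
  exact (Primrec.or.to_comp.comp hp.decide hq.decide).of_eq fun a => by simp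

theorem ComputablePred.comp' {α β : Type*} [Primcodable α] [Primcodable β] {p : β → Prop}
    {f : α → β} (hp : ComputablePred p) (hf : Computable f) :
    ComputablePred fun a => p (f a) := by
  classical
  exact Computable.computablePred (hp.decide.comp hf)

theorem computablePred_searchP (hR : ComputablePred R) :
    ComputablePred fun p : (ℕ × ℕ) × (ℕ × ℕ × ℕ × ℕ × ℕ) => SearchP R p.1 p.2 := by
  have x1 : Primrec fun p : (ℕ × ℕ) × (ℕ × ℕ × ℕ × ℕ × ℕ) => p.1.1 :=
    Primrec.fst.comp Primrec.fst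
  have x2 : Primrec fun p : (ℕ × ℕ) × (ℕ × ℕ × ℕ × ℕ × ℕ) => p.1.2 :=
    Primrec.snd.comp Primrec.fst
  have t1 : Primrec fun p : (ℕ × ℕ) × (ℕ × ℕ × ℕ × ℕ × ℕ) => p.2.1 :=
    Primrec.fst.comp Primrec.snd
  have r1 : Primrec fun p : (ℕ × ℕ) × (ℕ × ℕ × ℕ × ℕ × ℕ) => p.2.2 :=
    Primrec.snd.comp Primrec.snd
  have t2 : Primrec fun p : (ℕ × ℕ) × (ℕ × ℕ × ℕ × ℕ × ℕ) => p.2.2.1 :=
    Primrec.fst.comp r1
  have r2 : Primrec fun p : (ℕ × ℕ) × (ℕ × ℕ × ℕ × ℕ × ℕ) => p.2.2.2 :=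
    Primrec.snd.comp r1
  have t3 : Primrec fun p : (ℕ × ℕ) × (ℕ × ℕ × ℕ × ℕ × ℕ) => p.2.2.2.1 :=
    Primrec.fst.comp r2
  have r3 : Primrec fun p : (ℕ × ℕ) × (ℕ × ℕ × ℕ × ℕ × ℕ) => p.2.2.2.2 :=
    Primrec.snd.comp r2
  have t4 : Primrec fun p : (ℕ × ℕ) × (ℕ × ℕ × ℕ × ℕ × ℕ) => p.2.2.2.2.1 :=
    Primrec.fst.comp r3
  have t5 : Primrec fun p : (ℕ × ℕ) × (ℕ × ℕ × ℕ × ℕ × ℕ) => p.2.2.2.2.2 :=
    Primrec.snd.comp r3
  have a1 : ComputablePred fun p : (ℕ × ℕ) × (ℕ × ℕ × ℕ × ℕ × ℕ) =>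
      ¬ ∃ k, p.1.1 = Nat.fermatNumber k :=
    (primrecPred_fermat_form.comp x1).not.computablePred
  have a2 : ComputablePred fun p : (ℕ × ℕ) × (ℕ × ℕ × ℕ × ℕ × ℕ) =>
      ¬ ∃ e l, p.1.2 = 2 ^ e * 3 ^ l :=
    (primrecPred_pow_form.comp x2).not.computablePred
  have a3 : ComputablePred fun p : (ℕ × ℕ) × (ℕ × ℕ × ℕ × ℕ × ℕ) =>
      p.1.1 = Nat.fermatNumber p.2.1 :=
    (Primrec.eq.comp x1 (primrec_fermat.comp t1)).computablePred
  have a4 : ComputablePred fun p : (ℕ × ℕ) × (ℕ × ℕ × ℕ × ℕ × ℕ) =>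
      p.1.2 = 2 ^ p.2.2.1 * 3 ^ p.2.2.2.1 :=
    (Primrec.eq.comp x2 (Primrec.nat_mul.comp (primrec_pow.comp (Primrec.const 2) t2)
      (primrec_pow.comp (Primrec.const 3) t3))).computablePred
  have a5 : ComputablePred fun p : (ℕ × ℕ) × (ℕ × ℕ × ℕ × ℕ × ℕ) => p.2.2.2.2.1 < p.2.2.2.1 :=
    (Primrec.nat_lt.comp t4 t3).computablePred
  have a6 : ComputablePred fun p : (ℕ × ℕ) × (ℕ × ℕ × ℕ × ℕ × ℕ) =>
      R (p.2.1, p.2.2.2.2.1, ent p.2.2.1 p.2.2.2.2.1, p.2.2.2.2.2) :=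
    ComputablePred.comp' hR
      (t1.pair (t4.pair ((primrec_ent.comp t2 t4).pair t5))).to_comp
  exact ComputablePred.or' a1 (ComputablePred.or' a2
    (ComputablePred.and' a3 (ComputablePred.and' a4 (ComputablePred.and' a5 a6))))

/-- Projection of a computable predicate is r.e. -/
theorem exists_partrec {α β : Type*} [Primcodable α] [Primcodable β] [Inhabited β]
    {P : α → β → Prop} (hP : ComputablePred fun p : α × β => P p.1 p.2) :
    ∃ f : α →. ℕ, Partrec f ∧ ∀ a, (f a).Dom ↔ ∃ b, P a b := by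
  classical
  let q : α → ℕ →. Bool := fun a n =>
    Part.some (decide (P a ((Encodable.decode (α := β) n).getD default)))
  refine ⟨fun a => Nat.rfind (q a), Partrec.rfind ?_, fun a => ?_⟩
  · have h1 : Computable fun p : α × ℕ => (p.1, (Encodable.decode (α := β) p.2).getD default) :=
      Computable.fst.pair ((Primrec.option_getD.comp (Primrec.decode.comp Primrec.snd)
        (Primrec.const default)).to_comp)
    exact (hP.decide.comp h1).partrec
  · refine Nat.rfind_dom.trans ?_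
    constructor
    · rintro ⟨n, hn, -⟩
      exact ⟨_, by simpa [q] using hn⟩
    · rintro ⟨b, hb⟩
      exact ⟨Encodable.encode b, by simpa [q] using hb, fun _ => trivial⟩

/-- A partial recursive function of two arguments whose domain is the dead pairs. -/
theorem exists_partrec_dead (hR : ComputablePred R) :
    ∃ f : ℕ × ℕ →. ℕ, Partrec f ∧ ∀ g y, (f (g, y)).Dom ↔ ¬ Alive R g y := by
  obtain ⟨f, hf, h⟩ := exists_partrec (computablePred_searchP hR)
  exact ⟨f, hf, fun g y => by rw [h, not_alive_iff]⟩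

/-- r.e. form -/
theorem rePred_dead (hR : ComputablePred R) :
    REPred fun p : ℕ × ℕ => ¬ Alive R p.1 p.2 := by
  obtain ⟨f, hf, h⟩ := exists_partrec_dead hR
  exact hf.dom_re.of_eq fun p => h p.1 p.2

theorem primrec_log2 : Primrec Nat.log2 := by
  refine Primrec.of_graph ⟨id, Primrec.id, fun n => ?_⟩ ?_
  · simp only [Encodable.encode_nat, id]
    exact Nat.log2_le_self n
  · have h : PrimrecRel fun (a b : ℕ) => (a = 0 ∧ b = 0) ∨ (a ≠ 0 ∧ 2 ^ b ≤ a ∧ a < 2 ^ (b + 1)) :=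
      PrimrecPred.or
        (.and (Primrec.eq.comp Primrec.fst (Primrec.const 0))
          (Primrec.eq.comp Primrec.snd (Primrec.const 0)))
        (.and (Primrec.eq.comp Primrec.fst (Primrec.const 0)).not
          (.and (Primrec.nat_le.comp (primrec_pow.comp (Primrec.const 2) Primrec.snd) Primrec.fst)
            (Primrec.nat_lt.comp Primrec.fst
              (primrec_pow.comp (Primrec.const 2) (Primrec.succ.comp Primrec.snd)))))
    refine h.of_eq fun a b => ?_
    rcases Nat.eq_zero_or_pos a with rfl | ha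
    · simp [eq_comm]
    · constructor
      · rintro (⟨h1, -⟩ | ⟨-, h2, h3⟩)
        · omega
        · exact (Nat.log2_eq_iff ha.ne').2 ⟨h2, h3⟩
      · intro h1
        exact Or.inr ⟨ha.ne', (Nat.log2_eq_iff ha.ne').1 h1⟩

/-- a code halting on `[2^g, 2^y]` iff `Dead g y`. -/
theorem exists_code (Dead : ℕ → ℕ → Prop) (hD : REPred fun p : ℕ × ℕ => Dead p.1 p.2) :
    ∃ c : Turing.ToPartrec.Code, ∀ g y, (c.eval [2 ^ g, 2 ^ y]).Dom ↔ Dead g y := by
  have hf : Partrec fun p : ℕ × ℕ => (Part.assert (Dead p.1 p.2) fun _ => Part.some ()).map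
      fun _ => (0 : ℕ) := Partrec.map hD (Computable.const 0).to₂
  have h2 : Partrec₂ fun a b : ℕ =>
      (Part.assert (Dead (Nat.log2 a) (Nat.log2 b)) fun _ => Part.some ()).map
      fun _ => (0 : ℕ) :=
    hf.comp ((primrec_log2.comp Primrec.fst).pair (primrec_log2.comp Primrec.snd)).to_comp
  obtain ⟨c, hc⟩ := ToPartrec.Code.exists_code (Nat.Partrec'.part_iff₂.2 h2)
  refine ⟨c, fun g y => ?_⟩
  have := hc (2 ^ g ::ᵥ 2 ^ y ::ᵥ List.Vector.nil)
  have e1 : (2 ^ g ::ᵥ 2 ^ y ::ᵥ List.Vector.nil : List.Vector ℕ 2).1 = [2 ^ g, 2 ^ y] := rfl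
  rw [e1] at this
  rw [this]
  have e2 : (2 ^ g ::ᵥ 2 ^ y ::ᵥ List.Vector.nil : List.Vector ℕ 2).head = 2 ^ g := rfl
  have e3 : (2 ^ g ::ᵥ 2 ^ y ::ᵥ List.Vector.nil : List.Vector ℕ 2).tail.head = 2 ^ y := rfl
  rw [e2, e3, Nat.log2_two_pow, Nat.log2_two_pow]
  constructor
  · rintro ⟨h, -⟩
    exact h
  · intro h
    exact ⟨h, trivial⟩

theorem exists_dead (R : ℕ × ℕ × ℕ × ℕ → Prop) (hR : ComputablePred R) :
    ∃ Dead : ℕ → ℕ → Prop,
      (REPred fun p : ℕ × ℕ => Dead p.1 p.2) ∧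
      (∀ g y, ¬ Dead g y → ∃ k, g = Nat.fermatNumber k) ∧
      (∀ k, (∃ a, ∀ b, ∃ c, R (k, a, b, c)) →
        ∃ n₀, ∀ y, ¬ Dead (Nat.fermatNumber k) y → ∃ z, y ∣ 2 ^ z * 3 ^ n₀) ∧
      (∀ k, ¬ (∃ a, ∀ b, ∃ c, R (k, a, b, c)) →
        ∀ n : ℕ, ∃ y, ¬ Dead (Nat.fermatNumber k) y ∧ 3 ^ n ∣ y) := by
  refine ⟨fun g y => ¬ Alive R g y, rePred_dead hR, fun g y h => ?_, fun k h => ?_, fun k h n => ?_⟩
  · exact (not_not.1 h).fermat
  · obtain ⟨a, ha⟩ := h
    exact ⟨a, fun y hy => alive_dvd ha (not_not.1 hy)⟩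
  · obtain ⟨y, hy, hd⟩ := exists_alive h n
    exact ⟨y, not_not.2 hy, hd⟩

theorem cast_two_pow (n : ℕ) : ((2 ^ n : ℕ) : Num) = Num.pos (Nat.iterate PosNum.bit0 n 1) := by
  induction n with
  | zero => rfl
  | succ n ih =>
    rw [pow_succ, mul_comm, Function.iterate_succ_apply']
    have : ((2 * 2 ^ n : ℕ) : Num) = Num.bit0 ((2 ^ n : ℕ) : Num) := by
      rw [← Num.bit0_of_bit0, two_mul, Nat.cast_add]
    rw [this, ih]
    rfl

theorem trNat_two_pow (n : ℕ) : PartrecToTM2.trNat (2 ^ n) =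
    List.replicate n PartrecToTM2.Γ'.bit0 ++ [PartrecToTM2.Γ'.bit1] := by
  rw [PartrecToTM2.trNat, cast_two_pow]
  show PartrecToTM2.trPosNum _ = _
  induction n with
  | zero => rfl
  | succ n ih =>
    rw [Function.iterate_succ_apply', List.replicate_succ, List.cons_append, ← ih]
    rfl

open Turing.PartrecToTM2 in
theorem trList_two_pow (g y : ℕ) :
    trList [2 ^ g, 2 ^ y] = List.replicate g Γ'.bit0 ++ [Γ'.bit1, Γ'.cons] ++
      (List.replicate y Γ'.bit0 ++ [Γ'.bit1, Γ'.cons]) := by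
  simp [trList, trNat_two_pow]

end Pool.Agent.SolIndex
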