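import Mathlib

/-!
Digit expansions in the ring `F_2[t, 1/t, 1/(1+t)]`.

Eventually constant sequences of digits `< Q = 2^a`, with tail `0`, `Q-1` or `m`, index a basis of
the ring over `F_2`, compatible with Frobenius: `e (cons r u) = g r * (e u)^Q`.
-/

set_option autoImplicit false

namespace Pool.Agent.SolIndex.Dig

open Finset

/-- the digits that may occur as tails -/
def IsTl (Q m c : ℕ) : Prop := c = 0 ∨ c = Q - 1 ∨ c = m

/-- eventually constant digit sequences with tail `0`, `Q-1` or `m` -/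
def Sq (Q m : ℕ) : Type := {u : ℕ → Fin Q // ∃ N : ℕ, ∃ c : Fin Q, IsTl Q m c ∧ ∀ i, N ≤ i → u i = c}

variable {Q m : ℕ}

/-- the `i`-th digit -/
def Sq.get (u : Sq Q m) (i : ℕ) : Fin Q := u.1 i

@[ext] lemma Sq.ext {u v : Sq Q m} (h : ∀ i, u.get i = v.get i) : u = v :=
  Subtype.ext (funext h)

/-- put a digit on top -/
def Sq.cons (r : Fin Q) (u : Sq Q m) : Sq Q m :=
  ⟨fun i => Nat.casesOn i r (fun j => u.1 j), by
    obtain ⟨N, c, hc, h⟩ := u.2
    refine ⟨N + 1, c, hc, ?_⟩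
    intro i hi
    cases i with
    | zero => omega
    | succ j => exact h j (by omega)⟩

/-- remove the top digit -/
def Sq.tail (u : Sq Q m) : Sq Q m :=
  ⟨fun i => u.1 (i + 1), by
    obtain ⟨N, c, hc, h⟩ := u.2
    exact ⟨N, c, hc, fun i hi => h (i + 1) (by omega)⟩⟩

/-- constant sequences -/
def Sq.const (c : Fin Q) (hc : IsTl Q m c) : Sq Q m := ⟨fun _ => c, 0, c, hc, fun _ _ => rfl⟩

@[simp] lemma Sq.get_cons_zero (r : Fin Q) (u : Sq Q m) : (Sq.cons r u).get 0 = r := rfl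

@[simp] lemma Sq.get_cons_succ (r : Fin Q) (u : Sq Q m) (i : ℕ) :
    (Sq.cons r u).get (i + 1) = u.get i := rfl

@[simp] lemma Sq.get_tail (u : Sq Q m) (i : ℕ) : u.tail.get i = u.get (i + 1) := rfl

@[simp] lemma Sq.get_const (c : Fin Q) (hc : IsTl Q m c) (i : ℕ) : (Sq.const c hc).get i = c := rfl

@[simp] lemma Sq.tail_cons (r : Fin Q) (u : Sq Q m) : (Sq.cons r u).tail = u := rfl

@[simp] lemma Sq.cons_tail (u : Sq Q m) : Sq.cons (u.get 0) u.tail = u := by
  ext i
  cases i with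
  | zero => rfl
  | succ j => rfl

lemma Sq.cons_inj {r r' : Fin Q} {u u' : Sq Q m} (h : Sq.cons r u = Sq.cons r' u') :
    r = r' ∧ u = u' :=
  ⟨by have := congrArg (fun v => Sq.get v 0) h; simpa using this,
    by have := congrArg Sq.tail h; simpa using this⟩

lemma Sq.cons_const (c : Fin Q) (hc : IsTl Q m c) : Sq.cons c (Sq.const c hc) = Sq.const c hc := by
  ext i
  cases i with
  | zero => rfl
  | succ j => rfl

/-! ### The field -/

/-- the field `F_2(t)` -/
abbrev Fl : Type := RatFunc (ZMod 2)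

/-- the variable -/
noncomputable def tt : Fl := RatFunc.X

lemma tt_ne : tt ≠ 0 := RatFunc.X_ne_zero

lemma one_add_tt_ne : (1 : Fl) + tt ≠ 0 := by
  have h : (1 : Fl) + tt = algebraMap (Polynomial (ZMod 2)) Fl (1 + Polynomial.X) := by
    rw [map_add, map_one, RatFunc.algebraMap_X]; rfl
  rw [h]
  intro h0
  rw [map_eq_zero_iff _ (RatFunc.algebraMap_injective (ZMod 2))] at h0
  have := congrArg (fun p => Polynomial.coeff p 1) h0
  simp [Polynomial.coeff_one] at this

instance : CharP Fl 2 := charP_of_injective_algebraMap (algebraMap (ZMod 2) Fl).injective 2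

lemma add_self_Fl (x : Fl) : x + x = 0 := CharTwo.add_self_eq_zero x

/-- the digit monomials -/
noncomputable def gg (Q m r : ℕ) : Fl := if r = m then (1 + tt) ^ (Q - 1) else tt ^ r

/-- the tails -/
noncomputable def tl (Q c : ℕ) : Fl := if c = 0 then 1 else if c = Q - 1 then tt⁻¹ else (1 + tt)⁻¹

/-- partial products -/
noncomputable def eN (Q m : ℕ) (u : ℕ → ℕ) (N : ℕ) : Fl :=
  (∏ i ∈ range N, gg Q m (u i) ^ (Q ^ i)) * tl Q (u N) ^ (Q ^ N)

lemma gg_tl (hm0 : 0 < m) (hm : m < Q - 1) {c : ℕ} (hc : IsTl Q m c) :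
    gg Q m c * tl Q c ^ Q = tl Q c := by
  have hQ : Q = (Q - 1) + 1 := by omega
  rcases hc with rfl | rfl | rfl
  · unfold gg tl
    rw [if_neg (by omega), if_pos rfl]; simp
  · unfold gg tl
    rw [if_neg (by omega), if_neg (by omega), if_pos rfl]
    conv_lhs => rw [hQ]
    rw [Nat.add_sub_cancel, pow_succ, ← mul_assoc, ← mul_pow, mul_inv_cancel₀ tt_ne, one_pow,
      one_mul]
  · unfold gg tl
    rw [if_pos rfl, if_neg (by omega), if_neg (by omega)]
    conv_lhs => rw [hQ]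
    rw [Nat.add_sub_cancel, pow_succ, ← mul_assoc, ← mul_pow, mul_inv_cancel₀ one_add_tt_ne,
      one_pow, one_mul]

lemma eN_succ_of_tail (hm0 : 0 < m) (hm : m < Q - 1) (u : ℕ → ℕ) (N c : ℕ) (hc : IsTl Q m c)
    (h : ∀ i, N ≤ i → u i = c) : eN Q m u (N + 1) = eN Q m u N := by
  unfold eN
  rw [prod_range_succ, h N le_rfl, h (N + 1) (by omega), mul_assoc, pow_succ, mul_comm (Q ^ N) Q,
    pow_mul, ← mul_pow, gg_tl hm0 hm hc]

lemma eN_of_tail (hm0 : 0 < m) (hm : m < Q - 1) (u : ℕ → ℕ) (N c : ℕ) (hc : IsTl Q m c)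
    (h : ∀ i, N ≤ i → u i = c) (k : ℕ) : eN Q m u (N + k) = eN Q m u N := by
  induction k with
  | zero => rfl
  | succ k ih =>
    rw [← ih, ← add_assoc]
    exact eN_succ_of_tail hm0 hm u (N + k) c hc (fun i hi => h i (by omega))

/-- the basis element of a digit sequence -/
noncomputable def ee (u : Sq Q m) : Fl := eN Q m (fun i => (u.get i : ℕ)) u.2.choose

lemma ee_eq (hm0 : 0 < m) (hm : m < Q - 1) (u : Sq Q m) (N : ℕ) (c : Fin Q) (hc : IsTl Q m c)
    (h : ∀ i, N ≤ i → u.get i = c) : ee u = eN Q m (fun i => (u.get i : ℕ)) N := by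
  obtain ⟨c', hc', h'⟩ := u.2.choose_spec
  unfold ee
  set N' := u.2.choose with hN'
  have h1 := eN_of_tail hm0 hm (fun i => (u.get i : ℕ)) N c hc (fun i hi => by rw [h i hi]) N'
  have h2 := eN_of_tail hm0 hm (fun i => (u.get i : ℕ)) N' c' hc'
    (fun i hi => congrArg Fin.val (h' i hi)) N
  rw [← h2, ← h1, add_comm]

lemma ee_cons (hm0 : 0 < m) (hm : m < Q - 1) (r : Fin Q) (u : Sq Q m) :
    ee (Sq.cons r u) = gg Q m r * ee u ^ Q := by
  obtain ⟨N, c, hc, h⟩ := u.2
  rw [ee_eq hm0 hm u N c hc h, ee_eq hm0 hm (Sq.cons r u) (N + 1) c hc (by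
    intro i hi
    cases i with
    | zero => omega
    | succ j => exact h j (by omega))]
  unfold eN
  rw [prod_range_succ', mul_pow, ← prod_pow]
  simp only [Sq.get_cons_zero, Sq.get_cons_succ, pow_zero, pow_one]
  rw [mul_comm (∏ i ∈ range N, _) (gg Q m r), mul_assoc]
  congr 1
  simp_rw [← pow_mul, ← pow_succ]

lemma ee_const (hm0 : 0 < m) (hm : m < Q - 1) (c : Fin Q) (hc : IsTl Q m c) :
    ee (Sq.const c hc) = tl Q c := by
  rw [ee_eq hm0 hm (Sq.const c hc) 0 c hc (fun _ _ => rfl)]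
  unfold eN
  simp

/-! ### Independence over `Q`-th powers -/

lemma pow_add_Fl (a : ℕ) (x y : Fl) : (x + y) ^ (2 ^ a) = x ^ (2 ^ a) + y ^ (2 ^ a) :=
  add_pow_char_pow x y 2 a

lemma pow_sum_Fl {ι : Type*} (a : ℕ) (s : Finset ι) (x : ι → Fl) :
    (∑ i ∈ s, x i) ^ (2 ^ a) = ∑ i ∈ s, x i ^ (2 ^ a) := by
  classical
  induction s using Finset.induction_on with
  | empty => simp
  | insert i s hi ih => rw [sum_insert hi, sum_insert hi, pow_add_Fl, ih]

lemma expand_pow_two (a : ℕ) (f : Polynomial (ZMod 2)) :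
    Polynomial.expand (ZMod 2) (2 ^ a) f = f ^ (2 ^ a) := by
  induction a generalizing f with
  | zero => simp
  | succ a ih =>
    rw [pow_succ, Polynomial.expand_mul, ZMod.expand_card, map_pow, ih, ← pow_mul]

lemma indep_pow (a : ℕ) (x : ℕ → Fl) (h : ∑ r ∈ range (2 ^ a), tt ^ r * x r ^ (2 ^ a) = 0) :
    ∀ r ∈ range (2 ^ a), x r = 0 := by
  classical
  obtain ⟨b, hb⟩ := IsLocalization.exist_integer_multiples_of_finset
    (nonZeroDivisors (Polynomial (ZMod 2))) ((range (2 ^ a)).image x)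
  have hb' : ∀ r ∈ range (2 ^ a), ∃ p : Polynomial (ZMod 2),
      algebraMap (Polynomial (ZMod 2)) Fl p = algebraMap (Polynomial (ZMod 2)) Fl b * x r := by
    intro r hr
    obtain ⟨p, hp⟩ := hb (x r) (mem_image_of_mem x hr)
    refine ⟨p, ?_⟩
    rw [hp, Algebra.smul_def]
  choose! p hp using hb'
  set B := algebraMap (Polynomial (ZMod 2)) Fl b with hB
  have hB0 : B ≠ 0 := by
    rw [hB, Ne, map_eq_zero_iff _ (RatFunc.algebraMap_injective (ZMod 2))]
    exact nonZeroDivisors.coe_ne_zero b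
  have h1 : algebraMap (Polynomial (ZMod 2)) Fl (∑ r ∈ range (2 ^ a),
      Polynomial.X ^ r * Polynomial.expand (ZMod 2) (2 ^ a) (p r)) = 0 := by
    rw [map_sum]
    have h2 : ∀ r ∈ range (2 ^ a), algebraMap (Polynomial (ZMod 2)) Fl
        (Polynomial.X ^ r * Polynomial.expand (ZMod 2) (2 ^ a) (p r))
        = B ^ (2 ^ a) * (tt ^ r * x r ^ (2 ^ a)) := by
      intro r hr
      rw [map_mul, expand_pow_two, map_pow, map_pow, hp r hr, RatFunc.algebraMap_X, mul_pow]
      unfold tt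
      ring
    rw [sum_congr rfl h2, ← mul_sum, h, mul_zero]
  rw [map_eq_zero_iff _ (RatFunc.algebraMap_injective (ZMod 2))] at h1
  have hQ : 0 < 2 ^ a := by positivity
  intro r hr
  have hpr : p r = 0 := by
    ext k
    have h3 := congrArg (fun f => Polynomial.coeff f (r + 2 ^ a * k)) h1
    simp only [Polynomial.finsetSum_coeff, Polynomial.coeff_zero] at h3
    rw [sum_eq_single r] at h3
    · rw [Polynomial.coeff_X_pow_mul', if_pos (by omega), Nat.add_sub_cancel_left,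
        Polynomial.coeff_expand_mul' hQ] at h3
      rw [h3, Polynomial.coeff_zero]
    · intro r' hr' hne
      rw [Polynomial.coeff_X_pow_mul']
      split_ifs with hle
      · rw [Polynomial.coeff_expand hQ, if_neg]
        intro hdvd
        rw [mem_range] at hr hr'
        apply hne
        have h4 : (r + 2 ^ a * k) ≡ r' [MOD 2 ^ a] := ((Nat.modEq_iff_dvd' hle).2 hdvd).symm
        have h5 : r ≡ r' [MOD 2 ^ a] := by
          have : r + 2 ^ a * k ≡ r [MOD 2 ^ a] := by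
            unfold Nat.ModEq; rw [Nat.add_mul_mod_self_left]
          exact this.symm.trans h4
        exact ((Nat.ModEq.eq_of_lt_of_lt h5 hr hr').symm)
      · rfl
    · intro hh; exact absurd hr hh
  have h6 := hp r hr
  rw [hpr, map_zero] at h6
  rcases mul_eq_zero.1 h6.symm with h7 | h7
  · exact absurd h7 hB0
  · exact h7

lemma geom_Fl (r : ℕ) : (1 + tt) * ∑ i ∈ range r, tt ^ i = 1 + tt ^ r := by
  induction r with
  | zero => simp [add_self_Fl]
  | succ r ih =>
    rw [sum_range_succ, mul_add, ih]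
    have : (1 : Fl) + tt ^ r + (1 + tt) * tt ^ r = 1 + tt ^ (r + 1) + (tt ^ r + tt ^ r) := by ring
    rw [this, add_self_Fl, add_zero]

lemma one_add_pow_pred (a : ℕ) : (1 + tt) ^ (2 ^ a - 1) = ∑ i ∈ range (2 ^ a), tt ^ i := by
  have h1 : (1 + tt) * (1 + tt) ^ (2 ^ a - 1) = (1 + tt) * ∑ i ∈ range (2 ^ a), tt ^ i := by
    rw [geom_Fl, ← pow_succ', Nat.sub_add_cancel Nat.one_le_two_pow, pow_add_Fl, one_pow]
  exact mul_left_cancel₀ one_add_tt_ne h1

lemma indep_gg (a : ℕ) (hm0 : 0 < m) (hm : m < 2 ^ a - 1) (x : ℕ → Fl)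
    (h : ∑ r ∈ range (2 ^ a), gg (2 ^ a) m r * x r ^ (2 ^ a) = 0) :
    ∀ r ∈ range (2 ^ a), x r = 0 := by
  have hmr : m ∈ range (2 ^ a) := by rw [mem_range]; omega
  set y : ℕ → Fl := fun r => if r = m then x m else x r + x m with hy
  have h1 : ∑ r ∈ range (2 ^ a), tt ^ r * y r ^ (2 ^ a) = 0 := by
    rw [← h, ← add_sum_erase _ _ hmr, ← add_sum_erase _ (fun r => gg (2 ^ a) m r * x r ^ (2 ^ a)) hmr]
    have e1 : ∀ r ∈ (range (2 ^ a)).erase m, tt ^ r * y r ^ (2 ^ a)
        = gg (2 ^ a) m r * x r ^ (2 ^ a) + tt ^ r * x m ^ (2 ^ a) := by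
      intro r hr
      rw [mem_erase] at hr
      simp only [hy, gg, if_neg hr.1]
      rw [pow_add_Fl, mul_add]
    rw [sum_congr rfl e1, sum_add_distrib]
    have e2 : gg (2 ^ a) m m * x m ^ (2 ^ a) = tt ^ m * x m ^ (2 ^ a)
        + ∑ r ∈ (range (2 ^ a)).erase m, tt ^ r * x m ^ (2 ^ a) := by
      rw [add_sum_erase _ (fun r => tt ^ r * x m ^ (2 ^ a)) hmr, ← sum_mul]
      unfold gg
      rw [if_pos rfl, one_add_pow_pred]
    rw [e2]
    simp only [hy, if_pos]
    ring
  have h2 := indep_pow a y h1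
  have hxm : x m = 0 := by
    have := h2 m hmr
    simpa [hy] using this
  intro r hr
  by_cases hrm : r = m
  · rw [hrm]; exact hxm
  · have := h2 r hr
    simp only [hy, if_neg hrm, hxm, add_zero] at this
    exact this

/-! ### Linear independence over `F_2` -/

/-- the linear map `single u 1 ↦ e_u` -/
noncomputable def EE (Q m : ℕ) : (Sq Q m →₀ ZMod 2) →ₗ[ZMod 2] Fl :=
  Finsupp.linearCombination (ZMod 2) (ee (Q := Q) (m := m))

@[simp] lemma EE_single (u : Sq Q m) (c : ZMod 2) : EE Q m (Finsupp.single u c) = c • ee u := by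
  unfold EE; rw [Finsupp.linearCombination_single]

lemma cons_injective (r : Fin Q) : Function.Injective (Sq.cons (m := m) r) :=
  fun _ _ h => (Sq.cons_inj h).2

/-- the part of a combination with first digit `r` -/
noncomputable def part (r : Fin Q) (f : Sq Q m →₀ ZMod 2) : Sq Q m →₀ ZMod 2 :=
  Finsupp.comapDomain (Sq.cons r) f ((cons_injective r).injOn)

lemma part_apply (r : Fin Q) (f : Sq Q m →₀ ZMod 2) (u : Sq Q m) :
    part r f u = f (Sq.cons r u) := rfl

lemma part_add (r : Fin Q) (f f' : Sq Q m →₀ ZMod 2) : part r (f + f') = part r f + part r f' := by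
  ext u; simp [part_apply]

lemma part_single (r : Fin Q) (u : Sq Q m) (c : ZMod 2) :
    part r (Finsupp.single u c) = if u.get 0 = r then Finsupp.single u.tail c else 0 := by
  classical
  ext v
  rw [part_apply, Finsupp.single_apply]
  split_ifs with h1 h2 h2
  · rw [h1, Sq.tail_cons, Finsupp.single_apply, if_pos rfl]
  · exact absurd (by rw [h1]; rfl) h2
  · rw [Finsupp.single_apply, if_neg]
    intro h3
    apply h1
    rw [← h3, ← h2, Sq.cons_tail]
  · rfl

lemma zmod_two_pow (c : ZMod 2) (a : ℕ) : c ^ (2 ^ a) = c := by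
  induction a with
  | zero => simp
  | succ a ih => rw [pow_succ, pow_mul, ih, ZMod.pow_card]

lemma EE_parts (a : ℕ) (hm0 : 0 < m) (hm : m < 2 ^ a - 1) (f : Sq (2 ^ a) m →₀ ZMod 2) :
    EE (2 ^ a) m f = ∑ r : Fin (2 ^ a), gg (2 ^ a) m r * (EE (2 ^ a) m (part r f)) ^ (2 ^ a) := by
  classical
  induction f using Finsupp.induction_linear with
  | zero =>
    have h : ∀ r : Fin (2 ^ a), part r (0 : Sq (2 ^ a) m →₀ ZMod 2) = 0 := fun r => by ext; rfl
    simp [h]
  | add f f' h h' =>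
    rw [map_add, h, h', ← sum_add_distrib]
    refine sum_congr rfl fun r _ => ?_
    rw [part_add, map_add, pow_add_Fl, mul_add]
  | single u c =>
    rw [sum_eq_single (u.get 0)]
    · rw [part_single, if_pos rfl, EE_single, EE_single]
      conv_lhs => rw [← Sq.cons_tail u]
      rw [ee_cons hm0 hm, Algebra.smul_def, Algebra.smul_def, mul_pow, ← map_pow, zmod_two_pow]
      ring
    · intro r _ hr
      rw [part_single, if_neg (Ne.symm hr), map_zero, zero_pow (by positivity), mul_zero]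
    · intro h; exact absurd (mem_univ _) h

lemma base_indep (α β γ : ZMod 2)
    (h : α • (1 : Fl) + β • tt⁻¹ + γ • (1 + tt)⁻¹ = 0) : α = 0 ∧ β = 0 ∧ γ = 0 := by
  have h1 : algebraMap (Polynomial (ZMod 2)) Fl (Polynomial.C α * (Polynomial.X * (1 + Polynomial.X))
      + Polynomial.C β * (1 + Polynomial.X) + Polynomial.C γ * Polynomial.X) = 0 := by
    have h2 : algebraMap (Polynomial (ZMod 2)) Fl (Polynomial.C α * (Polynomial.X * (1 + Polynomial.X))
      + Polynomial.C β * (1 + Polynomial.X) + Polynomial.C γ * Polynomial.X)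
      = tt * (1 + tt) * (α • (1 : Fl) + β • tt⁻¹ + γ • (1 + tt)⁻¹) := by
      have hc : ∀ c : ZMod 2, algebraMap (Polynomial (ZMod 2)) Fl (Polynomial.C c)
          = algebraMap (ZMod 2) Fl c := fun c => rfl
      simp only [map_add, map_mul, hc, map_one, RatFunc.algebraMap_X, Algebra.smul_def]
      have e1 := tt_ne
      have e2 := one_add_tt_ne
      change _ = tt * (1 + tt) * _
      have e3 : (RatFunc.X : Fl) = tt := rfl
      rw [e3]
      field_simp
    rw [h2, h, mul_zero]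
  rw [map_eq_zero_iff _ (RatFunc.algebraMap_injective (ZMod 2))] at h1
  have c0 := congrArg (fun p => Polynomial.coeff p 0) h1
  have c1 := congrArg (fun p => Polynomial.coeff p 1) h1
  have c2 := congrArg (fun p => Polynomial.coeff p 2) h1
  simp [mul_add, ← mul_assoc, Polynomial.coeff_X,
    Polynomial.coeff_mul_X] at c0 c1 c2
  refine ⟨c2, c0, ?_⟩
  rw [c0, c2] at c1
  simpa using c1

/-! ### Injectivity -/

lemma Sq.isTl_of (u : Sq Q m) (N : ℕ) (h : ∀ i, N ≤ i → u.get i = u.get N) :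
    IsTl Q m (u.get N) := by
  obtain ⟨N', c, hc, h'⟩ := u.2
  have h1 : u.get (max N N') = u.get N := h _ (le_max_left _ _)
  have h2 : u.get (max N N') = c := h' _ (le_max_right _ _)
  rw [← h1, h2]; exact hc

lemma Sq.exists_tail (u : Sq Q m) : ∃ N : ℕ, ∀ i, N ≤ i → u.get i = u.get N := by
  obtain ⟨N', c, hc, h'⟩ := u.2
  exact ⟨N', fun i hi => (h' i hi).trans (h' N' le_rfl).symm⟩

lemma EE_inj_aux (a : ℕ) (hm0 : 0 < m) (hm : m < 2 ^ a - 1) (N : ℕ) :
    ∀ f : Sq (2 ^ a) m →₀ ZMod 2, (∀ u ∈ f.support, ∀ i, N ≤ i → u.get i = u.get N) →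
      EE (2 ^ a) m f = 0 → f = 0 := by
  classical
  induction N with
  | zero =>
    intro f hf h0
    have hQ : 0 < 2 ^ a := by positivity
    set c0 : Sq (2 ^ a) m := Sq.const ⟨0, hQ⟩ (Or.inl rfl) with hc0
    set c1 : Sq (2 ^ a) m := Sq.const ⟨2 ^ a - 1, by omega⟩ (Or.inr (Or.inl rfl)) with hc1
    set c2 : Sq (2 ^ a) m := Sq.const ⟨m, by omega⟩ (Or.inr (Or.inr rfl)) with hc2
    have hsub : f.support ⊆ {c0, c1, c2} := by
      intro u hu
      have h1 := hf u hu
      have h2 := Sq.isTl_of u 0 h1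
      rcases h2 with h2 | h2 | h2
      · have : u = c0 := by
          ext i; rw [h1 i (Nat.zero_le _), h2]; rfl
        rw [this]; simp
      · have : u = c1 := by
          ext i; rw [h1 i (Nat.zero_le _), h2]; rfl
        rw [this]; simp
      · have : u = c2 := by
          ext i; rw [h1 i (Nat.zero_le _), h2]; rfl
        rw [this]; simp
    have n01 : c0 ≠ c1 := by
      intro h
      have := congrArg (fun u => (Sq.get u 0 : ℕ)) h
      simp only [hc0, hc1, Sq.get_const] at this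
      omega
    have n02 : c0 ≠ c2 := by
      intro h
      have := congrArg (fun u => (Sq.get u 0 : ℕ)) h
      simp only [hc0, hc2, Sq.get_const] at this
      omega
    have n12 : c1 ≠ c2 := by
      intro h
      have := congrArg (fun u => (Sq.get u 0 : ℕ)) h
      simp only [hc1, hc2, Sq.get_const] at this
      omega
    have h3 : EE (2 ^ a) m f = f c0 • (1 : Fl) + f c1 • tt⁻¹ + f c2 • (1 + tt)⁻¹ := by
      unfold EE
      rw [Finsupp.linearCombination_apply, Finsupp.sum_of_support_subset f hsub _ (by simp),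
        sum_insert (by simp [n01, n02]), sum_insert (by simp [n12]), sum_singleton, ← add_assoc]
      have e0 : ee c0 = 1 := by
        rw [hc0, ee_const hm0 hm]; unfold tl; rw [if_pos rfl]
      have e1 : ee c1 = tt⁻¹ := by
        rw [hc1, ee_const hm0 hm]; unfold tl
        rw [if_neg (by simp only; omega), if_pos rfl]
      have e2 : ee c2 = (1 + tt)⁻¹ := by
        rw [hc2, ee_const hm0 hm]; unfold tl
        rw [if_neg (by simp only; omega), if_neg (by simp only; omega)]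
      rw [e0, e1, e2]
    rw [h3] at h0
    obtain ⟨g0, g1, g2⟩ := base_indep _ _ _ h0
    ext u
    by_contra hne
    have hu : u ∈ f.support := by rw [Finsupp.mem_support_iff]; exact hne
    have := hsub hu
    simp only [mem_insert, mem_singleton] at this
    rcases this with rfl | rfl | rfl
    · exact hne g0
    · exact hne g1
    · exact hne g2
  | succ N ih =>
    intro f hf h0
    rw [EE_parts a hm0 hm] at h0
    set x : ℕ → Fl := fun r => if h : r < 2 ^ a then EE (2 ^ a) m (part ⟨r, h⟩ f) else 0 with hx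
    have h1 : ∑ r ∈ range (2 ^ a), gg (2 ^ a) m r * x r ^ (2 ^ a) = 0 := by
      rw [← Fin.sum_univ_eq_sum_range (fun r => gg (2 ^ a) m r * x r ^ (2 ^ a)), ← h0]
      refine sum_congr rfl fun r _ => ?_
      simp only [hx]
      rw [dif_pos r.2]
    have h2 := indep_gg a hm0 hm x h1
    have h3 : ∀ r : Fin (2 ^ a), part r f = 0 := by
      intro r
      apply ih
      · intro u hu i hi
        have hu' : Sq.cons r u ∈ f.support := by
          rw [Finsupp.mem_support_iff] at hu ⊢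
          exact hu
        exact hf _ hu' (i + 1) (by omega)
      · have := h2 r (by rw [mem_range]; exact r.2)
        simp only [hx] at this
        rw [dif_pos r.2] at this
        exact this
    ext u
    have := congrArg (fun g => g u.tail) (h3 (u.get 0))
    simp only [part_apply, Sq.cons_tail] at this
    exact this

theorem EE_injective (a : ℕ) (hm0 : 0 < m) (hm : m < 2 ^ a - 1) :
    Function.Injective (EE (2 ^ a) m) := by
  classical
  rw [injective_iff_map_eq_zero]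
  intro f hf
  choose T hT using fun u : Sq (2 ^ a) m => u.exists_tail
  apply EE_inj_aux a hm0 hm (f.support.sup T) f _ hf
  intro u hu i hi
  have h1 : T u ≤ f.support.sup T := le_sup hu
  rw [hT u i (h1.trans hi), hT u _ h1]

/-! ### The range -/

/-- the span of the basis -/
noncomputable def WW (Q m : ℕ) : Submodule (ZMod 2) Fl := LinearMap.range (EE Q m)

/-- putting a digit on top, linearly -/
noncomputable def Cn (r : Fin Q) : (Sq Q m →₀ ZMod 2) →ₗ[ZMod 2] (Sq Q m →₀ ZMod 2) :=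
  Finsupp.lmapDomain (ZMod 2) (ZMod 2) (Sq.cons r)

@[simp] lemma Cn_single (r : Fin Q) (u : Sq Q m) (c : ZMod 2) :
    Cn r (Finsupp.single u c) = Finsupp.single (Sq.cons r u) c := by
  unfold Cn; rw [Finsupp.lmapDomain_apply, Finsupp.mapDomain_single]

lemma EE_Cn (a : ℕ) (hm0 : 0 < m) (hm : m < 2 ^ a - 1) (r : Fin (2 ^ a))
    (f : Sq (2 ^ a) m →₀ ZMod 2) :
    EE (2 ^ a) m (Cn r f) = gg (2 ^ a) m r * EE (2 ^ a) m f ^ (2 ^ a) := by
  induction f using Finsupp.induction_linear with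
  | zero => rw [map_zero, map_zero, zero_pow (by positivity), mul_zero]
  | add f f' h h' => rw [map_add, map_add, h, h', map_add, pow_add_Fl, mul_add]
  | single u c =>
    rw [Cn_single, EE_single, EE_single, ee_cons hm0 hm, Algebra.smul_def, Algebra.smul_def,
      mul_pow, ← map_pow, zmod_two_pow]
    ring

lemma ee_mem (u : Sq Q m) : ee u ∈ WW Q m := ⟨Finsupp.single u 1, by rw [EE_single, one_smul]⟩

lemma WW_gg (a : ℕ) (hm0 : 0 < m) (hm : m < 2 ^ a - 1) {r : ℕ} (hr : r < 2 ^ a) {x : Fl}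
    (hx : x ∈ WW (2 ^ a) m) : gg (2 ^ a) m r * x ^ (2 ^ a) ∈ WW (2 ^ a) m := by
  obtain ⟨f, rfl⟩ := hx
  exact ⟨Cn ⟨r, hr⟩ f, EE_Cn a hm0 hm ⟨r, hr⟩ f⟩

lemma WW_pow (a : ℕ) (hm0 : 0 < m) (hm : m < 2 ^ a - 1) {r : ℕ} (hr : r < 2 ^ a) {x : Fl}
    (hx : x ∈ WW (2 ^ a) m) : tt ^ r * x ^ (2 ^ a) ∈ WW (2 ^ a) m := by
  classical
  have h1 : ∀ r, r < 2 ^ a → r ≠ m → tt ^ r * x ^ (2 ^ a) ∈ WW (2 ^ a) m := by
    intro r hr hrm
    have := WW_gg a hm0 hm hr hx
    unfold gg at this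
    rwa [if_neg hrm] at this
  by_cases hrm : r = m
  · rw [hrm]
    have h2 := WW_gg a hm0 hm (r := m) (by omega) hx
    unfold gg at h2
    rw [if_pos rfl, one_add_pow_pred, ← add_sum_erase _ _ (show m ∈ range (2 ^ a) by
      rw [mem_range]; omega), add_mul, sum_mul] at h2
    have h3 : ∑ r ∈ (range (2 ^ a)).erase m, tt ^ r * x ^ (2 ^ a) ∈ WW (2 ^ a) m := by
      refine Submodule.sum_mem _ fun r hr => ?_
      rw [mem_erase, mem_range] at hr
      exact h1 r hr.2 hr.1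
    have h4 := Submodule.sub_mem _ h2 h3
    rwa [add_sub_cancel_right] at h4
  · exact h1 r hr hrm

/-- polynomials of degree `< Q` -/
noncomputable def PP (Q : ℕ) : Submodule (ZMod 2) Fl :=
  Submodule.span (ZMod 2) {y | ∃ r, r < Q ∧ y = tt ^ r}

lemma PP_pow {r : ℕ} (hr : r < Q) : tt ^ r ∈ PP Q := Submodule.subset_span ⟨r, hr, rfl⟩

lemma PP_one_add (k : ℕ) (hk : k < Q) : (1 + tt) ^ k ∈ PP Q := by
  have h : ∀ k : ℕ, ∀ Q : ℕ, k < Q → (1 + tt) ^ k ∈ PP Q := by
    intro k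
    induction k with
    | zero =>
      intro Q hQ
      rw [pow_zero, ← pow_zero tt]
      exact PP_pow hQ
    | succ k ih =>
      intro Q hQ
      have h1 : ∀ y ∈ PP (Q - 1), (1 + tt) * y ∈ PP Q := by
        intro y hy
        induction hy using Submodule.span_induction with
        | mem y hy =>
          obtain ⟨r, hr, rfl⟩ := hy
          rw [add_mul, one_mul, ← pow_succ']
          exact Submodule.add_mem _ (PP_pow (by omega)) (PP_pow (by omega))
        | zero => rw [mul_zero]; exact Submodule.zero_mem _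
        | add x y _ _ hx hy => rw [mul_add]; exact Submodule.add_mem _ hx hy
        | smul c y _ hy => rw [mul_smul_comm]; exact Submodule.smul_mem _ _ hy
      rw [pow_succ']
      exact h1 _ (ih (Q - 1) (by omega))
  exact h k Q hk

lemma PP_gg (a : ℕ) {r : ℕ} (hr : r < 2 ^ a) : gg (2 ^ a) m r ∈ PP (2 ^ a) := by
  unfold gg
  split_ifs
  · exact PP_one_add _ (Nat.sub_lt (by positivity) one_pos)
  · exact PP_pow hr

/-- multiplication criterion: if `z t^r x^Q` lies in the range whenever `x`, `z x` do -/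
lemma WW_PP (z : Fl) (x : Fl) (h : ∀ r, r < Q → z * tt ^ r * x ^ Q ∈ WW Q m) (y : Fl)
    (hy : y ∈ PP Q) : z * y * x ^ Q ∈ WW Q m := by
  induction hy using Submodule.span_induction with
  | mem y hy =>
    obtain ⟨r, hr, rfl⟩ := hy
    exact h r hr
  | zero => rw [mul_zero, zero_mul]; exact Submodule.zero_mem _
  | add x y _ _ hx hy => rw [mul_add, add_mul]; exact Submodule.add_mem _ hx hy
  | smul c y _ hy => rw [mul_smul_comm, smul_mul_assoc]; exact Submodule.smul_mem _ _ hy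

lemma WW_PP_one (a : ℕ) (hm0 : 0 < m) (hm : m < 2 ^ a - 1) {x : Fl} (hx : x ∈ WW (2 ^ a) m)
    (y : Fl) (hy : y ∈ PP (2 ^ a)) : y * x ^ (2 ^ a) ∈ WW (2 ^ a) m := by
  have := WW_PP (m := m) 1 x (fun r hr => by
    rw [one_mul]; exact WW_pow a hm0 hm hr hx) y hy
  rwa [one_mul] at this

lemma WW_mul (a : ℕ) (hm0 : 0 < m) (hm : m < 2 ^ a - 1) (z : Fl)
    (h0 : z ∈ WW (2 ^ a) m) (h1 : z * tt⁻¹ ∈ WW (2 ^ a) m) (h2 : z * (1 + tt)⁻¹ ∈ WW (2 ^ a) m)
    (hs : ∀ x ∈ WW (2 ^ a) m, z * x ∈ WW (2 ^ a) m → ∀ r, r < 2 ^ a →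
      z * tt ^ r * x ^ (2 ^ a) ∈ WW (2 ^ a) m) :
    ∀ x ∈ WW (2 ^ a) m, z * x ∈ WW (2 ^ a) m := by
  have key : ∀ N : ℕ, ∀ u : Sq (2 ^ a) m, (∀ i, N ≤ i → u.get i = u.get N) →
      z * ee u ∈ WW (2 ^ a) m := by
    intro N
    induction N with
    | zero =>
      intro u hu
      have h3 := Sq.isTl_of u 0 hu
      have h4 : u = Sq.const (u.get 0) h3 := by
        ext i; rw [hu i (Nat.zero_le _)]; rfl
      rw [h4, ee_const hm0 hm]
      unfold tl
      split_ifs
      · rwa [mul_one]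
      · exact h1
      · exact h2
    | succ N ih =>
      intro u hu
      have h5 : z * ee u.tail ∈ WW (2 ^ a) m := ih _ (fun i hi => hu (i + 1) (by omega))
      rw [← Sq.cons_tail u, ee_cons hm0 hm, ← mul_assoc]
      exact WW_PP z _ (hs _ (ee_mem _) h5) _ (PP_gg a (u.get 0).2)
  intro x hx
  obtain ⟨f, rfl⟩ := hx
  induction f using Finsupp.induction_linear with
  | zero => rw [map_zero, mul_zero]; exact Submodule.zero_mem _
  | add f f' h h' => rw [map_add, mul_add]; exact Submodule.add_mem _ h h'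
  | single u c =>
    rw [EE_single, mul_smul_comm]
    obtain ⟨N, hN⟩ := u.exists_tail
    exact Submodule.smul_mem _ _ (key N u hN)

lemma one_mem_WW (a : ℕ) (hm0 : 0 < m) (hm : m < 2 ^ a - 1) : (1 : Fl) ∈ WW (2 ^ a) m := by
  have h := ee_mem (Sq.const (Q := 2 ^ a) (m := m) ⟨0, by positivity⟩ (Or.inl rfl))
  rw [ee_const hm0 hm] at h
  unfold tl at h
  rwa [if_pos rfl] at h

lemma inv_mem_WW (a : ℕ) (hm0 : 0 < m) (hm : m < 2 ^ a - 1) : tt⁻¹ ∈ WW (2 ^ a) m := by
  have h := ee_mem (Sq.const (Q := 2 ^ a) (m := m) ⟨2 ^ a - 1, by omega⟩ (Or.inr (Or.inl rfl)))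
  rw [ee_const hm0 hm] at h
  unfold tl at h
  rwa [if_neg (by simp only; omega), if_pos rfl] at h

lemma inv_mem_WW' (a : ℕ) (hm0 : 0 < m) (hm : m < 2 ^ a - 1) : (1 + tt)⁻¹ ∈ WW (2 ^ a) m := by
  have h := ee_mem (Sq.const (Q := 2 ^ a) (m := m) ⟨m, by omega⟩ (Or.inr (Or.inr rfl)))
  rw [ee_const hm0 hm] at h
  unfold tl at h
  rwa [if_neg (by simp only; omega), if_neg (by simp only; omega)] at h

lemma one_add_inv_eq : (1 : Fl) + (1 + tt)⁻¹ = tt * (1 + tt)⁻¹ := by
  have h := one_add_tt_ne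
  have h2 : (1 : Fl) + (1 + tt)⁻¹ = (1 + tt) * (1 + tt)⁻¹ + (1 + tt)⁻¹ := by
    rw [mul_inv_cancel₀ h]
  rw [h2, add_mul, one_mul, add_comm ((1 + tt)⁻¹) _, add_assoc, add_self_Fl, add_zero]

lemma inv_mul_inv_eq : tt⁻¹ * (1 + tt)⁻¹ = tt⁻¹ + (1 + tt)⁻¹ := by
  have h := one_add_tt_ne
  have h' := tt_ne
  have h2 : tt⁻¹ + (1 + tt)⁻¹ = tt⁻¹ * (1 + tt)⁻¹ * ((1 + tt) + tt) := by
    field_simp
  rw [h2, add_assoc, add_self_Fl, add_zero, mul_one]

lemma WW_mul_tt (a : ℕ) (hm0 : 0 < m) (hm : m < 2 ^ a - 1) :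
    ∀ x ∈ WW (2 ^ a) m, tt * x ∈ WW (2 ^ a) m := by
  have hQ : 1 < 2 ^ a := by omega
  apply WW_mul a hm0 hm
  · have := WW_pow a hm0 hm hQ (one_mem_WW a hm0 hm)
    rwa [one_pow, mul_one, pow_one] at this
  · rw [mul_inv_cancel₀ tt_ne]; exact one_mem_WW a hm0 hm
  · rw [← one_add_inv_eq]
    exact Submodule.add_mem _ (one_mem_WW a hm0 hm) (inv_mem_WW' a hm0 hm)
  · intro x hx hzx r hr
    by_cases h : r + 1 < 2 ^ a
    · rw [← pow_succ']
      exact WW_pow a hm0 hm h hx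
    · have h1 : r + 1 = 2 ^ a := by omega
      rw [← pow_succ', h1, ← mul_pow, ← one_mul ((tt * x) ^ (2 ^ a)), ← pow_zero tt]
      exact WW_pow a hm0 hm (by positivity) hzx

lemma WW_mul_inv (a : ℕ) (hm0 : 0 < m) (hm : m < 2 ^ a - 1) :
    ∀ x ∈ WW (2 ^ a) m, tt⁻¹ * x ∈ WW (2 ^ a) m := by
  have hQ : 1 < 2 ^ a := by omega
  apply WW_mul a hm0 hm
  · exact inv_mem_WW a hm0 hm
  · have h1 : tt⁻¹ * tt⁻¹ = tt ^ (2 ^ a - 2) * (tt⁻¹) ^ (2 ^ a) := by
      have h2 : (2 : ℕ) ^ a = (2 ^ a - 2) + 2 := by omega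
      conv_rhs => rw [show (tt⁻¹) ^ (2 ^ a) = (tt⁻¹) ^ ((2 ^ a - 2) + 2) by rw [← h2]]
      rw [pow_add, ← mul_assoc, ← mul_pow, mul_inv_cancel₀ tt_ne, one_pow, one_mul, pow_two]
    rw [h1]
    exact WW_pow a hm0 hm (by omega) (inv_mem_WW a hm0 hm)
  · rw [inv_mul_inv_eq]
    exact Submodule.add_mem _ (inv_mem_WW a hm0 hm) (inv_mem_WW' a hm0 hm)
  · intro x hx hzx r hr
    cases r with
    | zero =>
      have h1 : tt⁻¹ * tt ^ 0 * x ^ (2 ^ a) = tt ^ (2 ^ a - 1) * (tt⁻¹ * x) ^ (2 ^ a) := by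
        have h2 : (2 : ℕ) ^ a = (2 ^ a - 1) + 1 := by omega
        rw [mul_pow, pow_zero, mul_one, ← mul_assoc]
        congr 1
        conv_rhs => rw [show (tt⁻¹) ^ (2 ^ a) = (tt⁻¹) ^ ((2 ^ a - 1) + 1) by rw [← h2]]
        rw [pow_succ, ← mul_assoc, ← mul_pow, mul_inv_cancel₀ tt_ne, one_pow, one_mul]
      rw [h1]
      exact WW_pow a hm0 hm (by omega) hzx
    | succ r =>
      rw [pow_succ', ← mul_assoc, inv_mul_cancel₀ tt_ne, one_mul]
      exact WW_pow a hm0 hm (by omega) hx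

lemma WW_mul_inv' (a : ℕ) (hm0 : 0 < m) (hm : m < 2 ^ a - 1) :
    ∀ x ∈ WW (2 ^ a) m, (1 + tt)⁻¹ * x ∈ WW (2 ^ a) m := by
  have hQ : 1 < 2 ^ a := by omega
  apply WW_mul a hm0 hm
  · exact inv_mem_WW' a hm0 hm
  · rw [mul_comm, inv_mul_inv_eq]
    exact Submodule.add_mem _ (inv_mem_WW a hm0 hm) (inv_mem_WW' a hm0 hm)
  · have h1 : (1 + tt)⁻¹ * (1 + tt)⁻¹ = (1 + tt) ^ (2 ^ a - 2) * ((1 + tt)⁻¹) ^ (2 ^ a) := by
      have h2 : (2 : ℕ) ^ a = (2 ^ a - 2) + 2 := by omega
      conv_rhs => rw [show ((1 + tt)⁻¹) ^ (2 ^ a) = ((1 + tt)⁻¹) ^ ((2 ^ a - 2) + 2) by rw [← h2]]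
      rw [pow_add, ← mul_assoc, ← mul_pow, mul_inv_cancel₀ one_add_tt_ne, one_pow, one_mul,
        pow_two]
    rw [h1]
    exact WW_PP_one a hm0 hm (inv_mem_WW' a hm0 hm) _ (PP_one_add _ (by omega))
  · intro x hx hzx r hr
    have h0 : (1 + tt)⁻¹ * x ^ (2 ^ a) ∈ WW (2 ^ a) m := by
      have h1 : (1 + tt)⁻¹ * x ^ (2 ^ a)
          = (1 + tt) ^ (2 ^ a - 1) * ((1 + tt)⁻¹ * x) ^ (2 ^ a) := by
        have h2 : (2 : ℕ) ^ a = (2 ^ a - 1) + 1 := by omega
        rw [mul_pow, ← mul_assoc]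
        congr 1
        conv_rhs => rw [show ((1 + tt)⁻¹) ^ (2 ^ a) = ((1 + tt)⁻¹) ^ ((2 ^ a - 1) + 1) by rw [← h2]]
        rw [pow_succ, ← mul_assoc, ← mul_pow, mul_inv_cancel₀ one_add_tt_ne, one_pow, one_mul]
      rw [h1]
      exact WW_PP_one a hm0 hm hzx _ (PP_one_add _ (by omega))
    have h3 : (1 + tt)⁻¹ * tt ^ r = (1 + tt)⁻¹ + ∑ i ∈ range r, tt ^ i := by
      have h4 : tt ^ r = 1 + (1 + tt) * ∑ i ∈ range r, tt ^ i := by
        rw [geom_Fl, ← add_assoc, add_self_Fl, zero_add]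
      rw [h4, mul_add, mul_one, ← mul_assoc, inv_mul_cancel₀ one_add_tt_ne, one_mul]
    rw [h3, add_mul, sum_mul]
    refine Submodule.add_mem _ h0 (Submodule.sum_mem _ fun i hi => ?_)
    rw [mem_range] at hi
    exact WW_pow a hm0 hm (by omega) hx

/-! ### Operators on the span of digit sequences over `F_2` -/

/-- the isomorphism of combinations of digit sequences with the range -/
noncomputable def EEq (a : ℕ) (hm0 : 0 < m) (hm : m < 2 ^ a - 1) :
    (Sq (2 ^ a) m →₀ ZMod 2) ≃ₗ[ZMod 2] WW (2 ^ a) m :=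
  LinearEquiv.ofInjective _ (EE_injective a hm0 hm)

/-- multiplication by `z`, transported -/
noncomputable def mulOp (a : ℕ) (hm0 : 0 < m) (hm : m < 2 ^ a - 1) (z : Fl)
    (hz : ∀ x ∈ WW (2 ^ a) m, z * x ∈ WW (2 ^ a) m) :
    (Sq (2 ^ a) m →₀ ZMod 2) →ₗ[ZMod 2] (Sq (2 ^ a) m →₀ ZMod 2) :=
  (EEq a hm0 hm).symm.toLinearMap ∘ₗ
    ((LinearMap.mulLeft (ZMod 2) z).restrict (p := WW (2 ^ a) m) (q := WW (2 ^ a) m) hz) ∘ₗ
    (EEq a hm0 hm).toLinearMap

lemma EE_mulOp (a : ℕ) (hm0 : 0 < m) (hm : m < 2 ^ a - 1) (z : Fl)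
    (hz : ∀ x ∈ WW (2 ^ a) m, z * x ∈ WW (2 ^ a) m) (f : Sq (2 ^ a) m →₀ ZMod 2) :
    EE (2 ^ a) m (mulOp a hm0 hm z hz f) = z * EE (2 ^ a) m f := by
  have h1 : ∀ g, EE (2 ^ a) m g = (EEq a hm0 hm g : Fl) := fun g => rfl
  rw [h1, h1]
  unfold mulOp
  simp only [LinearMap.comp_apply, LinearEquiv.coe_coe, LinearEquiv.apply_symm_apply]
  rfl

/-- multiplication by `t` -/
noncomputable def opX (a : ℕ) (hm0 : 0 < m) (hm : m < 2 ^ a - 1) :=
  mulOp a hm0 hm tt (WW_mul_tt a hm0 hm)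

/-- multiplication by `1/t` -/
noncomputable def opXi (a : ℕ) (hm0 : 0 < m) (hm : m < 2 ^ a - 1) :=
  mulOp a hm0 hm tt⁻¹ (WW_mul_inv a hm0 hm)

/-- multiplication by `1/(1+t)` -/
noncomputable def opYi (a : ℕ) (hm0 : 0 < m) (hm : m < 2 ^ a - 1) :=
  mulOp a hm0 hm (1 + tt)⁻¹ (WW_mul_inv' a hm0 hm)

section ops
variable (a : ℕ) (hm0 : 0 < m) (hm : m < 2 ^ a - 1)

/-- the digit zero -/
def zd (a : ℕ) : Fin (2 ^ a) := ⟨0, by positivity⟩

@[simp] lemma zd_val (a : ℕ) : (zd a : ℕ) = 0 := rfl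

lemma EE_ext {f g : Sq (2 ^ a) m →₀ ZMod 2} (hm0 : 0 < m) (hm : m < 2 ^ a - 1)
    (h : EE (2 ^ a) m f = EE (2 ^ a) m g) : f = g := EE_injective a hm0 hm h

lemma opX_opXi : opX a hm0 hm ∘ₗ opXi a hm0 hm = LinearMap.id := by
  refine LinearMap.ext fun f => EE_ext a hm0 hm ?_
  simp only [LinearMap.comp_apply, LinearMap.id_apply]
  unfold opX opXi
  rw [EE_mulOp, EE_mulOp, ← mul_assoc, mul_inv_cancel₀ tt_ne, one_mul]

lemma opXi_opX : opXi a hm0 hm ∘ₗ opX a hm0 hm = LinearMap.id := by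
  refine LinearMap.ext fun f => EE_ext a hm0 hm ?_
  simp only [LinearMap.comp_apply, LinearMap.id_apply]
  unfold opX opXi
  rw [EE_mulOp, EE_mulOp, ← mul_assoc, inv_mul_cancel₀ tt_ne, one_mul]

lemma opY_opYi : (LinearMap.id + opX a hm0 hm) ∘ₗ opYi a hm0 hm = LinearMap.id := by
  refine LinearMap.ext fun f => EE_ext a hm0 hm ?_
  simp only [LinearMap.comp_apply, LinearMap.id_apply, LinearMap.add_apply, map_add]
  unfold opX opYi
  rw [EE_mulOp, EE_mulOp, EE_mulOp, ← one_add_mul, ← mul_assoc, mul_inv_cancel₀ one_add_tt_ne,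
    one_mul]

lemma opYi_opY : opYi a hm0 hm ∘ₗ (LinearMap.id + opX a hm0 hm) = LinearMap.id := by
  refine LinearMap.ext fun f => EE_ext a hm0 hm ?_
  simp only [LinearMap.comp_apply, LinearMap.id_apply, LinearMap.add_apply, map_add]
  unfold opX opYi
  rw [EE_mulOp, EE_mulOp, EE_mulOp, ← mul_add, ← one_add_mul, ← mul_assoc,
    inv_mul_cancel₀ one_add_tt_ne, one_mul]

lemma EE_opX_pow (r : ℕ) (f : Sq (2 ^ a) m →₀ ZMod 2) :
    EE (2 ^ a) m ((opX a hm0 hm ^ r) f) = tt ^ r * EE (2 ^ a) m f := by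
  induction r with
  | zero => simp
  | succ r ih =>
    rw [pow_succ', pow_succ', Module.End.mul_apply]
    conv_lhs => unfold opX
    rw [EE_mulOp]
    have : EE (2 ^ a) m (((mulOp a hm0 hm tt (WW_mul_tt a hm0 hm)) ^ r) f)
      = tt ^ r * EE (2 ^ a) m f := ih
    rw [this, mul_assoc]

lemma EE_opY_pow (r : ℕ) (f : Sq (2 ^ a) m →₀ ZMod 2) :
    EE (2 ^ a) m (((1 + opX a hm0 hm) ^ r) f) = (1 + tt) ^ r * EE (2 ^ a) m f := by
  induction r with
  | zero => simp
  | succ r ih =>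
    rw [pow_succ', pow_succ', Module.End.mul_apply, LinearMap.add_apply, map_add,
      Module.End.one_apply, ih]
    conv_lhs => enter [2]; unfold opX
    rw [EE_mulOp]
    have : EE (2 ^ a) m (((1 + mulOp a hm0 hm tt (WW_mul_tt a hm0 hm)) ^ r) f)
      = (1 + tt) ^ r * EE (2 ^ a) m f := ih
    rw [this]
    ring

lemma opX_pow_Cn (r : Fin (2 ^ a)) (hr : (r : ℕ) ≠ m) :
    (opX a hm0 hm ^ (r : ℕ)) ∘ₗ Cn (zd a) = Cn r := by
  refine LinearMap.ext fun f => EE_ext a hm0 hm ?_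
  rw [LinearMap.comp_apply, EE_opX_pow, EE_Cn a hm0 hm, EE_Cn a hm0 hm]
  have h0 : gg (2 ^ a) m ((zd a : Fin (2 ^ a)) : ℕ) = 1 := by
    unfold gg; rw [zd_val, if_neg (by omega)]; simp
  have h1 : gg (2 ^ a) m (r : ℕ) = tt ^ (r : ℕ) := by
    unfold gg; rw [if_neg hr]
  rw [h0, h1, one_mul]

lemma opY_pow_Cn (r : Fin (2 ^ a)) (hr : (r : ℕ) = m) :
    ((1 + opX a hm0 hm) ^ (2 ^ a - 1)) ∘ₗ Cn (zd a) = Cn r := by
  refine LinearMap.ext fun f => EE_ext a hm0 hm ?_
  rw [LinearMap.comp_apply, EE_opY_pow, EE_Cn a hm0 hm, EE_Cn a hm0 hm]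
  have h0 : gg (2 ^ a) m ((zd a : Fin (2 ^ a)) : ℕ) = 1 := by
    unfold gg; rw [zd_val, if_neg (by omega)]; simp
  have h1 : gg (2 ^ a) m (r : ℕ) = (1 + tt) ^ (2 ^ a - 1) := by
    unfold gg; rw [if_pos hr]
  rw [h0, h1, one_mul]

lemma Cn_opX :
    Cn (zd a) ∘ₗ opX a hm0 hm = (opX a hm0 hm ^ (2 ^ a)) ∘ₗ Cn (zd a) := by
  refine LinearMap.ext fun f => EE_ext a hm0 hm ?_
  rw [LinearMap.comp_apply, LinearMap.comp_apply, EE_opX_pow, EE_Cn a hm0 hm, EE_Cn a hm0 hm]
  conv_lhs => unfold opX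
  rw [EE_mulOp, mul_pow]
  ring

lemma Cn_opY :
    Cn (zd a) ∘ₗ (1 + opX a hm0 hm) = ((1 + opX a hm0 hm) ^ (2 ^ a)) ∘ₗ Cn (zd a) := by
  refine LinearMap.ext fun f => EE_ext a hm0 hm ?_
  have h1 := EE_opY_pow a hm0 hm 1 f
  rw [pow_one, pow_one] at h1
  rw [LinearMap.comp_apply, LinearMap.comp_apply, EE_opY_pow, EE_Cn a hm0 hm, EE_Cn a hm0 hm, h1,
    mul_pow]
  ring

end ops

/-! ### Base change, several variables -/

section bc
variable {ι : Type*} [DecidableEq ι] (K : Type*) [CommRing K] [CharP K 2]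

/-- the coefficient map -/
def cf : ZMod 2 →+* K := ZMod.castHom (dvd_refl 2) K

/-- the span of the tuples of digit sequences -/
abbrev VV (ι : Type*) (Q m : ℕ) (K : Type*) [CommRing K] : Type _ := (ι → Sq Q m) →₀ K

/-- insert a combination of sequences in the slot `s` -/
noncomputable def ins (s : ι) (u : ι → Sq Q m) : (Sq Q m →₀ ZMod 2) →+ VV ι Q m K :=
  Finsupp.liftAddHom (fun v => (Finsupp.singleAddHom (Function.update u s v)).comp
    (cf K).toAddMonoidHom)

variable {K}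

lemma ins_single (s : ι) (u : ι → Sq Q m) (v : Sq Q m) (c : ZMod 2) :
    ins K s u (Finsupp.single v c) = Finsupp.single (Function.update u s v) (cf K c) := by
  unfold ins
  rw [Finsupp.liftAddHom_apply_single]
  rfl

lemma ins_smul (s : ι) (u : ι → Sq Q m) (c : ZMod 2) (f : Sq Q m →₀ ZMod 2) :
    ins K s u (c • f) = cf K c • ins K s u f := by
  induction f using Finsupp.induction_linear with
  | zero => simp
  | add f f' h h' => rw [smul_add, map_add, map_add, smul_add, h, h']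
  | single v d =>
    rw [Finsupp.smul_single, ins_single, ins_single, Finsupp.smul_single, smul_eq_mul, smul_eq_mul,
      map_mul]

lemma ins_update (s : ι) (u : ι → Sq Q m) (w : Sq Q m) :
    ins K s (Function.update u s w) = ins K s u := by
  ext v : 1
  refine AddMonoidHom.ext fun c => ?_
  simp only [AddMonoidHom.comp_apply, Finsupp.singleAddHom_apply]
  rw [ins_single, ins_single, Function.update_idem]

/-- the operator `A` acting in the slot `s` -/
noncomputable def lft (K : Type*) [CommRing K] [CharP K 2] (s : ι)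
    (A : (Sq Q m →₀ ZMod 2) →ₗ[ZMod 2] (Sq Q m →₀ ZMod 2)) : Module.End K (VV ι Q m K) :=
  Finsupp.linearCombination K (fun u => ins K s u (A (Finsupp.single (u s) 1)))

lemma lft_single (s : ι) (A : (Sq Q m →₀ ZMod 2) →ₗ[ZMod 2] (Sq Q m →₀ ZMod 2))
    (u : ι → Sq Q m) (c : K) :
    lft K s A (Finsupp.single u c) = c • ins K s u (A (Finsupp.single (u s) 1)) := by
  unfold lft; rw [Finsupp.linearCombination_single]

lemma lft_ins (s : ι) (A : (Sq Q m →₀ ZMod 2) →ₗ[ZMod 2] (Sq Q m →₀ ZMod 2))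
    (u : ι → Sq Q m) (f : Sq Q m →₀ ZMod 2) : lft K s A (ins K s u f) = ins K s u (A f) := by
  induction f using Finsupp.induction_linear with
  | zero => simp
  | add f f' h h' => rw [map_add, map_add, map_add, map_add, h, h']
  | single v c =>
    rw [ins_single, lft_single, ins_update, Function.update_self, ← ins_smul, ← map_smul,
      Finsupp.smul_single, smul_eq_mul, mul_one]

lemma lft_comp (s : ι) (A B : (Sq Q m →₀ ZMod 2) →ₗ[ZMod 2] (Sq Q m →₀ ZMod 2)) :
    lft K s (A ∘ₗ B) = lft K s A * lft K s B := by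
  refine Finsupp.lhom_ext fun u c => ?_
  rw [Module.End.mul_apply, lft_single, lft_single, map_smul, lft_ins]
  rfl

lemma lft_id (s : ι) :
    lft K s (LinearMap.id : (Sq Q m →₀ ZMod 2) →ₗ[ZMod 2] (Sq Q m →₀ ZMod 2)) = 1 := by
  refine Finsupp.lhom_ext fun u c => ?_
  rw [lft_single, LinearMap.id_apply, ins_single, Function.update_eq_self, map_one,
    Finsupp.smul_single, smul_eq_mul, mul_one]
  rfl

lemma lft_add (s : ι) (A B : (Sq Q m →₀ ZMod 2) →ₗ[ZMod 2] (Sq Q m →₀ ZMod 2)) :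
    lft K s (A + B) = lft K s A + lft K s B := by
  refine Finsupp.lhom_ext fun u c => ?_
  rw [LinearMap.add_apply, lft_single, lft_single, lft_single, LinearMap.add_apply, map_add,
    smul_add]

lemma lft_pow (s : ι) (A : (Sq Q m →₀ ZMod 2) →ₗ[ZMod 2] (Sq Q m →₀ ZMod 2)) (n : ℕ) :
    lft K s (A ^ n) = lft K s A ^ n := by
  induction n with
  | zero => rw [pow_zero, pow_zero]; exact lft_id s
  | succ n ih => rw [pow_succ, pow_succ, ← ih]; exact lft_comp s _ _

lemma lft_Cn_single (s : ι) (r : Fin Q) (u : ι → Sq Q m) (c : K) :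
    lft K s (Cn r) (Finsupp.single u c)
      = Finsupp.single (Function.update u s (Sq.cons r (u s))) c := by
  rw [lft_single, Cn_single, ins_single, map_one, Finsupp.smul_single, smul_eq_mul, mul_one]

lemma ins_comm {s s' : ι} (hs : s ≠ s') (u : ι → Sq Q m) (f g : Sq Q m →₀ ZMod 2) :
    g.sum (fun w b => cf K b • ins K s (Function.update u s' w) f)
      = f.sum (fun v c => cf K c • ins K s' (Function.update u s v) g) := by
  classical
  induction g using Finsupp.induction_linear with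
  | zero => simp
  | add g g' h h' =>
    rw [Finsupp.sum_add_index' (by simp) (by intros; rw [map_add, add_smul]), h, h',
      ← Finsupp.sum_add]
    refine Finsupp.sum_congr fun v _ => ?_
    rw [map_add, smul_add]
  | single w b =>
    rw [Finsupp.sum_single_index (by simp)]
    induction f using Finsupp.induction_linear with
    | zero => simp
    | add f f' h h' =>
      rw [Finsupp.sum_add_index' (by simp) (by intros; rw [map_add, add_smul]), map_add,
        smul_add, h, h']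
    | single v c =>
      rw [Finsupp.sum_single_index (by simp), ins_single, ins_single, Finsupp.smul_single,
        Finsupp.smul_single, Function.update_comm hs.symm, smul_eq_mul, smul_eq_mul, mul_comm]

lemma lft_ins' {s s' : ι} (hs : s ≠ s') (A : (Sq Q m →₀ ZMod 2) →ₗ[ZMod 2] (Sq Q m →₀ ZMod 2))
    (u : ι → Sq Q m) (g : Sq Q m →₀ ZMod 2) :
    lft K s A (ins K s' u g) = g.sum (fun w b =>
      cf K b • ins K s (Function.update u s' w) (A (Finsupp.single (u s) 1))) := by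
  classical
  induction g using Finsupp.induction_linear with
  | zero => simp
  | add g g' h h' =>
    rw [Finsupp.sum_add_index' (by simp) (by intros; rw [map_add, add_smul]), map_add, map_add,
      h, h']
  | single w b =>
    rw [Finsupp.sum_single_index (by simp), ins_single, lft_single, Function.update_of_ne hs]

lemma lft_commute {s s' : ι} (hs : s ≠ s')
    (A B : (Sq Q m →₀ ZMod 2) →ₗ[ZMod 2] (Sq Q m →₀ ZMod 2)) :
    Commute (lft K s A) (lft K s' B) := by
  refine Finsupp.lhom_ext fun u c => ?_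
  rw [Module.End.mul_apply, Module.End.mul_apply, lft_single, lft_single, map_smul, map_smul,
    lft_ins' hs, lft_ins' hs.symm, ins_comm hs]

end bc

/-! ### The package -/

section pkg
variable {ι : Type*} [DecidableEq ι] {K : Type*} [CommRing K] [CharP K 2]
variable (a : ℕ) (hm0 : 0 < m) (hm : m < 2 ^ a - 1)

/-- multiplication by the variable `s` as a unit of `End V` -/
noncomputable def XX (K : Type*) [CommRing K] [CharP K 2] (s : ι) :
    (Module.End K (VV ι (2 ^ a) m K))ˣ where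
  val := lft K s (opX a hm0 hm)
  inv := lft K s (opXi a hm0 hm)
  val_inv := by rw [← lft_comp, opX_opXi, lft_id]
  inv_val := by rw [← lft_comp, opXi_opX, lft_id]

/-- multiplication by `1 +` the variable `s` as a unit of `End V` -/
noncomputable def YY (K : Type*) [CommRing K] [CharP K 2] (s : ι) :
    (Module.End K (VV ι (2 ^ a) m K))ˣ where
  val := 1 + lft K s (opX a hm0 hm)
  inv := lft K s (opYi a hm0 hm)
  val_inv := by rw [← lft_id, ← lft_add, ← lft_comp, opY_opYi, lft_id]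
  inv_val := by rw [← lft_id (K := K) s, ← lft_add, ← lft_comp, opYi_opY, lft_id]

/-- the operator `u ↦ cons r u` in the slot `s` -/
noncomputable def CC (K : Type*) [CommRing K] [CharP K 2] (s : ι) (r : Fin Q) :
    Module.End K (VV ι Q m K) := lft K s (Cn r)

lemma YY_val (s : ι) : (YY a hm0 hm K s : Module.End K (VV ι (2 ^ a) m K))
    = 1 + (XX a hm0 hm K s : Module.End K (VV ι (2 ^ a) m K)) := rfl

lemma CC_single (s : ι) (r : Fin Q) (u : ι → Sq Q m) (c : K) :
    CC K s r (Finsupp.single u c) = Finsupp.single (Function.update u s (Sq.cons r (u s))) c :=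
  lft_Cn_single s r u c

lemma XX_comm (s s' : ι) : Commute (XX a hm0 hm K s) (XX a hm0 hm K s') := by
  rcases eq_or_ne s s' with rfl | hs
  · exact Commute.refl _
  · exact Units.ext (lft_commute hs _ _)

lemma XX_YY_comm (s s' : ι) : Commute (XX a hm0 hm K s) (YY a hm0 hm K s') := by
  have h : Commute (XX a hm0 hm K s : Module.End K (VV ι (2 ^ a) m K))
      (YY a hm0 hm K s' : Module.End K (VV ι (2 ^ a) m K)) := by
    rw [YY_val]
    exact (Commute.one_right _).add_right (Units.ext_iff.1 (XX_comm a hm0 hm s s'))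
  exact Units.ext h

lemma YY_comm (s s' : ι) : Commute (YY a hm0 hm K s) (YY a hm0 hm K s') := by
  have h : Commute (YY a hm0 hm K s : Module.End K (VV ι (2 ^ a) m K))
      (YY a hm0 hm K s' : Module.End K (VV ι (2 ^ a) m K)) := by
    conv => enter [1]; rw [YY_val]
    exact (Commute.one_left _).add_left (Units.ext_iff.1 (XX_YY_comm a hm0 hm s s'))
  exact Units.ext h

/-- digits other than `m`: `X^r` after `cons 0` is `cons r` -/
lemma XX_pow_CC (s : ι) (r : Fin (2 ^ a)) (hr : (r : ℕ) ≠ m) :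
    (XX a hm0 hm K s : Module.End K (VV ι (2 ^ a) m K)) ^ (r : ℕ) * CC K s (zd a)
      = CC K s r := by
  have : (XX a hm0 hm K s : Module.End K (VV ι (2 ^ a) m K)) = lft K s (opX a hm0 hm) := rfl
  rw [this]
  unfold CC
  rw [← lft_pow, ← lft_comp, opX_pow_Cn a hm0 hm r hr]

/-- the digit `m`: `(1+X)^(Q-1)` after `cons 0` is `cons m` -/
lemma YY_pow_CC (s : ι) (r : Fin (2 ^ a)) (hr : (r : ℕ) = m) :
    (YY a hm0 hm K s : Module.End K (VV ι (2 ^ a) m K)) ^ (2 ^ a - 1) * CC K s (zd a)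
      = CC K s r := by
  have : (YY a hm0 hm K s : Module.End K (VV ι (2 ^ a) m K))
      = lft K s (1 + opX a hm0 hm) := by
    rw [lft_add]
    have h1 : lft K s (1 : Module.End (ZMod 2) (Sq (2 ^ a) m →₀ ZMod 2)) = 1 := lft_id s
    rw [h1]; rfl
  rw [this]
  unfold CC
  rw [← lft_pow, ← lft_comp, opY_pow_Cn a hm0 hm r hr]

/-- `cons 0` is semilinear for Frobenius in its own slot -/
lemma CC_XX (s : ι) :
    CC K s (zd a) * (XX a hm0 hm K s : Module.End K (VV ι (2 ^ a) m K))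
      = (XX a hm0 hm K s : Module.End K (VV ι (2 ^ a) m K)) ^ (2 ^ a)
        * CC K s (zd a) := by
  have : (XX a hm0 hm K s : Module.End K (VV ι (2 ^ a) m K)) = lft K s (opX a hm0 hm) := rfl
  rw [this]
  unfold CC
  rw [← lft_pow, ← lft_comp, ← lft_comp, Cn_opX]

lemma YY_eq_lft (s : ι) : (YY a hm0 hm K s : Module.End K (VV ι (2 ^ a) m K))
    = lft K s (1 + opX a hm0 hm) := by
  rw [lft_add]
  have h1 : lft K s (1 : Module.End (ZMod 2) (Sq (2 ^ a) m →₀ ZMod 2)) = 1 := lft_id s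
  rw [h1]; rfl

lemma CC_YY (s : ι) :
    CC K s (zd a) * (YY a hm0 hm K s : Module.End K (VV ι (2 ^ a) m K))
      = (YY a hm0 hm K s : Module.End K (VV ι (2 ^ a) m K)) ^ (2 ^ a)
        * CC K s (zd a) := by
  rw [YY_eq_lft]
  unfold CC
  rw [← lft_pow, ← lft_comp, ← lft_comp, Cn_opY]

/-- operators `cons` commute with the other variables -/
lemma CC_XX_of_ne {s s' : ι} (hs : s ≠ s') (r : Fin (2 ^ a)) :
    Commute (CC K s r) (XX a hm0 hm K s' : Module.End K (VV ι (2 ^ a) m K)) :=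
  lft_commute hs _ _

lemma CC_YY_of_ne {s s' : ι} (hs : s ≠ s') (r : Fin (2 ^ a)) :
    Commute (CC K s r) (YY a hm0 hm K s' : Module.End K (VV ι (2 ^ a) m K)) := by
  rw [YY_val]
  exact (Commute.one_right _).add_right (CC_XX_of_ne a hm0 hm hs r)

end pkg

end Pool.Agent.SolIndex.Dig
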