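import Mathlib
import Pool.Agent.SolIndex.Digits

/-!
Matrix groups used for the lower bound: unipotent elements `1 + E_{βα} N` in
`4 × 4` matrices over the ring of endomorphisms of `W = W₀ × W₁ × W₂`.
-/

set_option autoImplicit false

namespace Pool.Agent.SolIndex.Rep

open Matrix
open scoped commutatorElement

/-! ### Unipotent elements -/

section mat
variable {R : Type*} [Ring R] [CharP R 2]

lemma add_self_R (x : R) : x + x = 0 := CharTwo.add_self_eq_zero x

lemma add_self_M (x : Matrix (Fin 4) (Fin 4) R) : x + x = 0 := by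
  ext i j; exact add_self_R (x i j)

omit [CharP R 2] in
lemma single_mul_single_eq (i j k l : Fin 4) (c d : R) :
    Matrix.single i j c * Matrix.single k l d = if j = k then Matrix.single i l (c * d) else 0 := by
  split_ifs with h
  · subst h; rw [Matrix.single_mul_single_same]
  · rw [Matrix.single_mul_single_of_ne _ _ _ _ h]

/-- the unit `1 + N` for `N ^ 2 = 0` in characteristic two -/
def un (N : Matrix (Fin 4) (Fin 4) R) (h : N * N = 0) : (Matrix (Fin 4) (Fin 4) R)ˣ where
  val := 1 + N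
  inv := 1 + N
  val_inv := by
    have : (1 + N) * (1 + N) = 1 + (N + N) + N * N := by noncomm_ring
    rw [this, h, add_self_M, add_zero, add_zero]
  inv_val := by
    have : (1 + N) * (1 + N) = 1 + (N + N) + N * N := by noncomm_ring
    rw [this, h, add_self_M, add_zero, add_zero]

lemma un_inv (N : Matrix (Fin 4) (Fin 4) R) (h : N * N = 0) : (un N h)⁻¹ = un N h := rfl

omit [CharP R 2] in
lemma single_sq (α β : Fin 4) (N : R) (h : N * N = 0) :
    Matrix.single β α N * Matrix.single β α N = 0 := by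
  rw [single_mul_single_eq]; split_ifs
  · rw [h, Matrix.single_zero]
  · rfl

omit [CharP R 2] in
lemma single_sq' (α β : Fin 4) (hab : α ≠ β) (N : R) :
    Matrix.single β α N * Matrix.single β α N = 0 := by
  rw [single_mul_single_eq, if_neg hab]

open Classical in
/-- the element `1 + E_{βα} N` (for `N ^ 2 = 0` or `α ≠ β`) -/
noncomputable def tv (α β : Fin 4) (N : R) : (Matrix (Fin 4) (Fin 4) R)ˣ :=
  if h : Matrix.single β α N * Matrix.single β α N = 0 then un (Matrix.single β α N) h else 1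

lemma tv_val {α β : Fin 4} {N : R} (h : N * N = 0) :
    (tv α β N : Matrix (Fin 4) (Fin 4) R) = 1 + Matrix.single β α N := by
  unfold tv; rw [dif_pos (single_sq α β N h)]; rfl

lemma tv_inv (α β : Fin 4) (N : R) : (tv α β N)⁻¹ = tv α β N := by
  unfold tv
  split_ifs
  · rfl
  · exact inv_one

lemma tv_mul_self (α β : Fin 4) (N : R) : tv α β N * tv α β N = 1 := by
  nth_rewrite 1 [← tv_inv]; exact inv_mul_cancel _

lemma tv_val' {α β : Fin 4} {N : R} (h : α ≠ β) :
    (tv α β N : Matrix (Fin 4) (Fin 4) R) = 1 + Matrix.single β α N := by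
  unfold tv; rw [dif_pos (single_sq' α β h N)]; rfl

lemma tv_zero (α β : Fin 4) : tv α β (0 : R) = 1 := by
  apply Units.ext
  rw [tv_val (mul_zero _), Matrix.single_zero, add_zero]; rfl

lemma tv_eq_one {α β : Fin 4} {N : R} (h : α ≠ β) (h1 : tv α β N = 1) : N = 0 := by
  have h2 := congrArg (fun u : (Matrix (Fin 4) (Fin 4) R)ˣ => (u : Matrix (Fin 4) (Fin 4) R) β α) h1
  simp only [tv_val' h, Units.val_one, Matrix.add_apply, Matrix.single_apply_same,
    Matrix.one_apply_ne h.symm, zero_add] at h2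
  exact h2

/-- product in one position -/
lemma tv_mul {α β : Fin 4} {N M : R} (hN : N * N = 0) (hM : M * M = 0) (hNM : N * M = 0)
    (hMN : M * N = 0) : tv α β N * tv α β M = tv α β (N + M) := by
  apply Units.ext
  have h : (N + M) * (N + M) = 0 := by
    have : (N + M) * (N + M) = N * N + M * M + N * M + M * N := by noncomm_ring
    rw [this, hN, hM, hNM, hMN]; simp
  rw [Units.val_mul, tv_val hN, tv_val hM, tv_val h, Matrix.single_add]
  have e : Matrix.single β α N * Matrix.single β α M = 0 := by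
    rw [single_mul_single_eq]; split_ifs
    · rw [hNM, Matrix.single_zero]
    · rfl
  have : (1 + Matrix.single β α N) * (1 + Matrix.single β α M)
      = 1 + (Matrix.single β α N + Matrix.single β α M)
        + Matrix.single β α N * Matrix.single β α M := by noncomm_ring
  rw [this, e, add_zero]

/-- commuting elements -/
lemma tv_commute {α β α' β' : Fin 4} {N M : R} (hN : N * N = 0) (hM : M * M = 0)
    (hNM : N * M = 0) (hMN : M * N = 0) : Commute (tv α β N) (tv α' β' M) := by
  apply Units.ext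
  rw [Units.val_mul, Units.val_mul, tv_val hN, tv_val hM]
  have e1 : Matrix.single β α N * Matrix.single β' α' M = 0 := by
    rw [single_mul_single_eq]; split_ifs
    · rw [hNM, Matrix.single_zero]
    · rfl
  have e2 : Matrix.single β' α' M * Matrix.single β α N = 0 := by
    rw [single_mul_single_eq]; split_ifs
    · rw [hMN, Matrix.single_zero]
    · rfl
  have h1 : (1 + Matrix.single β α N) * (1 + Matrix.single β' α' M)
      = 1 + Matrix.single β α N + Matrix.single β' α' M
        + Matrix.single β α N * Matrix.single β' α' M := by noncomm_ring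
  have h2 : (1 + Matrix.single β' α' M) * (1 + Matrix.single β α N)
      = 1 + Matrix.single β α N + Matrix.single β' α' M
        + Matrix.single β' α' M * Matrix.single β α N := by noncomm_ring
  rw [h1, h2, e1, e2]

lemma un_commutator (N M : Matrix (Fin 4) (Fin 4) R) (hN : N * N = 0) (hM : M * M = 0)
    (hNM : N * M = 0) (hP : (M * N) * (M * N) = 0) :
    ⁅un N hN, un M hM⁆ = un (M * N) hP := by
  rw [commutatorElement_def, un_inv, un_inv]
  apply Units.ext
  change (1 + N) * (1 + M) * (1 + N) * (1 + M) = 1 + M * N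
  have h : (1 + N) * (1 + M) * (1 + N) * (1 + M)
      = 1 + (N + N) + (M + M) + N * N + M * M + M * N + (N * M + N * M) + N * M
        + (N * M) * N + N * (N * M) + (N * M) * M + M * (N * M) + (N * M) * (N * M) := by
    noncomm_ring
  rw [h]
  simp only [hN, hM, hNM, add_self_M]
  simp

/-- adjacent positions: the commutator is the product -/
lemma tv_commutator {α β γ : Fin 4} {N M : R} (hN : N * N = 0) (hM : M * M = 0)
    (hNM : N * M = 0) : ⁅tv α β N, tv β γ M⁆ = tv α γ (M * N) := by
  have e1 : Matrix.single β α N * Matrix.single γ β M = 0 := by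
    rw [single_mul_single_eq]; split_ifs
    · rw [hNM, Matrix.single_zero]
    · rfl
  have e2 : Matrix.single γ β M * Matrix.single β α N = Matrix.single γ α (M * N) :=
    Matrix.single_mul_single_same _ _ _ _ _
  have hMN : (M * N) * (M * N) = 0 := by
    rw [mul_assoc, ← mul_assoc N M N, hNM, zero_mul, mul_zero]
  have e3 := single_sq α γ (M * N) hMN
  have h := un_commutator _ _ (single_sq α β N hN) (single_sq β γ M hM) e1 (by rw [e2]; exact e3)
  unfold tv
  rw [dif_pos (single_sq α β N hN), dif_pos (single_sq β γ M hM), h, dif_pos e3]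
  apply Units.ext
  change 1 + _ = 1 + _
  rw [e2]

/-- the same for three distinct positions, without conditions on the entries -/
lemma tv_commutator' {α β γ : Fin 4} (h1 : α ≠ β) (h2 : β ≠ γ) (h3 : α ≠ γ) (N M : R) :
    ⁅tv α β N, tv β γ M⁆ = tv α γ (M * N) := by
  have e1 : Matrix.single β α N * Matrix.single γ β M = 0 := by
    rw [single_mul_single_eq, if_neg h3]
  have e2 : Matrix.single γ β M * Matrix.single β α N = Matrix.single γ α (M * N) :=
    Matrix.single_mul_single_same _ _ _ _ _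
  have e3 := single_sq' α γ h3 (M * N)
  have h := un_commutator _ _ (single_sq' α β h1 N) (single_sq' β γ h2 M) e1 (by rw [e2]; exact e3)
  unfold tv
  rw [dif_pos (single_sq' α β h1 N), dif_pos (single_sq' β γ h2 M), h, dif_pos e3]
  apply Units.ext
  change 1 + _ = 1 + _
  rw [e2]

/-- non-adjacent positions commute -/
lemma tv_commutator_ne {α β β' γ : Fin 4} {N M : R} (hb : β ≠ β') (hN : N * N = 0)
    (hM : M * M = 0) (hNM : N * M = 0) : ⁅tv α β N, tv β' γ M⁆ = 1 := by
  rw [commutatorElement_eq_one_iff_commute]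
  apply Units.ext
  rw [Units.val_mul, Units.val_mul, tv_val hN, tv_val hM]
  have e1 : Matrix.single β α N * Matrix.single γ β' M = 0 := by
    rw [single_mul_single_eq]; split_ifs
    · rw [hNM, Matrix.single_zero]
    · rfl
  have e2 : Matrix.single γ β' M * Matrix.single β α N = 0 := by
    rw [single_mul_single_eq, if_neg hb.symm]
  have h1 : (1 + Matrix.single β α N) * (1 + Matrix.single γ β' M)
      = 1 + Matrix.single β α N + Matrix.single γ β' M
        + Matrix.single β α N * Matrix.single γ β' M := by noncomm_ring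
  have h2 : (1 + Matrix.single γ β' M) * (1 + Matrix.single β α N)
      = 1 + Matrix.single β α N + Matrix.single γ β' M
        + Matrix.single γ β' M * Matrix.single β α N := by noncomm_ring
  rw [h1, h2, e1, e2]

/-- scalar matrices -/
noncomputable def sc : Rˣ →* (Matrix (Fin 4) (Fin 4) R)ˣ :=
  Units.map ((Matrix.scalar (Fin 4) : R →+* Matrix (Fin 4) (Fin 4) R) : R →* _)

lemma sc_conj (δ : Rˣ) (α β : Fin 4) {N : R} (hN : N * N = 0) :
    sc δ * tv α β N * (sc δ)⁻¹ = tv α β (δ * N * (δ⁻¹ : Rˣ)) := by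
  have h : (δ * N * (δ⁻¹ : Rˣ) : R) * (δ * N * (δ⁻¹ : Rˣ)) = 0 := by
    rw [show (δ * N * (δ⁻¹ : Rˣ) : R) * (δ * N * (δ⁻¹ : Rˣ))
      = δ * N * ((δ⁻¹ : Rˣ) * δ) * N * (δ⁻¹ : Rˣ) by noncomm_ring, Units.inv_mul, mul_one,
      mul_assoc (δ : R) N N, hN, mul_zero, zero_mul]
  rw [mul_inv_eq_iff_eq_mul]
  apply Units.ext
  rw [Units.val_mul, Units.val_mul, tv_val hN, tv_val h]
  change Matrix.scalar (Fin 4) (δ : R) * _ = _ * Matrix.scalar (Fin 4) (δ : R)
  rw [mul_add, add_mul, mul_one, one_mul]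
  congr 1
  ext i j
  rw [Matrix.scalar_apply, Matrix.diagonal_mul, Matrix.mul_diagonal, Matrix.single_apply,
    Matrix.single_apply]
  split_ifs
  · rw [mul_assoc _ ((δ⁻¹ : Rˣ) : R) (δ : R), Units.inv_mul, mul_one]
  · rw [mul_zero, zero_mul]

end mat

/-! ### The three spaces -/

section spaces
variable (K : Type*) [Field K] (V : Type*) [AddCommGroup V] [Module K V] (n : ℕ)

/-- the dual space used at level two -/
abbrev Du : Type _ := Module.Dual K (Module.End K V)

/-- `W₀ × W₁ × W₂` -/
abbrev Wsp : Type _ := (Fin n → K) × (Fin n → V) × (Fin n → Du K V)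

variable {K V n}

/-- letters of level `0` -/
def l0 : (Fin n → K) →* Module.End K (Wsp K V n) where
  toFun c := { toFun := fun w => (fun b => c b * w.1 b, w.2)
               map_add' := fun x y => by
                 refine Prod.ext (funext fun b => ?_) rfl
                 simp [mul_add]
               map_smul' := fun a x => by
                 refine Prod.ext (funext fun b => ?_) rfl
                 simp [mul_left_comm] }
  map_one' := by
    refine LinearMap.ext fun w => Prod.ext (funext fun b => ?_) rfl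
    simp
  map_mul' c d := by
    refine LinearMap.ext fun w => Prod.ext (funext fun b => ?_) rfl
    simp [mul_assoc]

/-- letters of level `1` -/
def l1 : (Fin n → Module.End K V) →* Module.End K (Wsp K V n) where
  toFun T := { toFun := fun w => (w.1, fun b => T b (w.2.1 b), w.2.2)
               map_add' := fun x y => by
                 refine Prod.ext rfl (Prod.ext (funext fun b => ?_) rfl)
                 simp
               map_smul' := fun a x => by
                 refine Prod.ext rfl (Prod.ext (funext fun b => ?_) rfl)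
                 simp }
  map_one' := rfl
  map_mul' _ _ := rfl

/-- letters of level `2` -/
def l2 : (Fin n → Module.End K V) →* Module.End K (Wsp K V n) where
  toFun T := { toFun := fun w => (w.1, w.2.1, fun b => w.2.2 b ∘ₗ LinearMap.mulRight K (T b))
               map_add' := fun _ _ => rfl
               map_smul' := fun _ _ => rfl }
  map_one' := by
    refine LinearMap.ext fun w => Prod.ext rfl (Prod.ext rfl (funext fun b => ?_))
    refine LinearMap.ext fun r => ?_
    simp
  map_mul' S T := by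
    refine LinearMap.ext fun w => Prod.ext rfl (Prod.ext rfl (funext fun b => ?_))
    refine LinearMap.ext fun r => ?_
    simp [mul_assoc]

lemma l0_l1 (c : Fin n → K) (T : Fin n → Module.End K V) : Commute (l0 (V := V) c) (l1 T) := rfl

lemma l0_l2 (c : Fin n → K) (T : Fin n → Module.End K V) : Commute (l0 (V := V) c) (l2 T) := rfl

lemma l1_l2 (S T : Fin n → Module.End K V) : Commute (l1 S) (l2 T) := rfl

/-- maps from `W₀` to `W₁` -/
def e01 (P : (Fin n → K) →ₗ[K] (Fin n → V)) : Module.End K (Wsp K V n) where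
  toFun w := (0, P w.1, 0)
  map_add' x y := by
    refine Prod.ext (by simp) (Prod.ext (by simp) (by simp))
  map_smul' a x := by
    refine Prod.ext (by simp) (Prod.ext (by simp) (by simp))

/-- maps from `W₁` to `W₂` -/
def e12 (P : (Fin n → V) →ₗ[K] (Fin n → Du K V)) : Module.End K (Wsp K V n) where
  toFun w := (0, 0, P w.2.1)
  map_add' x y := by
    refine Prod.ext (by simp) (Prod.ext (by simp) (by simp))
  map_smul' a x := by
    refine Prod.ext (by simp) (Prod.ext (by simp) (by simp))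

/-- maps from `W₂` to `W₀` -/
def e20 (P : (Fin n → Du K V) →ₗ[K] (Fin n → K)) : Module.End K (Wsp K V n) where
  toFun w := (P w.2.2, 0, 0)
  map_add' x y := by
    refine Prod.ext (by simp) (Prod.ext (by simp) (by simp))
  map_smul' a x := by
    refine Prod.ext (by simp) (Prod.ext (by simp) (by simp))

section eqs
variable (P P' : (Fin n → K) →ₗ[K] (Fin n → V)) (Q Q' : (Fin n → V) →ₗ[K] (Fin n → Du K V))
  (S S' : (Fin n → Du K V) →ₗ[K] (Fin n → K))

lemma e01_e01 : e01 P * e01 P' = 0 := by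
  refine LinearMap.ext fun w => ?_
  change ((0 : Fin n → K), P 0, (0 : Fin n → Du K V)) = 0
  rw [map_zero]; rfl

lemma e12_e12 : e12 Q * e12 Q' = 0 := by
  refine LinearMap.ext fun w => ?_
  change ((0 : Fin n → K), (0 : Fin n → V), Q 0) = 0
  rw [map_zero]; rfl

lemma e20_e20 : e20 S * e20 S' = 0 := by
  refine LinearMap.ext fun w => ?_
  change (S 0, (0 : Fin n → V), (0 : Fin n → Du K V)) = 0
  rw [map_zero]; rfl

lemma e01_e12 : e01 P * e12 Q = 0 := by
  refine LinearMap.ext fun w => ?_
  change ((0 : Fin n → K), P 0, (0 : Fin n → Du K V)) = 0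
  rw [map_zero]; rfl

lemma e12_e20 : e12 Q * e20 S = 0 := by
  refine LinearMap.ext fun w => ?_
  change ((0 : Fin n → K), (0 : Fin n → V), Q 0) = 0
  rw [map_zero]; rfl

lemma e20_e01 : e20 S * e01 P = 0 := by
  refine LinearMap.ext fun w => ?_
  change (S 0, (0 : Fin n → V), (0 : Fin n → Du K V)) = 0
  rw [map_zero]; rfl

variable (c : Fin n → K) (T : Fin n → Module.End K V)

lemma l0_e01 : l0 c * e01 P = e01 P := by
  refine LinearMap.ext fun w => Prod.ext (funext fun b => ?_) rfl
  change c b * (0 : K) = 0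
  exact mul_zero _

lemma l2_e01 : l2 T * e01 P = e01 P := by
  refine LinearMap.ext fun w => Prod.ext rfl (Prod.ext rfl (funext fun b => ?_))
  change (0 : Du K V) ∘ₗ LinearMap.mulRight K (T b) = 0
  exact LinearMap.zero_comp _

lemma e01_l1 : e01 P * l1 T = e01 P := rfl

lemma e01_l2 : e01 P * l2 T = e01 P := rfl

lemma l0_e12 : l0 c * e12 Q = e12 Q := by
  refine LinearMap.ext fun w => Prod.ext (funext fun b => ?_) rfl
  change c b * (0 : K) = 0
  exact mul_zero _

lemma l1_e12 : l1 T * e12 Q = e12 Q := by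
  refine LinearMap.ext fun w => Prod.ext rfl (Prod.ext (funext fun b => ?_) rfl)
  change T b 0 = 0
  exact map_zero _

lemma e12_l0 : e12 Q * l0 c = e12 Q := rfl

lemma e12_l2 : e12 Q * l2 T = e12 Q := rfl

lemma l1_e20 : l1 T * e20 S = e20 S := by
  refine LinearMap.ext fun w => Prod.ext rfl (Prod.ext (funext fun b => ?_) rfl)
  change T b 0 = 0
  exact map_zero _

lemma l2_e20 : l2 T * e20 S = e20 S := by
  refine LinearMap.ext fun w => Prod.ext rfl (Prod.ext rfl (funext fun b => ?_))
  change (0 : Du K V) ∘ₗ LinearMap.mulRight K (T b) = 0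
  exact LinearMap.zero_comp _

lemma e20_l0 : e20 S * l0 c = e20 S := rfl

lemma e20_l1 : e20 S * l1 T = e20 S := rfl

end eqs

/-- the letter operators as units -/
def dl0 : (Fin n → K)ˣ →* (Module.End K (Wsp K V n))ˣ := Units.map l0

/-- the letter operators as units -/
def dl1 : (Fin n → Module.End K V)ˣ →* (Module.End K (Wsp K V n))ˣ := Units.map l1

/-- the letter operators as units -/
def dl2 : (Fin n → Module.End K V)ˣ →* (Module.End K (Wsp K V n))ˣ := Units.map l2

/-! the specific arrows -/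

/-- `v : W₀ → W₁` -/
def opv (v₀ : V) : (Fin n → K) →ₗ[K] (Fin n → V) where
  toFun c := fun b => c b • v₀
  map_add' x y := funext fun b => by simp [add_smul]
  map_smul' a x := funext fun b => by simp [mul_smul]

/-- `u : W₁ → W₂` -/
def opu (Λ : Fin n → V →ₗ[K] K) (Φ : Module.End K V) : (Fin n → V) →ₗ[K] (Fin n → Du K V) where
  toFun f := fun b => (Λ b) ∘ₗ (LinearMap.applyₗ (Φ (f b)))
  map_add' x y := funext fun b => LinearMap.ext fun r => by simp
  map_smul' a x := funext fun b => LinearMap.ext fun r => by simp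

lemma opu_apply (Λ : Fin n → V →ₗ[K] K) (Φ : Module.End K V) (f : Fin n → V) (b : Fin n)
    (r : Module.End K V) : opu Λ Φ f b r = Λ b (r (Φ (f b))) := rfl

/-- `w : W₂ → W₀` -/
def opw : (Fin n → Du K V) →ₗ[K] (Fin n → K) where
  toFun φ := fun b => if h : 0 < b.1 then φ ⟨b.1 - 1, by omega⟩ 1 else 0
  map_add' x y := funext fun b => by
    by_cases h : 0 < b.1 <;> simp [h]
  map_smul' a x := funext fun b => by
    by_cases h : 0 < b.1 <;> simp [h]

/-! projections -/

/-- projection to `W₀` -/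
def P0 : Module.End K (Wsp K V n) where
  toFun w := (w.1, 0, 0)
  map_add' x y := by refine Prod.ext rfl (Prod.ext (by simp) (by simp))
  map_smul' a x := by refine Prod.ext rfl (Prod.ext (by simp) (by simp))

/-- projection to `W₁` -/
def P1 : Module.End K (Wsp K V n) where
  toFun w := (0, w.2.1, 0)
  map_add' x y := by refine Prod.ext (by simp) (Prod.ext rfl (by simp))
  map_smul' a x := by refine Prod.ext (by simp) (Prod.ext rfl (by simp))

/-- projection to `W₂` -/
def P2 : Module.End K (Wsp K V n) where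
  toFun w := (0, 0, w.2.2)
  map_add' x y := by refine Prod.ext (by simp) (Prod.ext (by simp) rfl)
  map_smul' a x := by refine Prod.ext (by simp) (Prod.ext (by simp) rfl)

section proj
variable (c : Fin n → K) (T : Fin n → Module.End K V)
  (P : (Fin n → K) →ₗ[K] (Fin n → V)) (Q : (Fin n → V) →ₗ[K] (Fin n → Du K V))
  (S : (Fin n → Du K V) →ₗ[K] (Fin n → K))

lemma P01 : (P0 : Module.End K (Wsp K V n)) * P1 = 0 := rfl
lemma P02 : (P0 : Module.End K (Wsp K V n)) * P2 = 0 := rfl
lemma P10 : (P1 : Module.End K (Wsp K V n)) * P0 = 0 := rfl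
lemma P12 : (P1 : Module.End K (Wsp K V n)) * P2 = 0 := rfl
lemma P20 : (P2 : Module.End K (Wsp K V n)) * P0 = 0 := rfl
lemma P21 : (P2 : Module.End K (Wsp K V n)) * P1 = 0 := rfl

lemma P1_e01 : P1 * e01 P = e01 P := rfl
lemma e01_P0 : e01 P * P0 = e01 P := rfl
lemma P2_e12 : P2 * e12 Q = e12 Q := rfl
lemma e12_P1 : e12 Q * P1 = e12 Q := rfl
lemma P0_e20 : P0 * e20 S = e20 S := rfl
lemma e20_P2 : e20 S * P2 = e20 S := rfl

lemma l0_P1 : l0 c * P1 = (P1 : Module.End K (Wsp K V n)) := by
  refine LinearMap.ext fun w => Prod.ext (funext fun b => ?_) rfl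
  change c b * (0 : K) = 0
  exact mul_zero _
lemma l0_P2 : l0 c * P2 = (P2 : Module.End K (Wsp K V n)) := by
  refine LinearMap.ext fun w => Prod.ext (funext fun b => ?_) rfl
  change c b * (0 : K) = 0
  exact mul_zero _
lemma l1_P0 : l1 T * P0 = (P0 : Module.End K (Wsp K V n)) := by
  refine LinearMap.ext fun w => Prod.ext rfl (Prod.ext (funext fun b => ?_) rfl)
  change T b 0 = 0
  exact map_zero _
lemma l1_P2 : l1 T * P2 = (P2 : Module.End K (Wsp K V n)) := by
  refine LinearMap.ext fun w => Prod.ext rfl (Prod.ext (funext fun b => ?_) rfl)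
  change T b 0 = 0
  exact map_zero _
lemma l2_P0 : l2 T * P0 = (P0 : Module.End K (Wsp K V n)) := by
  refine LinearMap.ext fun w => Prod.ext rfl (Prod.ext rfl (funext fun b => ?_))
  change (0 : Du K V) ∘ₗ LinearMap.mulRight K (T b) = 0
  exact LinearMap.zero_comp _
lemma l2_P1 : l2 T * P1 = (P1 : Module.End K (Wsp K V n)) := by
  refine LinearMap.ext fun w => Prod.ext rfl (Prod.ext rfl (funext fun b => ?_))
  change (0 : Du K V) ∘ₗ LinearMap.mulRight K (T b) = 0
  exact LinearMap.zero_comp _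

lemma P1_l0 : P1 * l0 c = (P1 : Module.End K (Wsp K V n)) := rfl
lemma P2_l0 : P2 * l0 c = (P2 : Module.End K (Wsp K V n)) := rfl
lemma P0_l1 : P0 * l1 T = (P0 : Module.End K (Wsp K V n)) := rfl
lemma P2_l1 : P2 * l1 T = (P2 : Module.End K (Wsp K V n)) := rfl
lemma P0_l2 : P0 * l2 T = (P0 : Module.End K (Wsp K V n)) := rfl
lemma P1_l2 : P1 * l2 T = (P1 : Module.End K (Wsp K V n)) := rfl

lemma l0_P0 : Commute (l0 c) (P0 : Module.End K (Wsp K V n)) := rfl
lemma l1_P1 : Commute (l1 T) (P1 : Module.End K (Wsp K V n)) := by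
  refine LinearMap.ext fun w => Prod.ext rfl (Prod.ext rfl rfl)
lemma l2_P2 : Commute (l2 T) (P2 : Module.End K (Wsp K V n)) := by
  refine LinearMap.ext fun w => Prod.ext rfl (Prod.ext rfl rfl)

lemma l1_add_P1 : l1 (1 + T) * P1 = (P1 + l1 T * P1 : Module.End K (Wsp K V n)) := by
  refine LinearMap.ext fun w => Prod.ext ?_ (Prod.ext rfl ?_)
  · change (0 : Fin n → K) = 0 + 0
    rw [add_zero]
  · change (0 : Fin n → Du K V) = 0 + 0
    rw [add_zero]

lemma l2_add_P2 : l2 (1 + T) * P2 = (P2 + l2 T * P2 : Module.End K (Wsp K V n)) := by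
  refine LinearMap.ext fun w => Prod.ext ?_ (Prod.ext ?_ (funext fun b => ?_))
  · change (0 : Fin n → K) = 0 + 0
    rw [add_zero]
  · change (0 : Fin n → V) = 0 + 0
    rw [add_zero]
  · refine LinearMap.ext fun r => ?_
    change w.2.2 b (r * (1 + T b)) = w.2.2 b r + w.2.2 b (r * T b)
    rw [mul_add, mul_one, map_add]

end proj

/-- composite `W₁ → W₀` -/
def e10 (Ψ : Fin n → V →ₗ[K] K) : Module.End K (Wsp K V n) where
  toFun w := (fun b => if h : 0 < b.1 then Ψ ⟨b.1 - 1, by omega⟩ (w.2.1 ⟨b.1 - 1, by omega⟩) else 0,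
    0, 0)
  map_add' x y := by
    refine Prod.ext (funext fun b => ?_) (Prod.ext (by simp) (by simp))
    by_cases h : 0 < b.1 <;> simp [h]
  map_smul' a x := by
    refine Prod.ext (funext fun b => ?_) (Prod.ext (by simp) (by simp))
    by_cases h : 0 < b.1 <;> simp [h]

lemma w_mul_u (Λ : Fin n → V →ₗ[K] K) (Φ : Module.End K V) (T : Fin n → Module.End K V) :
    e20 opw * (l2 T * e12 (opu Λ Φ)) = e10 (fun b => Λ b ∘ₗ (T b * Φ)) := by
  refine LinearMap.ext fun w => Prod.ext (funext fun b => ?_) rfl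
  change (if h : 0 < b.1 then
      Λ ⟨b.1 - 1, _⟩ (((1 : Module.End K V) * T ⟨b.1 - 1, _⟩) (Φ (w.2.1 ⟨b.1 - 1, _⟩))) else 0)
    = (if h : 0 < b.1 then
      Λ ⟨b.1 - 1, _⟩ ((T ⟨b.1 - 1, _⟩ * Φ) (w.2.1 ⟨b.1 - 1, _⟩)) else 0)
  simp only [one_mul]
  rfl

lemma w_mul_u' (Λ : Fin n → V →ₗ[K] K) (Φ : Module.End K V) :
    e20 opw * e12 (opu Λ Φ) = e10 (fun b => Λ b ∘ₗ Φ) := by
  have := w_mul_u Λ Φ (n := n) 1
  rw [map_one, one_mul] at this
  rw [this]
  simp only [Pi.one_apply, one_mul]

/-- the twisted commutation of letters with `u` -/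
lemma u_twist (Λ : Fin n → V →ₗ[K] K) (Φ : Module.End K V) (T T' : Fin n → Module.End K V)
    (h : ∀ b, Φ * T b = T' b * Φ) : l2 T' * e12 (opu Λ Φ) = e12 (opu Λ Φ) * l1 T := by
  refine LinearMap.ext fun w => Prod.ext rfl (Prod.ext rfl (funext fun b => ?_))
  refine LinearMap.ext fun r => ?_
  change Λ b ((r * T' b) (Φ (w.2.1 b))) = Λ b (r (Φ (T b (w.2.1 b))))
  have h1 : Φ (T b (w.2.1 b)) = T' b (Φ (w.2.1 b)) := by
    have := congrArg (fun A : Module.End K V => A (w.2.1 b)) (h b)
    exact this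
  rw [h1]
  rfl

lemma v_twist (v₀ : V) (c : Fin n → K) (T : Fin n → Module.End K V)
    (h : ∀ b, T b v₀ = c b • v₀) : l1 T * e01 (opv v₀) = e01 (opv v₀) * l0 c := by
  refine LinearMap.ext fun w => Prod.ext rfl (Prod.ext (funext fun b => ?_) rfl)
  change T b (w.1 b • v₀) = (c b * w.1 b) • v₀
  rw [map_smul, h, smul_smul, mul_comm]

lemma w_twist (c : Fin n → K) (T : Fin n → Module.End K V)
    (h : ∀ b b' : Fin n, b'.1 + 1 = b.1 → T b' = c b • 1) :
    l0 c * e20 opw = e20 (K := K) (V := V) opw * l2 T := by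
  refine LinearMap.ext fun w => Prod.ext (funext fun b => ?_) rfl
  change c b * (if h : 0 < b.1 then w.2.2 ⟨b.1 - 1, _⟩ 1 else 0)
    = (if h : 0 < b.1 then w.2.2 ⟨b.1 - 1, _⟩ (1 * T ⟨b.1 - 1, _⟩) else 0)
  split_ifs with hb
  · rw [h b ⟨b.1 - 1, by omega⟩ (by simp only; omega), one_mul, map_smul, smul_eq_mul]
  · exact mul_zero _

lemma u_mul_v (Λ : Fin n → V →ₗ[K] K) (Φ Φ' : Module.End K V) (v₀ : V) (h : Φ v₀ = Φ' v₀) :
    e12 (opu Λ Φ) * e01 (opv v₀) = e12 (opu Λ Φ') * e01 (n := n) (opv v₀) := by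
  refine LinearMap.ext fun w => Prod.ext rfl (Prod.ext rfl (funext fun b => ?_))
  refine LinearMap.ext fun r => ?_
  change Λ b (r (Φ (w.1 b • v₀))) = Λ b (r (Φ' (w.1 b • v₀)))
  rw [LinearMap.map_smul Φ, h, ← LinearMap.map_smul Φ']

lemma u_scale (Λ Λ' : Fin n → V →ₗ[K] K) (Φ : Module.End K V) (c : Fin n → K)
    (T : Fin n → Module.End K V) (hT : ∀ b, T b = c b • 1) (h : ∀ b, Λ b = c b • Λ' b) :
    e12 (opu Λ Φ) = l2 T * e12 (opu Λ' Φ) := by
  refine LinearMap.ext fun w => Prod.ext rfl (Prod.ext rfl (funext fun b => ?_))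
  refine LinearMap.ext fun r => ?_
  change Λ b (r (Φ (w.2.1 b))) = Λ' b ((r * T b) (Φ (w.2.1 b)))
  rw [h, hT, mul_smul_comm, mul_one]
  simp

/-- the shift `W₀ → W₀` obtained from `w u v` -/
lemma shift_pow (Λ : Fin n → V →ₗ[K] K) (Φ : Module.End K V) (T : Fin n → Module.End K V) (v₀ : V)
    (hne : ∀ b, Λ b (T b (Φ v₀)) ≠ 0) (k : ℕ) (hk : k < n) :
    (e20 opw * (l2 T * e12 (opu Λ Φ)) * e01 (opv v₀)) ^ k ≠ 0 := by
  have hn : 0 < n := by omega
  set A : Module.End K (Wsp K V n) := e20 opw * (l2 T * e12 (opu Λ Φ)) * e01 (opv v₀) with hA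
  have hA1 : ∀ w : Wsp K V n, ∀ b : Fin n, ∀ hb : 0 < b.1,
      (A w).1 b = w.1 ⟨b.1 - 1, by omega⟩ * Λ ⟨b.1 - 1, by omega⟩ (T ⟨b.1 - 1, by omega⟩ (Φ v₀)) := by
    intro w b hb
    rw [hA, w_mul_u]
    change (if h : 0 < b.1 then Λ ⟨b.1 - 1, _⟩ ((T ⟨b.1 - 1, _⟩ * Φ) (w.1 ⟨b.1 - 1, _⟩ • v₀)) else 0)
      = _
    rw [dif_pos hb, map_smul, map_smul, smul_eq_mul]
    rfl
  have key : ∀ k : ℕ, ∀ hk : k < n, ((A ^ k) (Pi.single ⟨0, hn⟩ 1, 0, 0)).1 ⟨k, hk⟩ ≠ 0 := by
    intro k
    induction k with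
    | zero =>
      intro hk
      rw [pow_zero]
      change (Pi.single (⟨0, hn⟩ : Fin n) (1 : K) : Fin n → K) ⟨0, hk⟩ ≠ 0
      rw [Pi.single_eq_same]
      exact one_ne_zero
    | succ k ih =>
      intro hk
      rw [pow_succ', Module.End.mul_apply, hA1 _ _ (Nat.succ_pos k)]
      exact mul_ne_zero (ih (by omega)) (hne _)
  intro h0
  apply key k hk
  rw [h0]
  rfl

end spaces

end Pool.Agent.SolIndex.Rep
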