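import Mathlib
import Pool.Agent.SolIndex.Defs
import Pool.Agent.SolIndex.Digits
import Pool.Agent.SolIndex.Rep

/-!
The lower part: representations of the group with unbounded derived length.
-/

set_option autoImplicit false
set_option linter.unusedSectionVars false

namespace Pool.Agent.SolIndex.Lw

open Turing.PartrecToTM2 (Γ')
open scoped commutatorElement
open Pool.Agent.SolIndex.Rep

variable {ι S ρ : Type} [DecidableEq ι]

/-! ### products of letters -/

section ev
variable {G : Type*} [Group G] [Fintype ι]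

/-- product of powers of letters -/
noncomputable def evL (L : Lt ι → G) (d : Lt ι → ℤ) : G :=
  ((Finset.univ : Finset (Lt ι)).toList.map fun l => L l ^ d l).prod

lemma list_prod_map_mul {A : Type*} (L : List A) (f g : A → G)
    (h : ∀ a b, Commute (f a) (g b)) :
    (L.map fun a => f a * g a).prod = (L.map f).prod * (L.map g).prod := by
  induction L with
  | nil => simp
  | cons a L ih =>
    rw [List.map_cons, List.prod_cons, List.map_cons, List.prod_cons, List.map_cons,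
      List.prod_cons, ih]
    have h1 : Commute (g a) (L.map f).prod := by
      apply Commute.list_prod_right
      intro x hx
      rw [List.mem_map] at hx
      obtain ⟨b, -, rfl⟩ := hx
      exact (h b a).symm
    rw [mul_assoc (f a) (g a), ← mul_assoc (g a), h1.eq, mul_assoc, mul_assoc]

lemma evL_add (L : Lt ι → G) (hL : ∀ l l', Commute (L l) (L l')) (d d' : Lt ι → ℤ) :
    evL L (d + d') = evL L d * evL L d' := by
  unfold evL
  rw [← list_prod_map_mul _ _ _ (fun a b => ((hL a b).zpow_zpow _ _))]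
  congr 1
  refine List.map_congr_left fun l _ => ?_
  rw [Pi.add_apply, zpow_add]

lemma evL_zero (L : Lt ι → G) : evL L 0 = 1 := by
  unfold evL
  apply List.prod_eq_one
  intro x hx
  rw [List.mem_map] at hx
  obtain ⟨l, -, rfl⟩ := hx
  simp

lemma list_prod_single {A : Type*} [DecidableEq A] (f : A → G) (l₀ : A) (k : ℤ) :
    ∀ L : List A, L.Nodup → (L.map fun l => f l ^ (Pi.single l₀ k : A → ℤ) l).prod
      = if l₀ ∈ L then f l₀ ^ k else 1 := by
  intro L
  induction L with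
  | nil => simp
  | cons a L ih =>
    intro hL
    rw [List.nodup_cons] at hL
    rw [List.map_cons, List.prod_cons, ih hL.2]
    by_cases h : l₀ = a
    · subst h
      rw [if_neg hL.1, if_pos (List.mem_cons_self ..), Pi.single_eq_same, mul_one]
    · rw [Pi.single_eq_of_ne (Ne.symm h), zpow_zero, one_mul]
      congr 1
      simp [h]

lemma evL_single (L : Lt ι → G) (l : Lt ι) (k : ℤ) : evL L (Pi.single l k) = L l ^ k := by
  unfold evL
  rw [list_prod_single L l k _ (Finset.nodup_toList _), if_pos]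
  rw [Finset.mem_toList]; exact Finset.mem_univ _

lemma evL_mem (L : Lt ι → G) (H : Subgroup G) (hL : ∀ l, L l ∈ H) (d : Lt ι → ℤ) :
    evL L d ∈ H := by
  unfold evL
  apply Subgroup.list_prod_mem
  intro x hx
  rw [List.mem_map] at hx
  obtain ⟨l, -, rfl⟩ := hx
  exact H.zpow_mem (hL l) _

lemma ev_eq_map {G' : Type*} [Group G'] (f : G →* G') (L : Lt ι → G) (φ : Gn S ι → G')
    (h : ∀ l, φ (.lt l) = f (L l)) (d : Lt ι → ℤ) : ev φ d = f (evL L d) := by
  unfold ev evL
  rw [map_list_prod, List.map_map]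
  congr 1
  refine List.map_congr_left fun l _ => ?_
  simp [h]

end ev

section sec
variable (S)

lemma sec_add (g : Sy S ι) (m m' : Mon (Vr ι)) : sec g (m + m') = sec g m + sec g m' := by
  funext l
  cases g <;> cases l <;> simp [sec] <;> ring

lemma sec_zero (g : Sy S ι) : sec g (0 : Mon (Vr ι)) = 0 := by
  funext l
  cases g <;> cases l <;> simp [sec]

lemma sec_v_xm (a : ℤ) (j : Vr ι) :
    sec (.v : Sy S ι) (a • xm j) = Pi.single (Lt.x1 j) a := by
  funext l
  cases l with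
  | x1 i =>
    by_cases h : i = j
    · subst h; simp [sec, xm]
    · rw [Pi.single_eq_of_ne (by simpa using h)]
      simp [sec, xm, Pi.single_eq_of_ne h]
  | x1' i =>
    rw [Pi.single_eq_of_ne (by simp)]
    by_cases h : i = j
    · subst h; simp [sec, xm]
    · simp [sec, xm, Pi.single_eq_of_ne h]
  | _ => rw [Pi.single_eq_of_ne (by simp)]; simp [sec]

lemma sec_v_xm' (a : ℤ) (j : Vr ι) :
    sec (.v : Sy S ι) (a • xm' j) = Pi.single (Lt.x1' j) a := by
  funext l
  cases l with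
  | x1' i =>
    by_cases h : i = j
    · subst h; simp [sec, xm']
    · rw [Pi.single_eq_of_ne (by simpa using h)]
      simp [sec, xm', Pi.single_eq_of_ne h]
  | x1 i =>
    rw [Pi.single_eq_of_ne (by simp)]
    by_cases h : i = j
    · subst h; simp [sec, xm']
    · simp [sec, xm', Pi.single_eq_of_ne h]
  | _ => rw [Pi.single_eq_of_ne (by simp)]; simp [sec]

lemma sec_u_xm (b : S) (o : Option ι) (a : ℤ) (j : Vr ι) :
    sec (.u b o : Sy S ι) (a • xm j) = Pi.single (Lt.x2 j) a := by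
  funext l
  cases l with
  | x2 i =>
    by_cases h : i = j
    · subst h; simp [sec, xm]
    · rw [Pi.single_eq_of_ne (by simpa using h)]
      simp [sec, xm, Pi.single_eq_of_ne h]
  | x2' i =>
    rw [Pi.single_eq_of_ne (by simp)]
    by_cases h : i = j
    · subst h; simp [sec, xm]
    · simp [sec, xm, Pi.single_eq_of_ne h]
  | _ => rw [Pi.single_eq_of_ne (by simp)]; simp [sec]

lemma sec_u_xm' (b : S) (o : Option ι) (a : ℤ) (j : Vr ι) :
    sec (.u b o : Sy S ι) (a • xm' j) = Pi.single (Lt.x2' j) a := by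
  funext l
  cases l with
  | x2' i =>
    by_cases h : i = j
    · subst h; simp [sec, xm']
    · rw [Pi.single_eq_of_ne (by simpa using h)]
      simp [sec, xm', Pi.single_eq_of_ne h]
  | x2 i =>
    rw [Pi.single_eq_of_ne (by simp)]
    by_cases h : i = j
    · subst h; simp [sec, xm']
    · simp [sec, xm', Pi.single_eq_of_ne h]
  | _ => rw [Pi.single_eq_of_ne (by simp)]; simp [sec]

lemma sec_w_xm (a : ℤ) (j : Vr ι) :
    sec (.w : Sy S ι) (a • xm j) = Pi.single (Lt.x2 j) (-a) := by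
  funext l
  cases l with
  | x2 i =>
    by_cases h : i = j
    · subst h; simp [sec, xm]
    · rw [Pi.single_eq_of_ne (by simpa using h)]
      simp [sec, xm, Pi.single_eq_of_ne h]
  | x2' i =>
    rw [Pi.single_eq_of_ne (by simp)]
    by_cases h : i = j
    · subst h; simp [sec, xm]
    · simp [sec, xm, Pi.single_eq_of_ne h]
  | _ => rw [Pi.single_eq_of_ne (by simp)]; simp [sec]

lemma sec_w_xm' (a : ℤ) (j : Vr ι) :
    sec (.w : Sy S ι) (a • xm' j) = Pi.single (Lt.x2' j) (-a) := by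
  funext l
  cases l with
  | x2' i =>
    by_cases h : i = j
    · subst h; simp [sec, xm']
    · rw [Pi.single_eq_of_ne (by simpa using h)]
      simp [sec, xm', Pi.single_eq_of_ne h]
  | x2 i =>
    rw [Pi.single_eq_of_ne (by simp)]
    by_cases h : i = j
    · subst h; simp [sec, xm']
    · simp [sec, xm', Pi.single_eq_of_ne h]
  | _ => rw [Pi.single_eq_of_ne (by simp)]; simp [sec]

end sec

/-! ### abstract representation data -/

/-- level of a letter -/
def lvl : Lt ι → ZMod 3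
  | .x0 => 0
  | .x0' => 0
  | .x1 _ => 1
  | .x1' _ => 1
  | .x2 _ => 2
  | .x2' _ => 2

/-- the operator of a digit monomial at level two -/
noncomputable def dopL {R : Type*} [Ring R] (L : Lt ι → Rˣ) (s : ι) (d : Fin 16) : Rˣ :=
  if d = 8 then L (.x2' (.st s)) ^ 15 else L (.x2 (.st s)) ^ (d : ℕ)

/-- representation data -/
structure RD {R : Type*} [Ring R] (rule : ρ → Rule S ι) (F : ℕ) (p : ZMod 3 → R)
    (L : Lt ι → Rˣ) (N : Sy S ι → R) : Prop where
  pp : ∀ i j, i ≠ j → p i * p j = 0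
  n1 : ∀ g, p (g.lev + 1) * N g = N g
  n2 : ∀ g, N g * p g.lev = N g
  ll : ∀ l l', Commute (L l) (L l')
  lp : ∀ l i, Commute (L l : R) (p i)
  lt : ∀ l i, lvl l ≠ i → (L l : R) * p i = p i
  v0 : (L (.x1 .kap) : R) * N .v = N .v * L .x0
  v0' : (L (.x1' .kap) : R) * N .v = N .v * L .x0'
  u1 : ∀ a o j, ((L (.x2 j) ^ tw o j : Rˣ) : R) * N (.u a o) = N (.u a o) * L (.x1 j)
  u1' : ∀ a o j, ((L (.x2' j) ^ tw o j : Rˣ) : R) * N (.u a o) = N (.u a o) * L (.x1' j)
  w0 : (L .x0 : R) * N .w = N .w * L (.x2 .kap3)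
  w0' : (L .x0' : R) * N .w = N .w * L (.x2' .kap3)
  b1 : ∀ j, (L (.x1' j) : R) * p 1 = p 1 + L (.x1 j) * p 1
  b2 : ∀ j, (L (.x2' j) : R) * p 2 = p 2 + L (.x2 j) * p 2
  k3 : L (.x2 .kap3) = L (.x2 .kap) ^ 3
  pt : ∀ a s, N (.u a (some s)) * N .v = N (.u a none) * N .v
  jump : ∀ i a b k n, rule i = .jump a b k n →
    N (.u a none) = (L (.x2 .kap) : R) ^ k * (L (.x2 .nu) : R) ^ n * N (.u b none)
  kill : ∀ i a, rule i = .kill a → N (.u a none) = 0
  push : ∀ i a s γ b, rule i = .push a s γ b →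
    N .w * N (.u a none) = N .w * ((dopL L s (dg γ) : Rˣ) * N (.u b (some s)))
  popc : ∀ i a s f, rule i = .pop a s f → ∀ g,
    N .w * ((dopL L s (dg g) : Rˣ) * N (.u a (some s))) = N .w * N (.u (f (some g)) none)
  popn : ∀ i a s f, rule i = .pop a s f → ∀ d, symb d = none →
    N .w * ((dopL L s d : Rˣ) * N (.u a (some s)))
      = N .w * ((dopL L s d : Rˣ) * N (.u (f none) (some s)))
  nu : L (.x2 .nu) ^ F = 1

lemma lv10 (j : Vr ι) : lvl (Lt.x1 j) ≠ 0 := by change (1 : ZMod 3) ≠ 0; decide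
lemma lv1'0 (j : Vr ι) : lvl (Lt.x1' j) ≠ 0 := by change (1 : ZMod 3) ≠ 0; decide
lemma lv12 (j : Vr ι) : lvl (Lt.x1 j) ≠ 2 := by change (1 : ZMod 3) ≠ 2; decide
lemma lv1'2 (j : Vr ι) : lvl (Lt.x1' j) ≠ 2 := by change (1 : ZMod 3) ≠ 2; decide
lemma lv20 (j : Vr ι) : lvl (Lt.x2 j) ≠ 0 := by change (2 : ZMod 3) ≠ 0; decide
lemma lv2'0 (j : Vr ι) : lvl (Lt.x2' j) ≠ 0 := by change (2 : ZMod 3) ≠ 0; decide
lemma lv21 (j : Vr ι) : lvl (Lt.x2 j) ≠ 1 := by change (2 : ZMod 3) ≠ 1; decide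
lemma lv2'1 (j : Vr ι) : lvl (Lt.x2' j) ≠ 1 := by change (2 : ZMod 3) ≠ 1; decide
lemma lv01 : lvl (Lt.x0 : Lt ι) ≠ 1 := by change (0 : ZMod 3) ≠ 1; decide
lemma lv0'1 : lvl (Lt.x0' : Lt ι) ≠ 1 := by change (0 : ZMod 3) ≠ 1; decide
lemma lv02 : lvl (Lt.x0 : Lt ι) ≠ 2 := by change (0 : ZMod 3) ≠ 2; decide
lemma lv0'2 : lvl (Lt.x0' : Lt ι) ≠ 2 := by change (0 : ZMod 3) ≠ 2; decide

section abs
variable {R : Type*} [Ring R]

/-- arrows from level `i` to level `i + 1` -/
def IsArr (p : ZMod 3 → R) (i : ZMod 3) (N : R) : Prop := p (i + 1) * N = N ∧ N * p i = N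

lemma z3_ne1 (i : ZMod 3) : i ≠ i + 1 := by revert i; decide
lemma z3_ne2 (i : ZMod 3) : i ≠ i + 1 + 1 := by revert i; decide

variable {p : ZMod 3 → R} (pp : ∀ i j, i ≠ j → p i * p j = 0)
include pp

lemma IsArr.mul_same {i : ZMod 3} {N M : R} (hN : IsArr p i N) (hM : IsArr p i M) : N * M = 0 := by
  rw [← hN.2, ← hM.1, mul_assoc, ← mul_assoc (p i), pp _ _ (z3_ne1 i), zero_mul, mul_zero]

lemma IsArr.mul_next {i : ZMod 3} {N M : R} (hN : IsArr p i N) (hM : IsArr p (i + 1) M) :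
    N * M = 0 := by
  rw [← hN.2, ← hM.1, mul_assoc, ← mul_assoc (p i), pp _ _ (z3_ne2 i), zero_mul, mul_zero]

omit pp in
lemma IsArr.conj {i : ZMod 3} {N : R} (hN : IsArr p i N) (δ : Rˣ)
    (hδ : ∀ i, Commute (δ : R) (p i)) : IsArr p i (δ * N * (δ⁻¹ : Rˣ)) := by
  have hδ' : ∀ i, Commute ((δ⁻¹ : Rˣ) : R) (p i) := fun i => (hδ i).units_inv_left
  constructor
  · rw [← mul_assoc, ← mul_assoc, ← (hδ (i + 1)).eq, mul_assoc (δ : R), hN.1]
  · rw [mul_assoc, (hδ' i).eq, ← mul_assoc, mul_assoc (δ : R), hN.2]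

end abs

section sat
variable {R : Type*} [Ring R] [CharP R 2] [Fintype ι] {rule : ρ → Rule S ι} {F : ℕ}
  {p : ZMod 3 → R} {L : Lt ι → Rˣ} {N : Sy S ι → R}

/-- the map on generators -/
noncomputable def phi (L : Lt ι → Rˣ) (N : Sy S ι → R) :
    Gn S ι → (Matrix (Fin 4) (Fin 4) R)ˣ
  | .lt l => sc (L l)
  | .sy g α β => tv α β (N g)

/-- `m·N_g` -/
noncomputable def sgN (L : Lt ι → Rˣ) (N : Sy S ι → R) (g : Sy S ι) (m : Mon (Vr ι)) : R :=
  evL L (sec g m) * N g * ((evL L (sec g m))⁻¹ : Rˣ)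

variable (h : RD rule F p L N)
include h

lemma RD.arr (g : Sy S ι) : IsArr p g.lev (N g) := ⟨h.n1 g, h.n2 g⟩

lemma RD.sq (g : Sy S ι) : N g * N g = 0 := (h.arr g).mul_same h.pp (h.arr g)

lemma RD.ev_comm (d : Lt ι → ℤ) (i : ZMod 3) : Commute ((evL L d : Rˣ) : R) (p i) := by
  let H : Subgroup Rˣ :=
    { carrier := {δ | Commute (δ : R) (p i)}
      one_mem' := Commute.one_left _
      mul_mem' := fun {a b} ha hb => by
        simp only [Set.mem_ofPred_eq] at ha hb ⊢
        rw [Units.val_mul]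
        exact Commute.mul_left ha hb
      inv_mem' := fun {a} ha => Commute.units_inv_left ha }
  exact evL_mem L H (fun l => h.lp l i) d

lemma RD.sg_eq (g : Sy S ι) (m : Mon (Vr ι)) (α β : Fin 4) :
    sg (phi L N) g m α β = tv α β (sgN L N g m) := by
  unfold sg
  rw [ev_eq_map sc L (phi L N) (fun _ => rfl)]
  exact sc_conj _ _ _ (h.sq g)

lemma RD.sgN_arr (g : Sy S ι) (m : Mon (Vr ι)) : IsArr p g.lev (sgN L N g m) :=
  (h.arr g).conj _ (h.ev_comm _)

lemma RD.sgN_zero (g : Sy S ι) : sgN L N g 0 = N g := by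
  unfold sgN
  rw [sec_zero, evL_zero]; simp

/-! absorbing letters of the other levels -/

lemma RD.mul_of_ne {l : Lt ι} {i : ZMod 3} {M : R} (hl : lvl l ≠ i) (hM : p i * M = M) :
    (L l : R) * M = M := by
  conv_lhs => rw [← hM]
  rw [← mul_assoc, h.lt l i hl, hM]

lemma RD.of_ne_mul {l : Lt ι} {i : ZMod 3} {M : R} (hl : lvl l ≠ i) (hM : M * p i = M) :
    M * (L l : R) = M := by
  conv_lhs => rw [← hM]
  rw [mul_assoc, ← (h.lp l i).eq, h.lt l i hl, hM]

lemma RD.of_ne_mul_inv {l : Lt ι} {i : ZMod 3} {M : R} (hl : lvl l ≠ i) (hM : M * p i = M) :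
    M * ((L l)⁻¹ : Rˣ) = M := by
  conv_lhs => rw [← h.of_ne_mul hl hM]
  rw [mul_assoc, Units.mul_inv, mul_one]

lemma RD.mul_of_ne_inv {l : Lt ι} {i : ZMod 3} {M : R} (hl : lvl l ≠ i) (hM : p i * M = M) :
    (((L l)⁻¹ : Rˣ) : R) * M = M := by
  conv_lhs => rw [← h.mul_of_ne hl hM]
  rw [← mul_assoc, Units.inv_mul, one_mul]

lemma RD.of_ne_mul_zpow {l : Lt ι} {i : ZMod 3} {M : R} (hl : lvl l ≠ i) (hM : M * p i = M)
    (k : ℤ) : M * ((L l ^ k : Rˣ) : R) = M := by
  induction k using Int.induction_on with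
  | zero => simp
  | succ k ih =>
    rw [zpow_add_one, Units.val_mul, ← mul_assoc, ih, h.of_ne_mul hl hM]
  | pred k ih =>
    rw [zpow_sub_one, Units.val_mul, ← mul_assoc, ih, h.of_ne_mul_inv hl hM]

lemma RD.mul_of_ne_zpow {l : Lt ι} {i : ZMod 3} {M : R} (hl : lvl l ≠ i) (hM : p i * M = M)
    (k : ℤ) : ((L l ^ k : Rˣ) : R) * M = M := by
  induction k using Int.induction_on with
  | zero => simp
  | succ k ih =>
    rw [zpow_add_one, Units.val_mul, mul_assoc, h.mul_of_ne hl hM, ih]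
  | pred k ih =>
    rw [zpow_sub_one, Units.val_mul, mul_assoc, h.mul_of_ne_inv hl hM, ih]

lemma RD.v1 : p 1 * N .v = N .v := h.n1 .v
lemma RD.v2 : N .v * p 0 = N .v := h.n2 .v
lemma RD.uu1 (a : S) (o : Option ι) : p 2 * N (.u a o) = N (.u a o) := h.n1 (.u a o)
lemma RD.uu2 (a : S) (o : Option ι) : N (.u a o) * p 1 = N (.u a o) := h.n2 (.u a o)
lemma RD.ww1 : p 0 * N .w = N .w := h.n1 .w
lemma RD.ww2 : N .w * p 2 = N .w := h.n2 .w

lemma RD.sgN_v (a : ℤ) (j : Vr ι) :
    sgN L N .v (a • xm j) = ((L (.x1 j) ^ a : Rˣ) : R) * N .v := by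
  unfold sgN
  rw [sec_v_xm, evL_single, ← zpow_neg, mul_assoc, h.of_ne_mul_zpow (i := 0) (lv10 j) h.v2]

lemma RD.sgN_v' (a : ℤ) (j : Vr ι) :
    sgN L N .v (a • xm' j) = ((L (.x1' j) ^ a : Rˣ) : R) * N .v := by
  unfold sgN
  rw [sec_v_xm', evL_single, ← zpow_neg, mul_assoc, h.of_ne_mul_zpow (i := 0) (lv1'0 j) h.v2]

lemma RD.sgN_u (b : S) (o : Option ι) (a : ℤ) (j : Vr ι) :
    sgN L N (.u b o) (a • xm j) = ((L (.x2 j) ^ a : Rˣ) : R) * N (.u b o) := by
  unfold sgN
  rw [sec_u_xm, evL_single, ← zpow_neg, mul_assoc, h.of_ne_mul_zpow (i := 1) (lv21 j) (h.uu2 b o)]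

lemma RD.sgN_u' (b : S) (o : Option ι) (a : ℤ) (j : Vr ι) :
    sgN L N (.u b o) (a • xm' j) = ((L (.x2' j) ^ a : Rˣ) : R) * N (.u b o) := by
  unfold sgN
  rw [sec_u_xm', evL_single, ← zpow_neg, mul_assoc,
    h.of_ne_mul_zpow (i := 1) (lv2'1 j) (h.uu2 b o)]

lemma RD.sgN_u2 (b : S) (o : Option ι) (a a' : ℤ) (j j' : Vr ι) :
    sgN L N (.u b o) (a • xm j + a' • xm j')
      = ((L (.x2 j) ^ a : Rˣ) : R) * ((L (.x2 j') ^ a' : Rˣ) : R) * N (.u b o) := by
  unfold sgN
  rw [sec_add, evL_add _ h.ll, sec_u_xm, sec_u_xm, evL_single, evL_single, mul_inv_rev,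
    ← zpow_neg, ← zpow_neg, Units.val_mul, Units.val_mul, mul_assoc, ← mul_assoc (N (.u b o)),
    h.of_ne_mul_zpow (i := 1) (lv21 j') (h.uu2 b o),
    h.of_ne_mul_zpow (i := 1) (lv21 j) (h.uu2 b o)]

lemma RD.sgN_w (a : ℤ) (j : Vr ι) :
    sgN L N .w (a • xm j) = N .w * ((L (.x2 j) ^ a : Rˣ) : R) := by
  unfold sgN
  rw [sec_w_xm, evL_single, ← zpow_neg, neg_neg,
    h.mul_of_ne_zpow (i := 0) (lv20 j) h.ww1]

lemma RD.sgN_w' (a : ℤ) (j : Vr ι) :
    sgN L N .w (a • xm' j) = N .w * ((L (.x2' j) ^ a : Rˣ) : R) := by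
  unfold sgN
  rw [sec_w_xm', evL_single, ← zpow_neg, neg_neg,
    h.mul_of_ne_zpow (i := 0) (lv2'0 j) h.ww1]

end sat

lemma units_intertwine {R : Type*} [Ring R] {A B : Rˣ} {M : R} (hh : (A : R) * M = M * B) :
    ((A⁻¹ : Rˣ) : R) * M = M * (B⁻¹ : Rˣ) := by
  have h1 : ((A⁻¹ : Rˣ) : R) * ((A : R) * M) * (B⁻¹ : Rˣ)
      = ((A⁻¹ : Rˣ) : R) * (M * B) * (B⁻¹ : Rˣ) := by rw [hh]
  rw [← mul_assoc, Units.inv_mul, one_mul, mul_assoc, mul_assoc, Units.mul_inv, mul_one] at h1
  exact h1.symm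

section sat2
variable {R : Type*} [Ring R] [CharP R 2] [Fintype ι] {rule : ρ → Rule S ι} {F : ℕ}
  {p : ZMod 3 → R} {L : Lt ι → Rˣ} {N : Sy S ι → R} (h : RD rule F p L N)
include h

lemma RD.act_eq (g : Sy S ι) (l : Lt ι) :
    (L l : R) * N g * ((L l)⁻¹ : Rˣ) = sgN L N g (act g l) := by
  have e1 : ∀ j : Vr ι, xm j = (1 : ℤ) • xm j := fun j => (one_zsmul _).symm
  have e1' : ∀ j : Vr ι, xm' j = (1 : ℤ) • xm' j := fun j => (one_zsmul _).symm
  have e2 : ∀ j : Vr ι, - xm j = (-1 : ℤ) • xm j := fun j => by simp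
  have e2' : ∀ j : Vr ι, - xm' j = (-1 : ℤ) • xm' j := fun j => by simp
  cases g with
  | v =>
    cases l with
    | x0 =>
      change _ = sgN L N .v (- xm .kap)
      rw [e2, h.sgN_v, h.mul_of_ne (i := 1) lv01 h.v1, zpow_neg_one, units_intertwine h.v0]
    | x0' =>
      change _ = sgN L N .v (- xm' .kap)
      rw [e2', h.sgN_v', h.mul_of_ne (i := 1) lv0'1 h.v1, zpow_neg_one, units_intertwine h.v0']
    | x1 j =>
      change _ = sgN L N .v (xm j)
      rw [e1, h.sgN_v, mul_assoc, h.of_ne_mul_inv (i := 0) (lv10 j) h.v2, zpow_one]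
    | x1' j =>
      change _ = sgN L N .v (xm' j)
      rw [e1', h.sgN_v', mul_assoc, h.of_ne_mul_inv (i := 0) (lv1'0 j) h.v2, zpow_one]
    | x2 j =>
      change _ = sgN L N .v 0
      rw [h.sgN_zero, mul_assoc, h.of_ne_mul_inv (i := 0) (lv20 j) h.v2,
        h.mul_of_ne (i := 1) (lv21 j) h.v1]
    | x2' j =>
      change _ = sgN L N .v 0
      rw [h.sgN_zero, mul_assoc, h.of_ne_mul_inv (i := 0) (lv2'0 j) h.v2,
        h.mul_of_ne (i := 1) (lv2'1 j) h.v1]
  | u a o =>
    cases l with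
    | x0 =>
      change _ = sgN L N (.u a o) 0
      rw [h.sgN_zero, mul_assoc, h.of_ne_mul_inv (i := 1) lv01 (h.uu2 a o),
        h.mul_of_ne (i := 2) lv02 (h.uu1 a o)]
    | x0' =>
      change _ = sgN L N (.u a o) 0
      rw [h.sgN_zero, mul_assoc, h.of_ne_mul_inv (i := 1) lv0'1 (h.uu2 a o),
        h.mul_of_ne (i := 2) lv0'2 (h.uu1 a o)]
    | x1 j =>
      change _ = sgN L N (.u a o) (- (tw o j) • xm j)
      rw [h.sgN_u, h.mul_of_ne (i := 2) (lv12 j) (h.uu1 a o), zpow_neg,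
        units_intertwine (h.u1 a o j)]
    | x1' j =>
      change _ = sgN L N (.u a o) (- (tw o j) • xm' j)
      rw [h.sgN_u', h.mul_of_ne (i := 2) (lv1'2 j) (h.uu1 a o), zpow_neg,
        units_intertwine (h.u1' a o j)]
    | x2 j =>
      change _ = sgN L N (.u a o) (xm j)
      rw [e1, h.sgN_u, mul_assoc, h.of_ne_mul_inv (i := 1) (lv21 j) (h.uu2 a o), zpow_one]
    | x2' j =>
      change _ = sgN L N (.u a o) (xm' j)
      rw [e1', h.sgN_u', mul_assoc, h.of_ne_mul_inv (i := 1) (lv2'1 j) (h.uu2 a o), zpow_one]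
  | w =>
    cases l with
    | x0 =>
      change _ = sgN L N .w (xm .kap3)
      rw [e1, h.sgN_w, mul_assoc, h.of_ne_mul_inv (i := 2) lv02 h.ww2, h.w0, zpow_one]
    | x0' =>
      change _ = sgN L N .w (xm' .kap3)
      rw [e1', h.sgN_w', mul_assoc, h.of_ne_mul_inv (i := 2) lv0'2 h.ww2, h.w0', zpow_one]
    | x1 j =>
      change _ = sgN L N .w 0
      rw [h.sgN_zero, mul_assoc, h.of_ne_mul_inv (i := 2) (lv12 j) h.ww2,
        h.mul_of_ne (i := 0) (lv10 j) h.ww1]
    | x1' j =>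
      change _ = sgN L N .w 0
      rw [h.sgN_zero, mul_assoc, h.of_ne_mul_inv (i := 2) (lv1'2 j) h.ww2,
        h.mul_of_ne (i := 0) (lv1'0 j) h.ww1]
    | x2 j =>
      change _ = sgN L N .w (- xm j)
      rw [e2, h.sgN_w, h.mul_of_ne (i := 0) (lv20 j) h.ww1, zpow_neg_one]
    | x2' j =>
      change _ = sgN L N .w (- xm' j)
      rw [e2', h.sgN_w', h.mul_of_ne (i := 0) (lv2'0 j) h.ww1, zpow_neg_one]

lemma RD.bs_eq (g : Sy S ι) (j : Vr ι) : sgN L N g (xm' j) = N g + sgN L N g (xm j) := by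
  have e1 : xm j = (1 : ℤ) • xm j := (one_zsmul _).symm
  have e1' : xm' j = (1 : ℤ) • xm' j := (one_zsmul _).symm
  rw [e1, e1']
  cases g with
  | v =>
    rw [h.sgN_v, h.sgN_v', zpow_one, zpow_one]
    have := congrArg (fun x => x * N .v) (h.b1 j)
    simp only [add_mul, mul_assoc, h.v1] at this
    exact this
  | u a o =>
    rw [h.sgN_u, h.sgN_u', zpow_one, zpow_one]
    have := congrArg (fun x => x * N (.u a o)) (h.b2 j)
    simp only [add_mul, mul_assoc, h.uu1 a o] at this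
    exact this
  | w =>
    rw [h.sgN_w, h.sgN_w', zpow_one, zpow_one]
    have := congrArg (fun x => N .w * x) (h.b2 j)
    simp only [mul_add, (h.lp _ _).eq] at this
    simp only [← mul_assoc, h.ww2] at this
    exact this

lemma RD.conj_fix {α β : Fin 4} {δ : Rˣ} {M : R} (hM : M * M = 0) (h1 : (δ : R) * M = M)
    (h2 : M * (δ : R) = M) : sc δ * tv α β M = tv α β M * sc δ := by
  have h3 : (δ : R) * M * ((δ⁻¹ : Rˣ) : R) = M := by
    rw [h1]
    conv_lhs => rw [← h2]
    rw [mul_assoc, Units.mul_inv, mul_one]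
  have h4 := sc_conj δ α β hM
  rw [h3] at h4
  exact mul_inv_eq_iff_eq_mul.1 h4

omit h in
lemma lev_next (J : Junc S ι) : J.snd.lev = J.fst.lev + 1 := by
  cases J <;> rfl

omit h in
lemma bal_lvl (J : Junc S ι) : lvl J.bal = J.snd.lev := by
  cases J <;> rfl

theorem RD.sat : Sat rule (phi L N) := by
  intro r
  cases r with
  | comm l l' =>
    change sc (L l) * sc (L l') = sc (L l') * sc (L l)
    rw [← map_mul, (h.ll l l').eq, map_mul]
  | inv g α β => exact tv_mul_self α β (N g)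
  | act g α β l =>
    change sc (L l) * tv α β (N g) * (sc (L l))⁻¹ = sg (phi L N) g (act g l) α β
    rw [h.sg_eq, sc_conj _ _ _ (h.sq g), h.act_eq]
  | bs g α β j =>
    change sg (phi L N) g (xm' j) α β = tv α β (N g) * sg (phi L N) g (xm j) α β
    rw [h.sg_eq, h.sg_eq, h.bs_eq]
    have a1 := h.arr g
    have a2 := h.sgN_arr g (xm j)
    exact (tv_mul (a1.mul_same h.pp a1) (a2.mul_same h.pp a2) (a1.mul_same h.pp a2)
      (a2.mul_same h.pp a1)).symm
  | k3 α β =>
    change sg (phi L N) .w (xm .kap3) α β = sg (phi L N) .w ((3 : ℤ) • xm .kap) α β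
    have e1 : (xm .kap3 : Mon (Vr ι)) = (1 : ℤ) • xm .kap3 := (one_zsmul _).symm
    rw [h.sg_eq, h.sg_eq, e1, h.sgN_w, h.sgN_w, h.k3, zpow_one]
    rfl
  | same g g' α β α' β' n =>
    change (if g.lev = g'.lev then _ else ((1 : (Matrix (Fin 4) (Fin 4) R)ˣ), 1)).1
      = (if g.lev = g'.lev then _ else ((1 : (Matrix (Fin 4) (Fin 4) R)ˣ), 1)).2
    split_ifs with hlev
    · change tv α β (N g) * sg (phi L N) g' _ α' β' = sg (phi L N) g' _ α' β' * tv α β (N g)
      rw [h.sg_eq]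
      have a1 := h.arr g
      have a2 := h.sgN_arr g' (fun j => (((n j : ℕ) : ℤ) - 1, 0))
      rw [← hlev] at a2
      exact tv_commute (a1.mul_same h.pp a1) (a2.mul_same h.pp a2) (a1.mul_same h.pp a2)
        (a2.mul_same h.pp a1)
    · rfl
  | adj J α β β' γ =>
    change (if β = β' then ((1 : (Matrix (Fin 4) (Fin 4) R)ˣ), 1) else _).1
      = (if β = β' then ((1 : (Matrix (Fin 4) (Fin 4) R)ˣ), 1) else _).2
    split_ifs with hb
    · rfl
    · change sg (phi L N) J.fst J.mn α β * tv β' γ (N J.snd)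
        = tv β' γ (N J.snd) * sg (phi L N) J.fst J.mn α β
      rw [h.sg_eq]
      have a1 := h.sgN_arr J.fst J.mn
      have a2 := h.arr J.snd
      rw [lev_next J] at a2
      have := tv_commutator_ne (α := α) (γ := γ) hb (a1.mul_same h.pp a1) (a2.mul_same h.pp a2)
        (a1.mul_next h.pp a2)
      exact (commutatorElement_eq_one_iff_commute.1 this).eq
  | indep J α β β' γ =>
    change ⁅sg (phi L N) J.fst J.mn α β, tv β γ (N J.snd)⁆
      = ⁅sg (phi L N) J.fst J.mn α β', tv β' γ (N J.snd)⁆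
    rw [h.sg_eq, h.sg_eq]
    have a1 := h.sgN_arr J.fst J.mn
    have a2 := h.arr J.snd
    rw [lev_next J] at a2
    rw [tv_commutator (a1.mul_same h.pp a1) (a2.mul_same h.pp a2) (a1.mul_next h.pp a2),
      tv_commutator (a1.mul_same h.pp a1) (a2.mul_same h.pp a2) (a1.mul_next h.pp a2)]
  | bal J α β γ =>
    change sc (L J.bal) * ⁅sg (phi L N) J.fst J.mn α β, tv β γ (N J.snd)⁆
      = ⁅sg (phi L N) J.fst J.mn α β, tv β γ (N J.snd)⁆ * sc (L J.bal)
    rw [h.sg_eq]
    have a1 := h.sgN_arr J.fst J.mn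
    have a2 := h.arr J.snd
    have b2 := a2
    rw [lev_next J] at a2
    rw [tv_commutator (a1.mul_same h.pp a1) (a2.mul_same h.pp a2) (a1.mul_next h.pp a2)]
    apply h.conj_fix
    · rw [mul_assoc, ← mul_assoc (sgN L N J.fst J.mn), a1.mul_next h.pp a2, zero_mul, mul_zero]
    · rw [← mul_assoc, h.mul_of_ne (i := J.snd.lev + 1) (by rw [bal_lvl]; exact z3_ne1 _) b2.1]
    · rw [mul_assoc, h.of_ne_mul (i := J.fst.lev) (by
        rw [bal_lvl, lev_next]; exact (z3_ne1 _).symm) a1.2]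
  | ptype a s α β γ =>
    change ⁅tv α β (N .v), tv β γ (N (.u a none))⁆ = ⁅tv α β (N .v), tv β γ (N (.u a (some s)))⁆
    have a1 := h.arr .v
    have a2 := h.arr (.u a none)
    have a3 := h.arr (.u a (some s))
    rw [tv_commutator (a1.mul_same h.pp a1) (a2.mul_same h.pp a2) (a1.mul_next h.pp a2),
      tv_commutator (a1.mul_same h.pp a1) (a3.mul_same h.pp a3) (a1.mul_next h.pp a3), h.pt]
  | rule i d α β γ =>
    have a1 := h.arr .v
    have a2 := fun a o => h.arr (.u a o)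
    have a3 := h.arr .w
    have a4 := fun a o m => h.sgN_arr (.u a o) m
    have cv : ∀ (M : R), IsArr p 1 M → ⁅tv α β (N .v), tv β γ M⁆ = tv α γ (M * N .v) := fun M hM =>
      tv_commutator (a1.mul_same h.pp a1) (hM.mul_same h.pp hM) (a1.mul_next h.pp hM)
    have cw : ∀ (M : R), IsArr p 1 M → ⁅tv α β M, tv β γ (N .w)⁆ = tv α γ (N .w * M) := fun M hM =>
      tv_commutator (hM.mul_same h.pp hM) (a3.mul_same h.pp a3) (hM.mul_next h.pp a3)
    have dms : ∀ a o s (d : Fin 16), sgN L N (.u a o) (dm (.st s) d)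
        = (dopL L s d : Rˣ) * N (.u a o) := by
      intro a o s d
      unfold dopL
      by_cases hd : d = 8
      · have e : (dm (.st s) d : Mon (Vr ι)) = (15 : ℤ) • xm' (.st s) := by
          unfold dm dexp xm'
          rw [if_pos hd, ← Pi.single_smul]
          simp
        rw [if_pos hd, e, h.sgN_u']
        rfl
      · have e : (dm (.st s) d : Mon (Vr ι)) = ((d : ℕ) : ℤ) • xm (.st s) := by
          unfold dm dexp xm
          rw [if_neg hd, ← Pi.single_smul]
          simp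
        rw [if_neg hd, e, h.sgN_u, zpow_natCast]
    unfold sides
    cases hr : rule i with
    | jump a b k n =>
      simp only [hr]
      rw [h.sg_eq]
      change ⁅tv α β (N .v), tv β γ (N (.u a none))⁆ = ⁅tv α β (N .v), tv β γ _⁆
      rw [cv _ (a2 a none), cv _ (a4 _ _ _), h.sgN_u2, h.jump i a b k n hr, zpow_natCast,
        zpow_natCast, Units.val_pow_eq_pow_val, Units.val_pow_eq_pow_val]
    | kill a =>
      simp only [hr]
      change ⁅tv α β (N .v), tv β γ (N (.u a none))⁆ = 1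
      rw [cv _ (a2 a none), h.kill i a hr, zero_mul, tv_zero]
    | push a s g b =>
      simp only [hr]
      rw [h.sg_eq]
      change ⁅tv α β (N (.u a none)), tv β γ (N .w)⁆ = ⁅tv α β _, tv β γ (N .w)⁆
      rw [cw _ (a2 a none), cw _ (a4 _ _ _), dms, h.push i a s g b hr]
    | pop a s f =>
      simp only [hr]
      rw [h.sg_eq]
      cases hd : symb d with
      | some g =>
        simp only
        change ⁅tv α β _, tv β γ (N .w)⁆ = ⁅tv α β (N (.u (f (some g)) none)), tv β γ (N .w)⁆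
        rw [cw _ (a2 _ none), cw _ (a4 _ _ _), dms, symb_eq_some hd, h.popc i a s f hr g]
      | none =>
        simp only
        rw [h.sg_eq]
        change ⁅tv α β _, tv β γ (N .w)⁆ = ⁅tv α β _, tv β γ (N .w)⁆
        rw [cw _ (a4 _ _ _), cw _ (a4 _ _ _), dms, dms, h.popn i a s f hr d hd]

end sat2

/-! ### the homomorphism from the presented group -/

section hom
variable {G G' : Type*} [Group G] [Group G'] [Fintype ι]

lemma ev_comp (f : G →* G') (φ : Gn S ι → G) (d : Lt ι → ℤ) :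
    ev (fun g => f (φ g)) d = f (ev φ d) := by
  unfold ev
  rw [map_list_prod, List.map_map]
  congr 1
  refine List.map_congr_left fun l _ => ?_
  simp

lemma sg_comp (f : G →* G') (φ : Gn S ι → G) (g : Sy S ι) (m : Mon (Vr ι)) (α β : Fin 4) :
    sg (fun g => f (φ g)) g m α β = f (sg φ g m α β) := by
  unfold sg
  rw [ev_comp]
  simp

lemma sides_comp (rule : ρ → Rule S ι) (f : G →* G') (φ : Gn S ι → G) (r : RelIx S ι ρ) :
    (sides rule (fun g => f (φ g)) r) = (f (sides rule φ r).1, f (sides rule φ r).2) := by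
  cases r with
  | comm l l' => simp [sides]
  | inv g α β => simp [sides]
  | act g α β l => simp [sides, sg_comp]
  | bs g α β j => simp [sides, sg_comp]
  | k3 α β => simp [sides, sg_comp]
  | same g g' α β α' β' n =>
    by_cases hg : g.lev = g'.lev
    · simp [sides, hg, sg_comp]
    · simp [sides, hg]
  | adj J α β β' γ =>
    by_cases hb : β = β'
    · simp [sides, hb]
    · simp [sides, hb, sg_comp]
  | indep J α β β' γ => simp [sides, sg_comp, map_commutatorElement]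
  | bal J α β γ => simp [sides, sg_comp, map_commutatorElement]
  | ptype a s α β γ => simp [sides, map_commutatorElement]
  | rule i d α β γ =>
    cases hr : rule i with
    | jump a b k n => simp [sides, hr, sg_comp, map_commutatorElement]
    | kill a => simp [sides, hr, map_commutatorElement]
    | push a s g b => simp [sides, hr, sg_comp, map_commutatorElement]
    | pop a s f =>
      cases hd : symb d with
      | some g => simp [sides, hr, hd, sg_comp, map_commutatorElement]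
      | none => simp [sides, hr, hd, sg_comp, map_commutatorElement]

theorem low_exists_hom (rule : ρ → Rule S ι) (F : ℕ) (φ : Gn S ι → G) (hφ : Sat rule φ)
    (hF : φ (.lt (.x2 .nu)) ^ F = 1) :
    ∃ f : Grp rule F →* G, ∀ g, f (PresentedGroup.of g) = φ g := by
  have h : ∀ r ∈ insert (nuRel S ι F) (relators rule), FreeGroup.lift φ r = 1 := by
    intro r hr
    rcases hr with rfl | ⟨r, rfl⟩
    · unfold nuRel
      rw [map_pow, FreeGroup.lift_apply_of, hF]
    · have h1 := sides_comp rule (FreeGroup.lift φ) FreeGroup.of r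
      have h2 : (fun g => FreeGroup.lift φ (FreeGroup.of g)) = φ := by
        funext g; exact FreeGroup.lift_apply_of
      rw [h2] at h1
      have h3 := hφ r
      rw [h1] at h3
      simp only at h3
      simp only [map_mul, map_inv, h3, mul_inv_cancel]
  exact ⟨PresentedGroup.toGroup h, fun g => PresentedGroup.toGroup.of h⟩

end hom

/-! ### unbounded derived length -/

section der
variable {R : Type*} [Ring R] [CharP R 2]

/-- products of arrows -/
def Pr (a : ℕ → R) (i : ℕ) : ℕ → R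
  | 0 => 1
  | m + 1 => a (i + m) * Pr a i m

lemma Pr_add (a : ℕ → R) (i m m' : ℕ) : Pr a i (m + m') = Pr a (i + m) m' * Pr a i m := by
  induction m' with
  | zero => simp [Pr]
  | succ m' ih => rw [← add_assoc, Pr, ih, Pr, mul_assoc, add_assoc]

lemma exists_third {α β : Fin 4} : ∃ γ : Fin 4, α ≠ γ ∧ γ ≠ β := by
  revert α β; decide

lemma der_mem {Γ : Type*} [Group Γ] (f : Γ →* (Matrix (Fin 4) (Fin 4) R)ˣ) (a : ℕ → R)
    (ha : ∀ i α β, ∃ g, f g = tv α β (a i)) (d : ℕ) :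
    ∀ i α β, α ≠ β → ∃ g ∈ derivedSeries Γ d, f g = tv α β (Pr a i (2 ^ d)) := by
  induction d with
  | zero =>
    intro i α β _
    obtain ⟨g, hg⟩ := ha i α β
    refine ⟨g, by simp, ?_⟩
    rw [hg]; simp [Pr]
  | succ d ih =>
    intro i α β hab
    obtain ⟨γ, h1, h2⟩ := exists_third (α := α) (β := β)
    obtain ⟨g1, hg1, e1⟩ := ih i α γ h1
    obtain ⟨g2, hg2, e2⟩ := ih (i + 2 ^ d) γ β h2
    refine ⟨⁅g1, g2⁆, ?_, ?_⟩
    · rw [derivedSeries_succ]
      exact Subgroup.commutator_mem_commutator hg1 hg2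
    · rw [map_commutatorElement, e1, e2, tv_commutator' h1 h2 hab, ← Pr_add]
      congr 2
      rw [pow_succ]; ring

/-- the abstract lower bound -/
theorem RD.derived_ne [Fintype ι] {rule : ρ → Rule S ι} {F : ℕ}
    {p : ZMod 3 → R} {L : Lt ι → Rˣ} {N : Sy S ι → R} (h : RD rule F p L N) (d : ℕ) (a₀ : S)
    (D : Rˣ) (hD : D ∈ Subgroup.closure (Set.range L))
    (hne : (N .w * (D * N (.u a₀ none) * ((D⁻¹ : Rˣ) : R)) * N .v) ^ (2 ^ d) ≠ 0) :
    derivedSeries (Grp rule F) d ≠ ⊥ := by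
  intro hd
  obtain ⟨f, hf⟩ := low_exists_hom rule F (phi L N) h.sat (by
    change sc (L (.x2 .nu)) ^ F = 1
    rw [← map_pow, h.nu, map_one])
  have hτf : ∃ g, f g = sc D := by
    have h1 : Subgroup.closure (Set.range L) ≤ f.range.comap sc := by
      rw [Subgroup.closure_le]
      rintro _ ⟨l, rfl⟩
      exact ⟨PresentedGroup.of (.lt l), hf _⟩
    exact h1 hD
  obtain ⟨gτ, hgτ⟩ := hτf
  let a : ℕ → R := fun i =>
    if i % 3 = 0 then N .v
    else if i % 3 = 1 then D * N (.u a₀ none) * ((D⁻¹ : Rˣ) : R)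
    else N .w
  have ha : ∀ i α β, ∃ g, f g = tv α β (a i) := by
    intro i α β
    by_cases h0 : i % 3 = 0
    · refine ⟨PresentedGroup.of (.sy .v α β), ?_⟩
      rw [hf]
      simp only [a, if_pos h0]
      rfl
    · by_cases h1 : i % 3 = 1
      · refine ⟨gτ * PresentedGroup.of (.sy (.u a₀ none) α β) * gτ⁻¹, ?_⟩
        rw [map_mul, map_mul, map_inv, hgτ, hf]
        simp only [a, if_neg h0, if_pos h1]
        change sc D * tv α β (N (.u a₀ none)) * _ = _
        rw [sc_conj _ _ _ (h.sq _)]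
      · refine ⟨PresentedGroup.of (.sy .w α β), ?_⟩
        rw [hf]
        simp only [a, if_neg h0, if_neg h1]
        rfl
  have hA : ∀ k, Pr a 0 (3 * k)
      = (N .w * (D * N (.u a₀ none) * ((D⁻¹ : Rˣ) : R)) * N .v) ^ k := by
    intro k
    induction k with
    | zero => rw [mul_zero, pow_zero]; rfl
    | succ k ih =>
      rw [show 3 * (k + 1) = 3 * k + 1 + 1 + 1 by ring]
      simp only [Pr]
      rw [ih, pow_succ']
      have a0 : a (0 + 3 * k) = N .v := by
        simp only [a]; rw [if_pos (by omega)]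
      have a1 : a (0 + (3 * k + 1)) = D * N (.u a₀ none) * ((D⁻¹ : Rˣ) : R) := by
        simp only [a]; rw [if_neg (by omega), if_pos (by omega)]
      have a2 : a (0 + (3 * k + 1 + 1)) = N .w := by
        simp only [a]; rw [if_neg (by omega), if_neg (by omega)]
      rw [a0, a1, a2]
      simp only [mul_assoc]
  have hne2 : Pr a 0 (3 * 2 ^ d) ≠ 0 := by
    rw [hA]; exact hne
  have hne3 : Pr a 0 (2 ^ d) ≠ 0 := by
    intro h0
    apply hne2
    rw [show 3 * 2 ^ d = 2 ^ d + 2 * 2 ^ d by ring, Pr_add, h0, mul_zero]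
  obtain ⟨g, hg, eg⟩ := der_mem f a ha d 0 0 1 (by decide)
  rw [hd, Subgroup.mem_bot] at hg
  rw [hg, map_one] at eg
  exact hne3 (tv_eq_one (by decide) eg.symm)

end der

end Pool.Agent.SolIndex.Lw
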