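import Mathlib
import Pool.Agent.SolIndex.LowRel

/-!
The lower part: concrete representation data and the theorem `low_core`.
-/

set_option autoImplicit false
set_option linter.unusedSectionVars false

namespace Pool.Agent.SolIndex.Lw

open Turing.PartrecToTM2 (Γ')
open scoped commutatorElement
open Pool.Agent.SolIndex.Rep

variable {ι S ρ : Type} [DecidableEq ι]

/-! ### digit sequences and words -/

/-- digit sequences -/
abbrev SQ : Type := Dig.Sq (2 ^ 4) 8

/-- change of type of digits -/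
def fc (d : Fin 16) : Fin (2 ^ 4) := Fin.cast (by norm_num) d

/-- the symbol of a digit -/
def sd (d : Fin (2 ^ 4)) : Option Γ' := symb (Fin.cast (by norm_num) d)

lemma sd_fc (d : Fin 16) : sd (fc d) = symb d := rfl

lemma sd_tl (c : Fin (2 ^ 4)) (hc : Dig.IsTl (2 ^ 4) 8 c) : sd c = none := by
  have h : ∀ c : Fin (2 ^ 4), (c : ℕ) = 0 ∨ (c : ℕ) = 2 ^ 4 - 1 ∨ (c : ℕ) = 8 → sd c = none := by
    decide
  exact h c hc

lemma exists_bottom (u : SQ) : ∃ i, sd (u.get i) = none := by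
  obtain ⟨N, c, hc, h⟩ := u.2
  refine ⟨N, ?_⟩
  have h1 : u.get N = c := h N le_rfl
  rw [h1]
  exact sd_tl c hc

/-- the word of symbols on top of a digit sequence -/
def pre (u : SQ) : List Γ' :=
  (List.range (Nat.find (exists_bottom u))).map fun i => (sd (u.get i)).getD .cons

lemma pre_cons_symb (d : Fin 16) (γ : Γ') (u : SQ) (h : symb d = some γ) :
    pre (Dig.Sq.cons (fc d) u) = γ :: pre u := by
  unfold pre
  have h1 : Nat.find (exists_bottom (Dig.Sq.cons (fc d) u)) = Nat.find (exists_bottom u) + 1 := by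
    apply Nat.find_comp_succ
    rw [Dig.Sq.get_cons_zero, sd_fc, h]
    simp
  rw [h1, List.range_succ_eq_map, List.map_cons, List.map_map]
  congr 1
  rw [Dig.Sq.get_cons_zero, sd_fc, h]
  rfl

lemma pre_cons_bot (d : Fin 16) (u : SQ) (h : symb d = none) :
    pre (Dig.Sq.cons (fc d) u) = [] := by
  unfold pre
  have h1 : Nat.find (exists_bottom (Dig.Sq.cons (fc d) u)) = 0 := by
    rw [Nat.find_eq_zero, Dig.Sq.get_cons_zero, sd_fc, h]
  rw [h1]; rfl

/-- the zero sequence -/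
def sq0 : SQ := Dig.Sq.const ⟨0, by norm_num⟩ (Or.inl rfl)

lemma pre_sq0 : pre sq0 = [] := by
  unfold pre
  have h1 : Nat.find (exists_bottom sq0) = 0 := by
    rw [Nat.find_eq_zero]
    rfl
  rw [h1]; rfl

/-- the sequence of a word -/
def wd : List Γ' → SQ
  | [] => sq0
  | γ :: l => Dig.Sq.cons (fc (dg γ)) (wd l)

lemma pre_wd (l : List Γ') : pre (wd l) = l := by
  induction l with
  | nil => exact pre_sq0
  | cons γ l ih =>
    change pre (Dig.Sq.cons (fc (dg γ)) (wd l)) = _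
    rw [pre_cons_symb _ _ _ (symb_dg γ), ih]

/-! ### functionals of potentials -/

section lam
variable (K : Type) [Field K] [CharP K 2]

/-- the space -/
abbrev V1 (ι : Type) (K : Type) [Field K] : Type := (ι → SQ) →₀ K

variable {K}

/-- linear functional of a potential -/
noncomputable def lam (Λ : S → (ι → List Γ') → K) (a : S) : V1 ι K →ₗ[K] K :=
  Finsupp.linearCombination K (fun u : ι → SQ => Λ a (fun s => pre (u s)))

lemma lam_single (Λ : S → (ι → List Γ') → K) (a : S) (u : ι → SQ) (c : K) :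
    lam Λ a (Finsupp.single u c) = c * Λ a (fun s => pre (u s)) := by
  unfold lam; rw [Finsupp.linearCombination_single, smul_eq_mul]

/-- put the digit `d` on top in the slot `s` -/
noncomputable def C1 (K : Type) [Field K] [CharP K 2] (s : ι) (d : Fin 16) :
    Module.End K (V1 ι K) := Dig.CC K s (fc d)

lemma C1_single (s : ι) (d : Fin 16) (u : ι → SQ) (c : K) :
    C1 K s d (Finsupp.single u c)
      = Finsupp.single (Function.update u s (Dig.Sq.cons (fc d) (u s))) c :=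
  Dig.CC_single s (fc d) u c

lemma pre_update_symb (u : ι → SQ) (s : ι) (d : Fin 16) (γ : Γ') (h : symb d = some γ) :
    (fun t => pre (Function.update u s (Dig.Sq.cons (fc d) (u s)) t))
      = Function.update (fun t => pre (u t)) s (γ :: pre (u s)) := by
  funext t
  by_cases ht : t = s
  · subst ht
    rw [Function.update_self, Function.update_self, pre_cons_symb _ _ _ h]
  · rw [Function.update_of_ne ht, Function.update_of_ne ht]

lemma pre_update_bot (u : ι → SQ) (s : ι) (d : Fin 16) (h : symb d = none) :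
    (fun t => pre (Function.update u s (Dig.Sq.cons (fc d) (u s)) t)) s = [] := by
  simp only [Function.update_self]
  exact pre_cons_bot _ _ h

variable {rule : ρ → Rule S ι} {κ ν : K} {Λ : S → (ι → List Γ') → K}

lemma lam_jump (hP : Pot rule κ ν Λ) {i a b k n} (h : rule i = .jump a b k n) :
    lam Λ a = (κ ^ k * ν ^ n) • lam Λ b := by
  refine Finsupp.lhom_ext fun u c => ?_
  rw [LinearMap.smul_apply, lam_single, lam_single, hP.jump i a b k n h, smul_eq_mul]
  ring

lemma lam_kill (hP : Pot rule κ ν Λ) {i a} (h : rule i = .kill a) : lam Λ a = 0 := by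
  refine Finsupp.lhom_ext fun u c => ?_
  rw [lam_single, hP.kill i a h, mul_zero]; rfl

lemma lam_push (hP : Pot rule κ ν Λ) {i a s γ b} (h : rule i = .push a s γ b) :
    lam Λ a = lam Λ b ∘ₗ C1 K s (dg γ) := by
  refine Finsupp.lhom_ext fun u c => ?_
  rw [LinearMap.comp_apply, C1_single, lam_single, lam_single,
    pre_update_symb u s _ γ (symb_dg γ), hP.push i a s γ b h]

lemma lam_popc (hP : Pot rule κ ν Λ) {i a s f} (h : rule i = .pop a s f) (γ : Γ') :
    lam Λ a ∘ₗ C1 K s (dg γ) = lam Λ (f (some γ)) := by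
  refine Finsupp.lhom_ext fun u c => ?_
  rw [LinearMap.comp_apply, C1_single, lam_single, lam_single,
    pre_update_symb u s _ γ (symb_dg γ), hP.popc i a s f h _ γ (pre (u s)) (by simp)]
  congr 2
  simp

lemma lam_popn (hP : Pot rule κ ν Λ) {i a s f} (h : rule i = .pop a s f) (d : Fin 16)
    (hd : symb d = none) :
    lam Λ a ∘ₗ C1 K s d = lam Λ (f none) ∘ₗ C1 K s d := by
  refine Finsupp.lhom_ext fun u c => ?_
  rw [LinearMap.comp_apply, LinearMap.comp_apply, C1_single, lam_single, lam_single,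
    hP.popn i a s f h _ (pre_update_bot u s d hd)]

end lam

/-! ### the operators of the variables -/

section opr
variable {K : Type} [Field K] [CharP K 2]

/-- the variable `s` -/
noncomputable def X1 (K : Type) [Field K] [CharP K 2] (s : ι) : (Module.End K (V1 ι K))ˣ :=
  Dig.XX 4 (by norm_num) (by norm_num) K s

/-- one plus the variable `s` -/
noncomputable def Y1 (K : Type) [Field K] [CharP K 2] (s : ι) : (Module.End K (V1 ι K))ˣ :=
  Dig.YY 4 (by norm_num) (by norm_num) K s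

lemma Y1_val (s : ι) : (Y1 K s : Module.End K (V1 ι K)) = 1 + (X1 K s : Module.End K (V1 ι K)) :=
  rfl

lemma C1_zero (s : ι) : C1 K s 0 = Dig.CC K s (Dig.zd 4) := rfl

lemma C1_X (s : ι) : C1 K s 0 * (X1 K s : Module.End K (V1 ι K))
    = (X1 K s : Module.End K (V1 ι K)) ^ 16 * C1 K s 0 :=
  Dig.CC_XX 4 (by norm_num) (by norm_num) s

lemma C1_Y (s : ι) : C1 K s 0 * (Y1 K s : Module.End K (V1 ι K))
    = (Y1 K s : Module.End K (V1 ι K)) ^ 16 * C1 K s 0 :=
  Dig.CC_YY 4 (by norm_num) (by norm_num) s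

lemma C1_X_ne {s t : ι} (h : s ≠ t) (d : Fin 16) :
    Commute (C1 K s d) (X1 K t : Module.End K (V1 ι K)) :=
  Dig.CC_XX_of_ne 4 (by norm_num) (by norm_num) h (fc d)

lemma C1_Y_ne {s t : ι} (h : s ≠ t) (d : Fin 16) :
    Commute (C1 K s d) (Y1 K t : Module.End K (V1 ι K)) :=
  Dig.CC_YY_of_ne 4 (by norm_num) (by norm_num) h (fc d)

lemma X1_pow_C1 (s : ι) (d : Fin 16) (hd : d ≠ 8) :
    (X1 K s : Module.End K (V1 ι K)) ^ (d : ℕ) * C1 K s 0 = C1 K s d :=
  Dig.XX_pow_CC 4 (by norm_num) (by norm_num) s (fc d) (by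
    intro h; apply hd; exact Fin.ext h)

lemma Y1_pow_C1 (s : ι) :
    (Y1 K s : Module.End K (V1 ι K)) ^ 15 * C1 K s 0 = C1 K s 8 :=
  Dig.YY_pow_CC 4 (by norm_num) (by norm_num) s (fc 8) rfl

/-- scalars -/
noncomputable def scal (ι : Type) [DecidableEq ι] (K : Type) [Field K] :
    Kˣ →* (Module.End K (V1 ι K))ˣ :=
  Units.map ((algebraMap K (Module.End K (V1 ι K))) : K →* _)

lemma scal_val (c : Kˣ) : (scal ι K c : Module.End K (V1 ι K)) = (c : K) • 1 :=
  Algebra.algebraMap_eq_smul_one _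

lemma scal_comm (c : Kˣ) (A : Module.End K (V1 ι K)) :
    Commute (scal ι K c : Module.End K (V1 ι K)) A := Algebra.commutes _ _

/-- scalars of the blocks -/
structure Scl (K : Type) [Field K] (n : ℕ) where
  κ : ℕ → Kˣ
  κ' : ℕ → Kˣ
  ν : Kˣ
  ν' : Kˣ
  hκ : ∀ j, κ (j + 1) = κ j ^ 3
  hκ' : ∀ j ≤ n, (κ' j : K) = 1 + κ j
  hν' : (ν' : K) = 1 + ν

variable {n : ℕ} (c : Scl K n)

/-- the variables on the block `b` -/
noncomputable def Tb (c : Scl K n) (b : ℕ) : Vr ι → (Module.End K (V1 ι K))ˣ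
  | .st s => X1 K s
  | .kap => scal ι K (c.κ b)
  | .kap3 => scal ι K (c.κ (b + 1))
  | .nu => scal ι K c.ν

/-- one plus the variables on the block `b` -/
noncomputable def Tb' (c : Scl K n) (b : ℕ) : Vr ι → (Module.End K (V1 ι K))ˣ
  | .st s => Y1 K s
  | .kap => scal ι K (c.κ' b)
  | .kap3 => scal ι K (c.κ' (b + 1))
  | .nu => scal ι K c.ν'

lemma Tb'_val {b : ℕ} (hb : b < n) (j : Vr ι) :
    (Tb' c b j : Module.End K (V1 ι K)) = 1 + (Tb c b j : Module.End K (V1 ι K)) := by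
  cases j with
  | st s => exact Y1_val s
  | kap =>
    change (scal ι K (c.κ' b) : Module.End K (V1 ι K)) = 1 + (scal ι K (c.κ b) : Module.End K _)
    rw [scal_val, scal_val, c.hκ' b hb.le, add_smul, one_smul]
  | kap3 =>
    change (scal ι K (c.κ' (b + 1)) : Module.End K (V1 ι K))
      = 1 + (scal ι K (c.κ (b + 1)) : Module.End K _)
    rw [scal_val, scal_val, c.hκ' (b + 1) hb, add_smul, one_smul]
  | nu =>
    change (scal ι K c.ν' : Module.End K (V1 ι K)) = 1 + (scal ι K c.ν : Module.End K _)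
    rw [scal_val, scal_val, c.hν', add_smul, one_smul]

lemma scal_commute (x : Kˣ) (u : (Module.End K (V1 ι K))ˣ) : Commute (scal ι K x) u :=
  Units.ext (scal_comm x (u : Module.End K (V1 ι K))).eq

lemma Tb_comm (b : ℕ) (j j' : Vr ι) : Commute (Tb c b j) (Tb c b j') := by
  cases j <;> cases j' <;>
  first
    | exact scal_commute _ _
    | exact (scal_commute _ _).symm
    | exact Dig.XX_comm 4 (by norm_num) (by norm_num) _ _

lemma Tb_comm' (b : ℕ) (j j' : Vr ι) : Commute (Tb c b j) (Tb' c b j') := by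
  cases j <;> cases j' <;>
  first
    | exact scal_commute _ _
    | exact (scal_commute _ _).symm
    | exact Dig.XX_YY_comm 4 (by norm_num) (by norm_num) _ _

lemma Tb'_comm (b : ℕ) (j j' : Vr ι) : Commute (Tb' c b j) (Tb' c b j') := by
  cases j <;> cases j' <;>
  first
    | exact scal_commute _ _
    | exact (scal_commute _ _).symm
    | exact Dig.YY_comm 4 (by norm_num) (by norm_num) _ _

/-- the operator `Φ` of a type -/
noncomputable def Ph (K : Type) [Field K] [CharP K 2] : Option ι → Module.End K (V1 ι K)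
  | none => 1
  | some s => C1 K s 0

lemma Ph_Tb (b : ℕ) (o : Option ι) (j : Vr ι) :
    Ph K o * (Tb c b j : Module.End K (V1 ι K))
      = ((Tb c b j ^ tw o j : (Module.End K (V1 ι K))ˣ) : Module.End K (V1 ι K)) * Ph K o := by
  cases o with
  | none =>
    have : tw (none : Option ι) j = 1 := rfl
    rw [this, zpow_one]
    change 1 * _ = _ * 1
    rw [one_mul, mul_one]
  | some s =>
    cases j with
    | st t =>
      by_cases h : s = t
      · subst h
        have : tw (some s) (.st s) = 16 := by simp [tw]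
        rw [this]
        exact C1_X s
      · have : tw (some s) (.st t) = 1 := by simp [tw, h]
        rw [this, zpow_one]
        exact (C1_X_ne h 0).eq
    | kap => exact (scal_comm _ _).symm.eq
    | kap3 => exact (scal_comm _ _).symm.eq
    | nu => exact (scal_comm _ _).symm.eq

lemma Ph_Tb' (b : ℕ) (o : Option ι) (j : Vr ι) :
    Ph K o * (Tb' c b j : Module.End K (V1 ι K))
      = ((Tb' c b j ^ tw o j : (Module.End K (V1 ι K))ˣ) : Module.End K (V1 ι K)) * Ph K o := by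
  cases o with
  | none =>
    have : tw (none : Option ι) j = 1 := rfl
    rw [this, zpow_one]
    change 1 * _ = _ * 1
    rw [one_mul, mul_one]
  | some s =>
    cases j with
    | st t =>
      by_cases h : s = t
      · subst h
        have : tw (some s) (.st s) = 16 := by simp [tw]
        rw [this]
        exact C1_Y s
      · have : tw (some s) (.st t) = 1 := by simp [tw, h]
        rw [this, zpow_one]
        exact (C1_Y_ne h 0).eq
    | kap => exact (scal_comm _ _).symm.eq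
    | kap3 => exact (scal_comm _ _).symm.eq
    | nu => exact (scal_comm _ _).symm.eq

end opr

/-! ### the representation data -/

section data
variable {K : Type} [Field K] [CharP K 2] {n : ℕ}

/-- families of units as units of the family ring -/
def pu {M : Type} [Monoid M] : (Fin n → Mˣ) →* (Fin n → M)ˣ :=
  (MulEquiv.piUnits (M := fun _ : Fin n => M)).symm.toMonoidHom

lemma pu_val {M : Type} [Monoid M] (u : Fin n → Mˣ) :
    ((pu u : (Fin n → M)ˣ) : Fin n → M) = fun b => (u b : M) := rfl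

/-- the vector `e_0` -/
noncomputable def vz (ι : Type) (K : Type) [Field K] : V1 ι K :=
  Finsupp.single (fun _ => sq0) 1

lemma C1_vz (s : ι) : C1 K s 0 (vz ι K) = vz ι K := by
  unfold vz
  rw [C1_single]
  congr 1
  funext t
  by_cases h : t = s
  · subst h
    rw [Function.update_self]
    exact Dig.Sq.cons_const _ _
  · rw [Function.update_of_ne h]

lemma Ph_vz (o : Option ι) : Ph K o (vz ι K) = vz ι K := by
  cases o with
  | none => rfl
  | some s => exact C1_vz s

/-- letters -/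
noncomputable def Lc (c : Scl K n) : Lt ι → (Module.End K (Wsp K (V1 ι K) n))ˣ
  | .x0 => dl0 (pu fun b => c.κ b)
  | .x0' => dl0 (pu fun b => c.κ' b)
  | .x1 j => dl1 (pu fun b => Tb c b j)
  | .x1' j => dl1 (pu fun b => Tb' c b j)
  | .x2 j => dl2 (pu fun b => Tb c b j)
  | .x2' j => dl2 (pu fun b => Tb' c b j)

/-- arrows -/
noncomputable def Nc (Λ : ℕ → S → (ι → List Γ') → K) : Sy S ι → Module.End K (Wsp K (V1 ι K) n)
  | .v => e01 (opv (vz ι K))
  | .u a o => e12 (opu (fun b => lam (Λ b) a) (Ph K o))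
  | .w => e20 opw

/-- projections -/
noncomputable def pc (ι : Type) (K : Type) [Field K] (n : ℕ) (i : ZMod 3) : Module.End K (Wsp K (V1 ι K) n) :=
  (![P0, P1, P2] : Fin 3 → Module.End K (Wsp K (V1 ι K) n)) i

variable {c : Scl K n} {Λ : ℕ → S → (ι → List Γ') → K} {rule : ρ → Rule S ι} {F : ℕ}

/-- the big ring -/
abbrev RW (ι : Type) (K : Type) [Field K] (n : ℕ) : Type := Module.End K (Wsp K (V1 ι K) n)

lemma dopL_val (c : Scl K n) (s : ι) (d : Fin 16) :
    ((dopL (R := RW ι K n) (Lc c) s d : (RW ι K n)ˣ) : RW ι K n)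
      = l2 (fun _ => if d = 8 then (Y1 K s : Module.End K (V1 ι K)) ^ 15
          else (X1 K s : Module.End K (V1 ι K)) ^ (d : ℕ)) := by
  unfold dopL
  split_ifs with h
  · change ((dl2 (pu fun b => Tb' c b (.st s)) ^ 15 : (Module.End K (Wsp K (V1 ι K) n))ˣ) :
      Module.End K (Wsp K (V1 ι K) n)) = _
    rw [← map_pow, ← map_pow]
    rfl
  · change ((dl2 (pu fun b => Tb c b (.st s)) ^ (d : ℕ) : (Module.End K (Wsp K (V1 ι K) n))ˣ) :
      Module.End K (Wsp K (V1 ι K) n)) = _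
    rw [← map_pow, ← map_pow]
    rfl

lemma dop_C1 (s : ι) (d : Fin 16) :
    (if d = 8 then (Y1 K s : Module.End K (V1 ι K)) ^ 15
          else (X1 K s : Module.End K (V1 ι K)) ^ (d : ℕ)) * C1 K s 0 = C1 K s d := by
  split_ifs with h
  · subst h; exact Y1_pow_C1 s
  · exact X1_pow_C1 s d h

lemma w_dop_u (c : Scl K n) (a : S) (s : ι) (d : Fin 16) :
    Nc Λ .w * (((dopL (R := RW ι K n) (Lc c) s d : (RW ι K n)ˣ) : RW ι K n)
        * Nc Λ (.u a (some s)))
      = e10 (fun b : Fin n => lam (Λ b) a ∘ₗ C1 K s d) := by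
  rw [dopL_val]
  change e20 opw * (l2 _ * e12 (opu (fun b => lam (Λ b) a) (C1 K s 0))) = _
  rw [w_mul_u]
  congr 1
  funext b
  rw [dop_C1]

lemma w_u_none (a : S) : Nc (n := n) Λ .w * Nc Λ (.u a none) = e10 (fun b => lam (Λ b) a) := by
  change e20 opw * e12 (opu (fun b => lam (Λ b) a) 1) = _
  rw [w_mul_u']
  rfl

lemma scal_pow_val (x y : Kˣ) (k m : ℕ) :
    (((scal ι K x) ^ k * (scal ι K y) ^ m : (Module.End K (V1 ι K))ˣ) : Module.End K (V1 ι K))
      = ((x : K) ^ k * (y : K) ^ m) • 1 := by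
  rw [← map_pow, ← map_pow, ← map_mul, scal_val]
  simp

lemma zc (i : ZMod 3) : i = 0 ∨ i = 1 ∨ i = 2 := by revert i; decide


lemma rd_pp (i j : ZMod 3) (hij : i ≠ j) : pc ι K n i * pc ι K n j = 0 := by
  rcases zc i with rfl | rfl | rfl <;> rcases zc j with rfl | rfl | rfl <;>
  first
    | exact absurd rfl hij
    | rfl

lemma rd_n1 (g : Sy S ι) : pc ι K n (g.lev + 1) * Nc Λ g = Nc Λ g := by
  cases g with
  | v => exact P1_e01 _
  | u a o => exact P2_e12 _
  | w => exact P0_e20 _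

lemma rd_n2 (g : Sy S ι) : Nc Λ g * pc ι K n g.lev = Nc Λ g := by
  cases g with
  | v => exact e01_P0 _
  | u a o => exact e12_P1 _
  | w => exact e20_P2 _


lemma c00 (a b : (Fin n → K)ˣ) : Commute (dl0 (V := V1 ι K) a) (dl0 b) := by
  change dl0 a * dl0 b = dl0 b * dl0 a
  rw [← map_mul, mul_comm, map_mul]
lemma c01 (a : (Fin n → K)ˣ) (b : (Fin n → Module.End K (V1 ι K))ˣ) :
    Commute (dl0 a) (dl1 b) := Units.ext (l0_l1 _ _)
lemma c02 (a : (Fin n → K)ˣ) (b : (Fin n → Module.End K (V1 ι K))ˣ) :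
    Commute (dl0 a) (dl2 b) := Units.ext (l0_l2 _ _)
lemma c12 (a b : (Fin n → Module.End K (V1 ι K))ˣ) :
    Commute (dl1 a) (dl2 b) := Units.ext (l1_l2 _ _)
lemma cTT (c : Scl K n) (j j' : Vr ι) :
    Commute (pu fun b : Fin n => Tb c b j) (pu fun b => Tb c b j') := by
  change _ * _ = _ * _
  rw [← map_mul, ← map_mul]
  congr 1
  funext b
  exact Tb_comm c b j j'
lemma cTT' (c : Scl K n) (j j' : Vr ι) :
    Commute (pu fun b : Fin n => Tb c b j) (pu fun b => Tb' c b j') := by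
  change _ * _ = _ * _
  rw [← map_mul, ← map_mul]
  congr 1
  funext b
  exact Tb_comm' c b j j'
lemma cT'T' (c : Scl K n) (j j' : Vr ι) :
    Commute (pu fun b : Fin n => Tb' c b j) (pu fun b => Tb' c b j') := by
  change _ * _ = _ * _
  rw [← map_mul, ← map_mul]
  congr 1
  funext b
  exact Tb'_comm c b j j'
lemma d1 (a b : (Fin n → Module.End K (V1 ι K))ˣ) (h : Commute a b) :
    Commute (dl1 a) (dl1 b) := h.map dl1
lemma d2 (a b : (Fin n → Module.End K (V1 ι K))ˣ) (h : Commute a b) :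
    Commute (dl2 a) (dl2 b) := h.map dl2

lemma rd_ll (c : Scl K n) (l l' : Lt ι) : Commute (Lc c l) (Lc c l') := by
  cases l with
  | x0 =>
    cases l' with
    | x0 => exact c00 _ _
    | x0' => exact c00 _ _
    | x1 j' => exact c01 _ _
    | x1' j' => exact c01 _ _
    | x2 j' => exact c02 _ _
    | x2' j' => exact c02 _ _
  | x0' =>
    cases l' with
    | x0 => exact c00 _ _
    | x0' => exact c00 _ _
    | x1 j' => exact c01 _ _
    | x1' j' => exact c01 _ _
    | x2 j' => exact c02 _ _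
    | x2' j' => exact c02 _ _
  | x1 j =>
    cases l' with
    | x0 => exact (c01 _ _).symm
    | x0' => exact (c01 _ _).symm
    | x1 j' => exact d1 _ _ (cTT c _ _)
    | x1' j' => exact d1 _ _ (cTT' c _ _)
    | x2 j' => exact c12 _ _
    | x2' j' => exact c12 _ _
  | x1' j =>
    cases l' with
    | x0 => exact (c01 _ _).symm
    | x0' => exact (c01 _ _).symm
    | x1 j' => exact d1 _ _ (cTT' c _ _).symm
    | x1' j' => exact d1 _ _ (cT'T' c _ _)
    | x2 j' => exact c12 _ _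
    | x2' j' => exact c12 _ _
  | x2 j =>
    cases l' with
    | x0 => exact (c02 _ _).symm
    | x0' => exact (c02 _ _).symm
    | x1 j' => exact (c12 _ _).symm
    | x1' j' => exact (c12 _ _).symm
    | x2 j' => exact d2 _ _ (cTT c _ _)
    | x2' j' => exact d2 _ _ (cTT' c _ _)
  | x2' j =>
    cases l' with
    | x0 => exact (c02 _ _).symm
    | x0' => exact (c02 _ _).symm
    | x1 j' => exact (c12 _ _).symm
    | x1' j' => exact (c12 _ _).symm
    | x2 j' => exact d2 _ _ (cTT' c _ _).symm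
    | x2' j' => exact d2 _ _ (cT'T' c _ _)

lemma pc0 : pc ι K n 0 = P0 := rfl
lemma pc1 : pc ι K n 1 = P1 := rfl
lemma pc2 : pc ι K n 2 = P2 := rfl

lemma k0 (x : Fin n → K) (i : ZMod 3) : Commute (l0 (V := V1 ι K) x) (pc ι K n i) := by
  rcases zc i with rfl | rfl | rfl
  · exact l0_P0 x
  · exact (l0_P1 x).trans (P1_l0 x).symm
  · exact (l0_P2 x).trans (P2_l0 x).symm

lemma k1 (x : Fin n → Module.End K (V1 ι K)) (i : ZMod 3) : Commute (l1 x) (pc ι K n i) := by
  rcases zc i with rfl | rfl | rfl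
  · exact (l1_P0 x).trans (P0_l1 x).symm
  · exact l1_P1 x
  · exact (l1_P2 x).trans (P2_l1 x).symm

lemma k2 (x : Fin n → Module.End K (V1 ι K)) (i : ZMod 3) : Commute (l2 x) (pc ι K n i) := by
  rcases zc i with rfl | rfl | rfl
  · exact (l2_P0 x).trans (P0_l2 x).symm
  · exact (l2_P1 x).trans (P1_l2 x).symm
  · exact l2_P2 x

lemma rd_lp (c : Scl K n) (l : Lt ι) (i : ZMod 3) :
    Commute ((Lc c l : (RW ι K n)ˣ) : RW ι K n) (pc ι K n i) := by
  cases l
  · exact k0 _ i
  · exact k0 _ i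
  · exact k1 _ i
  · exact k1 _ i
  · exact k2 _ i
  · exact k2 _ i

lemma rd_lt (c : Scl K n) (l : Lt ι) (i : ZMod 3) (hl : lvl l ≠ i) :
    ((Lc c l : (RW ι K n)ˣ) : RW ι K n) * pc ι K n i = pc ι K n i := by
  cases l with
  | x0 =>
    rcases zc i with rfl | rfl | rfl
    · exact absurd rfl hl
    · exact l0_P1 _
    · exact l0_P2 _
  | x0' =>
    rcases zc i with rfl | rfl | rfl
    · exact absurd rfl hl
    · exact l0_P1 _
    · exact l0_P2 _
  | x1 j =>
    rcases zc i with rfl | rfl | rfl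
    · exact l1_P0 _
    · exact absurd rfl hl
    · exact l1_P2 _
  | x1' j =>
    rcases zc i with rfl | rfl | rfl
    · exact l1_P0 _
    · exact absurd rfl hl
    · exact l1_P2 _
  | x2 j =>
    rcases zc i with rfl | rfl | rfl
    · exact l2_P0 _
    · exact l2_P1 _
    · exact absurd rfl hl
  | x2' j =>
    rcases zc i with rfl | rfl | rfl
    · exact l2_P0 _
    · exact l2_P1 _
    · exact absurd rfl hl

lemma rd_v0 (c : Scl K n) (Λ : ℕ → S → (ι → List Γ') → K) :
    ((Lc c (.x1 .kap) : (RW ι K n)ˣ) : RW ι K n) * Nc Λ .v = Nc Λ .v * ((Lc c .x0 : (RW ι K n)ˣ) : RW ι K n) :=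
  v_twist (vz ι K) (fun b : Fin n => (c.κ b : K))
    (fun b : Fin n => (scal ι K (c.κ b) : Module.End K (V1 ι K))) (fun b => by
      rw [scal_val]; rfl)

lemma rd_v0' (c : Scl K n) (Λ : ℕ → S → (ι → List Γ') → K) :
    ((Lc c (.x1' .kap) : (RW ι K n)ˣ) : RW ι K n) * Nc Λ .v
      = Nc Λ .v * ((Lc c .x0' : (RW ι K n)ˣ) : RW ι K n) :=
  v_twist (vz ι K) (fun b : Fin n => (c.κ' b : K))
    (fun b : Fin n => (scal ι K (c.κ' b) : Module.End K (V1 ι K))) (fun b => by
      rw [scal_val]; rfl)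

lemma rd_u1 (c : Scl K n) (Λ : ℕ → S → (ι → List Γ') → K) (a : S) (o : Option ι) (j : Vr ι) :
    ((Lc c (.x2 j) ^ tw o j : (RW ι K n)ˣ) : RW ι K n) * Nc Λ (.u a o)
      = Nc Λ (.u a o) * ((Lc c (.x1 j) : (RW ι K n)ˣ) : RW ι K n) := by
  have e : (Lc c (.x2 j) ^ tw o j : (RW ι K n)ˣ)
      = dl2 (pu fun b : Fin n => Tb c b j ^ tw o j) := by
    change dl2 (pu fun b : Fin n => Tb c b j) ^ tw o j = _
    rw [← map_zpow, ← map_zpow]
    rfl
  rw [e]
  exact u_twist (fun b : Fin n => lam (Λ b) a) (Ph K o)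
    (fun b : Fin n => (Tb c b j : Module.End K (V1 ι K)))
    (fun b : Fin n => ((Tb c b j ^ tw o j : (Module.End K (V1 ι K))ˣ) : Module.End K (V1 ι K)))
    (fun b => Ph_Tb c b o j)

lemma rd_u1' (c : Scl K n) (Λ : ℕ → S → (ι → List Γ') → K) (a : S) (o : Option ι) (j : Vr ι) :
    ((Lc c (.x2' j) ^ tw o j : (RW ι K n)ˣ) : RW ι K n) * Nc Λ (.u a o)
      = Nc Λ (.u a o) * ((Lc c (.x1' j) : (RW ι K n)ˣ) : RW ι K n) := by
  have e : (Lc c (.x2' j) ^ tw o j : (RW ι K n)ˣ)
      = dl2 (pu fun b : Fin n => Tb' c b j ^ tw o j) := by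
    change dl2 (pu fun b : Fin n => Tb' c b j) ^ tw o j = _
    rw [← map_zpow, ← map_zpow]
    rfl
  rw [e]
  exact u_twist (fun b : Fin n => lam (Λ b) a) (Ph K o)
    (fun b : Fin n => (Tb' c b j : Module.End K (V1 ι K)))
    (fun b : Fin n => ((Tb' c b j ^ tw o j : (Module.End K (V1 ι K))ˣ) : Module.End K (V1 ι K)))
    (fun b => Ph_Tb' c b o j)

lemma rd_w0 (c : Scl K n) (Λ : ℕ → S → (ι → List Γ') → K) :
    ((Lc c .x0 : (RW ι K n)ˣ) : RW ι K n) * Nc Λ .w
      = Nc Λ .w * ((Lc c (.x2 .kap3) : (RW ι K n)ˣ) : RW ι K n) :=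
  w_twist (fun b : Fin n => (c.κ b : K))
    (fun b : Fin n => (scal ι K (c.κ (b + 1)) : Module.End K (V1 ι K))) (fun b b' h => by
      rw [scal_val, h])

lemma rd_w0' (c : Scl K n) (Λ : ℕ → S → (ι → List Γ') → K) :
    ((Lc c .x0' : (RW ι K n)ˣ) : RW ι K n) * Nc Λ .w
      = Nc Λ .w * ((Lc c (.x2' .kap3) : (RW ι K n)ˣ) : RW ι K n) :=
  w_twist (fun b : Fin n => (c.κ' b : K))
    (fun b : Fin n => (scal ι K (c.κ' (b + 1)) : Module.End K (V1 ι K))) (fun b b' h => by
      rw [scal_val, h])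

lemma tb'_fun (c : Scl K n) (j : Vr ι) : (fun b : Fin n => (Tb' c b j : Module.End K (V1 ι K)))
    = 1 + fun b : Fin n => (Tb c b j : Module.End K (V1 ι K)) := by
  funext b; exact Tb'_val c b.2 j

lemma rd_b1 (c : Scl K n) (j : Vr ι) :
    ((Lc c (.x1' j) : (RW ι K n)ˣ) : RW ι K n) * pc ι K n 1
      = pc ι K n 1 + ((Lc c (.x1 j) : (RW ι K n)ˣ) : RW ι K n) * pc ι K n 1 := by
  change l1 (fun b : Fin n => (Tb' c b j : Module.End K (V1 ι K))) * P1
    = P1 + l1 (fun b : Fin n => (Tb c b j : Module.End K (V1 ι K))) * P1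
  rw [tb'_fun]; exact l1_add_P1 _

lemma rd_b2 (c : Scl K n) (j : Vr ι) :
    ((Lc c (.x2' j) : (RW ι K n)ˣ) : RW ι K n) * pc ι K n 2
      = pc ι K n 2 + ((Lc c (.x2 j) : (RW ι K n)ˣ) : RW ι K n) * pc ι K n 2 := by
  change l2 (fun b : Fin n => (Tb' c b j : Module.End K (V1 ι K))) * P2
    = P2 + l2 (fun b : Fin n => (Tb c b j : Module.End K (V1 ι K))) * P2
  rw [tb'_fun]; exact l2_add_P2 _

lemma rd_k3 (c : Scl K n) : Lc c (.x2 .kap3 : Lt ι) = Lc c (.x2 .kap) ^ 3 := by
  change dl2 (pu fun b : Fin n => scal ι K (c.κ (b + 1)))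
    = dl2 (pu fun b : Fin n => scal ι K (c.κ b)) ^ 3
  rw [← map_pow, ← map_pow]
  congr 2
  funext b
  rw [Pi.pow_apply, c.hκ, map_pow]

lemma rd_pt (Λ : ℕ → S → (ι → List Γ') → K) (a : S) (s : ι) :
    Nc (n := n) Λ (.u a (some s)) * Nc Λ .v = Nc Λ (.u a none) * Nc Λ .v :=
  u_mul_v _ _ _ _ ((Ph_vz (some s)).trans (Ph_vz none).symm)

lemma rd_jump (c : Scl K n) {Λ : ℕ → S → (ι → List Γ') → K} {rule : ρ → Rule S ι}
    (hΛ : ∀ j < n, Pot rule (c.κ j : K) (c.ν : K) (Λ j)) {i a b k m}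
    (h : rule i = .jump a b k m) :
    Nc (n := n) Λ (.u a none) = ((Lc c (.x2 .kap) : (RW ι K n)ˣ) : RW ι K n) ^ k
      * ((Lc c (.x2 .nu) : (RW ι K n)ˣ) : RW ι K n) ^ m * Nc Λ (.u b none) := by
  have e : ((Lc c (.x2 .kap) : (RW ι K n)ˣ) : RW ι K n) ^ k
      * ((Lc c (.x2 .nu) : (RW ι K n)ˣ) : RW ι K n) ^ m
      = ((dl2 (pu fun b' : Fin n => scal ι K (c.κ b') ^ k * scal ι K c.ν ^ m) : (RW ι K n)ˣ) :
        RW ι K n) := by
    change ((dl2 (pu fun b' : Fin n => scal ι K (c.κ b')) : (RW ι K n)ˣ) : RW ι K n) ^ k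
        * ((dl2 (pu fun _ : Fin n => scal ι K c.ν) : (RW ι K n)ˣ) : RW ι K n) ^ m = _
    rw [← Units.val_pow_eq_pow_val, ← Units.val_pow_eq_pow_val, ← Units.val_mul, ← map_pow,
      ← map_pow, ← map_pow, ← map_pow, ← map_mul, ← map_mul]
    rfl
  rw [e]
  refine u_scale (fun b' : Fin n => lam (Λ b') a) (fun b' : Fin n => lam (Λ b') b) (Ph K none)
    (fun b' : Fin n => (c.κ b' : K) ^ k * (c.ν : K) ^ m)
    (fun b' : Fin n => ((scal ι K (c.κ b') ^ k * scal ι K c.ν ^ m : (Module.End K (V1 ι K))ˣ) :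
      Module.End K (V1 ι K))) (fun b' => ?_)
    (fun b' => lam_jump (hΛ b' b'.2) h)
  exact scal_pow_val (c.κ b') c.ν k m

lemma rd_kill {c : Scl K n} {Λ : ℕ → S → (ι → List Γ') → K} {rule : ρ → Rule S ι}
    (hΛ : ∀ j < n, Pot rule (c.κ j : K) (c.ν : K) (Λ j)) {i a} (h : rule i = .kill a) :
    Nc (n := n) Λ (.u a none) = 0 := by
  have h0 : (fun b : Fin n => lam (Λ b) a) = 0 := by
    funext b; exact lam_kill (hΛ b b.2) h
  change e12 (opu (fun b : Fin n => lam (Λ b) a) (Ph K none)) = 0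
  rw [h0]
  rfl

lemma rd_nu {c : Scl K n} (hF : c.ν ^ F = 1) : Lc c (.x2 .nu : Lt ι) ^ F = 1 := by
  change dl2 (pu fun _ : Fin n => scal ι K c.ν) ^ F = 1
  rw [← map_pow, ← map_pow]
  have : (fun _ : Fin n => scal ι K c.ν) ^ F = 1 := by
    funext b
    rw [Pi.pow_apply, ← map_pow, hF, map_one]; rfl
  rw [this, map_one, map_one]

theorem rd_data (hΛ : ∀ j < n, Pot rule (c.κ j : K) (c.ν : K) (Λ j)) (hF : c.ν ^ F = 1) :
    RD (R := RW ι K n) rule F (pc ι K n) (Lc c) (Nc Λ) where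
  pp := rd_pp
  n1 := rd_n1
  n2 := rd_n2
  ll := rd_ll c
  lp := rd_lp c
  lt := rd_lt c
  v0 := rd_v0 c Λ
  v0' := rd_v0' c Λ
  u1 := rd_u1 c Λ
  u1' := rd_u1' c Λ
  w0 := rd_w0 c Λ
  w0' := rd_w0' c Λ
  b1 := rd_b1 c
  b2 := rd_b2 c
  k3 := rd_k3 c
  pt := rd_pt Λ
  jump _ _ _ _ _ h := rd_jump c hΛ h
  kill _ _ h := rd_kill hΛ h
  push i a s γ b h := by
    rw [w_dop_u, w_u_none]
    congr 1
    funext b'
    exact lam_push (hΛ b' b'.2) h
  popc i a s f h g := by
    rw [w_dop_u, w_u_none]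
    congr 1
    funext b'
    exact lam_popc (hΛ b' b'.2) h g
  popn i a s f h d hd := by
    rw [w_dop_u, w_dop_u]
    congr 1
    funext b'
    exact lam_popn (hΛ b' b'.2) h d hd
  nu := rd_nu hF


end data

/-! ### the main theorem of the lower part -/

section main
variable {K : Type} [Field K] [CharP K 2]

/-- the basis vector of a content -/
noncomputable def vw (K : Type) [Field K] (w : ι → List Γ') : V1 ι K :=
  Finsupp.single (fun s => wd (w s)) 1

lemma lam_vw (Λ : S → (ι → List Γ') → K) (a : S) (w : ι → List Γ') :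
    lam Λ a (vw K w) = Λ a w := by
  unfold vw
  rw [lam_single, one_mul]
  congr 1
  funext s
  exact pre_wd _

lemma C1_vw (w : ι → List Γ') (s : ι) (γ : Γ') (l : List Γ') (h : w s = γ :: l) :
    C1 K s (dg γ) (vw K (Function.update w s l)) = vw K w := by
  unfold vw
  rw [C1_single]
  congr 1
  funext t
  by_cases ht : t = s
  · subst ht
    rw [Function.update_self, Function.update_self, h]
    rfl
  · rw [Function.update_of_ne ht, Function.update_of_ne ht]

/-- the group generated by the variables -/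
noncomputable def HX (ι : Type) [DecidableEq ι] (K : Type) [Field K] [CharP K 2] :
    Subgroup (Module.End K (V1 ι K))ˣ :=
  Subgroup.closure (Set.range fun s : ι => X1 K s)

lemma HX_twist (s : ι) (τ : (Module.End K (V1 ι K))ˣ) (hτ : τ ∈ HX ι K) :
    ∃ τ' ∈ HX ι K, (τ' : Module.End K (V1 ι K)) * C1 K s 0 = C1 K s 0 * (τ : Module.End K (V1 ι K)) := by
  unfold HX at hτ
  induction hτ using Subgroup.closure_induction with
  | mem x hx =>
    obtain ⟨t, rfl⟩ := hx
    by_cases h : s = t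
    · subst h
      refine ⟨X1 K s ^ 16, (HX ι K).pow_mem (Subgroup.subset_closure ⟨s, rfl⟩) 16, ?_⟩
      rw [Units.val_pow_eq_pow_val]
      exact (C1_X s).symm
    · exact ⟨X1 K t, Subgroup.subset_closure ⟨t, rfl⟩, (C1_X_ne h 0).symm.eq⟩
  | one => exact ⟨1, (HX ι K).one_mem, by simp⟩
  | mul x y _ _ hx hy =>
    obtain ⟨x', hx', ex⟩ := hx
    obtain ⟨y', hy', ey⟩ := hy
    refine ⟨x' * y', (HX ι K).mul_mem hx' hy', ?_⟩
    rw [Units.val_mul, Units.val_mul, mul_assoc, ey, ← mul_assoc, ex, mul_assoc]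
  | inv x _ hx =>
    obtain ⟨x', hx', ex⟩ := hx
    exact ⟨x'⁻¹, (HX ι K).inv_mem hx',
      units_intertwine (R := Module.End K (V1 ι K)) (A := x') (B := x) ex⟩

lemma dg_ne (γ : Γ') : dg γ ≠ 8 := by cases γ <;> decide

lemma exists_tau [Fintype ι] (N : ℕ) : ∀ w : ι → List Γ', ∑ s, (w s).length = N →
    ∃ τ ∈ HX ι K, (τ : Module.End K (V1 ι K)) (vz ι K) = vw K w := by
  induction N with
  | zero =>
    intro w hw
    refine ⟨1, (HX ι K).one_mem, ?_⟩
    rw [Finset.sum_eq_zero_iff] at hw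
    have h1 : w = fun _ => [] := by
      funext s
      exact List.length_eq_zero_iff.1 (hw s (Finset.mem_univ _))
    rw [h1]
    rfl
  | succ N ih =>
    intro w hw
    have h1 : ∃ s, w s ≠ [] := by
      by_contra hcon
      push Not at hcon
      simp [hcon] at hw
    obtain ⟨s, hs⟩ := h1
    obtain ⟨γ, l, hl⟩ := List.exists_cons_of_ne_nil hs
    have h2 : ∑ t, (Function.update w s l t).length = N := by
      have e1 := Finset.add_sum_erase Finset.univ (fun t => (Function.update w s l t).length)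
        (Finset.mem_univ s)
      have e2 := Finset.add_sum_erase Finset.univ (fun t => (w t).length) (Finset.mem_univ s)
      have e3 : ∑ t ∈ Finset.univ.erase s, (Function.update w s l t).length
          = ∑ t ∈ Finset.univ.erase s, (w t).length := by
        refine Finset.sum_congr rfl fun t ht => ?_
        rw [Function.update_of_ne (Finset.ne_of_mem_erase ht)]
      simp only [Function.update_self] at e1
      rw [hl] at e2
      simp only [List.length_cons] at e2
      omega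
    obtain ⟨τ, hτ, eτ⟩ := ih _ h2
    obtain ⟨τ', hτ', eτ'⟩ := HX_twist (K := K) s τ hτ
    refine ⟨X1 K s ^ (dg γ : ℕ) * τ', (HX ι K).mul_mem
      ((HX ι K).pow_mem (Subgroup.subset_closure ⟨s, rfl⟩) _) hτ', ?_⟩
    have e4 : C1 K s 0 (vw K (Function.update w s l)) = (τ' : Module.End K (V1 ι K)) (vz ι K) := by
      rw [← eτ]
      have := congrArg (fun A : Module.End K (V1 ι K) => A (vz ι K)) eτ'
      simp only [Module.End.mul_apply, C1_vz] at this
      exact this.symm
    rw [← C1_vw w s γ l hl, ← X1_pow_C1 s _ (dg_ne γ), Module.End.mul_apply, e4, Units.val_mul,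
      Units.val_pow_eq_pow_val, Module.End.mul_apply]

lemma rw_charP {n : ℕ} (hn : 0 < n) : CharP (RW ι K n) 2 := by
  have : Nontrivial (Fin n → K) := by
    have : Nonempty (Fin n) := ⟨⟨0, hn⟩⟩
    infer_instance
  have : Nontrivial (Wsp K (V1 ι K) n) := by
    unfold Wsp
    infer_instance
  have : Nontrivial (RW ι K n) := inferInstance
  exact charP_of_injective_algebraMap (algebraMap K (RW ι K n)).injective 2

end main

section fin
variable {K : Type} [Field K] [CharP K 2] {n : ℕ}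

/-- constant families -/
noncomputable def cst (ι : Type) [DecidableEq ι] (K : Type) [Field K] [CharP K 2] (n : ℕ) :
    (Module.End K (V1 ι K))ˣ →* (RW ι K n)ˣ :=
  dl2.comp (pu.comp (Pi.constMonoidHom (Fin n) _))

lemma cst_val (τ : (Module.End K (V1 ι K))ˣ) :
    ((cst ι K n τ : (RW ι K n)ˣ) : RW ι K n) = l2 (fun _ => (τ : Module.End K (V1 ι K))) := rfl

lemma cst_mem (c : Scl K n) (τ : (Module.End K (V1 ι K))ˣ) (hτ : τ ∈ HX ι K) :
    cst ι K n τ ∈ Subgroup.closure (Set.range (Lc (ι := ι) c)) := by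
  have h1 : HX ι K ≤ (Subgroup.closure (Set.range (Lc (ι := ι) c))).comap (cst ι K n) := by
    unfold HX
    rw [Subgroup.closure_le]
    rintro _ ⟨s, rfl⟩
    exact Subgroup.subset_closure ⟨.x2 (.st s), rfl⟩
  exact h1 hτ

lemma cst_conj (Λ : ℕ → S → (ι → List Γ') → K) (a₀ : S) (τ : (Module.End K (V1 ι K))ˣ) :
    ((cst ι K n τ : (RW ι K n)ˣ) : RW ι K n) * Nc Λ (.u a₀ none)
      * (((cst ι K n τ)⁻¹ : (RW ι K n)ˣ) : RW ι K n)
      = l2 (fun _ : Fin n => (τ : Module.End K (V1 ι K)))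
        * e12 (opu (fun b : Fin n => lam (Λ b) a₀) (Ph K none)) := by
  rw [← map_inv, cst_val, cst_val, mul_assoc]
  rfl

lemma low_block [Fintype ι] {rule : ρ → Rule S ι} {F d : ℕ} (c : Scl K (2 ^ d + 1))
    (Λ : ℕ → S → (ι → List Γ') → K)
    (hΛ : ∀ j < 2 ^ d + 1, Pot rule (c.κ j : K) (c.ν : K) (Λ j)) (hF : c.ν ^ F = 1)
    (a₀ : S) (w₀ : ι → List Γ') (hne : ∀ j < 2 ^ d + 1, Λ j a₀ w₀ ≠ 0) :
    derivedSeries (Grp rule F) d ≠ ⊥ := by
  have hC := rw_charP (ι := ι) (K := K) (n := 2 ^ d + 1) (Nat.succ_pos _)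
  obtain ⟨τ, hτ, eτ⟩ := exists_tau (K := K) _ w₀ rfl
  refine RD.derived_ne (R := RW ι K (2 ^ d + 1)) (rd_data hΛ hF) d a₀ (cst ι K _ τ)
    (cst_mem c τ hτ) ?_
  rw [cst_conj]
  refine shift_pow (fun b : Fin (2 ^ d + 1) => lam (Λ b) a₀) (Ph K none)
    (fun _ : Fin (2 ^ d + 1) => (τ : Module.End K (V1 ι K))) (vz ι K) ?_ _ (Nat.lt_succ_self _)
  intro b
  rw [Ph_vz, eτ, lam_vw]
  exact hne b b.2

end fin

end Pool.Agent.SolIndex.Lw

namespace Pool.Agent.SolIndex

open Turing.PartrecToTM2 (Γ')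
open Pool.Agent.SolIndex.Lw

variable {ι S ρ : Type} [DecidableEq ι]

/-- WP6 + WP7: the lower part -/
theorem low_core [Fintype ι] [Finite S] [Finite ρ] (rule : ρ → Rule S ι) (F : ℕ)
    (h : ∀ n : ℕ, ∃ (K : Type) (_ : Field K) (_ : CharP K 2) (κ : ℕ → K) (ν : K)
      (Λ : ℕ → S → (ι → List Γ') → K) (a₀ : S) (w₀ : ι → List Γ'),
      (∀ j, κ (j + 1) = κ j ^ 3) ∧ κ 0 ≠ 0 ∧ κ n ≠ 1 ∧ ν ≠ 0 ∧ ν ≠ 1 ∧ ν ^ F = 1 ∧
      (∀ j < n, Pot rule (κ j) ν (Λ j)) ∧ (∀ j < n, Λ j a₀ w₀ ≠ 0)) :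
    ¬ IsSolvable (Grp rule F) := by
  intro hsol
  obtain ⟨d, hd⟩ := hsol.solvable
  obtain ⟨K, iK, iC, κ, ν, Λ, a₀, w₀, hκ, hκ0, hκn, hν0, hν1, hνF, hΛ, hne⟩ := h (2 ^ d + 1)
  have k0 : ∀ j, κ j ≠ 0 := by
    intro j
    induction j with
    | zero => exact hκ0
    | succ j ih => rw [hκ]; exact pow_ne_zero _ ih
  have k1 : ∀ j ≤ 2 ^ d + 1, κ j ≠ 1 := by
    intro j hj h1
    apply hκn
    have : ∀ m, κ (j + m) = 1 := by
      intro m
      induction m with
      | zero => exact h1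
      | succ m ih => rw [← add_assoc, hκ, ih, one_pow]
    have := this (2 ^ d + 1 - j)
    rwa [Nat.add_sub_cancel' hj] at this
  have char2 : ∀ x : K, x ≠ 1 → 1 + x ≠ 0 := by
    intro x hx h1
    apply hx
    have : x = -1 := by linear_combination h1
    rw [this]
    exact CharTwo.neg_eq 1
  let c : Scl K (2 ^ d + 1) :=
    { κ := fun j => Units.mk0 (κ j) (k0 j)
      κ' := fun j => if hj : j ≤ 2 ^ d + 1 then Units.mk0 (1 + κ j) (char2 _ (k1 j hj)) else 1
      ν := Units.mk0 ν hν0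
      ν' := Units.mk0 (1 + ν) (char2 _ hν1)
      hκ := fun j => Units.ext (by simp [hκ])
      hκ' := fun j hj => by rw [dif_pos hj]; rfl
      hν' := rfl }
  exact low_block c Λ hΛ (Units.ext (by simpa [c] using hνF)) a₀ w₀ hne hd

end Pool.Agent.SolIndex
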