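import Pool.Agent.SolIndex.RunDet

/-!
# The machine of a block: definition and facts (MP_6facb1_lc, work package WP8)
-/

set_option autoImplicit false

namespace Pool.Agent.SolIndex.Blk

open Turing Turing.PartrecToTM2 Function

/-- Stack index of the simulated machine. -/
def tm : K' → Idx
  | .main => .main
  | .rev => .rev
  | .aux => .aux
  | .stack => .stack

theorem tm_injective : Function.Injective tm := by
  intro a b h; cases a <;> cases b <;> first | rfl | cases h

/-- Contents of the nine stacks. -/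
def cf (S : K' → List Γ') (y y' g g' z : List Γ') : Idx → List Γ'
  | .main => S .main
  | .rev => S .rev
  | .aux => S .aux
  | .stack => S .stack
  | .Y => y
  | .Y' => y'
  | .G => g
  | .G' => g'
  | .Z => z

section cf
variable (S : K' → List Γ') (y y' g g' z l : List Γ')

theorem eq_cf (w : Idx → List Γ') :
    w = cf (fun k => w (tm k)) (w .Y) (w .Y') (w .G) (w .G') (w .Z) := by
  funext i; cases i <;> rfl

@[simp] theorem cf_tm (k : K') : cf S y y' g g' z (tm k) = S k := by cases k <;> rfl
@[simp] theorem cf_main : cf S y y' g g' z .main = S .main := rfl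
@[simp] theorem cf_rev : cf S y y' g g' z .rev = S .rev := rfl
@[simp] theorem cf_aux : cf S y y' g g' z .aux = S .aux := rfl
@[simp] theorem cf_stack : cf S y y' g g' z .stack = S .stack := rfl
@[simp] theorem cf_Y : cf S y y' g g' z .Y = y := rfl
@[simp] theorem cf_Y' : cf S y y' g g' z .Y' = y' := rfl
@[simp] theorem cf_G : cf S y y' g g' z .G = g := rfl
@[simp] theorem cf_G' : cf S y y' g g' z .G' = g' := rfl
@[simp] theorem cf_Z : cf S y y' g g' z .Z = z := rfl

@[simp] theorem update_cf_tm (k : K') :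
    update (cf S y y' g g' z) (tm k) l = cf (update S k l) y y' g g' z := by
  funext i; cases i <;> cases k <;> simp [update, tm, cf]
@[simp] theorem update_cf_main :
    update (cf S y y' g g' z) .main l = cf (update S .main l) y y' g g' z := update_cf_tm _ _ _ _ _ _ _ .main
@[simp] theorem update_cf_rev :
    update (cf S y y' g g' z) .rev l = cf (update S .rev l) y y' g g' z := update_cf_tm _ _ _ _ _ _ _ .rev
@[simp] theorem update_cf_aux :
    update (cf S y y' g g' z) .aux l = cf (update S .aux l) y y' g g' z := update_cf_tm _ _ _ _ _ _ _ .aux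
@[simp] theorem update_cf_stack :
    update (cf S y y' g g' z) .stack l = cf (update S .stack l) y y' g g' z := update_cf_tm _ _ _ _ _ _ _ .stack
@[simp] theorem update_cf_Y :
    update (cf S y y' g g' z) .Y l = cf S l y' g g' z := by
  funext i; cases i <;> simp [update]
@[simp] theorem update_cf_Y' :
    update (cf S y y' g g' z) .Y' l = cf S y l g g' z := by
  funext i; cases i <;> simp [update]
@[simp] theorem update_cf_G :
    update (cf S y y' g g' z) .G l = cf S y y' l g' z := by
  funext i; cases i <;> simp [update]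
@[simp] theorem update_cf_G' :
    update (cf S y y' g g' z) .G' l = cf S y y' g l z := by
  funext i; cases i <;> simp [update]
@[simp] theorem update_cf_Z :
    update (cf S y y' g g' z) .Z l = cf S y y' g g' l := by
  funext i; cases i <;> simp [update]

end cf

set_option backward.isDefEq.respectTransparency false in
/-- Control states of the hub programs. -/
inductive Ctl
  | a1 | a2 | a3 | a4 | c1 | c2 | c3 | c4 | p1 | p2 | y1 | y2 | y3 | q1 | q2 | g1 | g2 | g3
  | b1 | b2 | b3 | b4 | b5
  | d1 | d2 | d3 | d4 | d5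
  deriving DecidableEq, Fintype

/-- Machine states, relative to a finite set `Q` of statements of the simulated machine. -/
inductive MS (Q : Finset Stmt') : Type
  | hub
  | ctl (i : Ctl)
  | sim (q : Q) (v : Option Γ')
  | pb (k : K') (γ : Γ') (q : Q) (v : Option Γ')

instance : Finite K' := Finite.of_injective tm tm_injective

instance (Q : Finset Stmt') : Finite (MS Q) := by
  let f : MS Q → Option (Ctl ⊕ ((Q × Option Γ') ⊕ (K' × Γ' × Q × Option Γ'))) := fun a =>
    match a with
    | .hub => none
    | .ctl i => some (.inl i)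
    | .sim q v => some (.inr (.inl (q, v)))
    | .pb k γ q v => some (.inr (.inr (k, γ, q, v)))
  refine Finite.of_injective f ?_
  intro a b h
  cases a <;> cases b <;> simp_all [f]

open Classical in
/-- The simulation state at a statement. -/
noncomputable def mk (Q : Finset Stmt') (q : Stmt') (v : Option Γ') : MS Q :=
  if h : q ∈ Q then .sim ⟨q, h⟩ v else .hub

open Classical in
/-- The push-back state at a statement. -/
noncomputable def mkpb (Q : Finset Stmt') (k : K') (γ : Γ') (q : Stmt') (v : Option Γ') : MS Q :=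
  if h : q ∈ Q then .pb k γ ⟨q, h⟩ v else .hub

/-- The token symbol. -/
def tok : Γ' := Γ'.bit1

/-- Instruction of a simulation state. -/
noncomputable def progSim (Q : Finset Stmt') : Stmt' → Option Γ' → Instr (MS Q) Idx Γ'
  | .push k f q, v => .push (tm k) (f v) (mk Q q v)
  | .peek k f q, v => .pop (tm k) (fun o => o.elim (mk Q q (f v none))
      (fun γ => mkpb Q k γ q (f v (some γ))))
  | .pop k f q, v => .pop (tm k) (fun o => mk Q q (f v o))
  | .load a q, v => .jump 0 0 (mk Q q (a v))
  | .branch f q₁ q₂, v => .jump 0 0 (cond (f v) (mk Q q₁ v) (mk Q q₂ v))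
  | .goto f, v => .pop .Z (fun o => o.elim .hub (fun _ => mk Q (tr (f v)) v))
  | .halt, _ => .kill

/-- Instruction of a control state; `st` is the initial simulation state. -/
def progCtl (Q : Finset Stmt') (st : MS Q) : Ctl → Instr (MS Q) Idx Γ'
  | .a1 => .pop .Y' (fun o => if o.isSome then .ctl .a2 else .ctl .a3)
  | .a2 => .push .Y tok (.ctl .a1)
  | .a3 => .pop .G' (fun o => if o.isSome then .ctl .a4 else .ctl .c1)
  | .a4 => .push .G tok (.ctl .a3)
  | .c1 => .pop .main (fun o => if o.isSome then .ctl .c1 else .ctl .c2)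
  | .c2 => .pop .rev (fun o => if o.isSome then .ctl .c2 else .ctl .c3)
  | .c3 => .pop .aux (fun o => if o.isSome then .ctl .c3 else .ctl .c4)
  | .c4 => .pop .stack (fun o => if o.isSome then .ctl .c4 else .ctl .p1)
  | .p1 => .push .main Γ'.cons (.ctl .p2)
  | .p2 => .push .main Γ'.bit1 (.ctl .y1)
  | .y1 => .pop .Y (fun o => if o.isSome then .ctl .y2 else .ctl .q1)
  | .y2 => .push .Y' tok (.ctl .y3)
  | .y3 => .push .main Γ'.bit0 (.ctl .y1)
  | .q1 => .push .main Γ'.cons (.ctl .q2)
  | .q2 => .push .main Γ'.bit1 (.ctl .g1)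
  | .g1 => .pop .G (fun o => if o.isSome then .ctl .g2 else st)
  | .g2 => .push .G' tok (.ctl .g3)
  | .g3 => .push .main Γ'.bit0 (.ctl .g1)
  | .b1 => .pop .Y' (fun o => if o.isSome then .ctl .b2 else .ctl .b3)
  | .b2 => .push .Y tok (.ctl .b1)
  | .b3 => .pop .Y (fun o => if o.isSome then .ctl .b4 else .hub)
  | .b4 => .push .Y' tok (.ctl .b5)
  | .b5 => .jump 1 0 (.ctl .b3)
  | .d1 => .pop .G' (fun o => if o.isSome then .ctl .d2 else .ctl .d3)
  | .d2 => .push .G tok (.ctl .d1)
  | .d3 => .pop .G (fun o => if o.isSome then .ctl .d4 else .hub)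
  | .d4 => .push .G' tok (.ctl .d5)
  | .d5 => .jump 0 1 (.ctl .d3)

/-- The deterministic program. -/
noncomputable def prog (Q : Finset Stmt') (st : MS Q) : MS Q → Instr (MS Q) Idx Γ'
  | .hub => .kill
  | .ctl i => progCtl Q st i
  | .sim q v => progSim Q q.1 v
  | .pb k γ q v => .push (tm k) γ (.sim q v)

/-- All rules: the deterministic ones and the four hub rules. -/
def rules (Q : Finset Stmt') (st : MS Q) (a : MS Q) (i : Instr (MS Q) Idx Γ') : Prop :=
  det .hub (prog Q st) a i ∨
    (a = .hub ∧ (i = .push .Z tok .hub ∨ i = .jump 0 0 (.ctl .a1) ∨ i = .jump 0 0 (.ctl .b1) ∨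
      i = .jump 0 0 (.ctl .d1)))

theorem finite_rules (Q : Finset Stmt') (st : MS Q) :
    {p : MS Q × Instr (MS Q) Idx Γ' | rules Q st p.1 p.2}.Finite := by
  have h1 : (Set.range (fun a : MS Q => (a, prog Q st a))).Finite := Set.finite_range _
  have h2 : ({(MS.hub, .push .Z tok .hub), (MS.hub, .jump 0 0 (.ctl .a1)),
    (MS.hub, .jump 0 0 (.ctl .b1)), (MS.hub, .jump 0 0 (.ctl .d1))} :
      Set (MS Q × Instr (MS Q) Idx Γ')).Finite := by
    exact Set.toFinite _
  refine (h1.union h2).subset ?_
  rintro ⟨a, i⟩ (⟨h, h'⟩ | ⟨h, h'⟩)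
  · left
    simp only at h'
    exact ⟨a, by simp [h']⟩
  · right
    simp only at h h'
    subst h
    rcases h' with h' | h' | h' | h' <;> subst h' <;> simp

section Sim

variable {Q : Finset Stmt'} {st : MS Q}

theorem mk_of_mem {q : Stmt'} (hq : q ∈ Q) (v : Option Γ') : mk Q q v = .sim ⟨q, hq⟩ v := by
  simp [mk, hq]

theorem mk_ne_hub {q : Stmt'} (hq : q ∈ Q) (v : Option Γ') : mk Q q v ≠ .hub := by
  rw [mk_of_mem hq]; exact fun h => by cases h

theorem prog_mk {q : Stmt'} (hq : q ∈ Q) (v : Option Γ') :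
    prog Q st (mk Q q v) = progSim Q q v := by
  rw [mk_of_mem hq]; rfl

/-- Closedness of the set of statements. -/
structure Closed (Q : Finset Stmt') : Prop where
  sub : ∀ q ∈ Q, ∀ q' ∈ TM2.stmts₁ q, q' ∈ Q
  goto : ∀ f : Option Γ' → Λ', (TM2.Stmt.goto f : Stmt') ∈ Q → ∀ v, tr (f v) ∈ Q

theorem sim_stmt (hQ : Closed Q) (y y' g g' z : List Γ') :
    ∀ (q : Stmt') (_ : q ∈ Q) (v : Option Γ') (S : K' → List Γ'),
    (∃ (f : Option Γ' → Λ') (v' : Option Γ') (S' : K' → List Γ'),
      TM2.stepAux q v S = ⟨some (f v'), v', S'⟩ ∧ (TM2.Stmt.goto f : Stmt') ∈ Q ∧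
      Run (det .hub (prog Q st)) (mk Q q v) (cf S y y' g g' z) 0 0
        (mk Q (TM2.Stmt.goto f) v') (cf S' y y' g g' z)) ∨
    (∃ (v' : Option Γ') (S' : K' → List Γ'), TM2.stepAux q v S = ⟨none, v', S'⟩ ∧
      Killed (det .hub (prog Q st)) (mk Q q v) (cf S y y' g g' z)) := by
  intro q
  induction q with
  | push k f q ih =>
    intro hq v S
    have hq' : q ∈ Q := hQ.sub _ hq _ (by simp [TM2.stmts₁, TM2.stmts₁_self])
    have h1 := run_push (mk_ne_hub hq v) (prog_mk (st := st) hq v) (cf S y y' g g' z)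
    simp only [cf_tm, update_cf_tm] at h1
    rcases ih hq' v (update S k (f v :: S k)) with ⟨f', v', S', e, hg, hr⟩ | ⟨v', S', e, hk⟩
    · exact Or.inl ⟨f', v', S', e, hg, by simpa using h1.trans hr⟩
    · exact Or.inr ⟨v', S', e, Killed.of_run h1 hk⟩
  | peek k f q ih =>
    intro hq v S
    have hq' : q ∈ Q := hQ.sub _ hq _ (by simp [TM2.stmts₁, TM2.stmts₁_self])
    have h1 := run_pop (mk_ne_hub hq v) (prog_mk (st := st) hq v) (cf S y y' g g' z)
    simp only [cf_tm, update_cf_tm] at h1
    have h2 : Run (det .hub (prog Q st)) (mk Q (TM2.Stmt.peek k f q) v) (cf S y y' g g' z) 0 0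
        (mk Q q (f v (S k).head?)) (cf S y y' g g' z) := by
      cases hS : S k with
      | nil =>
        have e : update S k [] = S := by rw [← hS]; exact update_eq_self _ _
        rw [hS] at h1
        simp only [List.head?_nil, List.tail_nil, Option.elim_none] at h1 ⊢
        rwa [e] at h1
      | cons x l =>
        rw [hS] at h1
        simp only [List.head?_cons, List.tail_cons, Option.elim_some] at h1 ⊢
        have h3 : Run (det .hub (prog Q st)) (mkpb Q k x q (f v (some x)))
            (cf (update S k l) y y' g g' z) 0 0 (mk Q q (f v (some x))) (cf S y y' g g' z) := by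
          have e1 : mkpb Q k x q (f v (some x)) = .pb k x ⟨q, hq'⟩ (f v (some x)) :=
            dif_pos hq'
          have e : update (update S k l) k (x :: l) = S := by
            rw [update_idem, ← hS]; exact update_eq_self _ _
          rw [e1, mk_of_mem hq']
          have h4 := run_push (hub := MS.hub) (prog := prog Q st)
            (a := MS.pb k x ⟨q, hq'⟩ (f v (some x))) (b := .sim ⟨q, hq'⟩ (f v (some x)))
            (s := tm k) (g := x) (fun h => by cases h) rfl (cf (update S k l) y y' g g' z)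
          simp only [cf_tm, update_cf_tm, update_self, e] at h4
          exact h4
        simpa using h1.trans h3
    rcases ih hq' (f v (S k).head?) S with ⟨f', v', S', e, hg, hr⟩ | ⟨v', S', e, hk⟩
    · exact Or.inl ⟨f', v', S', e, hg, by simpa using h2.trans hr⟩
    · exact Or.inr ⟨v', S', e, Killed.of_run h2 hk⟩
  | pop k f q ih =>
    intro hq v S
    have hq' : q ∈ Q := hQ.sub _ hq _ (by simp [TM2.stmts₁, TM2.stmts₁_self])
    have h1 := run_pop (mk_ne_hub hq v) (prog_mk (st := st) hq v) (cf S y y' g g' z)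
    simp only [cf_tm, update_cf_tm] at h1
    rcases ih hq' (f v (S k).head?) (update S k (S k).tail) with
      ⟨f', v', S', e, hg, hr⟩ | ⟨v', S', e, hk⟩
    · exact Or.inl ⟨f', v', S', e, hg, by simpa using h1.trans hr⟩
    · exact Or.inr ⟨v', S', e, Killed.of_run h1 hk⟩
  | load a q ih =>
    intro hq v S
    have hq' : q ∈ Q := hQ.sub _ hq _ (by simp [TM2.stmts₁, TM2.stmts₁_self])
    have h1 := run_jump (mk_ne_hub hq v) (prog_mk (st := st) hq v) (cf S y y' g g' z)
    rcases ih hq' (a v) S with ⟨f', v', S', e, hg, hr⟩ | ⟨v', S', e, hk⟩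
    · exact Or.inl ⟨f', v', S', e, hg, by simpa using h1.trans hr⟩
    · exact Or.inr ⟨v', S', e, Killed.of_run h1 hk⟩
  | branch f q₁ q₂ ih₁ ih₂ =>
    intro hq v S
    have hq₁ : q₁ ∈ Q := hQ.sub _ hq _ (by simp [TM2.stmts₁, TM2.stmts₁_self])
    have hq₂ : q₂ ∈ Q := hQ.sub _ hq _ (by simp [TM2.stmts₁, TM2.stmts₁_self])
    have h1 := run_jump (mk_ne_hub hq v) (prog_mk (st := st) hq v) (cf S y y' g g' z)
    simp only [TM2.stepAux]
    cases hf : f v with
    | true =>
      rw [hf] at h1
      simp only [cond_true] at h1 ⊢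
      rcases ih₁ hq₁ v S with ⟨f', v', S', e, hg, hr⟩ | ⟨v', S', e, hk⟩
      · exact Or.inl ⟨f', v', S', e, hg, by simpa using h1.trans hr⟩
      · exact Or.inr ⟨v', S', e, Killed.of_run h1 hk⟩
    | false =>
      rw [hf] at h1
      simp only [cond_false] at h1 ⊢
      rcases ih₂ hq₂ v S with ⟨f', v', S', e, hg, hr⟩ | ⟨v', S', e, hk⟩
      · exact Or.inl ⟨f', v', S', e, hg, by simpa using h1.trans hr⟩
      · exact Or.inr ⟨v', S', e, Killed.of_run h1 hk⟩
  | goto f =>
    intro hq v S
    exact Or.inl ⟨f, v, S, rfl, hq, Run.refl _ _⟩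
  | halt =>
    intro hq v S
    exact Or.inr ⟨v, S, rfl, 0, 0, _, _, Run.refl _ _, mk_ne_hub hq v,
      (prog_mk (st := st) hq v).symm⟩

/-- The clocked simulation from any label: ends at the hub, or the simulated machine halts. -/
theorem sim_fuel (hQ : Closed Q) (y y' g g' : List Γ') :
    ∀ (z : List Γ') (l : Λ') (_ : tr l ∈ Q) (v : Option Γ') (S : K' → List Γ'),
    (∃ S' : K' → List Γ', Run (det .hub (prog Q st)) (mk Q (tr l) v) (cf S y y' g g' z) 0 0
        .hub (cf S' y y' g g' [])) ∨
    (Killed (det .hub (prog Q st)) (mk Q (tr l) v) (cf S y y' g g' z) ∧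
      (StateTransition.eval (TM2.step tr) ⟨some l, v, S⟩).Dom) := by
  intro z
  induction z with
  | nil =>
    intro l hl v S
    rcases sim_stmt (st := st) hQ y y' g g' [] (tr l) hl v S with
      ⟨f, v', S', e, hg, hr⟩ | ⟨v', S', e, hk⟩
    · left
      have h1 := run_pop (mk_ne_hub hg v') (prog_mk (st := st) hg v') (cf S' y y' g g' [])
      simp only [cf_Z, update_cf_Z, List.head?_nil, List.tail_nil, Option.elim_none] at h1
      exact ⟨S', by simpa using hr.trans h1⟩
    · right
      refine ⟨hk, ?_⟩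
      rw [Part.dom_iff_mem]
      refine ⟨_, StateTransition.mem_eval.2 ⟨Relation.ReflTransGen.single
        (b := ⟨none, v', S'⟩) ?_, rfl⟩⟩
      simp only [TM2.step, Option.mem_def, Option.some.injEq]
      exact e
  | cons t z ih =>
    intro l hl v S
    rcases sim_stmt (st := st) hQ y y' g g' (t :: z) (tr l) hl v S with
      ⟨f, v', S', e, hg, hr⟩ | ⟨v', S', e, hk⟩
    · have h1 := run_pop (mk_ne_hub hg v') (prog_mk (st := st) hg v') (cf S' y y' g g' (t :: z))
      simp only [cf_Z, update_cf_Z, List.head?_cons, List.tail_cons, Option.elim_some] at h1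
      rcases ih (f v') (hQ.goto f hg v') v' S' with ⟨S'', h2⟩ | ⟨h2, h3⟩
      · exact Or.inl ⟨S'', by simpa using (hr.trans h1).trans h2⟩
      · right
        refine ⟨Killed.of_run (hr.trans h1) h2, ?_⟩
        have hs : StateTransition.Reaches (TM2.step tr) ⟨some l, v, S⟩ ⟨some (f v'), v', S'⟩ := by
          refine Relation.ReflTransGen.single ?_
          simp only [TM2.step, Option.mem_def, Option.some.injEq]
          exact e
        rw [StateTransition.reaches_eval hs]
        exact h3
    · right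
      refine ⟨hk, ?_⟩
      rw [Part.dom_iff_mem]
      refine ⟨_, StateTransition.mem_eval.2 ⟨Relation.ReflTransGen.single
        (b := ⟨none, v', S'⟩) ?_, rfl⟩⟩
      simp only [TM2.step, Option.mem_def, Option.some.injEq]
      exact e

/-- If the simulated machine halts, enough fuel leads to a kill. -/
theorem sim_halt (hQ : Closed Q) (y y' g g' : List Γ') {b : Cfg'} :
    ∀ (c : Cfg'), StateTransition.Reaches (TM2.step tr) c b → TM2.step tr b = none →
    ∀ (l : Λ') (v : Option Γ') (S : K' → List Γ'), c = ⟨some l, v, S⟩ → tr l ∈ Q →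
    ∃ N : ℕ, ∀ z : List Γ', N ≤ z.length →
      Killed (det .hub (prog Q st)) (mk Q (tr l) v) (cf S y y' g g' z) := by
  intro c hc hb
  induction hc using Relation.ReflTransGen.head_induction_on with
  | refl =>
    intro l v S h _
    subst h
    simp [TM2.step] at hb
  | head h1 h2 ih =>
    intro l v S h hl
    subst h
    rename_i c'
    replace h1 : TM2.stepAux (tr l) v S = c' := Option.some.inj h1
    by_cases hn : c'.l = none
    · refine ⟨0, fun z _ => ?_⟩
      rcases sim_stmt (st := st) hQ y y' g g' z (tr l) hl v S with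
        ⟨f, v', S', e, hg, hr⟩ | ⟨v', S', e, hk⟩
      · rw [h1] at e
        rw [e] at hn
        cases hn
      · exact hk
    · rcases hc' : c' with ⟨l', v', S'⟩
      rw [hc'] at hn
      cases l' with
      | none => exact absurd rfl hn
      | some l' =>
        have hl' : tr l' ∈ Q := by
          rcases sim_stmt (st := st) hQ y y' g g' [] (tr l) hl v S with
            ⟨f, v2, S2, e, hg, hr⟩ | ⟨v2, S2, e, hk⟩
          · rw [h1, hc'] at e
            simp only [TM2.Cfg.mk.injEq, Option.some.injEq] at e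
            rw [e.1]
            exact hQ.goto f hg v2
          · rw [h1, hc'] at e
            cases e
        obtain ⟨N, hN⟩ := ih l' v' S' hc' hl'
        refine ⟨N + 1, fun z hz => ?_⟩
        rcases sim_stmt (st := st) hQ y y' g g' z (tr l) hl v S with
          ⟨f, v2, S2, e, hg, hr⟩ | ⟨v2, S2, e, hk⟩
        · rw [h1, hc'] at e
          simp only [TM2.Cfg.mk.injEq, Option.some.injEq] at e
          obtain ⟨rfl, rfl, rfl⟩ := e
          cases z with
          | nil => simp at hz
          | cons t z =>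
            have h3 := run_pop (mk_ne_hub hg v') (prog_mk (st := st) hg v')
              (cf S' y y' g g' (t :: z))
            simp only [cf_Z, update_cf_Z, List.head?_cons, List.tail_cons,
              Option.elim_some] at h3
            exact Killed.of_run (hr.trans h3) (hN z (by simpa using hz))
        · exact hk

end Sim

section Facts

variable {Q : Finset Stmt'} {st : MS Q}

theorem ctl_ne (i : Ctl) : (MS.ctl i : MS Q) ≠ .hub := fun h => by cases h

/-- The loading run. -/
theorem run_A (S : K' → List Γ') (y y' g g' z : List Γ') :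
    Run (det .hub (prog Q st)) (.ctl .a1) (cf S y y' g g' z) 0 0 st
      (cf (K'.elim (List.replicate (g'.length + g.length) Γ'.bit0 ++ [Γ'.bit1, Γ'.cons] ++
          (List.replicate (y'.length + y.length) Γ'.bit0 ++ [Γ'.bit1, Γ'.cons])) [] [] [])
        [] (List.replicate (y'.length + y.length) tok)
        [] (List.replicate (g'.length + g.length) tok) z) := by
  have h1 := loop_move (hub := MS.hub) (prog := prog Q st) (a := .ctl .a1) (b := .ctl .a2)
    (e := .ctl .a3) (s := .Y') (t := .Y) (g := tok) (ctl_ne _) (ctl_ne _) (by decide) rfl rfl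
    (cf S y y' g g' z)
  simp only [cf_Y', cf_Y, update_cf_Y', update_cf_Y] at h1
  have h2 := loop_move (hub := MS.hub) (prog := prog Q st) (a := .ctl .a3) (b := .ctl .a4)
    (e := .ctl .c1) (s := .G') (t := .G) (g := tok) (ctl_ne _) (ctl_ne _) (by decide) rfl rfl
    (cf S (List.replicate y'.length tok ++ y) [] g g' z)
  simp only [cf_G', cf_G, update_cf_G', update_cf_G] at h2
  set Y1 := List.replicate y'.length tok ++ y with hY1
  set G1 := List.replicate g'.length tok ++ g with hG1
  have h3 := loop_clear (hub := MS.hub) (prog := prog Q st) (a := .ctl .c1)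
    (e := .ctl .c2) (s := .main) (ctl_ne _) rfl (cf S Y1 [] G1 [] z)
  have h4 := loop_clear (hub := MS.hub) (prog := prog Q st) (a := .ctl .c2)
    (e := .ctl .c3) (s := .rev) (ctl_ne _) rfl (cf (update S .main []) Y1 [] G1 [] z)
  have h5 := loop_clear (hub := MS.hub) (prog := prog Q st) (a := .ctl .c3)
    (e := .ctl .c4) (s := .aux) (ctl_ne _) rfl
    (cf (update (update S .main []) .rev []) Y1 [] G1 [] z)
  have h6 := loop_clear (hub := MS.hub) (prog := prog Q st) (a := .ctl .c4)
    (e := .ctl .p1) (s := .stack) (ctl_ne _) rfl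
    (cf (update (update (update S .main []) .rev []) .aux []) Y1 [] G1 [] z)
  simp only [update_cf_main, update_cf_rev, update_cf_aux, update_cf_stack] at h3 h4 h5 h6
  have e0 : update (update (update (update S .main []) .rev []) .aux []) .stack []
      = K'.elim [] [] [] [] := by
    funext k; cases k <;> simp [update]
  rw [e0] at h6
  have h7 := run_push (hub := MS.hub) (prog := prog Q st) (a := .ctl .p1) (b := .ctl .p2)
    (s := .main) (g := Γ'.cons) (ctl_ne _) rfl (cf (K'.elim [] [] [] []) Y1 [] G1 [] z)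
  simp only [cf_main, update_cf_main, K'.elim_main, K'.elim_update_main] at h7
  have h8 := run_push (hub := MS.hub) (prog := prog Q st) (a := .ctl .p2) (b := .ctl .y1)
    (s := .main) (g := Γ'.bit1) (ctl_ne _) rfl (cf (K'.elim [Γ'.cons] [] [] []) Y1 [] G1 [] z)
  simp only [cf_main, update_cf_main, K'.elim_main, K'.elim_update_main] at h8
  have h9 := loop_move2 (hub := MS.hub) (prog := prog Q st) (a := .ctl .y1) (b := .ctl .y2)
    (c := .ctl .y3) (e := .ctl .q1) (s := .Y) (t := .Y') (u := .main) (g := tok)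
    (x' := Γ'.bit0) (ctl_ne _) (ctl_ne _) (ctl_ne _) (by decide) (by decide) (by decide)
    rfl rfl rfl (cf (K'.elim [Γ'.bit1, Γ'.cons] [] [] []) Y1 [] G1 [] z)
  simp only [cf_Y, cf_Y', cf_main, update_cf_Y, update_cf_Y', update_cf_main, K'.elim_main,
    K'.elim_update_main, List.append_nil] at h9
  have lY : Y1.length = y'.length + y.length := by simp [hY1]
  have lG : G1.length = g'.length + g.length := by simp [hG1]
  rw [lY] at h9
  set M1 := List.replicate (y'.length + y.length) Γ'.bit0 ++ [Γ'.bit1, Γ'.cons] with hM1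
  set Y2 := List.replicate (y'.length + y.length) tok with hY2
  have h10 := run_push (hub := MS.hub) (prog := prog Q st) (a := .ctl .q1) (b := .ctl .q2)
    (s := .main) (g := Γ'.cons) (ctl_ne _) rfl (cf (K'.elim M1 [] [] []) [] Y2 G1 [] z)
  simp only [cf_main, update_cf_main, K'.elim_main, K'.elim_update_main] at h10
  have h11 := run_push (hub := MS.hub) (prog := prog Q st) (a := .ctl .q2) (b := .ctl .g1)
    (s := .main) (g := Γ'.bit1) (ctl_ne _) rfl
    (cf (K'.elim (Γ'.cons :: M1) [] [] []) [] Y2 G1 [] z)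
  simp only [cf_main, update_cf_main, K'.elim_main, K'.elim_update_main] at h11
  have h12 := loop_move2 (hub := MS.hub) (prog := prog Q st) (a := .ctl .g1) (b := .ctl .g2)
    (c := .ctl .g3) (e := st) (s := .G) (t := .G') (u := .main) (g := tok)
    (x' := Γ'.bit0) (ctl_ne _) (ctl_ne _) (ctl_ne _) (by decide) (by decide) (by decide)
    rfl rfl rfl (cf (K'.elim (Γ'.bit1 :: Γ'.cons :: M1) [] [] []) [] Y2 G1 [] z)
  simp only [cf_G, cf_G', cf_main, update_cf_G, update_cf_G', update_cf_main, K'.elim_main,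
    K'.elim_update_main, List.append_nil] at h12
  rw [lG] at h12
  have := (((((((((((h1.trans h2).trans h3).trans h4).trans h5).trans h6).trans h7).trans
    h8).trans h9).trans h10).trans h11)).trans h12
  simpa using this

/-- The weight run for `Y`. -/
theorem run_B (S : K' → List Γ') (y y' g g' z : List Γ') :
    Run (det .hub (prog Q st)) (.ctl .b1) (cf S y y' g g' z) (y'.length + y.length) 0 .hub
      (cf S [] (List.replicate (y'.length + y.length) tok) g g' z) := by
  have h1 := loop_move (hub := MS.hub) (prog := prog Q st) (a := .ctl .b1) (b := .ctl .b2)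
    (e := .ctl .b3) (s := .Y') (t := .Y) (g := tok) (ctl_ne _) (ctl_ne _) (by decide) rfl rfl
    (cf S y y' g g' z)
  simp only [cf_Y', cf_Y, update_cf_Y', update_cf_Y] at h1
  have h2 := loop_weight (hub := MS.hub) (prog := prog Q st) (a := .ctl .b3) (b := .ctl .b4)
    (c := .ctl .b5) (e := .hub) (s := .Y) (t := .Y') (g := tok) (k := 1) (n := 0)
    (ctl_ne _) (ctl_ne _) (ctl_ne _) (by decide) rfl rfl rfl
    (cf S (List.replicate y'.length tok ++ y) [] g g' z)
  simp only [cf_Y', cf_Y, update_cf_Y', update_cf_Y, List.append_nil] at h2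
  have := h1.trans h2
  simpa using this

/-- The weight run for `G`. -/
theorem run_D (S : K' → List Γ') (y y' g g' z : List Γ') :
    Run (det .hub (prog Q st)) (.ctl .d1) (cf S y y' g g' z) 0 (g'.length + g.length) .hub
      (cf S y y' [] (List.replicate (g'.length + g.length) tok) z) := by
  have h1 := loop_move (hub := MS.hub) (prog := prog Q st) (a := .ctl .d1) (b := .ctl .d2)
    (e := .ctl .d3) (s := .G') (t := .G) (g := tok) (ctl_ne _) (ctl_ne _) (by decide) rfl rfl
    (cf S y y' g g' z)
  simp only [cf_G', cf_G, update_cf_G', update_cf_G] at h1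
  have h2 := loop_weight (hub := MS.hub) (prog := prog Q st) (a := .ctl .d3) (b := .ctl .d4)
    (c := .ctl .d5) (e := .hub) (s := .G) (t := .G') (g := tok) (k := 0) (n := 1)
    (ctl_ne _) (ctl_ne _) (ctl_ne _) (by decide) rfl rfl rfl
    (cf S y y' (List.replicate g'.length tok ++ g) [] z)
  simp only [cf_G', cf_G, update_cf_G', update_cf_G, List.append_nil] at h2
  have := h1.trans h2
  simpa using this

/-- Every configuration with this state runs to the hub or to a kill. -/
def Good (Q : Finset Stmt') (st a : MS Q) : Prop :=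
  ∀ w, Killed (det .hub (prog Q st)) a w ∨
    ∃ k n w', Run (det .hub (prog Q st)) a w k n .hub w'

theorem Good.of_run {a b : MS Q} (hb : Good Q st b)
    (h : ∀ w, ∃ k n w', Run (det .hub (prog Q st)) a w k n b w') : Good Q st a := by
  intro w
  obtain ⟨k, n, w', h1⟩ := h w
  rcases hb w' with h2 | ⟨k', n', w'', h2⟩
  · exact Or.inl (Killed.of_run h1 h2)
  · exact Or.inr ⟨_, _, _, h1.trans h2⟩

theorem good_hub : Good Q st .hub := fun w => Or.inr ⟨0, 0, w, Run.refl _ _⟩

theorem good_mk (hQ : Closed Q) {q : Stmt'} (hq : q ∈ Q) (v : Option Γ') :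
    Good Q st (mk Q q v) := by
  intro w
  rw [eq_cf w]
  rcases sim_stmt (st := st) hQ (w .Y) (w .Y') (w .G) (w .G') (w .Z) q hq v
    (fun k => w (tm k)) with ⟨f, v', S', e, hg, hr⟩ | ⟨v', S', e, hk⟩
  · have h1 := run_pop (mk_ne_hub hg v') (prog_mk (st := st) hg v')
      (cf S' (w .Y) (w .Y') (w .G) (w .G') (w .Z))
    simp only [cf_Z, update_cf_Z] at h1
    cases hz : w .Z with
    | nil =>
      rw [hz] at h1 hr
      simp only [List.head?_nil, Option.elim_none] at h1
      exact Or.inr ⟨_, _, _, hr.trans h1⟩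
    | cons t z =>
      rw [hz] at h1 hr
      simp only [List.head?_cons, Option.elim_some, List.tail_cons] at h1
      rcases sim_fuel (st := st) hQ (w .Y) (w .Y') (w .G) (w .G') z (f v')
        (hQ.goto f hg v') v' S' with ⟨S'', h2⟩ | ⟨h2, h3⟩
      · exact Or.inr ⟨_, _, _, (hr.trans h1).trans h2⟩
      · exact Or.inl (Killed.of_run (hr.trans h1) h2)
  · exact Or.inl hk

theorem good_all (hQ : Closed Q) {l : Λ'} (hl : tr l ∈ Q)
    (hst : st = mk Q (tr l) none) (a : MS Q) : Good Q st a := by
  have gst : Good Q st st := by rw [hst]; exact good_mk hQ hl none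
  have psh : ∀ (i : Ctl) (b : MS Q) (s : Idx) (x : Γ'), progCtl Q st i = .push s x b →
      Good Q st b → Good Q st (.ctl i) := fun i b s x h hb =>
    hb.of_run fun w => ⟨_, _, _, run_push (ctl_ne i) h w⟩
  have clr : ∀ (i : Ctl) (b : MS Q) (s : Idx),
      progCtl Q st i = .pop s (fun o => if o.isSome then .ctl i else b) →
      Good Q st b → Good Q st (.ctl i) := fun i b s h hb =>
    hb.of_run fun w => ⟨_, _, _, loop_clear (ctl_ne i) h w⟩
  have gg1 : Good Q st (.ctl .g1) := gst.of_run fun w => ⟨_, _, _,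
    loop_move2 (b := .ctl .g2) (c := .ctl .g3) (t := .G') (u := .main) (ctl_ne _) (ctl_ne _)
      (ctl_ne _) (by decide) (by decide) (by decide) rfl rfl rfl w⟩
  have gg3 : Good Q st (.ctl .g3) := psh _ _ _ _ rfl gg1
  have gg2 : Good Q st (.ctl .g2) := psh _ _ _ _ rfl gg3
  have gq2 : Good Q st (.ctl .q2) := psh _ _ _ _ rfl gg1
  have gq1 : Good Q st (.ctl .q1) := psh _ _ _ _ rfl gq2
  have gy1 : Good Q st (.ctl .y1) := gq1.of_run fun w => ⟨_, _, _,
    loop_move2 (b := .ctl .y2) (c := .ctl .y3) (t := .Y') (u := .main) (ctl_ne _) (ctl_ne _)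
      (ctl_ne _) (by decide) (by decide) (by decide) rfl rfl rfl w⟩
  have gy3 : Good Q st (.ctl .y3) := psh _ _ _ _ rfl gy1
  have gy2 : Good Q st (.ctl .y2) := psh _ _ _ _ rfl gy3
  have gp2 : Good Q st (.ctl .p2) := psh _ _ _ _ rfl gy1
  have gp1 : Good Q st (.ctl .p1) := psh _ _ _ _ rfl gp2
  have gc4 : Good Q st (.ctl .c4) := clr _ _ _ rfl gp1
  have gc3 : Good Q st (.ctl .c3) := clr _ _ _ rfl gc4
  have gc2 : Good Q st (.ctl .c2) := clr _ _ _ rfl gc3
  have gc1 : Good Q st (.ctl .c1) := clr _ _ _ rfl gc2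
  have ga3 : Good Q st (.ctl .a3) := gc1.of_run fun w => ⟨_, _, _,
    loop_move (b := .ctl .a4) (t := .G) (ctl_ne _) (ctl_ne _) (by decide) rfl rfl w⟩
  have ga4 : Good Q st (.ctl .a4) := psh _ _ _ _ rfl ga3
  have ga1 : Good Q st (.ctl .a1) := ga3.of_run fun w => ⟨_, _, _,
    loop_move (b := .ctl .a2) (t := .Y) (ctl_ne _) (ctl_ne _) (by decide) rfl rfl w⟩
  have ga2 : Good Q st (.ctl .a2) := psh _ _ _ _ rfl ga1
  have gb3 : Good Q st (.ctl .b3) := good_hub.of_run fun w => ⟨_, _, _,
    loop_weight (b := .ctl .b4) (c := .ctl .b5) (t := .Y') (ctl_ne _) (ctl_ne _) (ctl_ne _)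
      (by decide) rfl rfl rfl w⟩
  have gb5 : Good Q st (.ctl .b5) := gb3.of_run fun w => ⟨1, 0, w,
    run_jump (hub := MS.hub) (prog := prog Q st) (a := .ctl .b5) (b := .ctl .b3) (ctl_ne _) rfl w⟩
  have gb4 : Good Q st (.ctl .b4) := psh _ _ _ _ rfl gb5
  have gb1 : Good Q st (.ctl .b1) := gb3.of_run fun w => ⟨_, _, _,
    loop_move (b := .ctl .b2) (t := .Y) (ctl_ne _) (ctl_ne _) (by decide) rfl rfl w⟩
  have gb2 : Good Q st (.ctl .b2) := psh _ _ _ _ rfl gb1
  have gd3 : Good Q st (.ctl .d3) := good_hub.of_run fun w => ⟨_, _, _,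
    loop_weight (b := .ctl .d4) (c := .ctl .d5) (t := .G') (ctl_ne _) (ctl_ne _) (ctl_ne _)
      (by decide) rfl rfl rfl w⟩
  have gd5 : Good Q st (.ctl .d5) := gd3.of_run fun w => ⟨0, 1, w,
    run_jump (hub := MS.hub) (prog := prog Q st) (a := .ctl .d5) (b := .ctl .d3) (ctl_ne _) rfl w⟩
  have gd4 : Good Q st (.ctl .d4) := psh _ _ _ _ rfl gd5
  have gd1 : Good Q st (.ctl .d1) := gd3.of_run fun w => ⟨_, _, _,
    loop_move (b := .ctl .d2) (t := .G) (ctl_ne _) (ctl_ne _) (by decide) rfl rfl w⟩
  have gd2 : Good Q st (.ctl .d2) := psh _ _ _ _ rfl gd1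
  cases a with
  | hub => exact good_hub
  | ctl i => cases i <;> assumption
  | sim q v =>
    have := good_mk (st := st) hQ q.2 v
    rwa [mk_of_mem q.2] at this
  | pb k γ q v =>
    have := good_mk (st := st) hQ q.2 v
    rw [mk_of_mem q.2] at this
    exact this.of_run fun w => ⟨_, _, _, run_push (hub := MS.hub) (prog := prog Q st)
      (a := MS.pb k γ q v) (b := .sim q v) (s := tm k) (g := γ) (fun h => by cases h) rfl w⟩

end Facts

end Pool.Agent.SolIndex.Blk
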