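import Pool.Agent.SolIndex.Defs
import Pool.Agent.SolIndex.Block
import Pool.Agent.SolIndex.DeadPred

/-!
# Existence of the machine (MP_6facb1_lc, work package WP8)
-/

set_option autoImplicit false

namespace Pool.Agent.SolIndex

open Turing Turing.PartrecToTM2 Function

namespace Blk

section Translate

variable {S ι : Type} [DecidableEq ι]

/-- translation of instructions to rules -/
def Instr.toRule (a : S) : Instr S ι Γ' → Rule S ι
  | .jump k n b => .jump a b k n
  | .kill => .kill a
  | .push s g b => .push a s g b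
  | .pop s f => .pop a s f

/-- the indexed family of rules of a rule predicate -/
def ruleOf (R : S → Instr S ι Γ' → Prop) (p : {p : S × Instr S ι Γ' // R p.1 p.2}) : Rule S ι :=
  Instr.toRule p.1.1 p.1.2

variable {R : S → Instr S ι Γ' → Prop}

theorem reach_of_run {a : S} {w : ι → List Γ'} {k n : ℕ} {b : S} {w' : ι → List Γ'}
    (h : Run R a w k n b w') : Reach (ruleOf R) a w k n b w' := by
  induction h with
  | refl a w => exact Reach.refl a w
  | @head a w i k n b w' k' n' c w'' h1 h2 h3 ih =>
    cases i with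
    | jump k1 n1 b1 =>
      simp only [Instr.exec_jump, Option.some.injEq, Prod.mk.injEq] at h2
      obtain ⟨rfl, rfl, rfl, rfl⟩ := h2
      exact Reach.jump (i := ⟨(a, _), h1⟩) rfl ih
    | kill => simp at h2
    | push s g b1 =>
      simp only [Instr.exec_push, Option.some.injEq, Prod.mk.injEq] at h2
      obtain ⟨rfl, rfl, rfl, rfl⟩ := h2
      have := Reach.push (rule := ruleOf R) (i := ⟨(a, _), h1⟩) rfl ih
      simpa using this
    | pop s f =>
      simp only [Instr.exec_pop, Option.some.injEq, Prod.mk.injEq] at h2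
      obtain ⟨rfl, rfl, rfl, rfl⟩ := h2
      cases hw : w s with
      | nil =>
        rw [hw] at ih
        simp only [List.head?_nil, List.tail_nil] at ih
        have e : update w s [] = w := by rw [← hw]; exact update_eq_self _ _
        rw [e] at ih
        have := Reach.popn (rule := ruleOf R) (i := ⟨(a, _), h1⟩) rfl hw ih
        simpa using this
      | cons x l =>
        rw [hw] at ih
        simp only [List.head?_cons, List.tail_cons] at ih
        have := Reach.popc (rule := ruleOf R) (i := ⟨(a, _), h1⟩) rfl hw ih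
        simpa using this

theorem killed_of_killed {a : S} {w : ι → List Γ'} (h : Killed R a w) :
    SolIndex.Killed (ruleOf R) a w := by
  obtain ⟨k, n, b, w', h1, h2⟩ := h
  exact ⟨k, n, b, w', ⟨(b, .kill), h2⟩, reach_of_run h1, rfl⟩

open Classical in
/-- The potential of a deterministic machine. -/
noncomputable def Lam {K : Type} [Field K] (hub : S) (prog : S → Instr S ι Γ') (κ ν : K)
    (T : (ι → List Γ') → Prop) (a : S) (w : ι → List Γ') : K :=
  if h : ∃ (p : ℕ × ℕ) (w' : ι → List Γ'), Run (det hub prog) a w p.1 p.2 hub w' ∧ T w' then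
    κ ^ h.choose.1 * ν ^ h.choose.2 else 0

variable {K : Type} [Field K] {hub : S} {prog : S → Instr S ι Γ'} {κ ν : K}
  {T : (ι → List Γ') → Prop}

theorem Lam_run {a : S} {w : ι → List Γ'} {k n : ℕ} {w' : ι → List Γ'}
    (h : Run (det hub prog) a w k n hub w') (hT : T w') :
    Lam hub prog κ ν T a w = κ ^ k * ν ^ n := by
  have hex : ∃ (p : ℕ × ℕ) (w' : ι → List Γ'), Run (det hub prog) a w p.1 p.2 hub w' ∧ T w' :=
    ⟨(k, n), w', h, hT⟩
  unfold Lam
  rw [dif_pos hex]
  obtain ⟨w2, h2, -⟩ := hex.choose_spec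
  obtain ⟨e1, e2, -⟩ := det_run_unique h h2
  rw [e1, e2]

theorem Lam_run' {a : S} {w : ι → List Γ'} {k n : ℕ} {w' : ι → List Γ'}
    (h : Run (det hub prog) a w k n hub w') (hT : ¬ T w') :
    Lam hub prog κ ν T a w = 0 := by
  unfold Lam
  rw [dif_neg]
  rintro ⟨⟨k2, n2⟩, w2, h2, h3⟩
  obtain ⟨-, -, rfl⟩ := det_run_unique h h2
  exact hT h3

theorem Lam_killed {a : S} {w : ι → List Γ'} (h : Killed (det hub prog) a w) :
    Lam hub prog κ ν T a w = 0 := by
  unfold Lam
  rw [dif_neg]
  rintro ⟨⟨k2, n2⟩, w2, h2, h3⟩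
  exact det_killed_not h h2

theorem Lam_step {a : S} {w : ι → List Γ'} {k n : ℕ} {b : S} {w' : ι → List Γ'} (ha : a ≠ hub)
    (h : (prog a).exec w = some (k, n, b, w')) :
    Lam hub prog κ ν T a w = κ ^ k * ν ^ n * Lam hub prog κ ν T b w' := by
  by_cases hb : ∃ (k n : ℕ) (w'' : ι → List Γ'), Run (det hub prog) b w' k n hub w'' ∧ T w''
  · obtain ⟨k', n', w'', h1, h2⟩ := hb
    rw [Lam_run h1 h2, Lam_run (Run.head ⟨ha, rfl⟩ h h1) h2]
    ring
  · have e1 : Lam hub prog κ ν T b w' = 0 := by
      unfold Lam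
      rw [dif_neg]
      rintro ⟨⟨k2, n2⟩, w2, h2, h3⟩
      exact hb ⟨k2, n2, w2, h2, h3⟩
    rw [e1, mul_zero]
    unfold Lam
    rw [dif_neg]
    rintro ⟨⟨k2, n2⟩, w2, h2, h3⟩
    cases h2 with
    | refl => exact ha rfl
    | head g1 g2 g3 =>
      rw [g1.2, h] at g2
      simp only [Option.some.injEq, Prod.mk.injEq] at g2
      obtain ⟨rfl, rfl, rfl, rfl⟩ := g2
      exact hb ⟨_, _, _, g3, h3⟩

end Translate

/-- total number of tokens -/
def ytot (w : Idx → List Γ') : ℕ := (w .Y').length + (w .Y).length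
/-- total number of tokens -/
def gtot (w : Idx → List Γ') : ℕ := (w .G').length + (w .G).length

@[simp] theorem ytot_cf (S : K' → List Γ') (y y' g g' z : List Γ') :
    ytot (cf S y y' g g' z) = y'.length + y.length := rfl
@[simp] theorem gtot_cf (S : K' → List Γ') (y y' g g' z : List Γ') :
    gtot (cf S y y' g g' z) = g'.length + g.length := rfl

open Classical in
/-- the statements of the simulated machine -/
noncomputable def QQ (c : ToPartrec.Code) : Finset Stmt' :=
  (codeSupp c Cont'.halt).biUnion fun l => TM2.stmts₁ (tr l)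

open Classical in
theorem mem_QQ {c : ToPartrec.Code} {q : Stmt'} :
    q ∈ QQ c ↔ ∃ l ∈ codeSupp c Cont'.halt, q ∈ TM2.stmts₁ (tr l) := by
  unfold QQ
  exact Finset.mem_biUnion

theorem closed_QQ (c : ToPartrec.Code) : Closed (QQ c) := by
  constructor
  · intro q hq q' hq'
    obtain ⟨l, hl, h⟩ := mem_QQ.1 hq
    exact mem_QQ.2 ⟨l, hl, TM2.stmts₁_trans h hq'⟩
  · intro f hf v
    obtain ⟨l, hl, h⟩ := mem_QQ.1 hf
    have h1 := (tr_supports c Cont'.halt).2 l hl
    have h2 := TM2.stmts₁_supportsStmt_mono h h1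
    exact mem_QQ.2 ⟨f v, h2 v, TM2.stmts₁_self⟩

theorem start_mem (c : ToPartrec.Code) : tr (trNormal c Cont'.halt) ∈ QQ c :=
  mem_QQ.2 ⟨_, (tr_supports c Cont'.halt).1, TM2.stmts₁_self⟩

/-- the start state of the simulation -/
noncomputable def start (c : ToPartrec.Code) : MS (QQ c) :=
  mk (QQ c) (tr (trNormal c Cont'.halt)) none

theorem dom_iff (c : ToPartrec.Code) (v : List ℕ) :
    (StateTransition.eval (TM2.step tr) ⟨some (trNormal c Cont'.halt), none,
      K'.elim (trList v) [] [] []⟩).Dom ↔ (c.eval v).Dom := by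
  have h := tr_eval c v
  unfold init at h
  rw [h]
  exact Iff.rfl

/-- outcome of the A-run -/
theorem A_outcome (c : ToPartrec.Code) (w : Idx → List Γ') :
    (∃ w', Run (det .hub (prog (QQ c) (start c))) (.ctl .a1) w 0 0 .hub w' ∧
      ytot w' = ytot w ∧ gtot w' = gtot w) ∨
    (Killed (det .hub (prog (QQ c) (start c))) (.ctl .a1) w ∧
      (c.eval [2 ^ gtot w, 2 ^ ytot w]).Dom) := by
  rw [eq_cf w]
  set y := w .Y
  set y' := w .Y'
  set g := w .G
  set g' := w .G'
  set z := w .Z
  have h1 := run_A (Q := QQ c) (st := start c) (fun k => w (tm k)) y y' g g' z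
  rcases sim_fuel (st := start c) (closed_QQ c) [] (List.replicate (y'.length + y.length) tok) []
    (List.replicate (g'.length + g.length) tok) z (trNormal c Cont'.halt) (start_mem c) none
    (K'.elim (List.replicate (g'.length + g.length) Γ'.bit0 ++ [Γ'.bit1, Γ'.cons] ++
          (List.replicate (y'.length + y.length) Γ'.bit0 ++ [Γ'.bit1, Γ'.cons])) [] [] []) with
    ⟨S', h2⟩ | ⟨h2, h3⟩
  · left
    exact ⟨_, h1.trans h2, by simp, by simp⟩
  · right
    refine ⟨Killed.of_run h1 h2, ?_⟩
    rw [← dom_iff, trList_two_pow]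
    simpa using h3

theorem rules_det (c : ToPartrec.Code) (a : MS (QQ c)) (i : Instr (MS (QQ c)) Idx Γ')
    (h : det .hub (prog (QQ c) (start c)) a i) : rules (QQ c) (start c) a i := Or.inl h

theorem push_fuel (c : ToPartrec.Code) (S : K' → List Γ') (y y' g g' z : List Γ') (N : ℕ) :
    Run (rules (QQ c) (start c)) .hub (cf S y y' g g' z) 0 0 .hub
      (cf S y y' g g' (List.replicate N tok ++ z)) := by
  induction N with
  | zero => exact Run.refl _ _
  | succ N ih =>
    have h1 : Run (rules (QQ c) (start c)) .hub (cf S y y' g g' (List.replicate N tok ++ z)) 0 0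
        .hub (cf S y y' g g' (List.replicate (N + 1) tok ++ z)) := by
      refine Run.single (i := .push .Z tok .hub) (Or.inr ⟨rfl, Or.inl rfl⟩) ?_
      simp [List.replicate_succ]
    simpa using ih.trans h1

/-- The machine of a code. -/
theorem exists_machine_code (c : ToPartrec.Code) :
    Mach (ruleOf (rules (QQ c) (start c))) MS.hub gtot ytot
      (fun g y => (c.eval [2 ^ g, 2 ^ y]).Dom) := by
  refine ⟨?_, ?_, ?_, ?_, ?_, ?_⟩
  · intro a w
    rcases good_all (closed_QQ c) (start_mem c) rfl a w with h | ⟨k, n, w', h⟩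
    · exact Or.inl (killed_of_killed (h.mono (rules_det c)))
    · exact Or.inr ⟨k, n, w', reach_of_run (h.mono (rules_det c))⟩
  · intro w hD
    apply killed_of_killed
    rw [← dom_iff, trList_two_pow] at hD
    obtain ⟨b, hb⟩ := Part.dom_iff_mem.1 hD
    obtain ⟨hb1, hb2⟩ := StateTransition.mem_eval.1 hb
    obtain ⟨N, hN⟩ := sim_halt (st := start c) (closed_QQ c) []
      (List.replicate (ytot w) tok) [] (List.replicate (gtot w) tok) _ hb1 hb2 _ _ _ rfl
      (start_mem c)
    rw [eq_cf w]
    refine Killed.of_run (push_fuel c _ _ _ _ _ _ N) ?_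
    have h2 : Run (rules (QQ c) (start c)) .hub
        (cf (fun k => w (tm k)) (w .Y) (w .Y') (w .G) (w .G') (List.replicate N tok ++ w .Z)) 0 0
        (.ctl .a1)
        (cf (fun k => w (tm k)) (w .Y) (w .Y') (w .G) (w .G') (List.replicate N tok ++ w .Z)) :=
      Run.single (i := .jump 0 0 (.ctl .a1)) (Or.inr ⟨rfl, Or.inr (Or.inl rfl)⟩) rfl
    refine Killed.of_run h2 ?_
    have h3 := run_A (Q := QQ c) (st := start c) (fun k => w (tm k)) (w .Y) (w .Y') (w .G) (w .G')
      (List.replicate N tok ++ w .Z)
    refine Killed.of_run (h3.mono (rules_det c)) ?_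
    have h4 := hN (List.replicate N tok ++ w .Z) (by simp)
    refine Killed.mono (rules_det c) ?_
    simpa [start, ytot, gtot] using h4
  · intro w
    have key : ∀ w : Idx → List Γ', Run (rules (QQ c) (start c)) .hub w (ytot w) 0 .hub
        (cf (fun k => w (tm k)) [] (List.replicate (ytot w) tok) (w .G) (w .G') (w .Z)) := by
      intro w
      have h1 : Run (rules (QQ c) (start c)) .hub w 0 0 (.ctl .b1) w :=
        Run.single (i := .jump 0 0 (.ctl .b1)) (Or.inr ⟨rfl, Or.inr (Or.inr (Or.inl rfl))⟩) rfl
      have h2 := (run_B (Q := QQ c) (st := start c) (fun k => w (tm k)) (w .Y) (w .Y') (w .G)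
        (w .G') (w .Z)).mono (rules_det c)
      rw [← eq_cf w] at h2
      simpa [ytot] using h1.trans h2
    refine ⟨_, reach_of_run (key w), ?_⟩
    have h3 := key (cf (fun k => w (tm k)) [] (List.replicate (ytot w) tok) (w .G) (w .G') (w .Z))
    apply reach_of_run
    simpa using h3
  · intro w
    have key : ∀ w : Idx → List Γ', Run (rules (QQ c) (start c)) .hub w 0 (gtot w) .hub
        (cf (fun k => w (tm k)) (w .Y) (w .Y') [] (List.replicate (gtot w) tok) (w .Z)) := by
      intro w
      have h1 : Run (rules (QQ c) (start c)) .hub w 0 0 (.ctl .d1) w :=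
        Run.single (i := .jump 0 0 (.ctl .d1)) (Or.inr ⟨rfl, Or.inr (Or.inr (Or.inr rfl))⟩) rfl
      have h2 := (run_D (Q := QQ c) (st := start c) (fun k => w (tm k)) (w .Y) (w .Y') (w .G)
        (w .G') (w .Z)).mono (rules_det c)
      rw [← eq_cf w] at h2
      simpa [gtot] using h1.trans h2
    refine ⟨_, reach_of_run (key w), ?_⟩
    have h3 := key (cf (fun k => w (tm k)) (w .Y) (w .Y') [] (List.replicate (gtot w) tok) (w .Z))
    apply reach_of_run
    simpa using h3
  · intro K _ κ ν g y hD hκ hν
    let T : (Idx → List Γ') → Prop := fun w => ytot w = y ∧ gtot w = g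
    let L := Lam (MS.hub : MS (QQ c)) (prog (QQ c) (start c)) κ ν T
    have hub1 : ∀ w, T w → L .hub w = 1 := by
      intro w hw
      have := Lam_run (hub := (MS.hub : MS (QQ c))) (prog := prog (QQ c) (start c)) (κ := κ)
        (ν := ν) (T := T) (Run.refl _ w) hw
      simpa using this
    have hub0 : ∀ w, ¬ T w → L .hub w = 0 := fun w hw => Lam_run' (Run.refl _ w) hw
    have hA : ∀ w, L .hub w = L (.ctl .a1) w := by
      intro w
      rcases A_outcome c w with ⟨w', h1, h2, h3⟩ | ⟨h1, h2⟩
      · by_cases hT : T w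
        · have hT' : T w' := ⟨h2.trans hT.1, h3.trans hT.2⟩
          rw [hub1 w hT, show L (.ctl .a1) w = _ from Lam_run h1 hT']
          simp
        · have hT' : ¬ T w' := fun h => hT ⟨h2.symm.trans h.1, h3.symm.trans h.2⟩
          rw [hub0 w hT, show L (.ctl .a1) w = _ from Lam_run' h1 hT']
      · have hT : ¬ T w := by
          rintro ⟨h3, h4⟩
          rw [h3, h4] at h2
          exact hD h2
        rw [hub0 w hT, show L (.ctl .a1) w = _ from Lam_killed h1]
    have hB : ∀ w, L .hub w = L (.ctl .b1) w := by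
      intro w
      have h1 := run_B (Q := QQ c) (st := start c) (fun k => w (tm k)) (w .Y) (w .Y') (w .G)
        (w .G') (w .Z)
      rw [← eq_cf w] at h1
      by_cases hT : T w
      · have hT' : T (cf (fun k => w (tm k)) []
            (List.replicate ((w .Y').length + (w .Y).length) tok) (w .G) (w .G') (w .Z)) := by
          refine ⟨?_, ?_⟩
          · simpa [ytot] using hT.1
          · simpa [gtot] using hT.2
        rw [hub1 w hT, show L (.ctl .b1) w = _ from Lam_run h1 hT']
        have : (w .Y').length + (w .Y).length = y := hT.1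
        rw [this, hκ]
        simp
      · have hT' : ¬ T (cf (fun k => w (tm k)) []
            (List.replicate ((w .Y').length + (w .Y).length) tok) (w .G) (w .G') (w .Z)) := by
          rintro ⟨h2, h3⟩
          refine hT ⟨?_, ?_⟩
          · simpa [ytot] using h2
          · simpa [gtot] using h3
        rw [hub0 w hT, show L (.ctl .b1) w = _ from Lam_run' h1 hT']
    have hC : ∀ w, L .hub w = L (.ctl .d1) w := by
      intro w
      have h1 := run_D (Q := QQ c) (st := start c) (fun k => w (tm k)) (w .Y) (w .Y') (w .G)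
        (w .G') (w .Z)
      rw [← eq_cf w] at h1
      by_cases hT : T w
      · have hT' : T (cf (fun k => w (tm k)) (w .Y) (w .Y') []
            (List.replicate ((w .G').length + (w .G).length) tok) (w .Z)) := by
          refine ⟨?_, ?_⟩
          · simpa [ytot] using hT.1
          · simpa [gtot] using hT.2
        rw [hub1 w hT, show L (.ctl .d1) w = _ from Lam_run h1 hT']
        have : (w .G').length + (w .G).length = g := hT.2
        rw [this, hν]
        simp
      · have hT' : ¬ T (cf (fun k => w (tm k)) (w .Y) (w .Y') []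
            (List.replicate ((w .G').length + (w .G).length) tok) (w .Z)) := by
          rintro ⟨h2, h3⟩
          refine hT ⟨?_, ?_⟩
          · simpa [ytot] using h2
          · simpa [gtot] using h3
        rw [hub0 w hT, show L (.ctl .d1) w = _ from Lam_run' h1 hT']
    have hZ : ∀ w l, L .hub w = L .hub (update w .Z l) := by
      intro w l
      have e : T (update w .Z l) ↔ T w := by
        simp [T, ytot, gtot]
      by_cases hT : T w
      · rw [hub1 w hT, hub1 _ (e.2 hT)]
      · rw [hub0 w hT, hub0 _ (fun h => hT (e.1 h))]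
    have main : ∀ (a : MS (QQ c)) (i : Instr (MS (QQ c)) Idx Γ'), rules (QQ c) (start c) a i →
        ∀ w k n b w', i.exec w = some (k, n, b, w') → L a w = κ ^ k * ν ^ n * L b w' := by
      rintro a i (h | ⟨rfl, h⟩) w k n b w' he
      · obtain ⟨h1, rfl⟩ := h
        exact Lam_step h1 he
      · rcases h with rfl | rfl | rfl | rfl
        · simp only [Instr.exec_push, Option.some.injEq, Prod.mk.injEq] at he
          obtain ⟨rfl, rfl, rfl, rfl⟩ := he
          simpa using hZ w _
        · simp only [Instr.exec_jump, Option.some.injEq, Prod.mk.injEq] at he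
          obtain ⟨rfl, rfl, rfl, rfl⟩ := he
          simpa using hA w
        · simp only [Instr.exec_jump, Option.some.injEq, Prod.mk.injEq] at he
          obtain ⟨rfl, rfl, rfl, rfl⟩ := he
          simpa using hB w
        · simp only [Instr.exec_jump, Option.some.injEq, Prod.mk.injEq] at he
          obtain ⟨rfl, rfl, rfl, rfl⟩ := he
          simpa using hC w
    have mainkill : ∀ (a : MS (QQ c)), rules (QQ c) (start c) a .kill → ∀ w, L a w = 0 := by
      rintro a (h | ⟨rfl, h⟩) w
      · exact Lam_killed ⟨0, 0, a, w, Run.refl _ _, h⟩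
      · rcases h with h | h | h | h <;> cases h
    refine ⟨L, ⟨?_, ?_, ?_, ?_, ?_⟩, fun w h1 h2 => hub1 w ⟨h1, h2⟩⟩
    · rintro ⟨⟨a, i⟩, hi⟩ a' b k n h w
      cases i with
      | jump k1 n1 b1 =>
        simp only [ruleOf, Instr.toRule, Rule.jump.injEq] at h
        obtain ⟨rfl, rfl, rfl, rfl⟩ := h
        exact main _ _ hi w _ _ _ _ rfl
      | kill => simp [ruleOf, Instr.toRule] at h
      | push s g b1 => simp [ruleOf, Instr.toRule] at h
      | pop s f => simp [ruleOf, Instr.toRule] at h
    · rintro ⟨⟨a, i⟩, hi⟩ a' h w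
      cases i with
      | jump k1 n1 b1 => simp [ruleOf, Instr.toRule] at h
      | kill =>
        simp only [ruleOf, Instr.toRule, Rule.kill.injEq] at h
        subst h
        exact mainkill _ hi w
      | push s g b1 => simp [ruleOf, Instr.toRule] at h
      | pop s f => simp [ruleOf, Instr.toRule] at h
    · rintro ⟨⟨a, i⟩, hi⟩ a' s γ b h w
      cases i with
      | jump k1 n1 b1 => simp [ruleOf, Instr.toRule] at h
      | kill => simp [ruleOf, Instr.toRule] at h
      | push s1 g1 b1 =>
        simp only [ruleOf, Instr.toRule, Rule.push.injEq] at h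
        obtain ⟨rfl, rfl, rfl, rfl⟩ := h
        simpa using main _ _ hi w _ _ _ _ rfl
      | pop s f => simp [ruleOf, Instr.toRule] at h
    · rintro ⟨⟨a, i⟩, hi⟩ a' s f h w γ l hw
      cases i with
      | jump k1 n1 b1 => simp [ruleOf, Instr.toRule] at h
      | kill => simp [ruleOf, Instr.toRule] at h
      | push s1 g1 b1 => simp [ruleOf, Instr.toRule] at h
      | pop s1 f1 =>
        simp only [ruleOf, Instr.toRule, Rule.pop.injEq] at h
        obtain ⟨rfl, rfl, rfl⟩ := h
        have := main _ _ hi w _ _ _ _ rfl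
        simpa [hw] using this
    · rintro ⟨⟨a, i⟩, hi⟩ a' s f h w hw
      cases i with
      | jump k1 n1 b1 => simp [ruleOf, Instr.toRule] at h
      | kill => simp [ruleOf, Instr.toRule] at h
      | push s1 g1 b1 => simp [ruleOf, Instr.toRule] at h
      | pop s1 f1 =>
        simp only [ruleOf, Instr.toRule, Rule.pop.injEq] at h
        obtain ⟨rfl, rfl, rfl⟩ := h
        have := main _ _ hi w _ _ _ _ rfl
        have e : update w s1 [] = w := by rw [← hw]; exact update_eq_self _ _
        simpa [hw, e] using this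
  · intro g y
    exact ⟨cf (fun _ => []) (List.replicate y tok) [] (List.replicate g tok) [] [],
      by simp, by simp⟩

end Blk

/-- Existence of the machine, for the domain of a code. -/
theorem exists_machine_of_code (c : ToPartrec.Code) :
    ∃ (S ρ ι : Type) (_ : Fintype S) (_ : Fintype ρ) (_ : Fintype ι) (_ : DecidableEq ι)
      (rule : ρ → Rule S ι) (H : S) (gtot ytot : (ι → List Γ') → ℕ),
      Mach rule H gtot ytot (fun g y => (c.eval [2 ^ g, 2 ^ y]).Dom) := by
  have : Finite {p : Blk.MS (Blk.QQ c) × Blk.Instr (Blk.MS (Blk.QQ c)) Blk.Idx Γ' //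
      Blk.rules (Blk.QQ c) (Blk.start c) p.1 p.2} :=
    (Blk.finite_rules (Blk.QQ c) (Blk.start c)).to_subtype
  exact ⟨Blk.MS (Blk.QQ c), {p : Blk.MS (Blk.QQ c) × Blk.Instr (Blk.MS (Blk.QQ c)) Blk.Idx Γ' //
      Blk.rules (Blk.QQ c) (Blk.start c) p.1 p.2}, Blk.Idx, Fintype.ofFinite _,
    Fintype.ofFinite _, inferInstance, inferInstance, _, _, _, _, Blk.exists_machine_code c⟩

/-- WP8: existence of the machine. -/
theorem exists_machine (Dead : ℕ → ℕ → Prop)
    (hD : REPred fun p : ℕ × ℕ => Dead p.1 p.2) :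
    ∃ (S ρ ι : Type) (_ : Fintype S) (_ : Fintype ρ) (_ : Fintype ι) (_ : DecidableEq ι)
      (rule : ρ → Rule S ι) (H : S) (gtot ytot : (ι → List Γ') → ℕ),
      Mach rule H gtot ytot Dead := by
  obtain ⟨c, hc⟩ := exists_code Dead hD
  have e : (fun g y => (c.eval [2 ^ g, 2 ^ y]).Dom) = Dead := by
    funext g y
    exact propext (hc g y)
  rw [← e]
  exact exists_machine_of_code c

end Pool.Agent.SolIndex
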