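import Mathlib
import Pool.Agent.SolIndex.Defs

set_option autoImplicit false

namespace Pool.Agent.SolIndex

open Turing.PartrecToTM2 (Γ')
open scoped commutatorElement

variable {ι S ρ : Type} [DecidableEq ι] [Fintype ι] {G H : Type*} [Group G] [Group H]

theorem map_ev (f : G →* H) (φ : Gn S ι → G) (d : Lt ι → ℤ) :
    f (ev φ d) = ev (fun g => f (φ g)) d := by
  simp only [ev, map_list_prod, List.map_map]
  congr 1
  apply List.map_congr_left
  intro l _
  simp

theorem map_sg (f : G →* H) (φ : Gn S ι → G) (g : Sy S ι) (m : Mon (Vr ι)) (α β : Fin 4) :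
    f (sg φ g m α β) = sg (fun g => f (φ g)) g m α β := by
  simp only [sg, map_mul, map_inv, map_ev]

theorem sides_map (rule : ρ → Rule S ι) (f : G →* H) (φ : Gn S ι → G) (r : RelIx S ι ρ) :
    sides rule (fun g => f (φ g)) r = (f (sides rule φ r).1, f (sides rule φ r).2) := by
  cases r with
  | comm l l' => simp [sides]
  | inv g α β => simp [sides]
  | act g α β l => simp [sides, map_sg]
  | bs g α β j => simp [sides, map_sg]
  | k3 α β => simp [sides, map_sg]
  | same g g' α β α' β' n =>
    simp only [sides]
    split_ifs <;> simp [map_sg]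
  | adj J α β β' γ =>
    simp only [sides]
    split_ifs <;> simp [map_sg]
  | indep J α β β' γ => simp [sides, map_sg, map_commutatorElement]
  | bal J α β γ => simp [sides, map_sg, map_commutatorElement]
  | ptype a s α β γ => simp [sides, map_commutatorElement]
  | rule i d α β γ =>
    simp only [sides]
    cases rule i with
    | jump a b k n => simp [map_sg, map_commutatorElement]
    | kill a => simp [map_commutatorElement]
    | push a s g b => simp [map_sg, map_commutatorElement]
    | pop a s f =>
      simp only [Prod.mk.injEq]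
      cases symb d with
      | some g => simp [map_sg, map_commutatorElement]
      | none => simp [map_sg, map_commutatorElement]

theorem sat_iff (rule : ρ → Rule S ι) (φ : Gn S ι → G) :
    Sat rule φ ↔ ∀ r ∈ relators rule, FreeGroup.lift φ r = 1 := by
  have key : ∀ r : RelIx S ι ρ, sides rule φ r =
      (FreeGroup.lift φ (sides rule FreeGroup.of r).1, FreeGroup.lift φ (sides rule FreeGroup.of r).2) := by
    intro r
    rw [← sides_map]
    congr 1
    funext g
    simp
  constructor
  · rintro h _ ⟨r, rfl⟩
    have := h r
    rw [key r] at this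
    simp only [map_mul, map_inv]
    rw [mul_inv_eq_one]
    exact this
  · intro h r
    have := h _ ⟨r, rfl⟩
    simp only [map_mul, map_inv, mul_inv_eq_one] at this
    rw [key r]
    exact this

/-- naturality -/
theorem sat_gen (rule : ρ → Rule S ι) (F : ℕ) :
    Sat rule (gen rule F) ∧ gen rule F (.lt (.x2 .nu)) ^ F = 1 := by
  have hl : ∀ r : FreeGroup (Gn S ι), FreeGroup.lift (gen rule F) r =
      PresentedGroup.mk (insert (nuRel S ι F) (relators rule)) r := by
    intro r
    have : FreeGroup.lift (gen rule F) = PresentedGroup.mk (insert (nuRel S ι F) (relators rule)) := by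
      ext g; simp [gen, PresentedGroup.of]
    rw [this]
  constructor
  · rw [sat_iff]
    intro r hr
    rw [hl]
    exact PresentedGroup.mk_eq_one_iff.mpr (Subgroup.subset_normalClosure (Set.mem_insert_of_mem _ hr))
  · have : FreeGroup.lift (gen rule F) (nuRel S ι F) = 1 := by
      rw [hl]
      exact PresentedGroup.mk_eq_one_iff.mpr (Subgroup.subset_normalClosure (Set.mem_insert _ _))
    simpa [nuRel] using this

theorem exists_hom (rule : ρ → Rule S ι) (F : ℕ)
    (φ : Gn S ι → G) (hφ : Sat rule φ) (hF : φ (.lt (.x2 .nu)) ^ F = 1) :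
    ∃ f : Grp rule F →* G, ∀ g, f (gen rule F g) = φ g := by
  refine ⟨PresentedGroup.toGroup (f := φ) ?_, fun g => ?_⟩
  · intro r hr
    rcases Set.mem_insert_iff.mp hr with rfl | hr
    · simpa [nuRel] using hF
    · exact (sat_iff rule φ).mp hφ r hr
  · exact PresentedGroup.toGroup.of _

end Pool.Agent.SolIndex
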