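import Mathlib
import Pool.Agent.SolIndex.Ring

/-!
WP2: Baumslag's box lemma, and the homs from the ring.
-/

set_option autoImplicit false

namespace Pool.Agent.SolIndex

section aux

theorem commute_of_closure {G : Type*} [Group G] {S T : Set G}
    (h : ∀ a ∈ S, ∀ b ∈ T, Commute a b) {a b : G} (ha : a ∈ Subgroup.closure S)
    (hb : b ∈ Subgroup.closure T) : Commute a b := by
  have h1 : Subgroup.closure T ≤ Subgroup.centralizer S := by
    rw [Subgroup.closure_le]
    intro t ht
    rw [SetLike.mem_coe, Subgroup.mem_centralizer_iff]
    intro s hs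
    exact h s hs t ht
  have h2 : Subgroup.closure S ≤ Subgroup.centralizer (Subgroup.closure T : Set G) := by
    rw [Subgroup.closure_le]
    intro s hs
    rw [SetLike.mem_coe, Subgroup.mem_centralizer_iff]
    intro t ht
    exact ((Subgroup.mem_centralizer_iff.1 (h1 ht)) s hs).symm
  exact ((Subgroup.mem_centralizer_iff.1 (h2 ha)) b hb).symm

/-- maps turning addition into multiplication -/
theorem add_induct {G R : Type*} [Group G] [AddCommGroup R] {S : Set R}
    (hS : ∀ r : R, r ∈ AddSubgroup.closure S) (F F' : R → G)
    (hF : ∀ r r', F (r + r') = F r * F r') (hF' : ∀ r r', F' (r + r') = F' r * F' r')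
    (h : ∀ s ∈ S, F s = F' s) (r : R) : F r = F' r := by
  have h0 : ∀ F : R → G, (∀ r r', F (r + r') = F r * F r') → F 0 = 1 := by
    intro F hF
    have := hF 0 0
    rw [add_zero] at this
    exact (mul_eq_left.1 this.symm)
  have hn : ∀ F : R → G, (∀ r r', F (r + r') = F r * F r') → ∀ r, F (-r) = (F r)⁻¹ := by
    intro F hF r
    rw [eq_inv_iff_mul_eq_one, ← hF, neg_add_cancel, h0 F hF]
  induction hS r using AddSubgroup.closure_induction with
  | mem x hx => exact h x hx
  | zero => rw [h0 F hF, h0 F' hF']
  | add x y _ _ hx hy => rw [hF, hF', hx, hy]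
  | neg x _ hx => rw [hn F hF, hn F' hF', hx]

end aux

variable {G : Type*} [Group G] {V I : Type} [Fintype V] [DecidableEq V]

/-- monomials without primes -/
def tm (n : V → ℤ) : Mon V := fun j => (n j, 0)

omit [Fintype V] [DecidableEq V] in
theorem theta_add (θ : Multiplicative (Mon V) →* MulAut G) (m m' : Mon V) (x : G) :
    θ (.ofAdd (m + m')) x = θ (.ofAdd m) (θ (.ofAdd m') x) := by
  rw [ofAdd_add, map_mul, MulAut.mul_apply]

omit [Fintype V] [DecidableEq V] in
theorem theta_comm_iff (θ : Multiplicative (Mon V) →* MulAut G) (m m1 m2 : Mon V) (x y : G) :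
    Commute (θ (.ofAdd (m + m1)) x) (θ (.ofAdd (m + m2)) y) ↔
      Commute (θ (.ofAdd m1) x) (θ (.ofAdd m2) y) := by
  rw [ofAdd_add, ofAdd_add, map_mul, map_mul, MulAut.mul_apply, MulAut.mul_apply]
  constructor
  · intro h
    have h1 := h.map (θ (.ofAdd m))⁻¹
    simpa using h1
  · intro h
    exact h.map (θ (.ofAdd m))

omit [Fintype V] in
/-- the commutation of unprimed translates, upward step -/
theorem box_step (θ : Multiplicative (Mon V) →* MulAut G) (g : I → G)
    (hbs : ∀ i j, θ (.ofAdd (xm' j)) (g i) = g i * θ (.ofAdd (xm j)) (g i)) (n : V → ℤ) (j : V)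
    (h0 : ∀ i i', Commute (g i) (θ (.ofAdd (tm n)) (g i')))
    (h1 : ∀ i i', Commute (g i) (θ (.ofAdd (tm (n - Pi.single j 1))) (g i'))) :
    ∀ i i', Commute (g i) (θ (.ofAdd (tm (n + Pi.single j 1))) (g i')) := by
  intro i i'
  have hz : ∀ x : G, θ (.ofAdd (0 : Mon V)) x = x := by
    intro x
    rw [ofAdd_zero, map_one, MulAut.one_apply]
  set a := g i with ha
  set b := θ (.ofAdd (xm j)) (g i) with hb
  set c := θ (.ofAdd (tm n)) (g i') with hc
  set d := θ (.ofAdd (tm (n + Pi.single j 1))) (g i') with hd
  have e1 : tm (n + Pi.single j 1) = xm j + tm n := by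
    funext k
    by_cases hk : k = j
    · subst hk
      simp [tm, xm, add_comm]
    · simp [tm, xm, hk]
  have e2 : tm n = xm j + tm (n - Pi.single j 1) := by
    funext k
    by_cases hk : k = j
    · subst hk
      simp [tm, xm]
    · simp [tm, xm, hk]
  have hac : Commute a c := h0 i i'
  have hbd : Commute b d := by
    have h2 := (theta_comm_iff θ (xm j) 0 (tm n) (g i) (g i')).2 (by
      rw [hz]
      exact h0 i i')
    rw [add_zero, ← e1] at h2
    exact h2
  have hbc : Commute b c := by
    have h2 := (theta_comm_iff θ (xm j) 0 (tm (n - Pi.single j 1)) (g i) (g i')).2 (by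
      rw [hz]
      exact h1 i i')
    rw [add_zero, ← e2] at h2
    exact h2
  have hcd : θ (.ofAdd (xm' j)) c = c * d := by
    rw [hc, ← theta_add, add_comm, theta_add, hbs, map_mul, ← theta_add, add_comm, ← e1]
  have hab : θ (.ofAdd (xm' j)) a = a * b := hbs i j
  have h3 : Commute (a * b) (c * d) := by
    rw [← hab, ← hcd]
    exact hac.map _
  have h4 : c * (a * d) * b = c * (d * a) * b := by
    calc c * (a * d) * b = c * a * (d * b) := by group
      _ = a * c * (b * d) := by rw [hac.eq, hbd.eq]
      _ = a * (c * b) * d := by group
      _ = a * (b * c) * d := by rw [hbc.eq]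
      _ = (a * b) * (c * d) := by group
      _ = (c * d) * (a * b) := h3.eq
      _ = c * (d * a) * b := by group
  exact mul_left_cancel (mul_right_cancel h4)

omit [Fintype V] [DecidableEq V] in
theorem box_neg (θ : Multiplicative (Mon V) →* MulAut G) (g : I → G) (n : V → ℤ)
    (h0 : ∀ i i', Commute (g i) (θ (.ofAdd (tm n)) (g i'))) :
    ∀ i i', Commute (g i) (θ (.ofAdd (tm (-n))) (g i')) := by
  intro i i'
  have hz : ∀ x : G, θ (.ofAdd (0 : Mon V)) x = x := by
    intro x
    rw [ofAdd_zero, map_one, MulAut.one_apply]
  have h1 := (theta_comm_iff θ (tm n) 0 (tm (-n)) (g i) (g i'))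
  have e1 : tm n + tm (-n) = 0 := by
    funext k
    simp [tm]
  rw [add_zero, e1, hz, hz] at h1
  exact h1.1 (h0 i' i).symm

/-- commutation of all unprimed translates -/
theorem box_all (θ : Multiplicative (Mon V) →* MulAut G) (g : I → G)
    (hbs : ∀ i j, θ (.ofAdd (xm' j)) (g i) = g i * θ (.ofAdd (xm j)) (g i))
    (hbox : ∀ i i' (n : V → Fin 3),
      Commute (g i) (θ (.ofAdd fun j => (((n j : ℕ) : ℤ) - 1, 0)) (g i'))) (n : V → ℤ) :
    ∀ i i', Commute (g i) (θ (.ofAdd (tm n)) (g i')) := by
  have key : ∀ J : Finset V, ∀ n : V → ℤ, (∀ j ∉ J, -1 ≤ n j ∧ n j ≤ 1) →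
      ∀ i i', Commute (g i) (θ (.ofAdd (tm n)) (g i')) := by
    intro J
    induction J using Finset.induction_on with
    | empty =>
      intro n hn i i'
      have h1 : ∀ j, ((n j + 1).toNat : ℤ) = n j + 1 := fun j => by
        have := (hn j (Finset.notMem_empty j)).1
        omega
      have h2 : ∀ j, (n j + 1).toNat < 3 := fun j => by
        have := (hn j (Finset.notMem_empty j)).2
        omega
      have h3 := hbox i i' fun j => ⟨(n j + 1).toNat, h2 j⟩
      have h4 : (fun j => ((((⟨(n j + 1).toNat, h2 j⟩ : Fin 3) : ℕ) : ℤ) - 1, (0 : ℤ))) = tm n := by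
        funext j
        simp only [tm]
        rw [h1]
        ring_nf
      rw [h4] at h3
      exact h3
    | insert j J hj ih =>
      intro n hn
      -- induction on the coordinate `j`
      have up : ∀ (k : ℕ), ∀ i i', Commute (g i)
          (θ (.ofAdd (tm (Function.update n j ((k : ℤ) - 1)))) (g i')) ∧
          Commute (g i) (θ (.ofAdd (tm (Function.update n j (k : ℤ)))) (g i')) := by
        intro k
        induction k with
        | zero =>
          intro i i'
          constructor
          · refine ih _ (fun l hl => ?_) i i'
            by_cases hlj : l = j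
            · subst hlj
              rw [Function.update_self]
              norm_num
            · rw [Function.update_of_ne hlj]
              exact hn l (by
                rw [Finset.mem_insert]
                push Not
                exact ⟨hlj, hl⟩)
          · refine ih _ (fun l hl => ?_) i i'
            by_cases hlj : l = j
            · subst hlj
              rw [Function.update_self]
              norm_num
            · rw [Function.update_of_ne hlj]
              exact hn l (by
                rw [Finset.mem_insert]
                push Not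
                exact ⟨hlj, hl⟩)
        | succ k ihk =>
          have e1 : Function.update n j (((k + 1 : ℕ) : ℤ)) =
              Function.update n j (k : ℤ) + Pi.single j 1 := by
            funext l
            by_cases hlj : l = j
            · subst hlj
              simp
            · simp [hlj]
          have e2 : Function.update n j ((k : ℤ) - 1) =
              Function.update n j (k : ℤ) - Pi.single j 1 := by
            funext l
            by_cases hlj : l = j
            · subst hlj
              simp
            · simp [hlj]
          have h1 := box_step θ g hbs (Function.update n j (k : ℤ)) j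
            (fun i i' => (ihk i i').2) (fun i i' => by
              rw [← e2]
              exact (ihk i i').1)
          intro i i'
          constructor
          · have h2 : (((k + 1 : ℕ) : ℤ) - 1) = k := by push_cast; ring
            rw [h2]
            exact (ihk i i').2
          · rw [e1]
            exact h1 i i'
      -- the downward direction
      have down : ∀ (k : ℕ), ∀ i i', Commute (g i)
          (θ (.ofAdd (tm (Function.update n j (-(k : ℤ) + 1)))) (g i')) ∧
          Commute (g i) (θ (.ofAdd (tm (Function.update n j (-(k : ℤ))))) (g i')) := by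
        intro k
        induction k with
        | zero =>
          intro i i'
          constructor
          · refine ih _ (fun l hl => ?_) i i'
            by_cases hlj : l = j
            · subst hlj
              rw [Function.update_self]
              norm_num
            · rw [Function.update_of_ne hlj]
              exact hn l (by
                rw [Finset.mem_insert]
                push Not
                exact ⟨hlj, hl⟩)
          · refine ih _ (fun l hl => ?_) i i'
            by_cases hlj : l = j
            · subst hlj
              rw [Function.update_self]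
              norm_num
            · rw [Function.update_of_ne hlj]
              exact hn l (by
                rw [Finset.mem_insert]
                push Not
                exact ⟨hlj, hl⟩)
        | succ k ihk =>
          have e1 : Function.update n j (-((k + 1 : ℕ) : ℤ)) =
              -(-(Function.update n j (-(k : ℤ))) + Pi.single j 1) := by
            funext l
            by_cases hlj : l = j
            · subst hlj
              simp only [Pi.neg_apply, Pi.add_apply, Function.update_self, Pi.single_eq_same]
              push_cast
              ring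
            · simp [hlj]
          have e2 : -Function.update n j (-(k : ℤ) + 1) =
              -Function.update n j (-(k : ℤ)) - Pi.single j 1 := by
            funext l
            by_cases hlj : l = j
            · subst hlj
              simp only [Pi.neg_apply, Pi.sub_apply, Function.update_self, Pi.single_eq_same]
              ring
            · simp [hlj]
          have h1 := box_step θ g hbs (-(Function.update n j (-(k : ℤ)))) j
            (box_neg θ g _ fun i i' => (ihk i i').2) (by
              rw [← e2]
              exact box_neg θ g _ fun i i' => (ihk i i').1)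
          have h3 := box_neg θ g _ h1
          intro i i'
          constructor
          · have h2 : (-((k + 1 : ℕ) : ℤ) + 1) = -k := by push_cast; ring
            rw [h2]
            exact (ihk i i').2
          · rw [e1]
            exact h3 i i'
      intro i i'
      rcases le_total 0 (n j) with h | h
      · have h1 := (up (n j).toNat i i').2
        have h2 : ((n j).toNat : ℤ) = n j := by omega
        rwa [h2, Function.update_eq_self] at h1
      · have h1 := (down (-(n j)).toNat i i').2
        have h2 : -((-(n j)).toNat : ℤ) = n j := by omega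
        rwa [h2, Function.update_eq_self] at h1
  exact key Finset.univ n fun j hj => absurd (Finset.mem_univ j) hj

/-- translates with nonnegative primed exponents lie in the subgroup generated by the unprimed
translates -/
theorem theta_mem (θ : Multiplicative (Mon V) →* MulAut G) (g : I → G)
    (hbs : ∀ i j, θ (.ofAdd (xm' j)) (g i) = g i * θ (.ofAdd (xm j)) (g i)) (i : I) :
    ∀ (k : ℕ) (m : Mon V), (∀ j, 0 ≤ (m j).2) → ∑ j, (m j).2 = k →
      θ (.ofAdd m) (g i) ∈ Subgroup.closure {x | ∃ i n, x = θ (.ofAdd (tm n)) (g i)} := by
  intro k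
  induction k with
  | zero =>
    intro m hm hk
    have h1 : ∀ j, (m j).2 = 0 := by
      intro j
      have := (Finset.sum_eq_zero_iff_of_nonneg fun j _ => hm j).1 (by exact_mod_cast hk) j
        (Finset.mem_univ j)
      exact this
    refine Subgroup.subset_closure ⟨i, fun j => (m j).1, ?_⟩
    congr 3
    funext j
    exact Prod.ext rfl (h1 j)
  | succ k ih =>
    intro m hm hk
    obtain ⟨j, hj⟩ : ∃ j, 0 < (m j).2 := by
      by_contra hcon
      push Not at hcon
      have h1 : ∑ j, (m j).2 ≤ 0 := Finset.sum_nonpos fun j _ => hcon j
      rw [hk] at h1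
      push_cast at h1
      omega
    have hsum : ∀ m' : Mon V, ∑ l, ((m' - xm' j) l).2 = ∑ l, (m' l).2 - 1 := by
      intro m'
      simp only [Pi.sub_apply, Prod.snd_sub, Finset.sum_sub_distrib]
      congr 1
      rw [Finset.sum_eq_single j]
      · simp [xm']
      · intro b _ hb
        simp [xm', hb]
      · intro h
        exact absurd (Finset.mem_univ j) h
    have h1 : m = (m - xm' j) + xm' j := by abel
    have h2 : θ (.ofAdd m) (g i) =
        θ (.ofAdd (m - xm' j)) (g i) * θ (.ofAdd (m - xm' j + xm j)) (g i) := by
      conv_lhs => rw [h1]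
      rw [theta_add, hbs, map_mul, ← theta_add]
    rw [h2]
    refine Subgroup.mul_mem _ (ih _ ?_ ?_) (ih _ ?_ ?_)
    · intro l
      by_cases hl : l = j
      · subst hl
        simp [xm']
        omega
      · simp [xm', hl, hm l]
    · rw [hsum, hk]
      push_cast
      ring
    · intro l
      by_cases hl : l = j
      · subst hl
        simp [xm', xm]
        omega
      · simp [xm', xm, hl, hm l]
    · have h3 : ∑ l, ((m - xm' j + xm j) l).2 = ∑ l, ((m - xm' j) l).2 := by
        refine Finset.sum_congr rfl fun l _ => ?_
        by_cases hl : l = j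
        · subst hl
          simp [xm]
        · simp [xm, hl]
      rw [h3, hsum, hk]
      push_cast
      ring

/-- `θ` is the action (by automorphisms) of the free abelian group of monomials;
`g i` involutions with `θ(x'_j) g = g * θ(x_j) g` and commutation in the box `{-1,0,1}^V`. -/
theorem box_commute (θ : Multiplicative (Mon V) →* MulAut G) (g : I → G)
    (hbs : ∀ i j, θ (.ofAdd (xm' j)) (g i) = g i * θ (.ofAdd (xm j)) (g i))
    (hbox : ∀ i i' (n : V → Fin 3),
      Commute (g i) (θ (.ofAdd fun j => (((n j : ℕ) : ℤ) - 1, 0)) (g i'))) :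
    ∀ i i' (m m' : Mon V), Commute (θ (.ofAdd m) (g i)) (θ (.ofAdd m') (g i')) := by
  intro i i' m m'
  have hall := box_all θ g hbs hbox
  have hgen : ∀ a ∈ {x | ∃ i n, x = θ (.ofAdd (tm n)) (g i)},
      ∀ b ∈ {x | ∃ i n, x = θ (.ofAdd (tm n)) (g i)}, Commute a b := by
    rintro _ ⟨i, n, rfl⟩ _ ⟨i', n', rfl⟩
    have h1 : tm n' = tm n + tm (n' - n) := by
      funext j
      simp [tm]
    have h2 : tm n = tm n + (0 : Mon V) := (add_zero _).symm
    rw [h1]
    conv_lhs => rw [h2]
    rw [theta_comm_iff, ofAdd_zero, map_one, MulAut.one_apply]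
    exact hall _ i i'
  let c : Mon V := fun j => (0, |(m j).2| + |(m' j).2|)
  rw [← theta_comm_iff θ c]
  refine commute_of_closure hgen
    (theta_mem θ g hbs i (∑ j, ((c + m) j).2).toNat (c + m) ?_ ?_)
    (theta_mem θ g hbs i' (∑ j, ((c + m') j).2).toNat (c + m') ?_ ?_)
  · intro j
    have h1 := neg_abs_le (m j).2
    have h2 := abs_nonneg (m' j).2
    simp only [c, Pi.add_apply, Prod.snd_add]
    omega
  · rw [Int.toNat_of_nonneg]
    refine Finset.sum_nonneg fun j _ => ?_
    have h1 := neg_abs_le (m j).2
    have h2 := abs_nonneg (m' j).2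
    simp only [c, Pi.add_apply, Prod.snd_add]
    omega
  · intro j
    have h1 := neg_abs_le (m' j).2
    have h2 := abs_nonneg (m j).2
    simp only [c, Pi.add_apply, Prod.snd_add]
    omega
  · rw [Int.toNat_of_nonneg]
    refine Finset.sum_nonneg fun j _ => ?_
    have h1 := neg_abs_le (m' j).2
    have h2 := abs_nonneg (m j).2
    simp only [c, Pi.add_apply, Prod.snd_add]
    omega

/-- the resulting additive maps from the ring -/
theorem box_hom (θ : Multiplicative (Mon V) →* MulAut G) (g : I → G)
    (hinv : ∀ i, g i * g i = 1)
    (hbs : ∀ i j, θ (.ofAdd (xm' j)) (g i) = g i * θ (.ofAdd (xm j)) (g i))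
    (hbox : ∀ i i' (n : V → Fin 3),
      Commute (g i) (θ (.ofAdd fun j => (((n j : ℕ) : ℤ) - 1, 0)) (g i'))) :
    ∃ F : I → RR V → G,
      (∀ i r r', F i (r + r') = F i r * F i r') ∧
      (∀ i m, F i (mon m) = θ (.ofAdd m) (g i)) ∧
      (∀ i i' r r', Commute (F i r) (F i' r')) ∧
      (∀ i r, F i r ∈ Subgroup.closure (Set.range fun m => θ (.ofAdd m) (g i))) ∧
      (∀ i r m, F i (mon m * r) = θ (.ofAdd m) (F i r)) := by
  have hc := box_commute θ g hbs hbox
  have h := fun i => exists_lift (fun m : Mon V => θ (.ofAdd m) (g i)) (by
      intro m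
      rw [← map_mul, hinv, map_one]) (fun m n => hc i i m n) (by
      intro j m
      rw [add_comm (xm' j), add_comm (xm j), theta_add, hbs, map_mul, ← theta_add])
  choose F hF1 hF2 hF3 using h
  refine ⟨F, hF1, hF2, ?_, hF3, ?_⟩
  · intro i i' r r'
    refine commute_of_closure ?_ (hF3 i r) (hF3 i' r')
    rintro _ ⟨m, rfl⟩ _ ⟨m', rfl⟩
    exact hc i i' m m'
  · intro i r m
    refine add_induct mon_span (fun r => F i (mon m * r)) (fun r => θ (.ofAdd m) (F i r)) ?_ ?_ ?_ r
    · intro r r'
      rw [mul_add, hF1]
    · intro r r'
      rw [hF1, map_mul]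
    · rintro _ ⟨m', rfl⟩
      rw [← mon_add, hF2, hF2, theta_add]

omit [Fintype V] in
/-- an automorphism acting on `g i` like the monomial `m` and commuting with `θ` acts on `F i` like `m` -/
theorem box_equivariant (θ : Multiplicative (Mon V) →* MulAut G) (g : G) (F : RR V → G)
    (hadd : ∀ r r', F (r + r') = F r * F r')
    (hF : ∀ m, F (mon m) = θ (.ofAdd m) g) (a : MulAut G) (m : Mon V)
    (ha : a g = θ (.ofAdd m) g) (hcomm : ∀ m' h, a (θ (.ofAdd m') h) = θ (.ofAdd m') (a h)) :
    ∀ r, a (F r) = F (mon m * r) := by
  intro r
  refine add_induct mon_span (fun r => a (F r)) (fun r => F (mon m * r)) ?_ ?_ ?_ r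
  · intro r r'
    rw [hadd, map_mul]
  · intro r r'
    rw [mul_add, hadd]
  · rintro _ ⟨m', rfl⟩
    rw [← mon_add, hF, hF, hcomm, ha, ← theta_add, add_comm]

end Pool.Agent.SolIndex
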