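import Mathlib
import Pool.Agent.SolIndex.TauDefs
import Pool.Agent.SolIndex.Box

/-!
WP4: from the relations to `UpData`.
-/

set_option autoImplicit false

namespace Pool.Agent.SolIndex

open Turing.PartrecToTM2 (Γ')
open scoped commutatorElement

variable {ι S ρ : Type} [DecidableEq ι]

/-! ### letters -/

theorem list_prod_zpow_add {G L : Type*} [Group G] (a : L → G) (h : ∀ l l', Commute (a l) (a l'))
    (d d' : L → ℤ) (s : List L) :
    (s.map fun l => a l ^ (d l + d' l)).prod =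
      (s.map fun l => a l ^ d l).prod * (s.map fun l => a l ^ d' l).prod := by
  induction s with
  | nil => simp
  | cons l s ih =>
    rw [List.map_cons, List.map_cons, List.map_cons, List.prod_cons, List.prod_cons,
      List.prod_cons, ih, zpow_add]
    have h1 : Commute (a l ^ d' l) (s.map fun l => a l ^ d l).prod := by
      apply Commute.list_prod_right
      intro x hx
      obtain ⟨l', -, rfl⟩ := List.mem_map.1 hx
      exact (h l l').zpow_zpow _ _
    calc a l ^ d l * a l ^ d' l * ((s.map fun l => a l ^ d l).prod * (s.map fun l => a l ^ d' l).prod)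
        = a l ^ d l * (a l ^ d' l * (s.map fun l => a l ^ d l).prod) *
            (s.map fun l => a l ^ d' l).prod := by group
      _ = a l ^ d l * ((s.map fun l => a l ^ d l).prod * a l ^ d' l) *
            (s.map fun l => a l ^ d' l).prod := by rw [h1.eq]
      _ = _ := by group

section ev
variable [Fintype ι] {G : Type*} [Group G] (φ : Gn S ι → G)

omit [DecidableEq ι] in
theorem ev_add (h : ∀ l l', Commute (φ (.lt l)) (φ (.lt l'))) (d d' : Lt ι → ℤ) :
    ev φ (d + d') = ev φ d * ev φ d' :=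
  list_prod_zpow_add (fun l => φ (.lt l)) h d d' _

omit [DecidableEq ι] in
theorem ev_zero (h : ∀ l l', Commute (φ (.lt l)) (φ (.lt l'))) : ev φ (0 : Lt ι → ℤ) = 1 := by
  have h1 := ev_add φ h 0 0
  rw [add_zero] at h1
  exact mul_eq_left.1 h1.symm

omit [DecidableEq ι] in
theorem ev_neg (h : ∀ l l', Commute (φ (.lt l)) (φ (.lt l'))) (d : Lt ι → ℤ) :
    ev φ (-d) = (ev φ d)⁻¹ := by
  rw [eq_inv_iff_mul_eq_one, ← ev_add φ h, neg_add_cancel, ev_zero φ h]

theorem ev_single (l : Lt ι) (k : ℤ) : ev φ (Pi.single l k) = φ (.lt l) ^ k := by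
  have h1 := List.prod_map_eq_pow_single (l := (Finset.univ : Finset (Lt ι)).toList) l
    (fun l' => φ (.lt l') ^ (Pi.single l k : Lt ι → ℤ) l') (by
    intro l' hl' _
    rw [Pi.single_eq_of_ne hl', zpow_zero])
  have h2 : List.count l (Finset.univ : Finset (Lt ι)).toList = 1 :=
    List.count_eq_one_of_mem (Finset.nodup_toList _) (Finset.mem_toList.2 (Finset.mem_univ l))
  rw [h2, pow_one, Pi.single_eq_same] at h1
  exact h1

omit [DecidableEq ι] in
theorem ev_comm (h : ∀ l l', Commute (φ (.lt l)) (φ (.lt l'))) (d d' : Lt ι → ℤ) :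
    Commute (ev φ d) (ev φ d') := by
  rw [Commute, SemiconjBy, ← ev_add φ h, ← ev_add φ h, add_comm]

end ev

/-! ### the action of exponent vectors -/

omit [DecidableEq ι] in
theorem sec_add (g : Sy S ι) (m m' : Mon (Vr ι)) : sec g (m + m') = sec g m + sec g m' := by
  funext l
  cases g <;> cases l <;> simp [sec] <;> ring

/-- the monomial by which the product of letters `d` acts on the symbol `g` -/
def actv (g : Sy S ι) (d : Lt ι → ℤ) : Mon (Vr ι) :=
  match g with
  | .v => fun j => (d (.x1 j) - (if j = .kap then d .x0 else 0),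
      d (.x1' j) - (if j = .kap then d .x0' else 0))
  | .u _ o => fun j => (d (.x2 j) - tw o j * d (.x1 j), d (.x2' j) - tw o j * d (.x1' j))
  | .w => fun j => (-d (.x2 j) + (if j = .kap3 then d .x0 else 0),
      -d (.x2' j) + (if j = .kap3 then d .x0' else 0))

theorem actv_add (g : Sy S ι) (d d' : Lt ι → ℤ) : actv g (d + d') = actv g d + actv g d' := by
  cases g <;> funext j <;> simp only [actv, Pi.add_apply, Prod.mk_add_mk, Prod.mk.injEq] <;>
    constructor <;> first | (split_ifs <;> ring) | ring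

theorem actv_zero (g : Sy S ι) : actv g (0 : Lt ι → ℤ) = 0 := by
  have h := actv_add g 0 0
  rw [add_zero] at h
  exact left_eq_add.1 h

theorem actv_neg (g : Sy S ι) (d : Lt ι → ℤ) : actv g (-d) = -actv g d := by
  rw [eq_neg_iff_add_eq_zero, ← actv_add, neg_add_cancel, actv_zero]

theorem actv_single (g : Sy S ι) (l : Lt ι) : actv g (Pi.single l 1) = act g l := by
  cases g <;> cases l <;> funext j <;>
    simp only [actv, act, xm, xm', Pi.single_apply, Pi.neg_apply, Pi.smul_apply, Pi.zero_apply,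
      reduceCtorEq, if_false, if_true, Lt.x1.injEq, Lt.x1'.injEq, Lt.x2.injEq, Lt.x2'.injEq] <;>
    (try split_ifs) <;> (try simp_all)

/-! ### the action on the group -/

section group
variable [Fintype ι] {G : Type*} [Group G]

/-- the action of the monomials on the symbols of the type of `g` -/
noncomputable def theta (φ : Gn S ι → G) (h : ∀ l l', Commute (φ (.lt l)) (φ (.lt l')))
    (g : Sy S ι) : Multiplicative (Mon (Vr ι)) →* MulAut G where
  toFun m := MulAut.conj (ev φ (sec g m.toAdd))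
  map_one' := by
    have h1 : sec g (0 : Mon (Vr ι)) = 0 := by
      have := sec_add g 0 0
      rw [add_zero] at this
      exact left_eq_add.1 this
    rw [toAdd_one, h1, ev_zero φ h, map_one]
  map_mul' m m' := by
    rw [toAdd_mul, sec_add, ev_add φ h, map_mul]

variable {φ : Gn S ι → G} {rule : ρ → Rule S ι}

theorem Sat.comm (hφ : Sat rule φ) (l l' : Lt ι) : Commute (φ (.lt l)) (φ (.lt l')) :=
  hφ (.comm l l')

omit [DecidableEq ι] in
theorem theta_apply (h : ∀ l l', Commute (φ (.lt l)) (φ (.lt l'))) (g : Sy S ι)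
    (m : Mon (Vr ι)) (x : G) :
    theta φ h g (.ofAdd m) x = ev φ (sec g m) * x * (ev φ (sec g m))⁻¹ := rfl

omit [DecidableEq ι] in
theorem theta_sy (h : ∀ l l', Commute (φ (.lt l)) (φ (.lt l'))) (g : Sy S ι)
    (m : Mon (Vr ι)) (α β : Fin 4) :
    theta φ h g (.ofAdd m) (φ (.sy g α β)) = sg φ g m α β := rfl

omit [DecidableEq ι] in
theorem conj_theta (h : ∀ l l', Commute (φ (.lt l)) (φ (.lt l'))) (g : Sy S ι) (d : Lt ι → ℤ)
    (m : Mon (Vr ι)) (x : G) :
    MulAut.conj (ev φ d) (theta φ h g (.ofAdd m) x) =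
      theta φ h g (.ofAdd m) (MulAut.conj (ev φ d) x) := by
  rw [theta_apply, theta_apply, MulAut.conj_apply, MulAut.conj_apply]
  have h1 := (ev_comm φ h d (sec g m)).eq
  have h2 : ev φ d * (ev φ (sec g m) * x * (ev φ (sec g m))⁻¹) * (ev φ d)⁻¹ =
      (ev φ d * ev φ (sec g m)) * x * (ev φ d * ev φ (sec g m))⁻¹ := by group
  rw [h2, h1]
  group

/-- conjugating a symbol by a product of letters -/
theorem conj_sy (hφ : Sat rule φ) (g : Sy S ι) (α β : Fin 4) (d : Lt ι → ℤ) :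
    MulAut.conj (ev φ d) (φ (.sy g α β)) =
      theta φ hφ.comm g (.ofAdd (actv g d)) (φ (.sy g α β)) := by
  let R : AddSubgroup (Lt ι → ℤ) :=
    { carrier := {d | MulAut.conj (ev φ d) (φ (.sy g α β)) =
        theta φ hφ.comm g (.ofAdd (actv g d)) (φ (.sy g α β))}
      zero_mem' := by
        change MulAut.conj (ev φ 0) (φ (.sy g α β)) =
          theta φ hφ.comm g (.ofAdd (actv g 0)) (φ (.sy g α β))
        rw [ev_zero φ hφ.comm, actv_zero, ofAdd_zero, map_one, map_one]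
      add_mem' := by
        intro d d' hd hd'
        change MulAut.conj (ev φ (d + d')) (φ (.sy g α β)) =
          theta φ hφ.comm g (.ofAdd (actv g (d + d'))) (φ (.sy g α β))
        have hd1 : MulAut.conj (ev φ d) (φ (.sy g α β)) =
          theta φ hφ.comm g (.ofAdd (actv g d)) (φ (.sy g α β)) := hd
        have hd2 : MulAut.conj (ev φ d') (φ (.sy g α β)) =
          theta φ hφ.comm g (.ofAdd (actv g d')) (φ (.sy g α β)) := hd'
        rw [ev_add φ hφ.comm, map_mul, MulAut.mul_apply, hd2, conj_theta, hd1, actv_add,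
          add_comm, theta_add]
      neg_mem' := by
        intro d hd
        change MulAut.conj (ev φ (-d)) (φ (.sy g α β)) =
          theta φ hφ.comm g (.ofAdd (actv g (-d))) (φ (.sy g α β))
        have hd1 : MulAut.conj (ev φ d) (φ (.sy g α β)) =
          theta φ hφ.comm g (.ofAdd (actv g d)) (φ (.sy g α β)) := hd
        apply (MulAut.conj (ev φ d)).injective
        rw [conj_theta, hd1, ← theta_add, ← actv_add, neg_add_cancel, actv_zero, ofAdd_zero,
          map_one, MulAut.one_apply, ← MulAut.mul_apply, ← map_mul, ev_neg φ hφ.comm,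
          mul_inv_cancel, map_one, MulAut.one_apply] }
  have h1 : ∀ l : Lt ι, (Pi.single l 1 : Lt ι → ℤ) ∈ R := by
    intro l
    change MulAut.conj (ev φ (Pi.single l 1)) (φ (.sy g α β)) =
      theta φ hφ.comm g (.ofAdd (actv g (Pi.single l 1))) (φ (.sy g α β))
    rw [ev_single, zpow_one, actv_single]
    exact hφ (.act g α β l)
  have h2 : d ∈ R := by
    have h3 : d = ∑ l, d l • (Pi.single l 1 : Lt ι → ℤ) := by
      funext l'
      rw [Finset.sum_apply, Finset.sum_eq_single l']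
      · simp
      · intro b _ hb
        rw [Pi.smul_apply, Pi.single_eq_of_ne hb.symm, smul_zero]
      · intro h
        exact absurd (Finset.mem_univ l') h
    rw [h3]
    exact R.sum_mem fun l _ => R.zsmul_mem (h1 l) _
  exact h2

omit [DecidableEq ι] [Fintype ι] in
theorem sec_lev {g g' : Sy S ι} (h : g.lev = g'.lev) : sec g = sec g' := by
  have h01 : (0 : ZMod 3) ≠ 1 := by decide
  have h02 : (0 : ZMod 3) ≠ 2 := by decide
  have h12 : (1 : ZMod 3) ≠ 2 := by decide
  funext m l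
  cases g <;> cases g' <;>
    first | exact absurd h h01 | exact absurd h h01.symm | exact absurd h h02 |
      exact absurd h h02.symm | exact absurd h h12 | exact absurd h h12.symm | (cases l <;> rfl)

omit [DecidableEq ι] in
theorem theta_lev (h : ∀ l l', Commute (φ (.lt l)) (φ (.lt l'))) {g g' : Sy S ι}
    (hl : g.lev = g'.lev) : theta φ h g = theta φ h g' := by
  apply MonoidHom.ext
  intro m
  apply MulEquiv.ext
  intro x
  change ev φ (sec g m.toAdd) * x * (ev φ (sec g m.toAdd))⁻¹ = _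
  rw [sec_lev hl]
  rfl

/-- the additive maps attached to the symbols -/
structure XData (φ : Gn S ι → G) (xx : Sy S ι → Fin 4 → Fin 4 → RR (Vr ι) → G) : Prop where
  add : ∀ g α β r r', xx g α β (r + r') = xx g α β r * xx g α β r'
  monv : ∀ g α β m, xx g α β (mon m) = sg φ g m α β
  conj : ∀ g α β (d : Lt ι → ℤ) r,
    ev φ d * xx g α β r * (ev φ d)⁻¹ = xx g α β (mon (actv g d) * r)
  same : ∀ g g' α β α' β' r r', g.lev = g'.lev → Commute (xx g α β r) (xx g' α' β' r')

theorem exists_xdata (hφ : Sat rule φ) : ∃ xx, XData φ xx := by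
  classical
  have hc := hφ.comm
  have hinv : ∀ g α β, φ (.sy g α β) * φ (.sy g α β) = 1 := fun g α β => hφ (.inv g α β)
  have hbs : ∀ g α β j, theta φ hc g (.ofAdd (xm' j)) (φ (.sy g α β)) =
      φ (.sy g α β) * theta φ hc g (.ofAdd (xm j)) (φ (.sy g α β)) :=
    fun g α β j => hφ (.bs g α β j)
  have hbox : ∀ g g' α β α' β' (n : Vr ι → Fin 3), g.lev = g'.lev →
      Commute (φ (.sy g α β)) (theta φ hc g' (.ofAdd fun j => (((n j : ℕ) : ℤ) - 1, 0))
        (φ (.sy g' α' β'))) := by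
    intro g g' α β α' β' n hl
    have h1 := hφ (.same g g' α β α' β' n)
    simp only [sides, if_pos hl] at h1
    exact h1
  have h := fun (g : Sy S ι) (α β : Fin 4) => box_hom (I := Unit) (theta φ hc g)
    (fun _ => φ (.sy g α β)) (fun _ => hinv g α β) (fun _ j => hbs g α β j)
    (fun _ _ n => hbox g g α β α β n rfl)
  choose xx h1 h2 h3 h4 h5 using h
  refine ⟨fun g α β => xx g α β (), ?_, ?_, ?_, ?_⟩
  · exact fun g α β r r' => h1 g α β () r r'
  · exact fun g α β m => h2 g α β () m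
  · intro g α β d r
    exact box_equivariant (theta φ hc g) (φ (.sy g α β)) (xx g α β ()) (h1 g α β ())
      (h2 g α β ()) (MulAut.conj (ev φ d)) (actv g d) (conj_sy hφ g α β d)
      (fun m' x => conj_theta hc g d m' x) r
  · intro g g' α β α' β' r r' hl
    refine commute_of_closure ?_ (h4 g α β () r) (h4 g' α' β' () r')
    rintro _ ⟨m, rfl⟩ _ ⟨m', rfl⟩
    have hth : theta φ hc g' = theta φ hc g := theta_lev hc hl.symm
    rw [hth]
    refine box_commute (I := {p : Sy S ι // p.lev = g.lev} × Fin 4 × Fin 4) (theta φ hc g)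
      (fun p => φ (.sy p.1.1 p.2.1 p.2.2)) ?_ ?_ (⟨g, rfl⟩, α, β) (⟨g', hl.symm⟩, α', β') m m'
    · rintro ⟨⟨p, hp⟩, a, b⟩ j
      have := hbs p a b j
      rwa [theta_lev hc hp] at this
    · rintro ⟨⟨p, hp⟩, a, b⟩ ⟨⟨p', hp'⟩, a', b'⟩ n
      have := hbox p p' a b a' b' n (hp.trans hp'.symm)
      rwa [theta_lev hc hp'] at this

end group

/-! ### moving both entries of a junction -/

/-- exponent vector in the letters `x1`, `x1'` -/
def d1 (n : Mon (Vr ι)) : Lt ι → ℤ
  | .x1 j => (n j).1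
  | .x1' j => (n j).2
  | _ => 0

/-- exponent vector in the letters `x2`, `x2'` -/
def d2 (n : Mon (Vr ι)) : Lt ι → ℤ
  | .x2 j => (n j).1
  | .x2' j => (n j).2
  | _ => 0

/-- multiplication by the twist -/
def twm (o : Option ι) (n : Mon (Vr ι)) : Mon (Vr ι) := fun j => tw o j • n j

theorem actv_v_d1 (n : Mon (Vr ι)) : actv (.v : Sy S ι) (d1 n) = n := by
  funext j
  simp [actv, d1]

theorem actv_v_d2 (n : Mon (Vr ι)) : actv (.v : Sy S ι) (d2 n) = 0 := by
  funext j
  simp [actv, d2]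

theorem actv_w_d1 (n : Mon (Vr ι)) : actv (.w : Sy S ι) (d1 n) = 0 := by
  funext j
  simp [actv, d1]

theorem actv_w_d2 (n : Mon (Vr ι)) : actv (.w : Sy S ι) (d2 n) = -n := by
  funext j
  simp [actv, d2]
  rfl

theorem actv_u_d2 (a : S) (o : Option ι) (n : Mon (Vr ι)) : actv (.u a o : Sy S ι) (d2 n) = n := by
  funext j
  simp [actv, d2]

theorem actv_u_d1 (a : S) (o : Option ι) (n : Mon (Vr ι)) :
    actv (.u a o : Sy S ι) (d1 n) = -twm o n := by
  funext j
  simp [actv, d1, twm]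
  rfl

/-- the ring is spanned by the monomials whose exponent of `1 + x_s` is divisible by 16 -/
theorem mon_span16 [Fintype ι] (s : Vr ι) (r : RR (Vr ι)) :
    r ∈ AddSubgroup.closure {f : RR (Vr ι) | ∃ m, (16 : ℤ) ∣ (m s).2 ∧ f = mon m} := by
  have key : ∀ (k : ℕ) (m : Mon (Vr ι)), (m s).2 % 16 = k → mon m ∈
      AddSubgroup.closure {f : RR (Vr ι) | ∃ m, (16 : ℤ) ∣ (m s).2 ∧ f = mon m} := by
    intro k
    induction k with
    | zero =>
      intro m hm
      exact AddSubgroup.subset_closure ⟨m, Int.dvd_of_emod_eq_zero hm, rfl⟩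
    | succ k ih =>
      intro m hm
      have h1 : mon m = mon (m - xm' s) + mon (m - xm' s + xm s) := by
        have h2 : m = (m - xm' s) + xm' s := by abel
        conv_lhs => rw [h2]
        rw [mon_add, mon_xm', mon_add]
        ring
      have h3 : ((m - xm' s) s).2 = (m s).2 - 1 := by simp [xm']
      have h4 : ((m - xm' s + xm s) s).2 = (m s).2 - 1 := by simp [xm', xm]
      rw [h1]
      refine AddSubgroup.add_mem _ (ih _ ?_) (ih _ ?_)
      · rw [h3]
        push_cast at hm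
        omega
      · rw [h4]
        push_cast at hm
        omega
  have h1 := mon_span r
  refine (AddSubgroup.closure_le _).2 ?_ h1
  rintro _ ⟨m, rfl⟩
  exact key ((m s).2 % 16).toNat m (by omega)

theorem neg_eq (r : RR (Vr ι)) : -r = r := by
  rw [neg_eq_iff_add_eq_zero]
  exact RR_two r

/-- additive predicates hold everywhere if they hold on generators -/
theorem pred_induct {T : Set (RR (Vr ι))} (hT : ∀ r : RR (Vr ι), r ∈ AddSubgroup.closure T)
    (hne : T.Nonempty) (P : RR (Vr ι) → Prop) (hadd : ∀ r r', P r → P r' → P (r + r'))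
    (h : ∀ t ∈ T, P t) (r : RR (Vr ι)) : P r := by
  induction hT r using AddSubgroup.closure_induction with
  | mem x hx => exact h x hx
  | zero =>
    obtain ⟨t, ht⟩ := hne
    have h1 := hadd t t (h t ht) (h t ht)
    rwa [RR_two] at h1
  | add x y _ _ hx hy => exact hadd x y hx hy
  | neg x _ hx => rwa [neg_eq]

/-- junction induction -/
theorem junc_induct [Fintype ι] {g g' : Sy S ι} (hgg : g'.lev = g.lev + 1)
    (P : RR (Vr ι) → RR (Vr ι) → Prop)
    (hadd1 : ∀ r1 r2 r', P r1 r' → P r2 r' → P (r1 + r2) r')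
    (hadd2 : ∀ r r1' r2', P r r1' → P r r2' → P r (r1' + r2'))
    (hmove : ∀ (d : Lt ι → ℤ) r r', P r r' → P (mon (actv g d) * r) (mon (actv g' d) * r'))
    (hbase : ∀ J : Junc S ι, J.fst = g → J.snd = g' → P (mon J.mn) 1) (r r' : RR (Vr ι)) :
    P r r' := by
  have hr : (Set.range (mon : Mon (Vr ι) → RR (Vr ι))).Nonempty := ⟨_, 0, rfl⟩
  have hmm : ∀ (T : Set (RR (Vr ι))), (∀ r : RR (Vr ι), r ∈ AddSubgroup.closure T) → T.Nonempty →
      (∀ t ∈ T, ∀ m', P t (mon m')) → P r r' := by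
    intro T hT hne h
    refine pred_induct hT hne (fun r => P r r') (fun r1 r2 h1 h2 => hadd1 r1 r2 r' h1 h2) ?_ r
    intro t ht
    refine pred_induct mon_span hr (fun r' => P t r') (fun r1 r2 h1 h2 => hadd2 t r1 r2 h1 h2) ?_ r'
    rintro _ ⟨m', rfl⟩
    exact h t ht m'
  have h01 : (0 : ZMod 3) ≠ 0 + 1 := by decide
  have h02 : (2 : ZMod 3) ≠ 0 + 1 := by decide
  have h10 : (0 : ZMod 3) ≠ 1 + 1 := by decide
  have h11 : (1 : ZMod 3) ≠ 1 + 1 := by decide
  have h21 : (1 : ZMod 3) ≠ 2 + 1 := by decide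
  have h22 : (2 : ZMod 3) ≠ 2 + 1 := by decide
  rcases g with _ | ⟨a, o⟩ | _ <;> rcases g' with _ | ⟨a', o'⟩ | _
  · exact absurd hgg h01
  · -- (v, u)
    refine hmm _ mon_span hr ?_
    rintro _ ⟨m, rfl⟩ m'
    have h1 := hmove (d1 m + d2 (m' + twm o' m)) _ _ (hbase (.vu a' o') rfl rfl)
    rw [actv_add, actv_v_d1, actv_v_d2, actv_add, actv_u_d1, actv_u_d2, ← mon_add, mul_one] at h1
    have h2 : m + 0 + (Junc.vu a' o' : Junc S ι).mn = m := by
      change m + 0 + 0 = m
      abel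
    have h3 : -twm o' m + (m' + twm o' m) = m' := by abel
    rwa [h2, h3] at h1
  · exact absurd hgg h02
  · exact absurd hgg h10
  · exact absurd hgg h11
  · -- (u, w)
    -- reduction to the second entry one
    have hred : (∀ r, P r 1) → P r r' := by
      intro h
      refine hmm _ mon_span hr ?_
      rintro _ ⟨m, rfl⟩ m'
      have h1 := hmove (d2 (-m')) _ _ (h (mon (m' + m)))
      rw [actv_u_d2, actv_w_d2, ← mon_add, mul_one] at h1
      have h2 : -m' + (m' + m) = m := by abel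
      rwa [h2, neg_neg] at h1
    apply hred
    rcases o with _ | s
    · refine pred_induct mon_span hr (fun r => P r 1) (fun r1 r2 h1 h2 => hadd1 r1 r2 _ h1 h2) ?_
      rintro _ ⟨m, rfl⟩
      have h1 := hmove (d1 (-m)) _ _ (hbase (.uw a none 0) rfl rfl)
      rw [actv_u_d1, actv_w_d1, ← mon_add, mon_zero, one_mul] at h1
      have h2 : -twm none (-m) + (Junc.uw a none 0 : Junc S ι).mn = m := by
        change -twm none (-m) + 0 = m
        funext j
        simp [twm, tw]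
      rwa [h2] at h1
    · refine pred_induct (mon_span16 (.st s)) ⟨mon 0, 0, by simp, rfl⟩ (fun r => P r 1)
        (fun r1 r2 h1 h2 => hadd1 r1 r2 _ h1 h2) ?_
      rintro _ ⟨m, hm, rfl⟩
      let n : Mon (Vr ι) := fun j => if j = .st s then ((m j).1 / 16, (m j).2 / 16) else m j
      have hi : ((m (.st s)).1 % 16).toNat < 16 := by omega
      have h1 := hmove (d1 (-n)) _ _
        (hbase (.uw a (some s) ⟨((m (.st s)).1 % 16).toNat, hi⟩) rfl rfl)
      rw [actv_u_d1, actv_w_d1, ← mon_add, mon_zero, one_mul] at h1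
      have h2 : -twm (some s) (-n) +
          (Junc.uw a (some s) ⟨((m (.st s)).1 % 16).toNat, hi⟩ : Junc S ι).mn = m := by
        change -twm (some s) (-n) + ((((m (.st s)).1 % 16).toNat : ℕ) : ℤ) • xm (.st s) = m
        have hi2 : ((((m (.st s)).1 % 16).toNat : ℕ) : ℤ) = (m (.st s)).1 % 16 := by omega
        rw [hi2]
        funext j
        by_cases hj : j = .st s
        · subst hj
          have e1 : tw (some s) (.st s) = 16 := if_pos rfl
          simp only [Pi.add_apply, Pi.neg_apply, Pi.smul_apply, twm, e1, n, if_true, xm,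
            Pi.single_eq_same]
          apply Prod.ext
          · simp
            omega
          · simp
            omega
        · have e1 : tw (some s) j = 1 := by
            cases j with
            | st t =>
              have : s ≠ t := fun h => hj (by rw [h])
              exact if_neg this
            | kap => rfl
            | kap3 => rfl
            | nu => rfl
          simp [twm, e1, n, hj, xm]
      rwa [h2] at h1
  · -- (w, v)
    refine hmm _ mon_span hr ?_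
    rintro _ ⟨m, rfl⟩ m'
    have h1 := hmove (d1 m' + d2 (-m)) _ _ (hbase .wv rfl rfl)
    rw [actv_add, actv_w_d1, actv_w_d2, actv_add, actv_v_d1, actv_v_d2, ← mon_add, mul_one] at h1
    have h2 : 0 + -(-m) + (Junc.wv : Junc S ι).mn = m := by
      change 0 + -(-m) + 0 = m
      abel
    have h3 : m' + 0 = m' := add_zero _
    rwa [h2, h3] at h1
  · exact absurd hgg h21
  · exact absurd hgg h22

/-! ### commutators -/

theorem commute_comm {G : Type*} [Group G] {c a b : G} (h1 : Commute c a) (h2 : Commute c b) :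
    Commute c ⁅a, b⁆ :=
  ((h1.mul_right h2).mul_right h1.inv_right).mul_right h2.inv_right

theorem comm_mul_left {G : Type*} [Group G] {a1 a2 b : G} (h : Commute a1 ⁅a2, b⁆) :
    ⁅a1 * a2, b⁆ = ⁅a2, b⁆ * ⁅a1, b⁆ := by
  have h1 : ⁅a1 * a2, b⁆ = (a1 * ⁅a2, b⁆ * a1⁻¹) * ⁅a1, b⁆ := by
    simp only [commutatorElement_def]
    group
  rw [h1, h.eq]
  group

theorem comm_mul_right {G : Type*} [Group G] {a b1 b2 : G} (h : Commute b1 ⁅a, b2⁆) :
    ⁅a, b1 * b2⁆ = ⁅a, b1⁆ * ⁅a, b2⁆ := by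
  have h1 : ⁅a, b1 * b2⁆ = ⁅a, b1⁆ * (b1 * ⁅a, b2⁆ * b1⁻¹) := by
    simp only [commutatorElement_def]
    group
  rw [h1, h.eq]
  group

theorem conj_comm_elem {G : Type*} [Group G] (c a b : G) :
    c * ⁅a, b⁆ * c⁻¹ = ⁅c * a * c⁻¹, c * b * c⁻¹⁆ := by
  simp only [commutatorElement_def]
  group

section comm
variable [Fintype ι] {G : Type*} [Group G] {φ : Gn S ι → G} {rule : ρ → Rule S ι}
  {xx : Sy S ι → Fin 4 → Fin 4 → RR (Vr ι) → G}

theorem XData.one (hx : XData φ xx) (hφ : Sat rule φ) (g : Sy S ι) (α β : Fin 4) :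
    xx g α β 1 = φ (.sy g α β) := by
  rw [← mon_zero, hx.monv, ← theta_sy hφ.comm, ofAdd_zero, map_one, MulAut.one_apply]

theorem XData.adj (hx : XData φ xx) (hφ : Sat rule φ) {g g' : Sy S ι} (hgg : g'.lev = g.lev + 1)
    (r r' : RR (Vr ι)) : ∀ α β β' γ, β ≠ β' → Commute (xx g α β r) (xx g' β' γ r') := by
  refine junc_induct hgg (fun r r' => ∀ α β β' γ, β ≠ β' →
    Commute (xx g α β r) (xx g' β' γ r')) ?_ ?_ ?_ ?_ r r'
  · intro r1 r2 r' h1 h2 α β β' γ hne
    rw [hx.add]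
    exact (h1 α β β' γ hne).mul_left (h2 α β β' γ hne)
  · intro r r1 r2 h1 h2 α β β' γ hne
    rw [hx.add]
    exact (h1 α β β' γ hne).mul_right (h2 α β β' γ hne)
  · intro d r r' h α β β' γ hne
    rw [← hx.conj, ← hx.conj]
    exact (h α β β' γ hne).map (MulAut.conj (ev φ d))
  · rintro J rfl rfl α β β' γ hne
    have h1 := hφ (.adj J α β β' γ)
    simp only [sides, if_neg hne] at h1
    rw [hx.monv, hx.one hφ]
    exact h1

theorem XData.comm_fst (hx : XData φ xx) (hφ : Sat rule φ) {g g' : Sy S ι}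
    (hgg : g'.lev = g.lev + 1) {r r' : RR (Vr ι)} {α γ : Fin 4}
    (h : ∀ β β', ⁅xx g α β r, xx g' β γ r'⁆ = ⁅xx g α β' r, xx g' β' γ r'⁆) (r'' : RR (Vr ι))
    (β : Fin 4) : Commute (xx g α β r'') ⁅xx g α β r, xx g' β γ r'⁆ := by
  have hne : β ≠ β + 1 := by
    revert β
    decide
  rw [h β (β + 1)]
  exact commute_comm (hx.same _ _ _ _ _ _ _ _ rfl) (hx.adj hφ hgg _ _ _ _ _ _ hne)

theorem XData.comm_snd (hx : XData φ xx) (hφ : Sat rule φ) {g g' : Sy S ι}
    (hgg : g'.lev = g.lev + 1) {r r' : RR (Vr ι)} {α γ : Fin 4}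
    (h : ∀ β β', ⁅xx g α β r, xx g' β γ r'⁆ = ⁅xx g α β' r, xx g' β' γ r'⁆) (r'' : RR (Vr ι))
    (β : Fin 4) : Commute (xx g' β γ r'') ⁅xx g α β r, xx g' β γ r'⁆ := by
  have hne : β + 1 ≠ β := by
    revert β
    decide
  rw [h β (β + 1)]
  exact commute_comm (hx.adj hφ hgg _ _ _ _ _ _ hne).symm (hx.same _ _ _ _ _ _ _ _ rfl)

theorem XData.indep (hx : XData φ xx) (hφ : Sat rule φ) {g g' : Sy S ι}
    (hgg : g'.lev = g.lev + 1) (r r' : RR (Vr ι)) : ∀ α γ β β',
    ⁅xx g α β r, xx g' β γ r'⁆ = ⁅xx g α β' r, xx g' β' γ r'⁆ := by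
  refine junc_induct hgg (fun r r' => ∀ α γ β β',
    ⁅xx g α β r, xx g' β γ r'⁆ = ⁅xx g α β' r, xx g' β' γ r'⁆) ?_ ?_ ?_ ?_ r r'
  · intro r1 r2 r' h1 h2 α γ β β'
    have e : ∀ β, ⁅xx g α β (r1 + r2), xx g' β γ r'⁆ =
        ⁅xx g α β r2, xx g' β γ r'⁆ * ⁅xx g α β r1, xx g' β γ r'⁆ := by
      intro β
      rw [hx.add]
      exact comm_mul_left (hx.comm_fst hφ hgg (h2 α γ) r1 β)
    rw [e, e, h1 α γ β β', h2 α γ β β']
  · intro r r1 r2 h1 h2 α γ β β'
    have e : ∀ β, ⁅xx g α β r, xx g' β γ (r1 + r2)⁆ =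
        ⁅xx g α β r, xx g' β γ r1⁆ * ⁅xx g α β r, xx g' β γ r2⁆ := by
      intro β
      rw [hx.add]
      exact comm_mul_right (hx.comm_snd hφ hgg (h2 α γ) r1 β)
    rw [e, e, h1 α γ β β', h2 α γ β β']
  · intro d r r' h α γ β β'
    rw [← hx.conj, ← hx.conj, ← hx.conj, ← hx.conj, ← conj_comm_elem, ← conj_comm_elem,
      h α γ β β']
  · rintro J rfl rfl α γ β β'
    have h1 := hφ (.indep J α β β' γ)
    simp only [sides] at h1
    rw [hx.monv, hx.one hφ, hx.monv, hx.one hφ]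
    exact h1

theorem XData.add_left (hx : XData φ xx) (hφ : Sat rule φ) {g g' : Sy S ι}
    (hgg : g'.lev = g.lev + 1) (r1 r2 r' : RR (Vr ι)) (α β γ : Fin 4) :
    ⁅xx g α β (r1 + r2), xx g' β γ r'⁆ =
      ⁅xx g α β r1, xx g' β γ r'⁆ * ⁅xx g α β r2, xx g' β γ r'⁆ := by
  rw [add_comm, hx.add]
  exact comm_mul_left (hx.comm_fst hφ hgg (hx.indep hφ hgg r1 r' α γ) r2 β)

theorem XData.add_right (hx : XData φ xx) (hφ : Sat rule φ) {g g' : Sy S ι}
    (hgg : g'.lev = g.lev + 1) (r r1 r2 : RR (Vr ι)) (α β γ : Fin 4) :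
    ⁅xx g α β r, xx g' β γ (r1 + r2)⁆ =
      ⁅xx g α β r, xx g' β γ r1⁆ * ⁅xx g α β r, xx g' β γ r2⁆ := by
  rw [hx.add]
  exact comm_mul_right (hx.comm_snd hφ hgg (hx.indep hφ hgg r r2 α γ) r1 β)

/-- the balancing letter centralises all commutators of the junction -/
theorem XData.bal (hx : XData φ xx) (hφ : Sat rule φ) {g g' : Sy S ι}
    (hgg : g'.lev = g.lev + 1) (l : Lt ι)
    (hl : ∀ J : Junc S ι, J.fst = g → J.snd = g' → J.bal = l) (r r' : RR (Vr ι)) :
    ∀ α β γ, Commute (φ (.lt l)) ⁅xx g α β r, xx g' β γ r'⁆ := by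
  refine junc_induct hgg (fun r r' => ∀ α β γ, Commute (φ (.lt l)) ⁅xx g α β r, xx g' β γ r'⁆)
    ?_ ?_ ?_ ?_ r r'
  · intro r1 r2 r' h1 h2 α β γ
    rw [hx.add_left hφ hgg]
    exact (h1 α β γ).mul_right (h2 α β γ)
  · intro r r1 r2 h1 h2 α β γ
    rw [hx.add_right hφ hgg]
    exact (h1 α β γ).mul_right (h2 α β γ)
  · intro d r r' h α β γ
    rw [← hx.conj, ← hx.conj, ← conj_comm_elem]
    have h1 : φ (.lt l) = ev φ d * φ (.lt l) * (ev φ d)⁻¹ := by
      have h2 := (ev_comm φ hφ.comm d (Pi.single l 1)).eq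
      rw [ev_single, zpow_one] at h2
      rw [h2]
      group
    rw [h1]
    exact (h α β γ).map (MulAut.conj (ev φ d))
  · intro J hJ1 hJ2 α β γ
    have h1 := hφ (.bal J α β γ)
    simp only [sides] at h1
    rw [hl J hJ1 hJ2] at h1
    subst hJ1 hJ2
    rw [hx.monv, hx.one hφ]
    exact h1

/-- the resulting transfer -/
theorem XData.transfer (hx : XData φ xx) (hφ : Sat rule φ) {g g' : Sy S ι}
    (hgg : g'.lev = g.lev + 1) (l : Lt ι)
    (hl : ∀ J : Junc S ι, J.fst = g → J.snd = g' → J.bal = l) (m m' : Mon (Vr ι))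
    (hm : act g l = m) (hm' : act g' l = -m') (r r' : RR (Vr ι)) (α β γ : Fin 4) :
    ⁅xx g α β (mon m * r), xx g' β γ r'⁆ = ⁅xx g α β r, xx g' β γ (mon m' * r')⁆ := by
  have h1 := (hx.bal hφ hgg l hl r (mon m' * r') α β γ).eq
  have h2 : φ (.lt l) * ⁅xx g α β r, xx g' β γ (mon m' * r')⁆ * (φ (.lt l))⁻¹ =
      ⁅xx g α β r, xx g' β γ (mon m' * r')⁆ := by
    rw [h1]
    group
  have h3 : φ (.lt l) = ev φ (Pi.single l 1) := by rw [ev_single, zpow_one]
  rw [h3, conj_comm_elem, hx.conj, hx.conj, actv_single, actv_single, hm, hm', ← mul_assoc,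
    ← mon_add, neg_add_cancel, mon_zero, one_mul] at h2
  exact h2

/-- two additive expressions in the second slot, with first entry fixed -/
theorem XData.ext_right (hx : XData φ xx) (hφ : Sat rule φ) {g g' g1 g1' : Sy S ι}
    (hgg : g'.lev = g.lev + 1) (hgg1 : g1'.lev = g1.lev + 1) (f f' : RR (Vr ι) → RR (Vr ι))
    (hf : ∀ r r', f (r + r') = f r + f r') (hf' : ∀ r r', f' (r + r') = f' r + f' r')
    (s s' : RR (Vr ι)) (α β γ : Fin 4)
    (h : ∀ m, ⁅xx g α β s, xx g' β γ (f (mon m))⁆ = ⁅xx g1 α β s', xx g1' β γ (f' (mon m))⁆)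
    (r : RR (Vr ι)) :
    ⁅xx g α β s, xx g' β γ (f r)⁆ = ⁅xx g1 α β s', xx g1' β γ (f' r)⁆ := by
  refine add_induct mon_span (fun r => ⁅xx g α β s, xx g' β γ (f r)⁆)
    (fun r => ⁅xx g1 α β s', xx g1' β γ (f' r)⁆) ?_ ?_ ?_ r
  · intro r r'
    rw [hf, hx.add_right hφ hgg]
  · intro r r'
    rw [hf', hx.add_right hφ hgg1]
  · rintro _ ⟨m, rfl⟩
    exact h m

theorem XData.ext_left (hx : XData φ xx) (hφ : Sat rule φ) {g g' g1 g1' : Sy S ι}
    (hgg : g'.lev = g.lev + 1) (hgg1 : g1'.lev = g1.lev + 1) (f f' : RR (Vr ι) → RR (Vr ι))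
    (hf : ∀ r r', f (r + r') = f r + f r') (hf' : ∀ r r', f' (r + r') = f' r + f' r')
    (s s' : RR (Vr ι)) (α β γ : Fin 4)
    (h : ∀ m, ⁅xx g α β (f (mon m)), xx g' β γ s⁆ = ⁅xx g1 α β (f' (mon m)), xx g1' β γ s'⁆)
    (r : RR (Vr ι)) :
    ⁅xx g α β (f r), xx g' β γ s⁆ = ⁅xx g1 α β (f' r), xx g1' β γ s'⁆ := by
  refine add_induct mon_span (fun r => ⁅xx g α β (f r), xx g' β γ s⁆)
    (fun r => ⁅xx g1 α β (f' r), xx g1' β γ s'⁆) ?_ ?_ ?_ r
  · intro r r'
    rw [hf, hx.add_left hφ hgg]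
  · intro r r'
    rw [hf', hx.add_left hφ hgg1]
  · rintro _ ⟨m, rfl⟩
    exact h m

end comm

theorem mon_zsmul_nat {V : Type} [DecidableEq V] (k : ℕ) (m : Mon V) :
    mon ((k : ℤ) • m) = mon m ^ k := by
  induction k with
  | zero => simp [mon_zero]
  | succ k ih =>
    rw [pow_succ, ← ih, ← mon_add]
    congr 1
    push_cast
    rw [add_smul, one_smul]

theorem tw_smul (s : ι) (m : Mon (Vr ι)) :
    (fun j => (16 ^ (Pi.single (Vr.st s) 1 : Vr ι → ℕ) j : ℤ) • m j) = twm (some s) m := by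
  funext j
  by_cases hj : j = .st s
  · subst hj
    have e1 : tw (some s) (.st s) = 16 := if_pos rfl
    rw [Pi.single_eq_same, twm, e1, pow_one]
  · have e1 : tw (some s) j = 1 := by
      cases j with
      | st t =>
        have : s ≠ t := fun h => hj (by rw [h])
        exact if_neg this
      | kap => rfl
      | kap3 => rfl
      | nu => rfl
    rw [Pi.single_eq_of_ne hj, twm, e1, pow_zero]

theorem pushR_mon (s : ι) (d : Fin 16) (m : Mon (Vr ι)) :
    pushR (.st s) d (mon m) = mon (twm (some s) m + dm (.st s) d) := by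
  rw [pushR, Frob_mon, tw_smul, ← mon_add, add_comm]

omit [DecidableEq ι] in
theorem lev_vu (a : S) (o : Option ι) : (Sy.u a o).lev = (Sy.v : Sy S ι).lev + 1 := by
  change (1 : ZMod 3) = 0 + 1
  decide

omit [DecidableEq ι] in
theorem lev_uw (a : S) (o : Option ι) : (Sy.w : Sy S ι).lev = (Sy.u a o).lev + 1 := by
  change (2 : ZMod 3) = 1 + 1
  decide

omit [DecidableEq ι] in
theorem lev_wv : (Sy.v : Sy S ι).lev = (Sy.w : Sy S ι).lev + 1 := by
  change (0 : ZMod 3) = 2 + 1
  decide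

section fields
variable [Fintype ι] {G : Type*} [Group G] {φ : Gn S ι → G} {rule : ρ → Rule S ι}
  {xx : Sy S ι → Fin 4 → Fin 4 → RR (Vr ι) → G}

/-- moves in the second slot with the first entry `v` -/
theorem XData.move_v (hx : XData φ xx) (a : S) (o : Option ι) (m m' : Mon (Vr ι))
    (α β γ : Fin 4) :
    ⁅xx .v α β 1, xx (.u a o) β γ (mon (m' + m))⁆ = ev φ (d2 m) *
      ⁅xx .v α β 1, xx (.u a o) β γ (mon m')⁆ * (ev φ (d2 m))⁻¹ := by
  rw [conj_comm_elem, hx.conj, hx.conj, actv_v_d2, actv_u_d2, mon_zero, one_mul, ← mon_add,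
    add_comm]

/-- moves in the first slot with the second entry `w` -/
theorem XData.move_w (hx : XData φ xx) (a : S) (o : Option ι) (m m' : Mon (Vr ι))
    (α β γ : Fin 4) :
    ⁅xx (.u a o) α β (mon (twm o m + m')), xx .w β γ 1⁆ = ev φ (d1 (-m)) *
      ⁅xx (.u a o) α β (mon m'), xx .w β γ 1⁆ * (ev φ (d1 (-m)))⁻¹ := by
  rw [conj_comm_elem, hx.conj, hx.conj, actv_w_d1, actv_u_d1, mon_zero, one_mul, ← mon_add]
  congr 4
  funext j
  simp [twm]

omit [Fintype ι] in
theorem twm_none (m : Mon (Vr ι)) : twm none m = m := by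
  funext j
  simp [twm, tw]

theorem XData.bal_vu (hx : XData φ xx) (hφ : Sat rule φ) (a : S) (o : Option ι) (α β γ : Fin 4)
    (r r' : RR (Vr ι)) : ⁅xx .v α β (Xk * r), xx (.u a o) β γ r'⁆
    = ⁅xx .v α β r, xx (.u a o) β γ (Xk * r')⁆ := by
  refine hx.transfer hφ (lev_vu a o) (.x1 .kap) ?_ (xm .kap) (xm .kap) rfl ?_ r r' α β γ
  · rintro (⟨a, o⟩ | ⟨a, o, i⟩ | _) h1 h2
    · rfl
    · cases h1
    · cases h1
  · change -(tw o (.kap : Vr ι)) • xm (.kap : Vr ι) = -xm .kap
    have : tw o (.kap : Vr ι) = 1 := by cases o <;> rfl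
    rw [this, neg_one_smul]

theorem XData.bal_uw (hx : XData φ xx) (hφ : Sat rule φ) (a : S) (o : Option ι) (α β γ : Fin 4)
    (r r' : RR (Vr ι)) : ⁅xx (.u a o) α β (Xk * r), xx .w β γ r'⁆
    = ⁅xx (.u a o) α β r, xx .w β γ (Xk * r')⁆ := by
  refine hx.transfer hφ (lev_uw a o) (.x2 .kap) ?_ (xm .kap) (xm .kap) rfl rfl r r' α β γ
  rintro (⟨a, o⟩ | ⟨a, o, i⟩ | _) h1 h2
  · cases h1
  · rfl
  · cases h1

theorem XData.bal_wv (hx : XData φ xx) (hφ : Sat rule φ) (α β γ : Fin 4)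
    (r r' : RR (Vr ι)) : ⁅xx .w α β (Xk3 * r), xx .v β γ r'⁆
    = ⁅xx .w α β r, xx .v β γ (Xk * r')⁆ := by
  refine hx.transfer hφ lev_wv .x0 ?_ (xm .kap3) (xm .kap) rfl rfl r r' α β γ
  rintro (⟨a, o⟩ | ⟨a, o, i⟩ | _) h1 h2
  · cases h1
  · cases h1
  · rfl

theorem XData.k3 (hx : XData φ xx) (hφ : Sat rule φ) (α β : Fin 4) (r : RR (Vr ι)) :
    xx .w α β (Xk3 * r) = xx .w α β (Xk ^ 3 * r) := by
  have h1 := hφ (.k3 α β)
  simp only [sides] at h1
  have e1 : (Xk : RR (Vr ι)) ^ 3 = mon ((3 : ℤ) • xm Vr.kap) := by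
    have e3 := mon_zsmul_nat 3 (xm (Vr.kap : Vr ι))
    rw [Nat.cast_ofNat] at e3
    rw [e3, Xk]
  rw [e1, Xk3]
  refine add_induct mon_span (fun r => xx .w α β (mon (xm .kap3) * r))
    (fun r => xx .w α β (mon ((3 : ℤ) • xm .kap) * r)) ?_ ?_ ?_ r
  · intro r r'
    rw [mul_add, hx.add]
  · intro r r'
    rw [mul_add, hx.add]
  · rintro _ ⟨m, rfl⟩
    rw [← mon_add, ← mon_add, hx.monv, hx.monv, ← theta_sy hφ.comm, ← theta_sy hφ.comm,
      add_comm, theta_add, add_comm, theta_add, theta_sy, theta_sy, h1]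

theorem XData.ptype (hx : XData φ xx) (hφ : Sat rule φ) (a : S) (s : ι) (α β γ : Fin 4)
    (r : RR (Vr ι)) : ⁅xx .v α β 1, xx (.u a none) β γ r⁆
    = ⁅xx .v α β 1, xx (.u a (some s)) β γ r⁆ := by
  refine hx.ext_right hφ (lev_vu a none) (lev_vu a (some s)) id id (fun _ _ => rfl)
    (fun _ _ => rfl) 1 1 α β γ ?_ r
  intro m
  have h1 := hφ (.ptype a s α β γ)
  simp only [sides] at h1
  have h2 := hx.move_v a none m 0 α β γ
  have h3 := hx.move_v a (some s) m 0 α β γ
  rw [zero_add, mon_zero, hx.one hφ, hx.one hφ] at h2 h3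
  simp only [id]
  rw [hx.one hφ, h2, h3, h1]

theorem XData.jump (hx : XData φ xx) (hφ : Sat rule φ) (i : ρ) (a b : S) (k n : ℕ)
    (hi : rule i = .jump a b k n) (α β γ : Fin 4) (r : RR (Vr ι)) :
    ⁅xx .v α β 1, xx (.u a none) β γ r⁆ =
      ⁅xx .v α β 1, xx (.u b none) β γ (Xk ^ k * Xn ^ n * r)⁆ := by
  refine hx.ext_right hφ (lev_vu a none) (lev_vu b none) id (fun r => Xk ^ k * Xn ^ n * r)
    (fun _ _ => rfl) (fun _ _ => mul_add _ _ _) 1 1 α β γ ?_ r
  intro m
  have h1 := hφ (.rule i 0 α β γ)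
  simp only [sides, hi] at h1
  have h2 := hx.move_v a none m 0 α β γ
  have h3 := hx.move_v b none m ((k : ℤ) • xm .kap + (n : ℤ) • xm .nu) α β γ
  rw [zero_add, mon_zero, hx.one hφ, hx.one hφ] at h2
  have e2 := hx.monv (.u b none) β γ ((k : ℤ) • xm Vr.kap + (n : ℤ) • xm Vr.nu)
  rw [hx.one hφ, e2, ← h1] at h3
  have e1 : (Xk : RR (Vr ι)) ^ k * Xn ^ n * mon m =
      mon ((k : ℤ) • xm Vr.kap + (n : ℤ) • xm Vr.nu + m) := by
    rw [mon_add, mon_add, mon_zsmul_nat, mon_zsmul_nat, Xk, Xn]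
  simp only [id]
  rw [hx.one hφ, h2, e1, h3]

theorem XData.kill (hx : XData φ xx) (hφ : Sat rule φ) (i : ρ) (a : S)
    (hi : rule i = .kill a) (α β γ : Fin 4) (r : RR (Vr ι)) :
    ⁅xx .v α β 1, xx (.u a none) β γ r⁆ = 1 := by
  have h1 := hφ (.rule i 0 α β γ)
  simp only [sides, hi] at h1
  refine add_induct mon_span (fun r => ⁅xx .v α β 1, xx (.u a none) β γ r⁆)
    (fun _ => (1 : G)) ?_ ?_ ?_ r
  · intro r r'
    exact hx.add_right hφ (lev_vu a none) _ _ _ _ _ _
  · intro _ _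
    exact (one_mul _).symm
  · rintro _ ⟨m, rfl⟩
    have h2 := hx.move_v a none m 0 α β γ
    rw [zero_add, mon_zero, hx.one hφ, hx.one hφ, h1] at h2
    change ⁅xx .v α β 1, xx (.u a none) β γ (mon m)⁆ = 1
    rw [hx.one hφ, h2]
    group

theorem XData.push (hx : XData φ xx) (hφ : Sat rule φ) (i : ρ) (a : S) (s : ι) (g : Γ') (b : S)
    (hi : rule i = .push a s g b) (α β γ : Fin 4) (r : RR (Vr ι)) :
    ⁅xx (.u a none) α β r, xx .w β γ 1⁆ =
      ⁅xx (.u b (some s)) α β (pushR (.st s) (dg g) r), xx .w β γ 1⁆ := by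
  refine hx.ext_left hφ (lev_uw a none) (lev_uw b (some s)) id (fun r => pushR (.st s) (dg g) r)
    (fun _ _ => rfl) (fun _ _ => pushR_add _ _ _ _) 1 1 α β γ ?_ r
  intro m
  have h1 := hφ (.rule i 0 α β γ)
  simp only [sides, hi] at h1
  have h2 := hx.move_w a none m 0 α β γ
  have h3 := hx.move_w b (some s) m (dm (.st s) (dg g)) α β γ
  rw [twm_none, add_zero, mon_zero, hx.one hφ, hx.one hφ] at h2
  rw [hx.one hφ, hx.monv _ _ _ (dm (.st s) (dg g)), ← h1] at h3
  simp only [id]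
  rw [hx.one hφ, h2, pushR_mon, h3]

theorem XData.popc (hx : XData φ xx) (hφ : Sat rule φ) (i : ρ) (a : S) (s : ι)
    (f : Option Γ' → S) (hi : rule i = .pop a s f) (g : Γ') (α β γ : Fin 4) (r : RR (Vr ι)) :
    ⁅xx (.u a (some s)) α β (pushR (.st s) (dg g) r), xx .w β γ 1⁆
      = ⁅xx (.u (f (some g)) none) α β r, xx .w β γ 1⁆ := by
  refine hx.ext_left hφ (lev_uw a (some s)) (lev_uw (f (some g)) none)
    (fun r => pushR (.st s) (dg g) r) id (fun _ _ => pushR_add _ _ _ _) (fun _ _ => rfl)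
    1 1 α β γ ?_ r
  intro m
  have h1 := hφ (.rule i (dg g) α β γ)
  simp only [sides, hi, symb_dg] at h1
  have h2 := hx.move_w (f (some g)) none m 0 α β γ
  have h3 := hx.move_w a (some s) m (dm (.st s) (dg g)) α β γ
  rw [twm_none, add_zero, mon_zero, hx.one hφ, hx.one hφ] at h2
  rw [hx.one hφ, hx.monv _ _ _ (dm (.st s) (dg g)), h1] at h3
  simp only [id]
  rw [hx.one hφ, h2, pushR_mon, h3]

theorem XData.popn (hx : XData φ xx) (hφ : Sat rule φ) (i : ρ) (a : S) (s : ι)
    (f : Option Γ' → S) (hi : rule i = .pop a s f) (d : Fin 16) (hd : symb d = none)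
    (α β γ : Fin 4) (r : RR (Vr ι)) :
    ⁅xx (.u a (some s)) α β (pushR (.st s) d r), xx .w β γ 1⁆
      = ⁅xx (.u (f none) (some s)) α β (pushR (.st s) d r), xx .w β γ 1⁆ := by
  refine hx.ext_left hφ (lev_uw a (some s)) (lev_uw (f none) (some s))
    (fun r => pushR (.st s) d r) (fun r => pushR (.st s) d r) (fun _ _ => pushR_add _ _ _ _)
    (fun _ _ => pushR_add _ _ _ _) 1 1 α β γ ?_ r
  intro m
  have h1 := hφ (.rule i d α β γ)
  simp only [sides, hi, hd] at h1
  have h2 := hx.move_w (f none) (some s) m (dm (.st s) d) α β γ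
  have h3 := hx.move_w a (some s) m (dm (.st s) d) α β γ
  rw [hx.one hφ, hx.monv _ _ _ (dm (.st s) d)] at h2 h3
  rw [pushR_mon, hx.one hφ, h2, h3, h1]

theorem XData.nu (hx : XData φ xx) (F : ℕ) (hF : φ (.lt (.x2 .nu)) ^ F = 1) (a : S)
    (o : Option ι) (α β : Fin 4) (r : RR (Vr ι)) :
    xx (.u a o) α β (Xn ^ F * r) = xx (.u a o) α β r := by
  have h1 : ev φ (Pi.single (.x2 .nu) (F : ℤ)) = 1 := by
    rw [ev_single, zpow_natCast]
    exact hF
  have h2 := hx.conj (.u a o) α β (Pi.single (.x2 .nu) (F : ℤ)) r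
  have h3 : actv (.u a o : Sy S ι) (Pi.single (.x2 .nu) (F : ℤ)) = (F : ℤ) • xm .nu := by
    have h4 : (Pi.single (.x2 .nu) (F : ℤ) : Lt ι → ℤ) = d2 ((F : ℤ) • xm .nu) := by
      funext l
      cases l with
      | x2 j =>
        by_cases hj : j = .nu
        · subst hj
          simp [d2, xm]
        · simp [d2, xm, hj]
      | x2' j =>
        by_cases hj : j = .nu
        · subst hj
          simp [d2, xm]
        · simp [d2, xm, hj]
      | _ => simp [d2]
    rw [h4, actv_u_d2]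
  rw [h1, h3, mon_zsmul_nat, one_mul, inv_one, mul_one] at h2
  exact h2.symm

end fields

/-- WP4 : from the relations to `UpData` -/
theorem exists_upData [Fintype ι] {G : Type*} [Group G] (rule : ρ → Rule S ι) (F : ℕ)
    (φ : Gn S ι → G) (hφ : Sat rule φ) (hF : φ (.lt (.x2 .nu)) ^ F = 1) :
    ∃ xx : Sy S ι → Fin 4 → Fin 4 → RR (Vr ι) → G,
      UpData rule F (fun l => φ (.lt l)) xx ∧ ∀ g α β, xx g α β 1 = φ (.sy g α β) := by
  obtain ⟨xx, hx⟩ := exists_xdata hφ
  refine ⟨xx, ?_, hx.one hφ⟩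
  exact
    { lt_comm := hφ.comm
      add := hx.add
      conj := by
        intro g α β l r
        have h3 : φ (.lt l) = ev φ (Pi.single l 1) := by rw [ev_single, zpow_one]
        rw [h3, hx.conj, actv_single]
      same := hx.same
      adj := fun g g' α β β' γ r r' hgg hne => hx.adj hφ hgg r r' α β β' γ hne
      indep := fun g g' α β β' γ r r' hgg => hx.indep hφ hgg r r' α γ β β'
      bal_vu := hx.bal_vu hφ
      bal_uw := hx.bal_uw hφ
      bal_wv := hx.bal_wv hφ
      k3 := hx.k3 hφ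
      ptype := hx.ptype hφ
      jump := hx.jump hφ
      kill := hx.kill hφ
      push := hx.push hφ
      popc := hx.popc hφ
      popn := hx.popn hφ
      nu := hx.nu F hF }

end Pool.Agent.SolIndex
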