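import Mathlib

/-!
WP11: Sol is Σ₃ (first conjunct of S14871).
-/

set_option autoImplicit false

namespace Pool.Agent.SolIndex

namespace Upper

open Encodable

/-- words over a countable alphabet -/
abbrev W := List (ℕ × Bool)

/-! ### computability of word operations -/

lemma primrec_invRev : Primrec (FreeGroup.invRev : W → W) := by
  have h1 : Primrec₂ (fun (_ : W) (x : ℕ × Bool) => (x.1, !x.2)) :=
    (Primrec.pair (Primrec.fst.comp Primrec.snd)
      (Primrec.not.comp (Primrec.snd.comp Primrec.snd))).to₂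
  exact (Primrec.list_reverse.comp (Primrec.list_map Primrec.id h1)).of_eq fun w => rfl

lemma primrec_reduce : Primrec (FreeGroup.reduce : W → W) := by
  have hp : PrimrecPred (fun q : (((W × (ℕ × Bool) × W)) × (ℕ × Bool) × W) =>
      q.1.2.1.1 = q.2.1.1 ∧ q.1.2.1.2 = !q.2.1.2) :=
    PrimrecPred.and
      (Primrec.eq.comp (Primrec.fst.comp (Primrec.fst.comp (Primrec.snd.comp Primrec.fst)))
        (Primrec.fst.comp (Primrec.fst.comp Primrec.snd)))
      (Primrec.eq.comp (Primrec.snd.comp (Primrec.fst.comp (Primrec.snd.comp Primrec.fst)))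
        (Primrec.not.comp (Primrec.snd.comp (Primrec.fst.comp Primrec.snd))))
  have hs : Primrec₂ (fun (a : W) (p : (ℕ × Bool) × W) =>
      (List.casesOn p.2 [p.1] fun hd2 tl2 =>
        if p.1.1 = hd2.1 ∧ p.1.2 = !hd2.2 then tl2 else p.1 :: hd2 :: tl2 : W)) := by
    have := Primrec.list_casesOn (f := fun q : W × (ℕ × Bool) × W => q.2.2)
      (g := fun q : W × (ℕ × Bool) × W => [q.2.1])
      (h := fun (q : W × (ℕ × Bool) × W) (r : (ℕ × Bool) × W) =>
        if q.2.1.1 = r.1.1 ∧ q.2.1.2 = !r.1.2 then r.2 else q.2.1 :: r.1 :: r.2)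
      (Primrec.snd.comp Primrec.snd)
      (Primrec.list_cons.comp (Primrec.fst.comp Primrec.snd) (Primrec.const []))
      ((Primrec.ite hp (Primrec.snd.comp Primrec.snd)
        (Primrec.list_cons.comp (Primrec.fst.comp (Primrec.snd.comp Primrec.fst))
          (Primrec.list_cons.comp (Primrec.fst.comp Primrec.snd)
            (Primrec.snd.comp Primrec.snd)))).to₂)
    exact this
  refine (Primrec.list_foldr Primrec.id (Primrec.const []) hs).of_eq fun w => ?_
  induction w with
  | nil => rfl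
  | cons x w ih =>
    rw [FreeGroup.reduce.cons]
    simp only [id, List.foldr_cons] at ih ⊢
    rw [ih]

/-- commutator of words -/
def cmW (u v : W) : W := u ++ v ++ FreeGroup.invRev u ++ FreeGroup.invRev v

lemma primrec_cmW : Primrec₂ cmW :=
  (Primrec.list_append.comp (Primrec.list_append.comp
    (Primrec.list_append.comp Primrec.fst Primrec.snd) (primrec_invRev.comp Primrec.fst))
    (primrec_invRev.comp Primrec.snd)).to₂

/-- tree coded iterated commutators -/
def D : ℕ → ℕ → W
  | 0, b => (decode b : Option W).getD []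
  | a + 1, b => cmW (D a b.unpair.1) (D a b.unpair.2)

/-- table of values of `D a` up to `b` -/
def tab (b a : ℕ) : List W :=
  Nat.rec ((List.range (b + 1)).map fun i => (decode i : Option W).getD [])
    (fun _ t => (List.range (b + 1)).map fun i =>
      cmW (t.getD i.unpair.1 []) (t.getD i.unpair.2 [])) a

lemma tab_eq (b a : ℕ) : tab b a = (List.range (b + 1)).map (D a) := by
  induction a with
  | zero => rfl
  | succ a ih =>
    have h : tab b (a + 1) = (List.range (b + 1)).map fun i =>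
      cmW ((tab b a).getD i.unpair.1 []) ((tab b a).getD i.unpair.2 []) := rfl
    rw [h, ih]
    refine List.map_congr_left fun i hi => ?_
    have hi' : i < b + 1 := List.mem_range.1 hi
    have h1 : i.unpair.1 < b + 1 := lt_of_le_of_lt (Nat.unpair_left_le i) hi'
    have h2 : i.unpair.2 < b + 1 := lt_of_le_of_lt (Nat.unpair_right_le i) hi'
    have e1 : ((List.range (b + 1)).map (D a)).getD i.unpair.1 [] = D a i.unpair.1 := by
      rw [List.getD_eq_getElem _ _ (by simpa using h1)]
      simp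
    have e2 : ((List.range (b + 1)).map (D a)).getD i.unpair.2 [] = D a i.unpair.2 := by
      rw [List.getD_eq_getElem _ _ (by simpa using h2)]
      simp
    rw [e1, e2]
    rfl

lemma primrec_D : Primrec₂ D := by
  have h0 : Primrec (fun q : ℕ × ℕ => (List.range (q.2 + 1)).map
      fun i => (decode i : Option W).getD []) := by
    refine Primrec.list_map (Primrec.list_range.comp (Primrec.succ.comp Primrec.snd)) ?_
    exact (Primrec.option_getD.comp (Primrec.decode.comp Primrec.snd) (Primrec.const [])).to₂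
  have h1 : Primrec₂ (fun (q : ℕ × ℕ) (p : ℕ × List W) =>
      (List.range (q.2 + 1)).map fun i =>
        cmW (p.2.getD i.unpair.1 []) (p.2.getD i.unpair.2 [])) := by
    refine (Primrec.list_map (f := fun x : (ℕ × ℕ) × ℕ × List W => List.range (x.1.2 + 1))
      (g := fun (x : (ℕ × ℕ) × ℕ × List W) i =>
        cmW (x.2.2.getD i.unpair.1 []) (x.2.2.getD i.unpair.2 []))
      (Primrec.list_range.comp (Primrec.succ.comp (Primrec.snd.comp Primrec.fst))) ?_).to₂
    have h2 : Primrec (fun y : ((ℕ × ℕ) × ℕ × List W) × ℕ => y.1.2.2) :=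
      Primrec.snd.comp (Primrec.snd.comp Primrec.fst)
    have h3 : Primrec (fun y : ((ℕ × ℕ) × ℕ × List W) × ℕ => y.2.unpair.1) :=
      Primrec.fst.comp (Primrec.unpair.comp Primrec.snd)
    have h4 : Primrec (fun y : ((ℕ × ℕ) × ℕ × List W) × ℕ => y.2.unpair.2) :=
      Primrec.snd.comp (Primrec.unpair.comp Primrec.snd)
    exact (primrec_cmW.comp ((Primrec.list_getD []).comp h2 h3)
      ((Primrec.list_getD []).comp h2 h4)).to₂
  have h2 : Primrec (fun q : ℕ × ℕ => tab q.2 q.1) :=
    Primrec.nat_rec' (f := fun q : ℕ × ℕ => q.1)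
      (g := fun q : ℕ × ℕ => (List.range (q.2 + 1)).map fun i => (decode i : Option W).getD [])
      Primrec.fst h0 h1
  have h3 : Primrec (fun q : ℕ × ℕ => (tab q.2 q.1).getD q.2 []) :=
    (Primrec.list_getD []).comp h2 Primrec.snd
  have h4 : ∀ q : ℕ × ℕ, (tab q.2 q.1).getD q.2 [] = D q.1 q.2 := by
    rintro ⟨a, b⟩
    show (tab b a).getD b [] = D a b
    rw [tab_eq, List.getD_eq_getElem _ _ (by simp)]
    simp
  exact (h3.of_eq h4).to₂

/-- a conjugated relator -/
def cj (L : List W) (x : W × ℕ × Bool) : W :=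
  x.1 ++ (bif x.2.2 then L.getD x.2.1 [] else FreeGroup.invRev (L.getD x.2.1 [])) ++
    FreeGroup.invRev x.1

/-- product of conjugated relators -/
def prodW (L : List W) (c : List (W × ℕ × Bool)) : W :=
  c.foldr (fun x acc => cj L x ++ acc) []

lemma primrec_prodW : Primrec₂ prodW := by
  have h1 : Primrec₂ cj := by
    have h2 : Primrec (fun q : List W × W × ℕ × Bool => q.1.getD q.2.2.1 []) :=
      (Primrec.list_getD []).comp Primrec.fst (Primrec.fst.comp (Primrec.snd.comp Primrec.snd))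
    exact (Primrec.list_append.comp (Primrec.list_append.comp (Primrec.fst.comp Primrec.snd)
      (Primrec.cond (Primrec.snd.comp (Primrec.snd.comp Primrec.snd)) h2
        (primrec_invRev.comp h2))) (primrec_invRev.comp (Primrec.fst.comp Primrec.snd))).to₂
  have h3 : Primrec₂ (fun (q : List W × List (W × ℕ × Bool)) (p : (W × ℕ × Bool) × W) =>
      cj q.1 p.1 ++ p.2) :=
    (Primrec.list_append.comp (h1.comp (Primrec.fst.comp Primrec.fst)
      (Primrec.fst.comp Primrec.snd)) (Primrec.snd.comp Primrec.snd)).to₂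
  exact (Primrec.list_foldr (f := fun q : List W × List (W × ℕ × Bool) => q.2)
    (g := fun _ : List W × List (W × ℕ × Bool) => ([] : W)) Primrec.snd (Primrec.const []) h3).to₂

/-- all letters are below `n` -/
def Ok (n : ℕ) (w : W) : Prop := ∀ x ∈ w, x.1 < n

lemma primrec_Ok : PrimrecRel (fun (w : W) (n : ℕ) => Ok n w) := by
  have h : PrimrecRel (fun (x : ℕ × Bool) (n : ℕ) => x.1 < n) :=
    Primrec.nat_lt.comp (Primrec.fst.comp Primrec.fst) Primrec.snd
  exact h.forall_mem_list

lemma primrec_Okl : PrimrecRel (fun (L : List W) (n : ℕ) => ∀ w ∈ L, Ok n w) :=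
  primrec_Ok.forall_mem_list

/-- the matrix of the `Σ₃` definition -/
def Rel (q : ℕ × ℕ × ℕ × ℕ) : Prop :=
  ∃ L : List W, decode q.1.unpair.2 = some L ∧ (∀ w ∈ L, Ok q.1.unpair.1 w) ∧
    (Ok q.1.unpair.1 (D q.2.1 q.2.2.1) →
      FreeGroup.reduce (D q.2.1 q.2.2.1) =
        FreeGroup.reduce (prodW L ((decode q.2.2.2 : Option (List (W × ℕ × Bool))).getD [])))

lemma computable_Rel : ComputablePred Rel := by
  classical
  have hL : Primrec (fun q : ℕ × ℕ × ℕ × ℕ => (decode q.1.unpair.2 : Option (List W))) :=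
    Primrec.decode.comp (Primrec.snd.comp (Primrec.unpair.comp Primrec.fst))
  have hL' : Primrec (fun q : ℕ × ℕ × ℕ × ℕ => (decode q.1.unpair.2 : Option (List W)).getD []) :=
    Primrec.option_getD.comp hL (Primrec.const [])
  have hn : Primrec (fun q : ℕ × ℕ × ℕ × ℕ => q.1.unpair.1) :=
    Primrec.fst.comp (Primrec.unpair.comp Primrec.fst)
  have hD : Primrec (fun q : ℕ × ℕ × ℕ × ℕ => D q.2.1 q.2.2.1) :=
    primrec_D.comp (Primrec.fst.comp Primrec.snd) (Primrec.fst.comp (Primrec.snd.comp Primrec.snd))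
  have hc : Primrec (fun q : ℕ × ℕ × ℕ × ℕ =>
      (decode q.2.2.2 : Option (List (W × ℕ × Bool))).getD []) :=
    Primrec.option_getD.comp (Primrec.decode.comp (Primrec.snd.comp (Primrec.snd.comp Primrec.snd)))
      (Primrec.const [])
  have h1 : PrimrecPred (fun q : ℕ × ℕ × ℕ × ℕ =>
      (decode q.1.unpair.2 : Option (List W)) ≠ none) :=
    (Primrec.eq.comp hL (Primrec.const none)).not
  have h2 : PrimrecPred (fun q : ℕ × ℕ × ℕ × ℕ =>
      ∀ w ∈ (decode q.1.unpair.2 : Option (List W)).getD [], Ok q.1.unpair.1 w) :=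
    primrec_Okl.comp hL' hn
  have h3 : PrimrecPred (fun q : ℕ × ℕ × ℕ × ℕ => Ok q.1.unpair.1 (D q.2.1 q.2.2.1)) :=
    primrec_Ok.comp hD hn
  have h4 : PrimrecPred (fun q : ℕ × ℕ × ℕ × ℕ =>
      FreeGroup.reduce (D q.2.1 q.2.2.1) =
        FreeGroup.reduce (prodW ((decode q.1.unpair.2 : Option (List W)).getD [])
          ((decode q.2.2.2 : Option (List (W × ℕ × Bool))).getD []))) :=
    Primrec.eq.comp (primrec_reduce.comp hD) (primrec_reduce.comp (primrec_prodW.comp hL' hc))
  have h5 := (h1.and (h2.and (h3.not.or h4)))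
  obtain ⟨_, h5⟩ := h5
  refine ⟨inferInstance, h5.to_comp.of_eq fun q => ?_⟩
  rw [decide_eq_decide]
  unfold Rel
  constructor
  · rintro ⟨e1, e2, e3⟩
    obtain ⟨L, hL⟩ := Option.ne_none_iff_exists'.1 e1
    rw [hL, Option.getD_some] at e2 e3
    refine ⟨L, hL, e2, fun h => ?_⟩
    rcases e3 with e3 | e3
    · exact absurd h e3
    · exact e3
  · rintro ⟨L, hL, e2, e3⟩
    rw [hL, Option.getD_some]
    refine ⟨by simp, e2, ?_⟩
    by_cases h : Ok q.1.unpair.1 (D q.2.1 q.2.2.1)
    · exact Or.inr (e3 h)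
    · exact Or.inl h

/-! ### decoding -/

/-- embedding of words -/
def emb (n : ℕ) (w : List (Fin n × Bool)) : W := w.map fun x => (x.1.val, x.2)

lemma dec_list {α β : Type} [Encodable α] [Encodable β] (f : α → β) (P : β → Prop)
    (H : ∀ m y, (∃ x, (decode m : Option α) = some x ∧ f x = y) ↔
      ((decode m : Option β) = some y ∧ P y)) :
    ∀ m l, (∃ x, (decode m : Option (List α)) = some x ∧ x.map f = l) ↔
      ((decode m : Option (List β)) = some l ∧ ∀ y ∈ l, P y) := by
  intro m
  induction m using Nat.strong_induction_on with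
  | _ m ih =>
    intro l
    rcases m with _ | v
    · rw [decode_list_zero, decode_list_zero]
      constructor
      · rintro ⟨x, hx, rfl⟩
        obtain rfl : [] = x := by simpa using hx
        simp
      · rintro ⟨hx, _⟩
        obtain rfl : [] = l := by simpa using hx
        exact ⟨[], rfl, rfl⟩
    · rw [decode_list_succ, decode_list_succ]
      have hlt : v.unpair.2 < v + 1 := Nat.lt_succ_of_le (Nat.unpair_right_le v)
      have h1 := H v.unpair.1
      have h2 := ih _ hlt
      constructor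
      · rintro ⟨x, hx, rfl⟩
        rcases e1 : (decode v.unpair.1 : Option α) with _ | a
        · rw [e1] at hx
          simp [Seq.seq] at hx
        rcases e2 : (decode v.unpair.2 : Option (List α)) with _ | t
        · rw [e1, e2] at hx
          simp [Seq.seq] at hx
        rw [e1, e2] at hx
        obtain rfl : a :: t = x := by simpa [Seq.seq] using hx
        obtain ⟨e3, e4⟩ := (h1 (f a)).1 ⟨a, e1, rfl⟩
        obtain ⟨e5, e6⟩ := (h2 (t.map f)).1 ⟨t, e2, rfl⟩
        rw [e3, e5]
        refine ⟨by simp [Seq.seq], ?_⟩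
        intro y hy
        rw [List.map_cons] at hy
        rcases List.mem_cons.1 hy with rfl | hy
        · exact e4
        · exact e6 y hy
      · rintro ⟨hx, hP⟩
        rcases e1 : (decode v.unpair.1 : Option β) with _ | a
        · rw [e1] at hx
          simp [Seq.seq] at hx
        rcases e2 : (decode v.unpair.2 : Option (List β)) with _ | t
        · rw [e1, e2] at hx
          simp [Seq.seq] at hx
        rw [e1, e2] at hx
        obtain rfl : a :: t = l := by simpa [Seq.seq] using hx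
        obtain ⟨x, e3, e4⟩ := (h1 a).2 ⟨e1, hP a (by simp)⟩
        obtain ⟨s, e5, e6⟩ := (h2 t).2 ⟨e2, fun y hy => hP y (by simp [hy])⟩
        refine ⟨x :: s, ?_, by simp [e4, e6]⟩
        rw [e3, e5]
        simp [Seq.seq]

lemma dec_letter (n m : ℕ) (y : ℕ × Bool) :
    (∃ x : Fin n × Bool, (decode m : Option (Fin n × Bool)) = some x ∧ (x.1.val, x.2) = y) ↔
      ((decode m : Option (ℕ × Bool)) = some y ∧ y.1 < n) := by
  have key : ∀ v : ℕ, (decode v : Option (Fin n)) = if h : v < n then some ⟨v, h⟩ else none := by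
    intro v
    refine (decode_ofEquiv (α := {m : ℕ // m < n}) Fin.equivSubtype v).trans ?_
    show (decodeSubtype v : Option {m : ℕ // m < n}).map _ = _
    unfold decodeSubtype
    rw [decode_nat]
    by_cases h : v < n
    · simp [h, Fin.equivSubtype]
    · simp [h]
  rw [decode_prod_val, decode_prod_val, decode_nat, key]
  obtain ⟨i, c⟩ := y
  by_cases h : m.unpair.1 < n
  · rw [dif_pos h]
    rcases e : (decode m.unpair.2 : Option Bool) with _ | d
    · simp
    · simp only [Option.bind_some, Option.map_some, Option.some.injEq, Prod.mk.injEq]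
      constructor
      · rintro ⟨x, rfl, h1, h2⟩
        simp only at h1 h2
        subst h1 h2
        exact ⟨⟨rfl, rfl⟩, h⟩
      · rintro ⟨⟨h1, h2⟩, h3⟩
        exact ⟨_, rfl, h1, h2⟩
  · rw [dif_neg h]
    rcases e : (decode m.unpair.2 : Option Bool) with _ | d
    · simp
    · simp only [Option.bind_some, Option.map_some, Option.some.injEq, Prod.mk.injEq,
        Option.bind_none, reduceCtorEq, false_and, exists_false, false_iff, not_and, and_imp]
      rintro rfl _
      exact h

lemma dec_rels (n m : ℕ) (L : List W) :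
    (∃ L₀ : List (List (Fin n × Bool)), decode m = some L₀ ∧ L₀.map (emb n) = L) ↔
      (decode m = some L ∧ ∀ w ∈ L, Ok n w) := by
  have h1 := dec_list (fun x : Fin n × Bool => (x.1.val, x.2)) (fun y => y.1 < n) (dec_letter n)
  exact dec_list (emb n) (Ok n) h1 m L

lemma dec_code (k : ℕ) (P : (Σ n : ℕ, List (List (Fin n × Bool))) → Prop) :
    (∃ p : (Σ n : ℕ, List (List (Fin n × Bool))), decode k = some p ∧ P p) ↔
      ∃ L₀ : List (List (Fin k.unpair.1 × Bool)), decode k.unpair.2 = some L₀ ∧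
        P ⟨k.unpair.1, L₀⟩ := by
  rw [decode_sigma_val, decode_nat]
  constructor
  · rintro ⟨p, h1, h2⟩
    rcases e : (decode k.unpair.2 : Option (List (List (Fin k.unpair.1 × Bool)))) with _ | L₀
    · simp [e] at h1
    · obtain rfl : (⟨k.unpair.1, L₀⟩ : Σ n : ℕ, List (List (Fin n × Bool))) = p := by
        simpa [e] using h1
      exact ⟨L₀, rfl, h2⟩
  · rintro ⟨L₀, h1, h2⟩
    exact ⟨_, by simp [h1], h2⟩

/-! ### derived series and commutators -/

section
variable {G : Type*} [Group G]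

open scoped commutatorElement

lemma comm_closure_le (V U : Set G) (hU : ∀ g : G, ∀ x ∈ U, g * x * g⁻¹ ∈ U)
    (h : ∀ x ∈ V, ∀ y ∈ V, ⁅x, y⁆ ∈ U) :
    ⁅Subgroup.closure V, Subgroup.closure V⁆ ≤ Subgroup.closure U := by
  have hN : (Subgroup.closure U).Normal := by
    refine ⟨fun x hx g => ?_⟩
    induction hx using Subgroup.closure_induction with
    | mem x hx => exact Subgroup.subset_closure (hU g x hx)
    | one => simp
    | mul x y _ _ h1 h2 =>
      have : g * (x * y) * g⁻¹ = (g * x * g⁻¹) * (g * y * g⁻¹) := by group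
      rw [this]
      exact mul_mem h1 h2
    | inv x _ h1 =>
      have : g * x⁻¹ * g⁻¹ = (g * x * g⁻¹)⁻¹ := by group
      rw [this]
      exact inv_mem h1
  let q := QuotientGroup.mk' (Subgroup.closure U)
  have hq : ∀ x y : G, ⁅x, y⁆ ∈ Subgroup.closure U ↔ Commute (q x) (q y) := by
    intro x y
    rw [← commutatorElement_eq_one_iff_commute, ← map_commutatorElement]
    exact (QuotientGroup.eq_one_iff _).symm
  rw [Subgroup.commutator_le]
  have h1 : ∀ x ∈ Subgroup.closure V, ∀ y ∈ V, Commute (q x) (q y) := by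
    intro x hx y hy
    induction hx using Subgroup.closure_induction with
    | mem x hx => exact (hq x y).1 (Subgroup.subset_closure (h x hx y hy))
    | one => rw [map_one]; exact Commute.one_left _
    | mul x x' _ _ h1 h2 => rw [map_mul]; exact h1.mul_left h2
    | inv x _ h1 => rw [map_inv]; exact h1.inv_left
  intro x hx y hy
  rw [hq]
  induction hy using Subgroup.closure_induction with
  | mem y hy => exact h1 x hx y hy
  | one => rw [map_one]; exact Commute.one_right _
  | mul y y' _ _ h1 h2 => rw [map_mul]; exact h1.mul_right h2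
  | inv y _ h1 => rw [map_inv]; exact h1.inv_right

lemma derivedSeries_le_closure (V : ℕ → Set G) (h0 : V 0 = Set.univ)
    (hs : ∀ a x, x ∈ V (a + 1) ↔ ∃ y ∈ V a, ∃ z ∈ V a, ⁅y, z⁆ = x) (a : ℕ) :
    derivedSeries G a ≤ Subgroup.closure (V a) := by
  have hconj : ∀ a, ∀ g : G, ∀ x ∈ V a, g * x * g⁻¹ ∈ V a := by
    intro a
    induction a with
    | zero => intro g x _; rw [h0]; trivial
    | succ a ih =>
      intro g x hx
      obtain ⟨y, hy, z, hz, rfl⟩ := (hs a x).1 hx
      refine (hs a _).2 ⟨_, ih g y hy, _, ih g z hz, ?_⟩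
      simp only [commutatorElement_def]
      group
  induction a with
  | zero => rw [h0, Subgroup.closure_univ]; exact le_top
  | succ a ih =>
    rw [derivedSeries_succ]
    refine (Subgroup.commutator_mono ih ih).trans ?_
    exact comm_closure_le _ _ (hconj (a + 1)) fun x hx y hy => (hs a _).2 ⟨x, hx, y, hy, rfl⟩

end

/-! ### words and presented groups -/

section
variable {n : ℕ} {G : Type*} [Group G]

open scoped commutatorElement

lemma ok_emb (w : List (Fin n × Bool)) : Ok n (emb n w) := by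
  intro x hx
  obtain ⟨y, _, rfl⟩ := List.mem_map.1 hx
  exact y.1.2

lemma exists_emb {w : W} (h : Ok n w) : ∃ w₀, emb n w₀ = w := by
  induction w with
  | nil => exact ⟨[], rfl⟩
  | cons x w ih =>
    obtain ⟨w₀, rfl⟩ := ih fun y hy => h y (List.mem_cons_of_mem _ hy)
    exact ⟨(⟨x.1, h x (by simp)⟩, x.2) :: w₀, rfl⟩

/-- evaluation of words over the countable alphabet -/
noncomputable def ev (f : FreeGroup (Fin n) →* G) : FreeGroup ℕ →* G :=
  FreeGroup.lift fun i => if h : i < n then f (FreeGroup.of ⟨i, h⟩) else 1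

lemma ev_map (f : FreeGroup (Fin n) →* G) (x : FreeGroup (Fin n)) :
    ev f (FreeGroup.map Fin.val x) = f x := by
  have : (ev f).comp (FreeGroup.map Fin.val) = f := by
    ext i
    simp [ev, i.2]
  exact DFunLike.congr_fun this x

lemma mk_emb (w : List (Fin n × Bool)) :
    FreeGroup.mk (emb n w) = FreeGroup.map Fin.val (FreeGroup.mk w) := by
  rw [FreeGroup.map.mk]
  rfl

lemma ev_emb (f : FreeGroup (Fin n) →* G) (w : List (Fin n × Bool)) :
    ev f (FreeGroup.mk (emb n w)) = f (FreeGroup.mk w) := by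
  rw [mk_emb, ev_map]

lemma mk_cmW (u v : W) : FreeGroup.mk (cmW u v) = ⁅FreeGroup.mk u, FreeGroup.mk v⁆ := by
  rw [commutatorElement_def, FreeGroup.inv_mk, FreeGroup.inv_mk, FreeGroup.mul_mk,
    FreeGroup.mul_mk, FreeGroup.mul_mk]
  rfl

lemma mk_cj (L : List W) (x : W × ℕ × Bool) :
    FreeGroup.mk (cj L x) = FreeGroup.mk x.1 *
      (bif x.2.2 then FreeGroup.mk (L.getD x.2.1 []) else (FreeGroup.mk (L.getD x.2.1 []))⁻¹) *
      (FreeGroup.mk x.1)⁻¹ := by
  obtain ⟨u, j, c⟩ := x
  cases c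
  · simp only [cj, cond_false]
    rw [FreeGroup.inv_mk, FreeGroup.inv_mk, FreeGroup.mul_mk, FreeGroup.mul_mk]
  · simp only [cj, cond_true]
    rw [FreeGroup.inv_mk, FreeGroup.mul_mk, FreeGroup.mul_mk]

lemma mk_prodW_cons (L : List W) (x : W × ℕ × Bool) (c : List (W × ℕ × Bool)) :
    FreeGroup.mk (prodW L (x :: c)) = FreeGroup.mk (cj L x) * FreeGroup.mk (prodW L c) := by
  rw [FreeGroup.mul_mk]
  rfl

lemma sound (L₀ : List (List (Fin n × Bool))) (f : FreeGroup (Fin n) →* G)
    (hf : ∀ w ∈ L₀, f (FreeGroup.mk w) = 1) (c : List (W × ℕ × Bool)) :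
    ev f (FreeGroup.mk (prodW (L₀.map (emb n)) c)) = 1 := by
  have hr : ∀ j, ev f (FreeGroup.mk ((L₀.map (emb n)).getD j [])) = 1 := by
    intro j
    by_cases h : j < (L₀.map (emb n)).length
    · rw [List.getD_eq_getElem _ _ h, List.getElem_map, ev_emb]
      exact hf _ (List.getElem_mem _)
    · rw [List.getD_eq_default _ _ (by omega), ← FreeGroup.one_eq_mk, map_one]
  induction c with
  | nil =>
    have : FreeGroup.mk (prodW (L₀.map (emb n)) []) = 1 := rfl
    rw [this, map_one]
  | cons x c ih =>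
    rw [mk_prodW_cons, map_mul, ih, mul_one, mk_cj, map_mul, map_mul, map_inv]
    have hb : ev f (bif x.2.2 then FreeGroup.mk ((L₀.map (emb n)).getD x.2.1 [])
        else (FreeGroup.mk ((L₀.map (emb n)).getD x.2.1 []))⁻¹) = 1 := by
      cases x.2.2
      · rw [cond_false, map_inv, hr, inv_one]
      · rw [cond_true, hr]
    rw [hb, mul_one, mul_inv_cancel]

lemma complete (L₀ : List (List (Fin n × Bool))) (x : FreeGroup (Fin n))
    (hx : x ∈ Subgroup.normalClosure {x : FreeGroup (Fin n) | ∃ w ∈ L₀, FreeGroup.mk w = x}) :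
    ∃ c : List (W × ℕ × Bool),
      FreeGroup.map Fin.val x = FreeGroup.mk (prodW (L₀.map (emb n)) c) := by
  have hgen : ∀ y ∈ Group.conjugatesOfSet {x : FreeGroup (Fin n) | ∃ w ∈ L₀, FreeGroup.mk w = x},
      ∃ u : W, ∃ j : ℕ, FreeGroup.map Fin.val y =
        FreeGroup.mk u * FreeGroup.mk ((L₀.map (emb n)).getD j []) * (FreeGroup.mk u)⁻¹ := by
    intro y hy
    obtain ⟨r, ⟨w, hw, rfl⟩, hr⟩ := Group.mem_conjugatesOfSet_iff.1 hy
    obtain ⟨g, rfl⟩ := isConj_iff.1 hr
    obtain ⟨j, hj, rfl⟩ := List.getElem_of_mem hw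
    refine ⟨(FreeGroup.map Fin.val g).toWord, j, ?_⟩
    rw [List.getD_eq_getElem _ _ (by simpa using hj), List.getElem_map, mk_emb,
      FreeGroup.mk_toWord, map_mul, map_mul, map_inv]
  unfold Subgroup.normalClosure at hx
  induction hx using Subgroup.closure_induction_left with
  | one => exact ⟨[], by rw [map_one]; rfl⟩
  | mul_left y hy z _ ih =>
    obtain ⟨c, hc⟩ := ih
    obtain ⟨u, j, h⟩ := hgen y hy
    refine ⟨(u, j, true) :: c, ?_⟩
    rw [map_mul, hc, h, mk_prodW_cons, mk_cj]
    rfl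
  | inv_mul_cancel y hy z _ ih =>
    obtain ⟨c, hc⟩ := ih
    obtain ⟨u, j, h⟩ := hgen y hy
    refine ⟨(u, j, false) :: c, ?_⟩
    rw [map_mul, map_inv, hc, h, mk_prodW_cons, mk_cj]
    simp only [cond_false]
    group

lemma D_mem (f : FreeGroup (Fin n) →* G) (a b : ℕ) :
    ev f (FreeGroup.mk (D a b)) ∈ derivedSeries G a := by
  induction a generalizing b with
  | zero => exact Subgroup.mem_top _
  | succ a ih =>
    rw [derivedSeries_succ]
    show ev f (FreeGroup.mk (cmW _ _)) ∈ _
    rw [mk_cmW, map_commutatorElement]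
    exact Subgroup.commutator_mem_commutator (ih _) (ih _)

lemma Ok.append {u v : W} : Ok n (u ++ v) ↔ Ok n u ∧ Ok n v := by
  simp only [Ok, List.mem_append]
  constructor
  · intro h
    exact ⟨fun x hx => h x (Or.inl hx), fun x hx => h x (Or.inr hx)⟩
  · rintro ⟨h1, h2⟩ x (hx | hx)
    · exact h1 x hx
    · exact h2 x hx

lemma Ok.invRev {u : W} : Ok n (FreeGroup.invRev u) ↔ Ok n u := by
  simp only [Ok, FreeGroup.invRev, List.mem_reverse, List.mem_map]
  constructor
  · intro h x hx
    exact h (x.1, !x.2) ⟨x, hx, rfl⟩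
  · rintro h _ ⟨x, hx, rfl⟩
    exact h x hx

lemma Ok.cmW {u v : W} : Ok n (cmW u v) ↔ Ok n u ∧ Ok n v := by
  unfold Upper.cmW
  rw [Ok.append, Ok.append, Ok.append, Ok.invRev, Ok.invRev]
  tauto

lemma derived_eq_bot (f : FreeGroup (Fin n) →* G) (hf : Function.Surjective f) (a : ℕ)
    (h : ∀ b, Ok n (D a b) → ev f (FreeGroup.mk (D a b)) = 1) : derivedSeries G a = ⊥ := by
  have h1 := derivedSeries_le_closure
    (fun a => {x : G | ∃ b, Ok n (D a b) ∧ ev f (FreeGroup.mk (D a b)) = x}) ?_ ?_ a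
  · rw [eq_bot_iff]
    refine h1.trans ?_
    rw [Subgroup.closure_le]
    rintro _ ⟨b, hb, rfl⟩
    exact h b hb
  · ext x
    simp only [Set.mem_ofPred_eq, Set.mem_univ, iff_true]
    obtain ⟨y, rfl⟩ := hf x
    refine ⟨encode (emb n y.toWord), ?_⟩
    have : D 0 (encode (emb n y.toWord)) = emb n y.toWord := by
      show (decode (encode (emb n y.toWord)) : Option W).getD [] = _
      rw [encodek]
      rfl
    rw [this, ev_emb, FreeGroup.mk_toWord]
    exact ⟨ok_emb _, rfl⟩
  · intro a x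
    constructor
    · rintro ⟨b, h1, h2⟩
      have h3 : Ok n (cmW (D a b.unpair.1) (D a b.unpair.2)) := h1
      rw [Ok.cmW] at h3
      refine ⟨_, ⟨_, h3.1, rfl⟩, _, ⟨_, h3.2, rfl⟩, ?_⟩
      rw [← h2, ← map_commutatorElement, ← mk_cmW]
      rfl
    · rintro ⟨_, ⟨b1, h1, rfl⟩, _, ⟨b2, h2, rfl⟩, rfl⟩
      have e : D (a + 1) (Nat.pair b1 b2) = cmW (D a b1) (D a b2) := by
        show cmW (D a (Nat.pair b1 b2).unpair.1) (D a (Nat.pair b1 b2).unpair.2) = _
        rw [Nat.unpair_pair]
      refine ⟨Nat.pair b1 b2, ?_, ?_⟩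
      · rw [e, Ok.cmW]
        exact ⟨h1, h2⟩
      · rw [e, mk_cmW, map_commutatorElement]

lemma solvable_iff (L₀ : List (List (Fin n × Bool))) :
    IsSolvable (PresentedGroup {x : FreeGroup (Fin n) | ∃ w ∈ L₀, FreeGroup.mk w = x}) ↔
      ∃ a, ∀ b, Ok n (D a b) → ∃ c : List (W × ℕ × Bool),
        FreeGroup.reduce (D a b) = FreeGroup.reduce (prodW (L₀.map (emb n)) c) := by
  let rels : Set (FreeGroup (Fin n)) := {x : FreeGroup (Fin n) | ∃ w ∈ L₀, FreeGroup.mk w = x}
  let f : FreeGroup (Fin n) →* PresentedGroup rels := PresentedGroup.mk rels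
  have hf : Function.Surjective f := PresentedGroup.mk_surjective rels
  constructor
  · intro hs
    obtain ⟨a, ha⟩ := hs.solvable
    refine ⟨a, fun b hb => ?_⟩
    obtain ⟨w, hw⟩ := exists_emb hb
    have h1 := D_mem f a b
    rw [ha, Subgroup.mem_bot, ← hw, ev_emb] at h1
    have h2 : FreeGroup.mk w ∈ Subgroup.normalClosure rels :=
      (QuotientGroup.eq_one_iff _).1 h1
    obtain ⟨c, hc⟩ := complete L₀ _ h2
    rw [← mk_emb, hw] at hc
    exact ⟨c, FreeGroup.reduce.sound hc⟩
  · rintro ⟨a, ha⟩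
    refine ⟨⟨a, derived_eq_bot f hf a fun b hb => ?_⟩⟩
    obtain ⟨c, hc⟩ := ha b hb
    rw [FreeGroup.reduce.exact hc]
    refine sound L₀ f (fun w hw => ?_) c
    exact (QuotientGroup.eq_one_iff _).2 (Subgroup.subset_normalClosure ⟨w, hw, rfl⟩)

end

end Upper

open Upper in
theorem sol_sigma3 :
    (∃ R : ℕ × ℕ × ℕ × ℕ → Prop, ComputablePred R ∧ ∀ k : ℕ,
        (∃ p : (Σ n : ℕ, List (List (Fin n × Bool))), Encodable.decode k = some p ∧
          IsSolvable (PresentedGroup {x : FreeGroup (Fin p.1) | ∃ w ∈ p.2, FreeGroup.mk w = x}))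
        ↔ ∃ a : ℕ, ∀ b : ℕ, ∃ c : ℕ, R (k, a, b, c)) := by
  refine ⟨Rel, computable_Rel, fun k => ?_⟩
  rw [dec_code k (fun p => IsSolvable (PresentedGroup
    {x : FreeGroup (Fin p.1) | ∃ w ∈ p.2, FreeGroup.mk w = x}))]
  constructor
  · rintro ⟨L₀, h1, h2⟩
    obtain ⟨a, ha⟩ := (solvable_iff L₀).1 h2
    refine ⟨a, fun b => ?_⟩
    obtain ⟨h3, h4⟩ := (dec_rels k.unpair.1 k.unpair.2 (L₀.map (emb _))).1 ⟨L₀, h1, rfl⟩
    by_cases hb : Ok k.unpair.1 (D a b)
    · obtain ⟨c, hc⟩ := ha b hb
      refine ⟨Encodable.encode c, _, h3, h4, fun _ => ?_⟩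
      show _ = FreeGroup.reduce (prodW _
        ((Encodable.decode (Encodable.encode c) : Option (List (W × ℕ × Bool))).getD []))
      rw [Encodable.encodek]
      exact hc
    · exact ⟨0, _, h3, h4, fun h => absurd h hb⟩
  · rintro ⟨a, ha⟩
    obtain ⟨_, L, h3, h4, _⟩ := ha 0
    obtain ⟨L₀, h1, h2⟩ := (dec_rels k.unpair.1 k.unpair.2 L).2 ⟨h3, h4⟩
    refine ⟨L₀, h1, (solvable_iff L₀).2 ⟨a, fun b hb => ?_⟩⟩
    obtain ⟨c, L', h3', _, h5⟩ := ha b
    have hL : L' = L := by
      have h3'' : Encodable.decode k.unpair.2 = some L' := h3'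
      have h3''' : Encodable.decode k.unpair.2 = some L := h3
      rw [h3'''] at h3''
      exact (Option.some.inj h3'').symm
    rw [h2, ← hL]
    exact ⟨_, h5 hb⟩

end Pool.Agent.SolIndex
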