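import Mathlib
import Pool.Agent.SolIndex.Defs

/-!
WP12: the groups are finitely presented by words, uniformly, and the code of the presentation is
a computable function.
-/

set_option autoImplicit false

namespace Pool.Agent.SolIndex

deriving instance Fintype for Sy
deriving instance Fintype for Gn
deriving instance Fintype for Junc

set_option synthInstance.maxSize 2000 in
/-- all indices of relators -/
noncomputable instance {S ι ρ : Type} [DecidableEq ι] [Fintype ι] [Fintype S] [Fintype ρ] :
    Fintype (RelIx S ι ρ) := by
  classical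
  exact Fintype.ofEquiv _ (proxy_equiv% (RelIx S ι ρ))

theorem mk_replicate {α : Type*} (x : α) (F : ℕ) :
    FreeGroup.mk (List.replicate F (x, true)) = FreeGroup.of x ^ F := by
  induction F with
  | zero => rfl
  | succ n ih =>
    rw [List.replicate_succ, pow_succ', ← ih]
    rfl

/-- the group is finitely presented by words, uniformly in `F` -/
theorem exists_words {ι S ρ : Type} [DecidableEq ι] [Fintype ι] [Fintype S] [Fintype ρ]
    (rule : ρ → Rule S ι) :
    ∃ (n : ℕ) (x : Fin n) (L : List (List (Fin n × Bool))), ∀ F : ℕ,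
      Nonempty (Grp rule F ≃* PresentedGroup {r : FreeGroup (Fin n) |
        ∃ w ∈ List.replicate F (x, true) :: L, FreeGroup.mk w = r}) := by
  classical
  let e : Gn S ι ≃ Fin (Fintype.card (Gn S ι)) := Fintype.equivFin _
  let wd : RelIx S ι ρ → List (Fin (Fintype.card (Gn S ι)) × Bool) := fun r =>
    (FreeGroup.freeGroupCongr e
      ((sides rule FreeGroup.of r).1 * ((sides rule FreeGroup.of r).2)⁻¹)).toWord
  refine ⟨_, e (.lt (.x2 .nu)), (Finset.univ : Finset (RelIx S ι ρ)).toList.map wd, fun F => ?_⟩
  have h : {r : FreeGroup (Fin (Fintype.card (Gn S ι))) |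
        ∃ w ∈ List.replicate F (e (.lt (.x2 .nu)), true) ::
          (Finset.univ : Finset (RelIx S ι ρ)).toList.map wd, FreeGroup.mk w = r} =
      FreeGroup.freeGroupCongr e '' (insert (nuRel S ι F) (relators rule)) := by
    ext r
    rw [Set.image_insert_eq]
    constructor
    · rintro ⟨w, hw, rfl⟩
      rcases List.mem_cons.mp hw with rfl | hw
      · left
        rw [mk_replicate, nuRel, map_pow, FreeGroup.freeGroupCongr_apply, FreeGroup.map.of]
      · right
        obtain ⟨s, -, rfl⟩ := List.mem_map.mp hw
        refine ⟨_, ⟨s, rfl⟩, ?_⟩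
        rw [FreeGroup.mk_toWord]
    · rintro (rfl | ⟨_, ⟨s, rfl⟩, rfl⟩)
      · refine ⟨_, List.mem_cons_self, ?_⟩
        rw [mk_replicate, nuRel, map_pow, FreeGroup.freeGroupCongr_apply, FreeGroup.map.of]
      · refine ⟨wd s, List.mem_cons_of_mem _ (List.mem_map.mpr ⟨s, by simp, rfl⟩), ?_⟩
        rw [FreeGroup.mk_toWord]
  rw [h]
  exact ⟨PresentedGroup.equivPresentedGroup _ e⟩

/-- computability of the reduction -/
theorem code_computable (n : ℕ) (x : Fin n) (L : List (List (Fin n × Bool))) :
    Computable fun k : ℕ => (Encodable.encode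
      (⟨n, List.replicate (Nat.fermatNumber k) (x, true) :: L⟩ :
        (Σ n : ℕ, List (List (Fin n × Bool))))) := by
  have hpow : Primrec₂ (fun a b : ℕ => a ^ b) :=
    Primrec₂.unpaired'.1 Nat.Primrec.pow
  have hferm : Primrec Nat.fermatNumber := by
    have h1 : Primrec fun k : ℕ => 2 ^ (2 ^ k) + 1 :=
      Primrec.nat_add.comp (hpow.comp (Primrec.const 2) (hpow.comp (Primrec.const 2) Primrec.id))
        (Primrec.const 1)
    exact h1
  have hrep : Primrec fun m : ℕ => List.replicate m (x, true) := by
    have h1 : Primrec fun m : ℕ => (List.range m).map fun _ => (x, true) :=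
      Primrec.list_map Primrec.list_range (Primrec.const (x, true)).to₂
    refine h1.of_eq fun m => ?_
    rw [List.map_const', List.length_range]
  have hl : Primrec fun k : ℕ => List.replicate (Nat.fermatNumber k) (x, true) :: L :=
    Primrec.list_cons.comp (hrep.comp hferm) (Primrec.const L)
  have hp : Primrec fun k : ℕ => Nat.pair n
      (Encodable.encode (List.replicate (Nat.fermatNumber k) (x, true) :: L)) :=
    Primrec₂.natPair.comp (Primrec.const n) (Primrec.encode.comp hl)
  exact hp.to_comp

end Pool.Agent.SolIndex
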