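import Mathlib
import Pool.Agent.SolIndex.Core
import Pool.Agent.SolIndex.Present
import Pool.Agent.SolIndex.Low
import Pool.Agent.SolIndex.DeadPred
import Pool.Agent.SolIndex.Upper
import Pool.Agent.SolIndex.Chain
import Pool.Agent.SolIndex.UpData
import Pool.Agent.SolIndex.Machine
import Pool.Agent.SolIndex.Words

/-!
WP12 (helper64): assembly.
-/

set_option autoImplicit false

namespace Pool.Agent.SolIndex

open Turing.PartrecToTM2 (Γ')
open scoped commutatorElement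

variable {ι S ρ : Type} [DecidableEq ι]

/-- the upper part -/
theorem solvable_core [Fintype ι] (rule : ρ → Rule S ι) (F : ℕ) (H : S)
    (gtot ytot : (ι → List Γ') → ℕ) (Dead : ℕ → ℕ → Prop) (hM : Mach rule H gtot ytot Dead)
    (n₀ : ℕ) (hA : ∀ y, ¬ Dead F y → ∃ z, y ∣ 2 ^ z * 3 ^ n₀)
    (hB : ∀ g y, ¬ Dead g y → g = F ∨ Nat.Coprime g F) :
    IsSolvable (Grp rule F) := by
  obtain ⟨h1, h2⟩ := sat_gen rule F
  obtain ⟨xx, hU, hxx⟩ := exists_upData rule F (gen rule F) h1 h2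
  refine isSolvable_of_upData rule F _ xx hU ?_ n₀ ?_
  · rw [eq_top_iff, ← PresentedGroup.closure_range_of, Subgroup.closure_le]
    rintro _ ⟨g, rfl⟩
    apply Subgroup.subset_closure
    cases g with
    | lt l => exact Or.inl ⟨l, rfl⟩
    | sy g α β => exact Or.inr ⟨g, α, β, (hxx g α β).symm⟩
  · intro τ hτ
    exact core_up rule F τ hτ H gtot ytot Dead hM n₀ hA hB

/-- the lower part for a machine -/
theorem not_solvable_core [Fintype ι] [Finite S] [Finite ρ] (rule : ρ → Rule S ι) (F : ℕ) (H : S)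
    (gtot ytot : (ι → List Γ') → ℕ) (Dead : ℕ → ℕ → Prop) (hM : Mach rule H gtot ytot Dead)
    (hF : Odd F) (hF1 : 1 < F) (hA : ∀ n : ℕ, ∃ y, ¬ Dead F y ∧ 3 ^ n ∣ y) :
    ¬ IsSolvable (Grp rule F) := by
  apply low_core
  intro n
  obtain ⟨y, hy, hy3⟩ := hA (n + 1)
  have : NeZero ((F : ℕ) : ZMod 2) := ⟨by
    rw [Ne, ZMod.natCast_eq_zero_iff]
    exact fun h => (Nat.not_even_iff_odd.mpr hF) (even_iff_two_dvd.mpr h)⟩
  have : NeZero (((3 ^ (n + 1) : ℕ)) : ZMod 2) := ⟨by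
    rw [Ne, ZMod.natCast_eq_zero_iff]
    exact fun h => by
      have := Nat.Prime.dvd_of_dvd_pow Nat.prime_two h
      omega⟩
  obtain ⟨ζ, hζ⟩ := HasEnoughRootsOfUnity.exists_primitiveRoot (AlgebraicClosure (ZMod 2)) (3 ^ (n + 1))
  obtain ⟨η, hη⟩ := HasEnoughRootsOfUnity.exists_primitiveRoot (AlgebraicClosure (ZMod 2)) F
  have hκy : ∀ j : ℕ, (ζ ^ 3 ^ j) ^ y = 1 := by
    intro j
    obtain ⟨q, rfl⟩ := hy3
    rw [← pow_mul, show 3 ^ j * (3 ^ (n + 1) * q) = 3 ^ (n + 1) * (3 ^ j * q) by ring, pow_mul,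
      hζ.pow_eq_one, one_pow]
  choose Λ hΛ using fun j : ℕ => hM.pot (AlgebraicClosure (ZMod 2)) (ζ ^ 3 ^ j) η F y hy (hκy j)
    hη.pow_eq_one
  obtain ⟨w₀, hw1, hw2⟩ := hM.surj F y
  refine ⟨AlgebraicClosure (ZMod 2), inferInstance, inferInstance, fun j => ζ ^ 3 ^ j, η, Λ, H, w₀,
    ?_, ?_, ?_, ?_, ?_, hη.pow_eq_one, fun j _ => (hΛ j).1, fun j _ => ?_⟩
  · intro j
    show ζ ^ 3 ^ (j + 1) = (ζ ^ 3 ^ j) ^ 3
    rw [← pow_mul, ← pow_succ]
  · simpa using hζ.ne_zero (by positivity)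
  · intro h
    have := hζ.dvd_of_pow_eq_one _ h
    have h2 := Nat.le_of_dvd (by positivity) this
    exact absurd h2 (not_le.mpr (Nat.pow_lt_pow_right (by norm_num) (Nat.lt_succ_self n)))
  · exact hη.ne_zero (by omega)
  · exact hη.ne_one hF1
  · rw [(hΛ j).2 w₀ hw2 hw1]; exact one_ne_zero





theorem sol_hard :
    ∀ B : ℕ → Prop,
      (∃ R : ℕ × ℕ × ℕ × ℕ → Prop, ComputablePred R ∧
        ∀ k : ℕ, B k ↔ ∃ a : ℕ, ∀ b : ℕ, ∃ c : ℕ, R (k, a, b, c)) →
      ManyOneReducible B (fun k : ℕ =>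
        ∃ p : (Σ n : ℕ, List (List (Fin n × Bool))), Encodable.decode k = some p ∧
          IsSolvable (PresentedGroup {x : FreeGroup (Fin p.1) | ∃ w ∈ p.2, FreeGroup.mk w = x})) := by
  rintro B ⟨R, hR, hB⟩
  obtain ⟨Dead, hD, h1, h2, h3⟩ := exists_dead R hR
  obtain ⟨S, ρ, ι, _, _, _, _, rule, H, gtot, ytot, hM⟩ := exists_machine Dead hD
  obtain ⟨n, x, L, hL⟩ := exists_words rule
  refine ⟨_, code_computable n x L, fun k => ?_⟩
  obtain ⟨e⟩ := hL (Nat.fermatNumber k)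
  have hcop : ∀ g y, ¬ Dead g y →
      g = Nat.fermatNumber k ∨ Nat.Coprime g (Nat.fermatNumber k) := by
    intro g y hg
    obtain ⟨k', rfl⟩ := h1 g y hg
    by_cases hk : k' = k
    · exact Or.inl (by rw [hk])
    · exact Or.inr (Nat.coprime_fermatNumber_fermatNumber hk)
  have key : B k ↔ IsSolvable (Grp rule (Nat.fermatNumber k)) := by
    rw [hB k]
    constructor
    · intro h
      obtain ⟨n₀, hn₀⟩ := h2 k h
      exact solvable_core rule _ H gtot ytot Dead hM n₀ hn₀ hcop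
    · intro h
      by_contra hne
      exact not_solvable_core rule _ H gtot ytot Dead hM (Nat.odd_fermatNumber k)
        (by have := Nat.three_le_fermatNumber k; omega) (h3 k hne) h
  rw [key]
  simp only [Encodable.encodek, Option.some.injEq, exists_eq_left']
  constructor
  · intro h
    exact @Group.isSolvable_of_surjective _ _ _ _ e.toMonoidHom e.surjective h
  · intro h
    exact @Group.isSolvable_of_surjective _ _ _ _ e.symm.toMonoidHom e.symm.surjective h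

end Pool.Agent.SolIndex
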