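import Mathlib

/-!
# The machine of a block (MP_6facb1_lc, work package WP8)

For a code `c : ToPartrec.Code` we build a finite multi-stack machine with nine stacks over the
alphabet `Γ'` which, started at the hub state with stack totals `(y, g)`, can be brought to a kill
instruction iff `c.eval [2^g, 2^y]` is defined, and which never gets stuck.
-/

set_option autoImplicit false

namespace Pool.Agent.SolIndex.Blk

open Turing Turing.PartrecToTM2 Function

/-- Instructions of a multi-stack machine with states `S`, stacks `I`, symbols `Γ`. -/
inductive Instr (S I Γ : Type)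
  | jump (k n : ℕ) (b : S)
  | kill
  | push (s : I) (g : Γ) (b : S)
  | pop (s : I) (f : Option Γ → S)

set_option backward.isDefEq.respectTransparency false in
/-- The nine stacks. -/
inductive Idx
  | main | rev | aux | stack | Y | Y' | G | G' | Z
  deriving DecidableEq, Fintype

section General

variable {S I Γ : Type} [DecidableEq I]

/-- Effect of an instruction on stack contents: weights, new state, new contents; `none` means
the configuration is killed. -/
def Instr.exec (i : Instr S I Γ) (w : I → List Γ) : Option (ℕ × ℕ × S × (I → List Γ)) :=
  match i with
  | .jump k n b => some (k, n, b, w)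
  | .kill => none
  | .push s g b => some (0, 0, b, update w s (g :: w s))
  | .pop s f => some (0, 0, f (w s).head?, update w s (w s).tail)

@[simp] theorem Instr.exec_jump (k n : ℕ) (b : S) (w : I → List Γ) :
    (Instr.jump k n b : Instr S I Γ).exec w = some (k, n, b, w) := rfl
@[simp] theorem Instr.exec_kill (w : I → List Γ) :
    (Instr.kill : Instr S I Γ).exec w = none := rfl
@[simp] theorem Instr.exec_push (s : I) (g : Γ) (b : S) (w : I → List Γ) :
    (Instr.push s g b : Instr S I Γ).exec w = some (0, 0, b, update w s (g :: w s)) := rfl
@[simp] theorem Instr.exec_pop (s : I) (f : Option Γ → S) (w : I → List Γ) :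
    (Instr.pop s f : Instr S I Γ).exec w =
      some (0, 0, f (w s).head?, update w s (w s).tail) := rfl

/-- Runs (finite sequences of rule applications), with total weights. -/
inductive Run (rules : S → Instr S I Γ → Prop) :
    S → (I → List Γ) → ℕ → ℕ → S → (I → List Γ) → Prop
  | refl (a : S) (w : I → List Γ) : Run rules a w 0 0 a w
  | head {a : S} {w : I → List Γ} {i : Instr S I Γ} {k n : ℕ} {b : S} {w' : I → List Γ}
      {k' n' : ℕ} {c : S} {w'' : I → List Γ} :
      rules a i → i.exec w = some (k, n, b, w') → Run rules b w' k' n' c w'' →
      Run rules a w (k + k') (n + n') c w''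

/-- A configuration is killed if some run leads to a `kill` instruction. -/
def Killed (rules : S → Instr S I Γ → Prop) (a : S) (w : I → List Γ) : Prop :=
  ∃ (k n : ℕ) (b : S) (w' : I → List Γ), Run rules a w k n b w' ∧ rules b .kill

theorem Run.trans {rules : S → Instr S I Γ → Prop} {a : S} {w : I → List Γ} {k n : ℕ} {b : S}
    {w' : I → List Γ} (h : Run rules a w k n b w') :
    ∀ {k' n' : ℕ} {c : S} {w'' : I → List Γ}, Run rules b w' k' n' c w'' →
      Run rules a w (k + k') (n + n') c w'' := by
  induction h with
  | refl a w => intro k' n' c w'' h; simpa using h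
  | head h1 h2 h3 ih =>
    intro k' n' c w'' h
    have := Run.head h1 h2 (ih h)
    simpa [add_assoc] using this

theorem Run.mono {rules rules' : S → Instr S I Γ → Prop} (hr : ∀ a i, rules a i → rules' a i)
    {a : S} {w : I → List Γ} {k n : ℕ} {b : S} {w' : I → List Γ}
    (h : Run rules a w k n b w') : Run rules' a w k n b w' := by
  induction h with
  | refl a w => exact Run.refl a w
  | head h1 h2 h3 ih => exact Run.head (hr _ _ h1) h2 ih

theorem Run.single {rules : S → Instr S I Γ → Prop} {a : S} {w : I → List Γ} {i : Instr S I Γ}
    {k n : ℕ} {b : S} {w' : I → List Γ} (h1 : rules a i) (h2 : i.exec w = some (k, n, b, w')) :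
    Run rules a w k n b w' := by
  simpa using Run.head h1 h2 (Run.refl b w')

theorem Killed.of_run {rules : S → Instr S I Γ → Prop} {a : S} {w : I → List Γ} {k n : ℕ} {b : S}
    {w' : I → List Γ} (h : Run rules a w k n b w') (h' : Killed rules b w') :
    Killed rules a w := by
  obtain ⟨k', n', c, w'', h1, h2⟩ := h'
  exact ⟨_, _, c, w'', h.trans h1, h2⟩

theorem Killed.mono {rules rules' : S → Instr S I Γ → Prop} (hr : ∀ a i, rules a i → rules' a i)
    {a : S} {w : I → List Γ} (h : Killed rules a w) : Killed rules' a w := by
  obtain ⟨k', n', c, w'', h1, h2⟩ := h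
  exact ⟨_, _, c, w'', h1.mono hr, hr _ _ h2⟩

/-- Deterministic rules: every state except the hub has exactly one instruction. -/
def det (hub : S) (prog : S → Instr S I Γ) (a : S) (i : Instr S I Γ) : Prop :=
  a ≠ hub ∧ i = prog a

theorem det_run_unique' {hub : S} {prog : S → Instr S I Γ} {a : S} {w : I → List Γ} {k n : ℕ}
    {b : S} {w' : I → List Γ} (h : Run (det hub prog) a w k n b w') (hb : b = hub) :
    ∀ {k' n' : ℕ} {w'' : I → List Γ}, Run (det hub prog) a w k' n' hub w'' →
      k' = k ∧ n' = n ∧ w'' = w' := by
  induction h with
  | refl a w =>
    intro k' n' w'' h2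
    subst hb
    cases h2 with
    | refl => exact ⟨rfl, rfl, rfl⟩
    | head h1 _ _ => exact absurd rfl h1.1
  | @head a w i k n b w' k' n' c w'' h1 h2 h3 ih =>
    intro k2 n2 w2 h
    cases h with
    | refl => exact absurd rfl h1.1
    | head g1 g2 g3 =>
      rw [g1.2, ← h1.2, h2] at g2
      simp only [Option.some.injEq, Prod.mk.injEq] at g2
      obtain ⟨rfl, rfl, rfl, rfl⟩ := g2
      obtain ⟨rfl, rfl, rfl⟩ := ih hb g3
      exact ⟨rfl, rfl, rfl⟩

theorem det_run_unique {hub : S} {prog : S → Instr S I Γ} {a : S} {w : I → List Γ} {k n : ℕ}
    {w' : I → List Γ} (h : Run (det hub prog) a w k n hub w')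
    {k' n' : ℕ} {w'' : I → List Γ} (h' : Run (det hub prog) a w k' n' hub w'') :
    k' = k ∧ n' = n ∧ w'' = w' :=
  det_run_unique' h rfl h'

theorem det_killed_not {hub : S} {prog : S → Instr S I Γ} {a : S} {w : I → List Γ}
    (h : Killed (det hub prog) a w) : ∀ {k n : ℕ} {w' : I → List Γ},
    Run (det hub prog) a w k n hub w' → False := by
  obtain ⟨k1, n1, b, w1, hr, hk⟩ := h
  induction hr with
  | refl a w =>
    intro k n w' h'
    cases h' with
    | refl => exact hk.1 rfl
    | head g1 g2 g3 =>
      rw [g1.2, ← hk.2] at g2
      simp at g2
  | @head a w i k n b w' k' n' c w'' h1 h2 h3 ih =>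
    intro k n w' h'
    cases h' with
    | refl => exact h1.1 rfl
    | head g1 g2 g3 =>
      rw [g1.2, ← h1.2, h2] at g2
      simp only [Option.some.injEq, Prod.mk.injEq] at g2
      obtain ⟨rfl, rfl, rfl, rfl⟩ := g2
      exact ih hk g3

end General

section Loops

variable {S I Γ : Type} [DecidableEq I] {hub : S} {prog : S → Instr S I Γ}

theorem run_pop {a : S} {s : I} {f : Option Γ → S} (ha : a ≠ hub) (hp : prog a = .pop s f)
    (w : I → List Γ) :
    Run (det hub prog) a w 0 0 (f (w s).head?) (update w s (w s).tail) :=
  Run.single (i := .pop s f) ⟨ha, hp.symm⟩ rfl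

theorem run_push {a b : S} {s : I} {g : Γ} (ha : a ≠ hub) (hp : prog a = .push s g b)
    (w : I → List Γ) :
    Run (det hub prog) a w 0 0 b (update w s (g :: w s)) :=
  Run.single (i := .push s g b) ⟨ha, hp.symm⟩ rfl

theorem run_jump {a b : S} {k n : ℕ} (ha : a ≠ hub) (hp : prog a = .jump k n b)
    (w : I → List Γ) : Run (det hub prog) a w k n b w :=
  Run.single (i := .jump k n b) ⟨ha, hp.symm⟩ rfl

theorem loop_clear {a e : S} {s : I} (ha : a ≠ hub)
    (hp : prog a = .pop s (fun o => if o.isSome then a else e)) (w : I → List Γ) :
    Run (det hub prog) a w 0 0 e (update w s []) := by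
  generalize hl : w s = l
  induction l generalizing w with
  | nil =>
    have := run_pop ha hp w
    simpa [hl] using this
  | cons x l ih =>
    have h1 := run_pop ha hp w
    simp only [hl, List.head?_cons, Option.isSome_some, if_true, List.tail_cons] at h1
    have h2 := ih (update w s l) (by simp)
    rw [update_idem] at h2
    simpa using h1.trans h2

theorem update_noop {s t : I} (hst : s ≠ t) (w : I → List Γ) (l : List Γ) :
    update (update w s l) t (w t) = update w s l := by
  conv_lhs => rw [show w t = update w s l t from (update_of_ne hst.symm _ _).symm]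
  exact update_eq_self _ _

theorem loop_weight {a b c e : S} {s t : I} {g : Γ} {k n : ℕ} (ha : a ≠ hub) (hb : b ≠ hub)
    (hc : c ≠ hub) (hst : s ≠ t)
    (hpa : prog a = .pop s (fun o => if o.isSome then b else e))
    (hpb : prog b = .push t g c) (hpc : prog c = .jump k n a) (w : I → List Γ) :
    Run (det hub prog) a w ((w s).length * k) ((w s).length * n) e
      (update (update w s []) t (List.replicate (w s).length g ++ w t)) := by
  generalize hl : w s = l
  induction l generalizing w with
  | nil =>
    have := run_pop ha hpa w
    simpa [hl, update_noop hst] using this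
  | cons x l ih =>
    have h1 := run_pop ha hpa w
    simp only [hl, List.head?_cons, Option.isSome_some, if_true, List.tail_cons] at h1
    have h2 := run_push hb hpb (update w s l)
    have h3 := run_jump hc hpc (update (update w s l) t (g :: update w s l t))
    have h4 := ih (update (update w s l) t (g :: update w s l t))
      (by rw [update_of_ne hst, update_self])
    have h5 := ((h1.trans h2).trans h3).trans h4
    have e1 : (0 + 0 + k + l.length * k) = (x :: l).length * k := by
      simp [add_mul, add_comm]
    have e2 : (0 + 0 + n + l.length * n) = (x :: l).length * n := by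
      simp [add_mul, add_comm]
    rw [e1, e2] at h5
    convert h5 using 1
    funext i
    by_cases h : i = t
    · subst h
      simp only [update_self, update_of_ne hst.symm, List.length_cons, List.replicate_succ',
        List.append_assoc, List.cons_append, List.nil_append]
    · by_cases h' : i = s
      · subst h'
        simp [update_of_ne h]
      · simp [update_of_ne h, update_of_ne h']

theorem loop_move {a b e : S} {s t : I} {g : Γ} (ha : a ≠ hub) (hb : b ≠ hub) (hst : s ≠ t)
    (hpa : prog a = .pop s (fun o => if o.isSome then b else e))
    (hpb : prog b = .push t g a) (w : I → List Γ) :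
    Run (det hub prog) a w 0 0 e
      (update (update w s []) t (List.replicate (w s).length g ++ w t)) := by
  generalize hl : w s = l
  induction l generalizing w with
  | nil =>
    have := run_pop ha hpa w
    simpa [hl, update_noop hst] using this
  | cons x l ih =>
    have h1 := run_pop ha hpa w
    simp only [hl, List.head?_cons, Option.isSome_some, if_true, List.tail_cons] at h1
    have h2 := run_push hb hpb (update w s l)
    have h4 := ih (update (update w s l) t (g :: update w s l t))
      (by rw [update_of_ne hst, update_self])
    have h5 := (h1.trans h2).trans h4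
    convert h5 using 1
    funext i
    by_cases h : i = t
    · subst h
      simp only [update_self, update_of_ne hst.symm, List.length_cons, List.replicate_succ',
        List.append_assoc, List.cons_append, List.nil_append]
    · by_cases h' : i = s
      · subst h'
        simp [update_of_ne h]
      · simp [update_of_ne h, update_of_ne h']

theorem loop_move2 {a b c e : S} {s t u : I} {g x' : Γ} (ha : a ≠ hub) (hb : b ≠ hub)
    (hc : c ≠ hub) (hst : s ≠ t) (hsu : s ≠ u) (htu : t ≠ u)
    (hpa : prog a = .pop s (fun o => if o.isSome then b else e))
    (hpb : prog b = .push t g c) (hpc : prog c = .push u x' a) (w : I → List Γ) :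
    Run (det hub prog) a w 0 0 e
      (update (update (update w s []) t (List.replicate (w s).length g ++ w t)) u
        (List.replicate (w s).length x' ++ w u)) := by
  generalize hl : w s = l
  induction l generalizing w with
  | nil =>
    have := run_pop ha hpa w
    simpa [hl, update_noop hst, update_noop hsu] using this
  | cons x l ih =>
    have h1 := run_pop ha hpa w
    simp only [hl, List.head?_cons, Option.isSome_some, if_true, List.tail_cons] at h1
    have h2 := run_push hb hpb (update w s l)
    have h3 := run_push hc hpc (update (update w s l) t (g :: update w s l t))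
    have h4 := ih (w := update (update (update w s l) t (g :: update w s l t)) u
      (x' :: update (update w s l) t (g :: update w s l t) u))
      (by rw [update_of_ne hsu, update_of_ne hst, update_self])
    have h5 := ((h1.trans h2).trans h3).trans h4
    convert h5 using 1
    funext i
    by_cases h : i = t
    · subst h
      simp only [update_self, update_of_ne hst.symm, update_of_ne htu,
        List.length_cons, List.replicate_succ',
        List.append_assoc, List.cons_append, List.nil_append]
    · by_cases h' : i = s
      · subst h'
        simp [update_of_ne h, update_of_ne hsu]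
      · by_cases h'' : i = u
        · subst h''
          simp only [update_self, update_of_ne htu.symm, update_of_ne hsu.symm,
            List.length_cons, List.replicate_succ',
            List.append_assoc, List.cons_append, List.nil_append]
        · simp [update_of_ne h, update_of_ne h', update_of_ne h'']

end Loops

end Pool.Agent.SolIndex.Blk
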